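import Pool.Agent.Lib.MP_d439b2_co.F9.SpecH
import Pool.Agent.Lib.MP_d439b2_co.Size8

/-!
# MP_d439b2_co, F9/H1: the obstructions are excluded
-/

set_option autoImplicit false

namespace Pool.Agent.MPd439b2.F9

open Pool.Agent.MPd439b2

namespace h1Aux

/-- induced subgraphs are induced minors -/
theorem sub_minor {W V : Type} {H : SimpleGraph W} {G : SimpleGraph V} (h : IsIndSub H G) :
    IsIndMinor H G := by
  obtain ⟨f, hf, hadj⟩ := h
  refine ⟨fun w => {f w}, fun w => ?_, fun w w' hww => ?_, fun w w' _ => ?_⟩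
  · have : Subsingleton ({f w} : Set V) := ⟨fun a b => Subtype.ext (a.2.trans b.2.symm)⟩
    have : Nonempty ({f w} : Set V) := ⟨⟨f w, rfl⟩⟩
    constructor
    exact SimpleGraph.Preconnected.of_subsingleton
  · rw [Set.disjoint_singleton]
    exact fun h => hww (hf h)
  · rw [hadj]
    constructor
    · intro h
      exact ⟨f w, rfl, f w', rfl, h⟩
    · rintro ⟨x, hx, y, hy, h⟩
      rw [Set.mem_singleton_iff.1 hx, Set.mem_singleton_iff.1 hy] at h
      exact h

/-- no four-cycle in `tripods ι` -/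
theorem t4 {ι : Type} {a b c d : ι × Fin 3 × ℕ} (h1 : (tripods ι).Adj a b)
    (h2 : (tripods ι).Adj b c) (h3 : (tripods ι).Adj c d) (h4 : (tripods ι).Adj d a)
    (hac : a ≠ c) (hbd : b ≠ d) : False := by
  have e1 := Size8_tadj h1
  have e2 := Size8_tadj h2
  have e3 := Size8_tadj h3
  have e4 := Size8_tadj h4
  have l1 := a.2.1.isLt
  have l2 := b.2.1.isLt
  have l3 := c.2.1.isLt
  have l4 := d.2.1.isLt
  have e5 : a.2.1.val ≠ c.2.1.val ∨ a.2.2 ≠ c.2.2 := by
    by_contra hcon
    push Not at hcon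
    exact hac (Prod.ext (h1.2.1.trans h2.2.1) (Prod.ext (Fin.ext hcon.1) hcon.2))
  have e6 : b.2.1.val ≠ d.2.1.val ∨ b.2.2 ≠ d.2.2 := by
    by_contra hcon
    push Not at hcon
    exact hbd (Prod.ext (h2.2.1.trans h3.2.1) (Prod.ext (Fin.ext hcon.1) hcon.2))
  generalize a.2.1.val = a1 at *
  generalize a.2.2 = a2 at *
  generalize b.2.1.val = b1 at *
  generalize b.2.2 = b2 at *
  generalize c.2.1.val = c1 at *
  generalize c.2.2 = c2 at *
  generalize d.2.1.val = d1 at *
  generalize d.2.2 = d2 at *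
  clear h1 h2 h3 h4 hac hbd
  rcases e1 with ⟨e1, e1'⟩
  rcases e2 with ⟨e2, e2'⟩
  rcases e3 with ⟨e3, e3'⟩
  rcases e4 with ⟨e4, e4'⟩
  rcases e1' with e1' | e1' <;> rcases e2' with e2' | e2' <;> rcases e3' with e3' | e3' <;>
    rcases e4' with e4' | e4' <;> omega

/-- the middle pendant vertex of the net -/
theorem mid {la ra lc rc rx ly ry lz : ℝ} (hy : ly ≤ ry) (h1 : rx < ly) (h2 : ry < lz)
    (hax : la ≤ rx) (hcz : lz ≤ rc) (hca : lc ≤ ra)
    (hay : ¬ (la ≤ ry ∧ ly ≤ ra)) (hcy : ¬ (lc ≤ ry ∧ ly ≤ rc)) : False := by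
  have h3 : ra < ly := by
    by_contra h
    push Not at h
    exact hay ⟨by linarith, h⟩
  have h4 : ry < lc := by
    by_contra h
    push Not at h
    exact hcy ⟨h, by linarith⟩
  linarith

end h1Aux

open h1Aux in
theorem h1 : S_H1 := by
  intro W H hQS hA3 hSix hObs
  rcases hObs with h | h | h | h | h | h | h | h | h
  · -- `4 P_1`
    obtain ⟨f, hf, hadj⟩ := h
    refine hA3.2 ⟨fun i => f (Sum.inr i), fun i j hij => Sum.inr_injective (hf hij),
      fun i j h => ?_⟩
    exact (hadj (Sum.inr i) (Sum.inr j)).2 h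
  · -- `K_3 + 2 P_1`
    obtain ⟨f, hf, hadj⟩ := h
    obtain ⟨K, hK, hI, ι, g, hg, hgadj⟩ := hQS
    have hn : ∀ (i : Fin 3) (q : Fin 2), ¬ H.Adj (f (Sum.inl i)) (f (Sum.inr q)) := by
      intro i q h
      have := (hadj (Sum.inl i) (Sum.inr q)).2 h
      change i ∈ ((![∅, ∅] : Fin 2 → Finset (Fin 3)) q : Set (Fin 3)) at this
      fin_cases q <;> simp at this
    have hc : ∀ i j : Fin 3, i ≠ j → H.Adj (f (Sum.inl i)) (f (Sum.inl j)) := fun i j hij =>
      (hadj (Sum.inl i) (Sum.inl j)).1 hij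
    have key : ∀ i j : Fin 3, i ≠ j → f (Sum.inl i) ∈ K → f (Sum.inl j) ∈ K → False := by
      intro i j hij hi hj
      have hx : ∀ q, f (Sum.inr q) ∉ K := by
        intro q hq
        exact hn i q (hK _ hi _ hq fun h => by simpa using hf h)
      have e : ∀ (i : Fin 3) (q : Fin 2), f (Sum.inl i) ∈ K →
          (tripods ι).Adj (g (f (Sum.inl i))) (g (f (Sum.inr q))) := fun i q hi =>
        hgadj _ hi _ (hx q) (hn i q)
      refine t4 (e i 0 hi) (e j 0 hj).symm (e j 1 hj) (e i 1 hi).symm ?_ ?_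
      · intro h
        exact hij (Sum.inl_injective (hf (hg h)))
      · intro h
        have := Sum.inr_injective (hf (hg h))
        exact absurd this (by decide)
    have hor : ∀ i j : Fin 3, i ≠ j → f (Sum.inl i) ∈ K ∨ f (Sum.inl j) ∈ K := by
      intro i j hij
      by_contra h
      push Not at h
      exact hI _ h.1 _ h.2 (hc i j hij)
    rcases hor 0 1 (by decide) with h | h
    · rcases hor 1 2 (by decide) with h' | h'
      · exact key 0 1 (by decide) h h'
      · exact key 0 2 (by decide) h h'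
    · rcases hor 0 2 (by decide) with h' | h'
      · exact key 0 1 (by decide) h' h
      · exact key 1 2 (by decide) h h'
  · -- `K_4 + P_1`
    refine hSix (Or.inl (sub_minor ?_))
    have : KF 4 1 ![∅] = KA 4 1 ![∅] := by
      unfold KF
      congr 1
      funext q
      fin_cases q
      simp
    rwa [this] at h
  · -- the net
    obtain ⟨f, hf, hadj⟩ := h
    obtain ⟨⟨l, r, hlr, hint⟩, -⟩ := hA3
    have hne : ∀ u v, u ≠ v → f u ≠ f v := fun u v h h' => h (hf h')
    have hc : ∀ i j : Fin 3, i ≠ j → l (f (Sum.inl i)) ≤ r (f (Sum.inl j)) := fun i j hij =>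
      ((hint _ _ (hne _ _ (by simpa using hij))).1 ((hadj (Sum.inl i) (Sum.inl j)).1 hij)).1
    have hx : ∀ i : Fin 3, l (f (Sum.inl i)) ≤ r (f (Sum.inr i)) ∧
        l (f (Sum.inr i)) ≤ r (f (Sum.inl i)) := by
      intro i
      refine (hint _ _ (hne _ _ (by simp))).1 ((hadj (Sum.inl i) (Sum.inr i)).1 ?_)
      change i ∈ ((![{0}, {1}, {2}] : Fin 3 → Finset (Fin 3)) i : Set (Fin 3))
      fin_cases i <;> simp
    have hn : ∀ i j : Fin 3, i ≠ j → ¬ (l (f (Sum.inl i)) ≤ r (f (Sum.inr j)) ∧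
        l (f (Sum.inr j)) ≤ r (f (Sum.inl i))) := by
      intro i j hij h
      have h1 := (hint _ _ (hne (Sum.inl i) (Sum.inr j) (by simp))).2 h
      have h2 := (hadj (Sum.inl i) (Sum.inr j)).2 h1
      change i ∈ ((![{0}, {1}, {2}] : Fin 3 → Finset (Fin 3)) j : Set (Fin 3)) at h2
      fin_cases i <;> fin_cases j <;> simp_all
    have hd : ∀ i j : Fin 3, i ≠ j → r (f (Sum.inr i)) < l (f (Sum.inr j)) ∨
        r (f (Sum.inr j)) < l (f (Sum.inr i)) := by
      intro i j hij
      by_contra h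
      push Not at h
      have h1 := (hint _ _ (hne (Sum.inr i) (Sum.inr j) (by simpa using hij))).2 ⟨h.2, h.1⟩
      exact (hadj (Sum.inr i) (Sum.inr j)).2 h1
    have key : ∀ i j k : Fin 3, i ≠ j → j ≠ k → i ≠ k →
        r (f (Sum.inr i)) < l (f (Sum.inr j)) → r (f (Sum.inr j)) < l (f (Sum.inr k)) → False :=
      fun i j k hij hjk hik h1 h2 => mid (hlr _) h1 h2 (hx i).1 (hx k).2 (hc k i hik.symm)
        (hn i j hij) (hn k j hjk.symm)
    rcases hd 0 1 (by decide) with h | h <;> rcases hd 1 2 (by decide) with h' | h' <;>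
      rcases hd 0 2 (by decide) with h'' | h''
    · exact key 0 1 2 (by decide) (by decide) (by decide) h h'
    · exact key 0 1 2 (by decide) (by decide) (by decide) h h'
    · exact key 0 2 1 (by decide) (by decide) (by decide) h'' h'
    · exact key 2 0 1 (by decide) (by decide) (by decide) h'' h
    · exact key 1 0 2 (by decide) (by decide) (by decide) h h''
    · exact key 1 2 0 (by decide) (by decide) (by decide) h' h''
    · exact key 2 1 0 (by decide) (by decide) (by decide) h' h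
    · exact key 2 1 0 (by decide) (by decide) (by decide) h' h
  · refine hSix (Or.inr (Or.inr (Or.inr (Or.inl (sub_minor ?_)))))
    have : KF 3 3 ![∅, {0, 1}, {0, 2}] = KA 3 3 ![∅, {0, 1}, {0, 2}] := by
      unfold KF
      congr 1
      funext q
      fin_cases q <;> simp
    rwa [this] at h
  · refine hSix (Or.inr (Or.inr (Or.inr (Or.inr (Or.inl (sub_minor ?_))))))
    have : KF 3 3 ![{0}, {1, 2}, {1, 2}] = KA 3 3 ![{0}, {1, 2}, {1, 2}] := by
      unfold KF
      congr 1
      funext q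
      fin_cases q <;> simp
    rwa [this] at h
  · refine hSix (Or.inr (Or.inr (Or.inr (Or.inr (Or.inr (sub_minor ?_))))))
    have : KF 3 3 ![{0, 1}, {0, 2}, {1, 2}] = KA 3 3 ![{0, 1}, {0, 2}, {1, 2}] := by
      unfold KF
      congr 1
      funext q
      fin_cases q <;> simp
    rwa [this] at h
  · refine hSix (Or.inr (Or.inl (sub_minor ?_)))
    have : KF 5 1 ![{0}] = KA 5 1 ![{0}] := by
      unfold KF
      congr 1
      funext q
      fin_cases q
      simp
    rwa [this] at h
  · refine hSix (Or.inr (Or.inr (Or.inl (sub_minor ?_))))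
    have : KF 4 2 ![{0, 1}, {2, 3}] = KA 4 2 ![{0, 1}, {2, 3}] := by
      unfold KF
      congr 1
      funext q
      fin_cases q <;> simp
    rwa [this] at h

end Pool.Agent.MPd439b2.F9
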