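import Pool.Agent.Lib.MP_d439b2_co.F9.SpecH

/-!
# MP_d439b2_co, F9: H2, the representation as `K_m` with neighbourhoods (helper18)
-/

set_option autoImplicit false

namespace Pool.Agent.MPd439b2.F9

open Pool.Agent.MPd439b2

namespace H2Aux

variable {W : Type} {H : SimpleGraph W} {K : Set W}

/-- an injection of `Fin n` into a finite set with at least `n` elements -/
theorem exists_inj [Finite W] {S : Set W} {n : ℕ} (h : n ≤ S.ncard) :
    ∃ g : Fin n → W, Function.Injective g ∧ ∀ i, g i ∈ S := by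
  have h' : n ≤ Nat.card S := by rwa [Nat.card_coe_set_eq]
  refine ⟨fun i => ((Finite.equivFin S).symm (Fin.castLE h' i) : S), fun i j hij => ?_,
    fun i => Subtype.coe_prop _⟩
  have := (Finite.equivFin S).symm.injective (Subtype.coe_injective hij)
  exact Fin.castLE_injective h' this

/-- the independent side has at most three elements -/
theorem card_le_three [Finite W] (hI : ∀ u, u ∉ K → ∀ v, v ∉ K → ¬ H.Adj u v)
    (hO : ¬ IsIndSub (KF 0 4 ![∅, ∅, ∅, ∅]) H) : Nat.card (Kᶜ : Set W) ≤ 3 := by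
  by_contra hc
  rw [Nat.card_coe_set_eq] at hc
  obtain ⟨g, hg, hgm⟩ := exists_inj (S := Kᶜ) (n := 4) (by omega)
  refine hO ⟨fun w => Sum.elim (fun i : Fin 0 => i.elim0) g w, ?_, ?_⟩
  · rintro (u | u) (v | v) h
    · exact u.elim0
    · exact u.elim0
    · exact v.elim0
    · rw [hg h]
  · rintro (u | u) (v | v)
    · exact u.elim0
    · exact u.elim0
    · exact v.elim0
    · exact iff_of_false (fun h => h) (hI _ (hgm u) _ (hgm v))

/-- the clique has at most five elements -/
theorem card_le_five [Finite W] (hK : ∀ u ∈ K, ∀ v ∈ K, u ≠ v → H.Adj u v)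
    (hd : ∀ v, v ∉ K → (H.neighborSet v).encard ≤ 2) (h3 : Ind3 H)
    (hO : ¬ IsIndSub (KF 4 1 ![∅]) H) : Nat.card K ≤ 5 := by
  by_contra hc
  rw [Nat.card_coe_set_eq] at hc
  obtain ⟨x, hx⟩ : ∃ x, x ∉ K := by
    obtain ⟨a, b, -, hab, -, -, hn, -, -⟩ := h3
    by_contra h'
    push Not at h'
    exact hn (hK a (h' a) b (h' b) hab)
  have hN : (H.neighborSet x).ncard ≤ 2 := by
    have := hd x hx
    rw [← (Set.toFinite _).cast_ncard_eq] at this
    exact_mod_cast this
  have h4 : 4 ≤ (K \ H.neighborSet x).ncard := by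
    have h := Set.le_ncard_sdiff (H.neighborSet x) K
    omega
  obtain ⟨g, hg, hgm⟩ := exists_inj h4
  have hxg : ∀ i, g i ≠ x := fun i h => hx (h ▸ (hgm i).1)
  refine hO ⟨fun w => Sum.elim g (fun _ : Fin 1 => x) w, ?_, ?_⟩
  · rintro (u | u) (v | v) h
    · rw [hg h]
    · exact absurd h (hxg u)
    · exact absurd h.symm (hxg v)
    · rw [Subsingleton.elim u v]
  · have hno : ∀ i, ¬ H.Adj x (g i) := fun i h => (hgm i).2 h
    rintro (u | u) (v | v)
    · constructor
      · intro h
        exact hK _ (hgm u).1 _ (hgm v).1 fun h' => h (hg h')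
      · intro h h'
        exact h.ne (congrArg g h')
    · refine iff_of_false (fun h => ?_) fun h => hno u h.symm
      have hv : v = 0 := Subsingleton.elim _ _
      subst hv
      exact absurd (show u ∈ ((∅ : Finset (Fin 4)) : Set (Fin 4)) from h) (by simp)
    · refine iff_of_false (fun h => ?_) fun h => hno v h
      have hv : u = 0 := Subsingleton.elim _ _
      subst hv
      exact absurd (show v ∈ ((∅ : Finset (Fin 4)) : Set (Fin 4)) from h) (by simp)
    · exact iff_of_false (fun h => h) (fun h => h.ne rfl)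

end H2Aux

/-- **H2.** Representation. -/
theorem h2 : S_H2 := by
  classical
  intro W _ H hS h3 hO
  obtain ⟨K, hK, hI, hd⟩ := hS
  have ht : Nat.card (Kᶜ : Set W) ≤ 3 := H2Aux.card_le_three hI fun h => hO (Or.inl h)
  have hm : Nat.card K ≤ 5 := H2Aux.card_le_five hK hd h3 fun h => hO (Or.inr (Or.inr (Or.inl h)))
  obtain ⟨m, hm'⟩ : ∃ m, m = Nat.card K := ⟨_, rfl⟩
  obtain ⟨t, ht'⟩ : ∃ t, t = Nat.card (Kᶜ : Set W) := ⟨_, rfl⟩
  rw [← hm'] at hm
  rw [← ht'] at ht
  have eK : Fin m ≃ K := (Finite.equivFinOfCardEq hm'.symm).symm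
  have eI : Fin t ≃ (Kᶜ : Set W) := (Finite.equivFinOfCardEq ht'.symm).symm
  refine ⟨m, t, hm, ht, fun q => Finset.univ.filter fun i => H.Adj (eI q) (eK i), fun q => ?_, ?_⟩
  · have h1 : ((Finset.univ.filter fun i => H.Adj (eI q) (eK i) : Finset (Fin m)) :
        Set (Fin m)).encard ≤ (H.neighborSet (eI q)).encard := by
      refine Set.encard_le_encard_of_injOn (f := fun i => (eK i : W)) ?_ ?_
      · intro i hi
        rw [Finset.mem_coe, Finset.mem_filter] at hi
        exact hi.2
      · intro i _ j _ h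
        exact eK.injective (Subtype.coe_injective h)
    have h2 := h1.trans (hd _ (eI q).2)
    rw [Set.encard_coe_eq_coe_finsetCard] at h2
    exact_mod_cast h2
  · refine ⟨RelIso.symm ⟨(Equiv.sumCongr eK eI).trans (Equiv.Set.sumCompl K), ?_⟩⟩
    rintro (u | u) (v | v)
    · change H.Adj (eK u : W) (eK v) ↔ u ≠ v
      constructor
      · intro h h'
        exact h.ne (by rw [h'])
      · intro h
        exact hK _ (eK u).2 _ (eK v).2 fun h' => h (eK.injective (Subtype.coe_injective h'))
    · change H.Adj (eK u : W) (eI v) ↔ u ∈ ((Finset.univ.filter fun i => H.Adj (eI v) (eK i) :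
        Finset (Fin m)) : Set (Fin m))
      simp [H.adj_comm]
    · change H.Adj (eI u : W) (eK v) ↔ v ∈ ((Finset.univ.filter fun i => H.Adj (eI u) (eK i) :
        Finset (Fin m)) : Set (Fin m))
      simp
    · change H.Adj (eI u : W) (eI v) ↔ False
      exact iff_of_false (hI _ (eI u).2 _ (eI v).2) (fun h => h)

end Pool.Agent.MPd439b2.F9
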