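import Pool.Agent.Lib.MP_d439b2_co.F9.SpecH
import Pool.Agent.Lib.MP_d439b2_co.Basic

/-!
# MP_d439b2_co, H3: the finite check

A graph is numbered: the vertices of the clique are `0, 1, ...`, the other vertices `6, 7, ...`.
The entry `i` of the list `l` is the bit mask of the neighbours of the vertex `i` outside of the
clique.  After sorting the clique there are 1440 cases; every case is checked with a certificate.
-/

set_option autoImplicit false

namespace Pool.Agent.MPd439b2.F9

open Pool.Agent.MPd439b2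

namespace h3Aux

/-! ### numbered graphs -/

/-- adjacency of the numbered vertices -/
def adjN (l : List ℕ) (u v : ℕ) : Bool :=
  if u < 6 then (if v < 6 then u != v else (l.getD u 0).testBit (v - 6))
  else if v < 6 then (l.getD v 0).testBit (u - 6) else false

/-- the numbers of the vertices -/
def vsOf (m t : ℕ) : List ℕ := List.range m ++ (List.range t).map (6 + ·)

/-- `G` is numbered by `ν` -/
structure Rep {W : Type} (G : SimpleGraph W) (ν : W → ℕ) (l vs : List ℕ) : Prop where
  inj : Function.Injective ν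
  adj : ∀ u v, G.Adj u v ↔ adjN l (ν u) (ν v) = true
  mem : ∀ u, ν u ∈ vs
  sur : ∀ n ∈ vs, ∃ u, ν u = n

/-- the digit `u` of `e` -/
def dg (e u : ℕ) : ℕ := e / 10 ^ u % 10

/-- `dg e` is an embedding -/
def embB (l vs l' vs' : List ℕ) (e : ℕ) : Bool :=
  vs.all fun u => vs'.contains (dg e u) && vs.all fun v =>
    (u == v || dg e u != dg e v) && (adjN l u v == adjN l' (dg e u) (dg e v))

/-- the sets `{dg x u, dg y u}` are the branch sets of a model of the first graph in the second one -/
def minB (l vs l' vs' : List ℕ) (x y : ℕ) : Bool :=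
  vs.all fun u => (vs'.contains (dg x u) && vs'.contains (dg y u)) &&
    ((dg x u == dg y u || adjN l' (dg x u) (dg y u)) && vs.all fun v => u == v ||
      (((dg x u != dg x v && dg x u != dg y v) && (dg y u != dg x v && dg y u != dg y v)) &&
       (adjN l u v == ((adjN l' (dg x u) (dg x v) || adjN l' (dg x u) (dg y v)) ||
        (adjN l' (dg y u) (dg x v) || adjN l' (dg y u) (dg y v))))))

/-- there are three independent vertices -/
def ind3B (l vs : List ℕ) : Bool :=
  vs.any fun u => vs.any fun v => vs.any fun w =>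
    (u != v && u != w && v != w) && !adjN l u v && !adjN l u w && !adjN l v w

theorem emb_sound {W V : Type} {G : SimpleGraph W} {H : SimpleGraph V} {ν : W → ℕ} {ν' : V → ℕ}
    {l vs l' vs' : List ℕ} (hG : Rep G ν l vs) (hH : Rep H ν' l' vs') {e : ℕ}
    (h : embB l vs l' vs' e = true) : IsIndSub G H := by
  simp only [embB, List.all_eq_true, Bool.and_eq_true, Bool.or_eq_true, beq_iff_eq,
    bne_iff_ne, List.contains_iff_mem] at h
  choose f hf using fun u : W => hH.sur _ (h (ν u) (hG.mem u)).1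
  have hf' : ∀ u v : W, (ν u = ν v ∨ ν' (f u) ≠ ν' (f v)) ∧
      adjN l (ν u) (ν v) = adjN l' (ν' (f u)) (ν' (f v)) := fun u v => by
    rw [hf u, hf v]
    exact (h (ν u) (hG.mem u)).2 (ν v) (hG.mem v)
  refine ⟨f, fun u v huv => ?_, fun u v => ?_⟩
  · rcases (hf' u v).1 with h1 | h1
    · exact hG.inj h1
    · exact absurd (by rw [huv]) h1
  · rw [hG.adj, hH.adj, (hf' u v).2]

theorem min_sound {W V : Type} {G : SimpleGraph W} {H : SimpleGraph V} {ν : W → ℕ} {ν' : V → ℕ}
    {l vs l' vs' : List ℕ} (hG : Rep G ν l vs) (hH : Rep H ν' l' vs') {x y : ℕ}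
    (h : minB l vs l' vs' x y = true) : IsIndMinor G H := by
  simp only [minB, List.all_eq_true, Bool.and_eq_true, Bool.or_eq_true, beq_iff_eq,
    bne_iff_ne, List.contains_iff_mem] at h
  choose f hf using fun u : W => hH.sur _ (h (ν u) (hG.mem u)).1.1
  choose g hg using fun u : W => hH.sur _ (h (ν u) (hG.mem u)).1.2
  have h1 : ∀ u : W, ν' (f u) = ν' (g u) ∨ H.Adj (f u) (g u) := fun u => by
    rw [hH.adj, hf u, hg u]
    exact (h (ν u) (hG.mem u)).2.1
  have h2 : ∀ u v : W, u ≠ v → ((ν' (f u) ≠ ν' (f v) ∧ ν' (f u) ≠ ν' (g v)) ∧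
      ν' (g u) ≠ ν' (f v) ∧ ν' (g u) ≠ ν' (g v)) ∧ (G.Adj u v ↔
      ((H.Adj (f u) (f v) ∨ H.Adj (f u) (g v)) ∨ (H.Adj (g u) (f v) ∨ H.Adj (g u) (g v)))) :=
    fun u v huv => by
      simp only [hG.adj, hH.adj, hf, hg]
      rcases (h (ν u) (hG.mem u)).2.2 (ν v) (hG.mem v) with h3 | h3
      · exact absurd (hG.inj h3) huv
      · refine ⟨h3.1, ?_⟩
        rw [h3.2]
        simp only [Bool.or_eq_true]
  refine ⟨fun u => {f u, g u}, fun u => ?_, fun u v huv => ?_, fun u v huv => ?_⟩
  · rw [← conn_iff]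
    rcases h1 u with h3 | h3
    · have h4 : f u = g u := hH.inj h3
      have h5 : ({f u, g u} : Set V) = {f u} := by
        rw [← h4]
        exact Set.pair_eq_singleton _
      change Conn H {f u, g u}
      rw [h5]
      exact Conn.singleton H _
    · exact Conn.pair h3
  · obtain ⟨⟨⟨a1, a2⟩, a3, a4⟩, -⟩ := h2 u v huv
    rw [Set.disjoint_left]
    rintro z (rfl | rfl) (hz | hz)
    · exact a1 (congrArg ν' hz)
    · exact a2 (congrArg ν' hz)
    · exact a3 (congrArg ν' hz)
    · exact a4 (congrArg ν' hz)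
  · rw [(h2 u v huv).2]
    constructor
    · rintro ((h3 | h3) | (h3 | h3))
      · exact ⟨_, Or.inl rfl, _, Or.inl rfl, h3⟩
      · exact ⟨_, Or.inl rfl, _, Or.inr rfl, h3⟩
      · exact ⟨_, Or.inr rfl, _, Or.inl rfl, h3⟩
      · exact ⟨_, Or.inr rfl, _, Or.inr rfl, h3⟩
    · rintro ⟨a, (rfl | rfl), b, (rfl | rfl), h3⟩
      · exact Or.inl (Or.inl h3)
      · exact Or.inl (Or.inr h3)
      · exact Or.inr (Or.inl h3)
      · exact Or.inr (Or.inr h3)

theorem ind3_complete {W : Type} {G : SimpleGraph W} {ν : W → ℕ} {l vs : List ℕ}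
    (hG : Rep G ν l vs) (h : Ind3 G) : ind3B l vs = true := by
  obtain ⟨a, b, c, hab, hac, hbc, h1, h2, h3⟩ := h
  rw [hG.adj, Bool.not_eq_true] at h1 h2 h3
  simp only [ind3B, List.any_eq_true, Bool.and_eq_true, bne_iff_ne, Bool.not_eq_true']
  exact ⟨ν a, hG.mem a, ν b, hG.mem b, ν c, hG.mem c, ⟨⟨⟨⟨fun h => hab (hG.inj h),
    fun h => hac (hG.inj h)⟩, fun h => hbc (hG.inj h)⟩, h1⟩, h2⟩, h3⟩

/-! ### the numbered graphs which are used -/

/-- the numbering of `KF m t N` -/
def numF {m t : ℕ} : Fin m ⊕ Fin t → ℕ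
  | Sum.inl i => i.val
  | Sum.inr q => 6 + q.val

/-- the numbering of `KJ 1 (KF m t N)` -/
def numJ {m t : ℕ} : Fin 1 ⊕ (Fin m ⊕ Fin t) → ℕ
  | Sum.inl _ => 0
  | Sum.inr (Sum.inl i) => i.val + 1
  | Sum.inr (Sum.inr q) => 6 + q.val

theorem mem_vsOf {m t n : ℕ} : n ∈ vsOf m t ↔ n < m ∨ ∃ q < t, 6 + q = n := by
  simp only [vsOf, List.mem_append, List.mem_range, List.mem_map]

theorem adjN_kk (l : List ℕ) {u v : ℕ} (hu : u < 6) (hv : v < 6) :
    adjN l u v = true ↔ u ≠ v := by
  simp only [adjN, if_pos hu, if_pos hv, bne_iff_ne]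

theorem adjN_ki (l : List ℕ) {u q : ℕ} (hu : u < 6) :
    adjN l u (6 + q) = (l.getD u 0).testBit q := by
  simp only [adjN, if_pos hu, if_neg (show ¬ 6 + q < 6 by omega), Nat.add_sub_cancel_left]

theorem adjN_ik (l : List ℕ) {u q : ℕ} (hu : u < 6) :
    adjN l (6 + q) u = (l.getD u 0).testBit q := by
  simp only [adjN, if_pos hu, if_neg (show ¬ 6 + q < 6 by omega), Nat.add_sub_cancel_left]

theorem adjN_ii (l : List ℕ) (q q' : ℕ) : adjN l (6 + q) (6 + q') = false := by
  simp only [adjN, if_neg (show ¬ 6 + q < 6 by omega), if_neg (show ¬ 6 + q' < 6 by omega)]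

/-- general form: the vertex `i` of the clique has the number `π i` -/
theorem repF' {m t : ℕ} (hm : m ≤ 6) (N : Fin t → Finset (Fin m)) (l : List ℕ)
    (π : Equiv.Perm (Fin m)) (h : ∀ i q, i ∈ N q ↔ (l.getD (π i).val 0).testBit q.val = true) :
    Rep (KF m t N) (fun w => Sum.elim (fun i => (π i).val) (fun q => 6 + q.val) w) l
      (vsOf m t) where
  inj := by
    rintro (i | q) (j | q') h1
    · have h2 : π i = π j := Fin.ext h1
      rw [π.injective h2]
    · have h2 : (π i).val = 6 + q'.val := h1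
      have := (π i).isLt
      omega
    · have h2 : 6 + q.val = (π j).val := h1
      have := (π j).isLt
      omega
    · have h2 : 6 + q.val = 6 + q'.val := h1
      rw [show q = q' from Fin.ext (by omega)]
  adj := by
    rintro (i | q) (j | q')
    · change i ≠ j ↔ adjN l (π i).val (π j).val = true
      rw [adjN_kk l (by omega) (by omega), not_iff_not, ← Fin.ext_iff, π.injective.eq_iff]
    · change i ∈ N q' ↔ adjN l (π i).val (6 + q'.val) = true
      rw [adjN_ki l (by omega), h]
    · change j ∈ N q ↔ adjN l (6 + q.val) (π j).val = true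
      rw [adjN_ik l (by omega), h]
    · change False ↔ adjN l (6 + q.val) (6 + q'.val) = true
      rw [adjN_ii]
      simp
  mem := by
    rintro (i | q)
    · exact mem_vsOf.2 (Or.inl (π i).isLt)
    · exact mem_vsOf.2 (Or.inr ⟨q.val, q.isLt, rfl⟩)
  sur := by
    intro n hn
    rcases mem_vsOf.1 hn with h1 | ⟨q, h1, rfl⟩
    · exact ⟨Sum.inl (π.symm ⟨n, h1⟩), by simp⟩
    · exact ⟨Sum.inr ⟨q, h1⟩, rfl⟩

theorem repF {m t : ℕ} (hm : m ≤ 6) (N : Fin t → Finset (Fin m)) (l : List ℕ)
    (h : ∀ (i : Fin m) (q : Fin t), i ∈ N q ↔ (l.getD i.val 0).testBit q.val = true) :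
    ∃ ν, Rep (KF m t N) ν l (vsOf m t) :=
  ⟨_, repF' hm N l (Equiv.refl _) h⟩

theorem repJ {m t : ℕ} (hm : m ≤ 5) (N : Fin t → Finset (Fin m)) (l : List ℕ) (c : ℕ)
    (h : ∀ (i : Fin m) (q : Fin t), i ∈ N q ↔ (l.getD i.val 0).testBit q.val = true)
    (hc : ∀ q : Fin t, c.testBit q.val = true) :
    ∃ ν, Rep (KJ 1 (KF m t N)) ν (c :: l) (vsOf (m + 1) t) := by
  refine ⟨numJ, ?_, ?_, ?_, ?_⟩
  · rintro (i | i | q) (j | j | q') h1
    · rw [Subsingleton.elim i j]
    · have h2 : 0 = j.val + 1 := h1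
      omega
    · have h2 : 0 = 6 + q'.val := h1
      omega
    · have h2 : i.val + 1 = 0 := h1
      omega
    · have h2 : i.val + 1 = j.val + 1 := h1
      rw [show i = j from Fin.ext (by omega)]
    · have h2 : i.val + 1 = 6 + q'.val := h1
      have := i.isLt
      omega
    · have h2 : 6 + q.val = 0 := h1
      omega
    · have h2 : 6 + q.val = j.val + 1 := h1
      have := j.isLt
      omega
    · have h2 : 6 + q.val = 6 + q'.val := h1
      rw [show q = q' from Fin.ext (by omega)]
  · rintro (i | i | q) (j | j | q')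
    · change i ≠ j ↔ adjN (c :: l) 0 0 = true
      rw [adjN_kk _ (by omega) (by omega)]
      simp [Subsingleton.elim i j]
    · change True ↔ adjN (c :: l) 0 (j.val + 1) = true
      rw [adjN_kk _ (by omega) (by omega)]
      simp
    · change True ↔ adjN (c :: l) 0 (6 + q'.val) = true
      rw [adjN_ki _ (by omega)]
      simp [hc q']
    · change True ↔ adjN (c :: l) (i.val + 1) 0 = true
      rw [adjN_kk _ (by omega) (by omega)]
      simp
    · change i ≠ j ↔ adjN (c :: l) (i.val + 1) (j.val + 1) = true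
      rw [adjN_kk _ (by omega) (by omega), not_iff_not, Fin.ext_iff]
      omega
    · change i ∈ N q' ↔ adjN (c :: l) (i.val + 1) (6 + q'.val) = true
      rw [adjN_ki _ (by omega), List.getD_cons_succ, h]
    · change True ↔ adjN (c :: l) (6 + q.val) 0 = true
      rw [adjN_ik _ (by omega)]
      simp [hc q]
    · change j ∈ N q ↔ adjN (c :: l) (6 + q.val) (j.val + 1) = true
      rw [adjN_ik _ (by omega), List.getD_cons_succ, h]
    · change False ↔ adjN (c :: l) (6 + q.val) (6 + q'.val) = true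
      rw [adjN_ii]
      simp
  · rintro (i | i | q)
    · exact mem_vsOf.2 (Or.inl (show 0 < m + 1 by omega))
    · exact mem_vsOf.2 (Or.inl (show i.val + 1 < m + 1 by omega))
    · exact mem_vsOf.2 (Or.inr ⟨q.val, q.isLt, rfl⟩)
  · intro n hn
    rcases mem_vsOf.1 hn with h1 | ⟨q, h1, rfl⟩
    · rcases n with _ | n
      · exact ⟨Sum.inl 0, rfl⟩
      · exact ⟨Sum.inr (Sum.inl ⟨n, by omega⟩), rfl⟩
    · exact ⟨Sum.inr (Sum.inr ⟨q, h1⟩), rfl⟩

/-! ### the test -/

/-- some vertex outside of the clique has more than two neighbours -/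
def degB (t : ℕ) (l : List ℕ) : Bool :=
  (List.range t).any fun q => decide (3 ≤ (l.filter fun x => x.testBit q).length)

/-- the test of a certificate `(k, x, y, s)` -/
def certB (l vs : List ℕ) (k x y s : ℕ) : Bool :=
  (k == 0 && embB [] (vsOf 0 4) l vs x) ||
  (k == 1 && embB [0, 0, 0] (vsOf 3 2) l vs x) ||
  (k == 2 && embB [0, 0, 0, 0] (vsOf 4 1) l vs x) ||
  (k == 3 && embB [1, 2, 4] (vsOf 3 3) l vs x) ||
  (k == 4 && embB [6, 2, 4] (vsOf 3 3) l vs x) ||
  (k == 5 && embB [1, 6, 6] (vsOf 3 3) l vs x) ||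
  (k == 6 && embB [3, 5, 6] (vsOf 3 3) l vs x) ||
  (k == 7 && embB [1, 0, 0, 0, 0] (vsOf 5 1) l vs x) ||
  (k == 8 && embB [1, 1, 2, 2] (vsOf 4 2) l vs x) ||
  (k == 9 && minB l vs [3, 1, 2, 0] (vsOf 4 2) x y) ||
  (k == 10 && embB [0, 0] (vsOf 2 2) l vs s && minB l vs [3, 1, 2, 0, 0] (vsOf 5 2) x y) ||
  (k == 11 && embB [0, 0] (vsOf 2 2) l vs s && minB l vs [3, 6, 4] (vsOf 3 3) x y) ||
  (k == 12 && embB [0, 0] (vsOf 2 2) l vs s && minB l vs [5, 2, 4] (vsOf 3 3) x y) ||
  (k == 13 && embB [0, 0] (vsOf 2 2) l vs s && minB l vs [7, 3, 4] (vsOf 3 3) x y) ||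
  (k == 14 && embB [0, 0] (vsOf 2 2) l vs s && minB l vs [7, 2, 4] (vsOf 3 3) x y) ||
  (k == 15 && embB [2, 2, 0] (vsOf 3 2) l vs s && minB l vs [1, 2, 2, 0] (vsOf 4 2) x y)

/-- the certificates -/
def tab : List (ℕ × ℕ × ℕ × ℕ × ℕ) :=
  [(16, 9, 76000003, 76000003, 0), (128, 10, 76000043, 76000043, 76000010),
   (129, 9, 76000013, 76000013, 0), (130, 9, 67000013, 67000013, 0),
   (131, 9, 76000003, 76000003, 0), (1024, 1, 76000210, 0, 0),
   (1025, 10, 76000143, 76000143, 76000010), (1026, 10, 67000143, 67000143, 76000010),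
   (1027, 10, 76000043, 76000043, 76000010), (1033, 15, 67000213, 67000213, 67000021),
   (1034, 9, 76000213, 76000213, 0), (1035, 9, 76000013, 76000013, 0),
   (1042, 15, 76000213, 76000213, 76000021), (1043, 9, 67000013, 67000013, 0),
   (1051, 9, 76000103, 76000203, 0), (8192, 1, 76000210, 0, 0), (8193, 1, 76000210, 0, 0),
   (8194, 1, 76000210, 0, 0), (8195, 1, 76000210, 0, 0), (8201, 2, 7003210, 0, 0),
   (8202, 10, 76002143, 76002143, 76000010), (8203, 10, 76000143, 76000143, 76000010),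
   (8210, 2, 6003210, 0, 0), (8211, 10, 67000143, 67000143, 76000010),
   (8219, 10, 76001043, 76002043, 76000010), (8266, 15, 67000213, 67000213, 67000021),
   (8274, 15, 76002103, 76002103, 76000032), (8275, 9, 76000213, 76000213, 0),
   (65536, 1, 76000210, 0, 0), (65537, 1, 76000210, 0, 0), (65538, 1, 76000210, 0, 0),
   (65539, 1, 76000210, 0, 0), (65545, 1, 76000210, 0, 0), (65546, 1, 76000210, 0, 0),
   (65547, 1, 76000210, 0, 0), (65554, 1, 76000210, 0, 0), (65555, 1, 76000210, 0, 0),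
   (65563, 1, 76000210, 0, 0), (65610, 2, 7003210, 0, 0), (65618, 2, 6004310, 0, 0),
   (65619, 10, 76002143, 76002143, 76000010), (66130, 8, 76004321, 0, 0),
   (3, 9, 763000000, 763000000, 0), (25, 10, 764000003, 764000003, 87000060),
   (26, 10, 746000003, 746000003, 86000070), (27, 9, 763000001, 763000001, 0),
   (28, 10, 476000003, 476000003, 76000080), (29, 9, 673000001, 673000001, 0),
   (30, 9, 637000001, 637000001, 0), (31, 9, 763000000, 763000000, 0), (201, 1, 87000610, 0, 0),
   (202, 12, 687000021, 687000021, 87000060), (203, 10, 764000013, 764000013, 87000060),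
   (204, 12, 867000021, 867000021, 87000060), (205, 10, 674000013, 674000013, 87000060),
   (206, 11, 768000002, 768000002, 87000060), (207, 10, 764000003, 764000003, 87000060),
   (210, 1, 86000710, 0, 0), (211, 10, 746000013, 746000013, 86000070),
   (212, 12, 876000021, 876000021, 86000070), (213, 11, 786000002, 786000002, 86000070),
   (214, 10, 647000013, 647000013, 86000070), (215, 10, 746000003, 746000003, 86000070),
   (219, 15, 673000021, 673000021, 78000610), (220, 11, 876000020, 876000020, 76000081),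
   (221, 9, 763000021, 763000021, 0), (222, 9, 736000021, 736000021, 0),
   (223, 9, 763000001, 763000001, 0), (228, 1, 76000810, 0, 0),
   (229, 10, 476000013, 476000013, 76000080), (230, 10, 467000013, 467000013, 76000080),
   (231, 10, 476000003, 476000003, 76000080), (237, 15, 763000021, 763000021, 87000610),
   (238, 9, 376000021, 376000021, 0), (239, 9, 673000001, 673000001, 0),
   (246, 15, 736000021, 736000021, 86000710), (247, 9, 637000001, 637000001, 0),
   (255, 9, 763000010, 763000020, 0), (1610, 1, 87000610, 0, 0), (1612, 1, 87000610, 0, 0),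
   (1614, 1, 87000610, 0, 0), (1618, 1, 86000721, 0, 0), (1619, 4, 768000102, 0, 0),
   (1620, 3, 876000210, 0, 0), (1621, 12, 678000012, 678000012, 87000060),
   (1622, 12, 687000021, 687000021, 87000060), (1623, 14, 687000021, 687000021, 87000060),
   (1628, 12, 768000102, 768000102, 87000060), (1630, 11, 678000012, 678000012, 87000060),
   (1636, 1, 76000821, 0, 0), (1637, 4, 867000102, 0, 0),
   (1638, 12, 867000021, 867000021, 87000060), (1639, 14, 867000021, 867000021, 87000060),
   (1646, 11, 768000012, 768000012, 87000060), (1654, 5, 876000210, 0, 0),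
   (1655, 13, 768000012, 768000012, 87000060), (1684, 1, 86000710, 0, 0),
   (1685, 1, 86000710, 0, 0), (1692, 12, 786000102, 786000102, 86000070),
   (1693, 11, 687000012, 687000012, 86000070), (1700, 1, 76000821, 0, 0),
   (1701, 12, 876000021, 876000021, 86000070), (1702, 4, 876000102, 0, 0),
   (1703, 14, 876000021, 876000021, 86000070), (1709, 5, 867000210, 0, 0),
   (1710, 11, 786000102, 786000102, 86000070), (1711, 13, 786000012, 786000012, 86000070),
   (1756, 5, 768000102, 0, 0), (1764, 1, 76000821, 0, 0),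
   (1765, 11, 867000120, 867000120, 76000081), (1766, 11, 876000120, 876000120, 76000081),
   (1767, 13, 876000021, 876000021, 76000081), (1774, 6, 876000210, 0, 0),
   (12882, 1, 87000610, 0, 0), (12884, 1, 87000610, 0, 0), (12886, 1, 87000610, 0, 0),
   (12900, 1, 87000610, 0, 0), (12902, 1, 87000610, 0, 0), (12918, 1, 87000610, 0, 0),
   (12948, 1, 86000721, 0, 0), (12949, 1, 86000721, 0, 0), (12956, 3, 876000310, 0, 0),
   (12964, 1, 76000832, 0, 0), (12965, 3, 876000210, 0, 0), (12966, 3, 876000210, 0, 0),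
   (12967, 3, 876000210, 0, 0), (12974, 8, 76003120, 0, 0), (13028, 1, 76000832, 0, 0),
   (13030, 8, 86003210, 0, 0), (13476, 1, 86000710, 0, 0), (13477, 1, 86000710, 0, 0),
   (13485, 1, 86000710, 0, 0), (13540, 1, 76000832, 0, 0), (13541, 8, 87003210, 0, 0),
   (14052, 1, 76000832, 0, 0), (103060, 1, 87000610, 0, 0), (103076, 1, 87000610, 0, 0),
   (103078, 1, 87000610, 0, 0), (103588, 1, 86000721, 0, 0), (103589, 1, 86000721, 0, 0),
   (103652, 1, 76000843, 0, 0)]

/-- the test of a sorted list -/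
def chk (t m : ℕ) (l : List ℕ) : Bool :=
  degB t l || !ind3B l (vsOf m t) || certB l (vsOf m t) 0 8760000000 0 0 ||
    tab.any fun e => e.1 == l.foldl (fun a x => 8 * a + x) t &&
      certB l (vsOf m t) e.2.1 e.2.2.1 e.2.2.2.1 e.2.2.2.2

/-- all sorted lists of `m` numbers below `hi`, followed by `suf`, pass the test `f` -/
def allS (f : List ℕ → Bool) : ℕ → ℕ → List ℕ → Bool
  | 0, _, suf => f suf
  | m + 1, hi, suf => (List.range hi).all fun x => allS f m (x + 1) (x :: suf)

theorem allS_spec (f : List ℕ → Bool) (m : ℕ) : ∀ (hi : ℕ) (suf : List ℕ),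
    allS f m hi suf = true → ∀ l : List ℕ, l.length = m → (∀ x ∈ l, x < hi) →
    l.Pairwise (· ≤ ·) → f (l ++ suf) = true := by
  induction m with
  | zero =>
    intro hi suf h l hl _ _
    rw [List.length_eq_zero_iff.1 hl]
    exact h
  | succ m ih =>
    intro hi suf h l hl hx hs
    obtain ⟨l', x, rfl⟩ : ∃ l' x, l = l' ++ [x] := by
      rcases List.eq_nil_or_concat l with h1 | ⟨l', x, h1⟩
      · rw [h1] at hl
        simp at hl
      · exact ⟨l', x, by rw [h1, List.concat_eq_append]⟩
    simp only [allS, List.all_eq_true, List.mem_range] at h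
    have h1 := h x (hx x (by simp))
    rw [List.append_assoc, List.singleton_append]
    refine ih (x + 1) (x :: suf) h1 l' ?_ ?_ ?_
    · simpa using hl
    · intro y hy
      have h2 := (List.pairwise_append.1 hs).2.2 y hy x (by simp)
      omega
    · exact (List.pairwise_append.1 hs).1

theorem all_ok : ((List.range 4).all fun t => (List.range 6).all fun m =>
    allS (chk t m) m (2 ^ t) []) = true := by
  decide +kernel

theorem chk_ok {t m : ℕ} (ht : t ≤ 3) (hm : m ≤ 5) {l : List ℕ} (hl : l.length = m)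
    (hx : ∀ x ∈ l, x < 2 ^ t) (hs : l.Pairwise (· ≤ ·)) : chk t m l = true := by
  have h := all_ok
  simp only [List.all_eq_true, List.mem_range] at h
  have h1 := allS_spec _ m _ _ (h t (by omega) m (by omega)) l hl hx hs
  rwa [List.append_nil] at h1

/-! ### sorting -/

/-- the bit mask of the neighbours of `i` -/
def tr {m t : ℕ} (N : Fin t → Finset (Fin m)) (i : Fin m) : ℕ :=
  Nat.ofBits fun q => decide (i ∈ N q)

theorem tr_lt {m t : ℕ} (N : Fin t → Finset (Fin m)) (i : Fin m) : tr N i < 2 ^ t :=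
  Nat.ofBits_lt_two_pow _

theorem tr_bit {m t : ℕ} (N : Fin t → Finset (Fin m)) (i : Fin m) (q : Fin t) :
    (tr N i).testBit q.val = decide (i ∈ N q) := by
  rw [tr, Nat.testBit_ofBits_lt _ _ q.isLt]

theorem exists_rep {m t : ℕ} (hm : m ≤ 5) (N : Fin t → Finset (Fin m))
    (hN : ∀ q, (N q).card ≤ 2) : ∃ (ν : Fin m ⊕ Fin t → ℕ) (l : List ℕ), l.length = m ∧
      (∀ x ∈ l, x < 2 ^ t) ∧ l.Pairwise (· ≤ ·) ∧ Rep (KF m t N) ν l (vsOf m t) ∧
      degB t l = false := by
  let σ := Tuple.sort (tr N)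
  have hmono : Monotone (tr N ∘ σ) := Tuple.monotone_sort (tr N)
  refine ⟨_, List.ofFn (tr N ∘ σ), List.length_ofFn, ?_, ?_,
    repF' (by omega) N _ σ.symm ?_, ?_⟩
  · intro x hx
    obtain ⟨i, rfl⟩ := (List.mem_ofFn' _ _).1 hx
    exact tr_lt N _
  · rw [List.pairwise_ofFn]
    exact fun i j hij => hmono hij.le
  · intro i q
    have h1 : (List.ofFn (tr N ∘ σ)).getD (σ.symm i).val 0 = tr N i := by
      rw [List.getD_eq_getElem _ _ (by rw [List.length_ofFn]; exact (σ.symm i).isLt),
        List.getElem_ofFn]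
      simp
    rw [h1, tr_bit, decide_eq_true_iff]
  · rw [Bool.eq_false_iff]
    intro h
    simp only [degB, List.any_eq_true, List.mem_range, decide_eq_true_eq] at h
    obtain ⟨q, hq, h3⟩ := h
    have h4 : ((List.ofFn (tr N ∘ σ)).filter fun x => x.testBit q).length =
        (N ⟨q, hq⟩).card := by
      rw [← List.countP_eq_length_filter, List.ofFn_eq_map, List.countP_map]
      have h5 : (Finset.univ.filter fun i => σ i ∈ N ⟨q, hq⟩).card = (N ⟨q, hq⟩).card := by
        rw [← Finset.card_map σ.toEmbedding]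
        refine congrArg Finset.card ?_
        ext i
        simp only [Finset.mem_map, Finset.mem_filter, Finset.mem_univ, true_and,
          Equiv.coe_toEmbedding]
        constructor
        · rintro ⟨j, hj, rfl⟩
          exact hj
        · intro hi
          exact ⟨σ.symm i, by simpa using hi, by simp⟩
      rw [← h5, List.countP_eq_length_filter]
      change _ = ((Finset.univ : Finset (Fin m)).filter fun i => σ i ∈ N ⟨q, hq⟩).val.card
      rw [Finset.filter_val]
      change _ = Multiset.card (Multiset.filter _ (List.finRange m : Multiset (Fin m)))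
      rw [Multiset.filter_coe, Multiset.coe_card]
      refine congrArg List.length (List.filter_congr fun i _ => ?_)
      exact tr_bit N (σ i) ⟨q, hq⟩
    have h5 := hN ⟨q, hq⟩
    omega

end h3Aux

open h3Aux in
theorem h3 : S_H3 := by
  intro m t N hm ht hN h3 hO
  obtain ⟨ν, l, hl, hx, hs, hR, hd⟩ := exists_rep hm N hN
  have hc := chk_ok ht hm hl hx hs
  have hi := ind3_complete hR h3
  have key : ∃ k x y s, certB l (vsOf m t) k x y s = true := by
    simp only [chk, hd, hi, Bool.false_or, Bool.not_true, Bool.or_eq_true, List.any_eq_true,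
      Bool.and_eq_true] at hc
    rcases hc with h1 | ⟨e, -, -, h1⟩
    · exact ⟨_, _, _, _, h1⟩
    · exact ⟨_, _, _, _, h1⟩
  obtain ⟨k, x, y, s, h⟩ := key
  simp only [certB, Bool.or_eq_true, Bool.and_eq_true] at h
  have o {a b : ℕ} (ha : a ≤ 6) (M : Fin b → Finset (Fin a)) {L : List ℕ}
      (hM : ∀ (i : Fin a) (q : Fin b), i ∈ M q ↔ (L.getD i.val 0).testBit q.val = true) {e : ℕ}
      (he : embB L (vsOf a b) l (vsOf m t) e = true) : IsIndSub (KF a b M) (KF m t N) := by
    obtain ⟨ν', h1⟩ := repF ha M L hM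
    exact emb_sound h1 hR he
  have mF {a b : ℕ} (ha : a ≤ 6) (M : Fin b → Finset (Fin a)) {L : List ℕ}
      (hM : ∀ (i : Fin a) (q : Fin b), i ∈ M q ↔ (L.getD i.val 0).testBit q.val = true)
      (he : minB l (vsOf m t) L (vsOf a b) x y = true) : IsIndMinor (KF m t N) (KF a b M) := by
    obtain ⟨ν', h1⟩ := repF ha M L hM
    exact min_sound hR h1 he
  have mJ {a b : ℕ} (ha : a ≤ 5) (M : Fin b → Finset (Fin a)) {L : List ℕ} (c : ℕ)
      (hM : ∀ (i : Fin a) (q : Fin b), i ∈ M q ↔ (L.getD i.val 0).testBit q.val = true)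
      (hc : ∀ q : Fin b, c.testBit q.val = true)
      (he : minB l (vsOf m t) (c :: L) (vsOf (a + 1) b) x y = true) :
      IsIndMinor (KF m t N) (KJ 1 (KF a b M)) := by
    obtain ⟨ν', h1⟩ := repJ ha M L c hM hc
    exact min_sound hR h1 he
  rcases h with (((((((((((((((h | h) | h) | h) | h) | h) | h) | h) | h) | h) | h) | h) | h) | h)
    | h) | h)
  · exact absurd (Or.inl (o (by decide) _ (by decide) h.2)) hO
  · exact absurd (Or.inr (Or.inl (o (by decide) _ (by decide) h.2))) hO
  · exact absurd (Or.inr (Or.inr (Or.inl (o (by decide) _ (by decide) h.2)))) hO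
  · exact absurd (Or.inr (Or.inr (Or.inr (Or.inl (o (by decide) _ (by decide) h.2))))) hO
  · exact absurd (Or.inr (Or.inr (Or.inr (Or.inr (Or.inl (o (by decide) _ (by decide) h.2)))))) hO
  · exact absurd (Or.inr (Or.inr (Or.inr (Or.inr (Or.inr (Or.inl
      (o (by decide) _ (by decide) h.2))))))) hO
  · exact absurd (Or.inr (Or.inr (Or.inr (Or.inr (Or.inr (Or.inr (Or.inl
      (o (by decide) _ (by decide) h.2)))))))) hO
  · exact absurd (Or.inr (Or.inr (Or.inr (Or.inr (Or.inr (Or.inr (Or.inr (Or.inl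
      (o (by decide) _ (by decide) h.2))))))))) hO
  · exact absurd (Or.inr (Or.inr (Or.inr (Or.inr (Or.inr (Or.inr (Or.inr (Or.inr
      (o (by decide) _ (by decide) h.2))))))))) hO
  · exact Or.inl (mJ (by decide) _ 3 (by decide) (by decide) h.2)
  · exact Or.inr (Or.inl ⟨o (by decide) _ (by decide) h.1.2,
      Or.inl (mJ (by decide) _ 3 (by decide) (by decide) h.2)⟩)
  · exact Or.inr (Or.inl ⟨o (by decide) _ (by decide) h.1.2,
      Or.inr (Or.inl (mF (by decide) _ (by decide) h.2))⟩)
  · exact Or.inr (Or.inl ⟨o (by decide) _ (by decide) h.1.2,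
      Or.inr (Or.inr (Or.inl (mF (by decide) _ (by decide) h.2)))⟩)
  · exact Or.inr (Or.inl ⟨o (by decide) _ (by decide) h.1.2,
      Or.inr (Or.inr (Or.inr (Or.inl (mJ (by decide) _ 7 (by decide) (by decide) h.2))))⟩)
  · exact Or.inr (Or.inl ⟨o (by decide) _ (by decide) h.1.2,
      Or.inr (Or.inr (Or.inr (Or.inr (mJ (by decide) _ 7 (by decide) (by decide) h.2))))⟩)
  · exact Or.inr (Or.inr ⟨o (by decide) _ (by decide) h.1.2,
      mF (by decide) _ (by decide) h.2⟩)

end Pool.Agent.MPd439b2.F9
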