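import Pool.Agent.Lib.MP_d439b2_co.F9.SpecH

/-!
# MP_d439b2_co, Spec H: the rows (`S_H4`)
-/

set_option autoImplicit false

namespace Pool.Agent.MPd439b2.F9

open Pool.Agent.MPd439b2

namespace h4Aux

theorem minor_iso {W W' U : Type} {H : SimpleGraph W} {H' : SimpleGraph W'} {J : SimpleGraph U}
    (φ : H ≃g H') (h : IsIndMinor H' J) : IsIndMinor H J := by
  obtain ⟨B, h1, h2, h3⟩ := h
  refine ⟨fun w => B (φ w), fun w => h1 _, fun w w' hw => h2 _ _ (φ.injective.ne hw),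
    fun w w' hw => ?_⟩
  rw [← h3 _ _ (φ.injective.ne hw)]
  exact φ.map_adj_iff.symm

theorem sub_iso {W W' U : Type} {H : SimpleGraph W} {H' : SimpleGraph W'} {J : SimpleGraph U}
    (φ : H ≃g H') (h : IsIndSub J H') : IsIndSub J H := by
  obtain ⟨f, h1, h2⟩ := h
  refine ⟨fun u => φ.symm (f u), φ.symm.injective.comp h1, fun u v => ?_⟩
  rw [h2]
  exact φ.symm.map_adj_iff.symm

theorem minor_of_sub {W U : Type} {H : SimpleGraph W} {J : SimpleGraph U} (h : IsIndSub J H) :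
    IsIndMinor J H := by
  obtain ⟨f, h1, h2⟩ := h
  refine ⟨fun u => {f u}, fun u => (conn_iff H {f u}).1 (Conn.singleton H (f u)), fun u v huv => ?_,
    fun u v _ => ?_⟩
  · rw [Set.disjoint_singleton]
    exact h1.ne huv
  · rw [h2]
    constructor
    · intro h
      exact ⟨f u, rfl, f v, rfl, h⟩
    · rintro ⟨x, rfl, y, rfl, h⟩
      exact h

theorem obs_iso {W W' : Type} {H : SimpleGraph W} {H' : SimpleGraph W'} (φ : H ≃g H')
    (h : Obs H') : Obs H := by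
  rcases h with h | h | h | h | h | h | h | h | h
  · exact Or.inl (sub_iso φ h)
  · exact Or.inr (Or.inl (sub_iso φ h))
  · exact Or.inr (Or.inr (Or.inl (sub_iso φ h)))
  · exact Or.inr (Or.inr (Or.inr (Or.inl (sub_iso φ h))))
  · exact Or.inr (Or.inr (Or.inr (Or.inr (Or.inl (sub_iso φ h)))))
  · exact Or.inr (Or.inr (Or.inr (Or.inr (Or.inr (Or.inl (sub_iso φ h))))))
  · exact Or.inr (Or.inr (Or.inr (Or.inr (Or.inr (Or.inr (Or.inl (sub_iso φ h)))))))
  · exact Or.inr (Or.inr (Or.inr (Or.inr (Or.inr (Or.inr (Or.inr (Or.inl (sub_iso φ h))))))))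
  · exact Or.inr (Or.inr (Or.inr (Or.inr (Or.inr (Or.inr (Or.inr (Or.inr (sub_iso φ h))))))))

theorem ind3_iso {W W' : Type} {H : SimpleGraph W} {H' : SimpleGraph W'} (φ : H ≃g H')
    (h : Ind3 H) : Ind3 H' := by
  obtain ⟨a, b, c, ab, ac, bc, h1, h2, h3⟩ := h
  exact ⟨φ a, φ b, φ c, φ.injective.ne ab, φ.injective.ne ac, φ.injective.ne bc,
    fun h => h1 (φ.map_adj_iff.1 h), fun h => h2 (φ.map_adj_iff.1 h),
    fun h => h3 (φ.map_adj_iff.1 h)⟩

theorem rowA_iso {W W' : Type} {H : SimpleGraph W} {H' : SimpleGraph W'} (φ : H ≃g H')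
    (h : RowA H') : RowA H := minor_iso φ h

theorem rowB_iso {W W' : Type} {H : SimpleGraph W} {H' : SimpleGraph W'} (φ : H ≃g H')
    (h : RowB H') : RowB H := by
  rcases h with h | h | h | h | h
  · exact Or.inl (minor_iso φ h)
  · exact Or.inr (Or.inl (minor_iso φ h))
  · exact Or.inr (Or.inr (Or.inl (minor_iso φ h)))
  · exact Or.inr (Or.inr (Or.inr (Or.inl (minor_iso φ h))))
  · exact Or.inr (Or.inr (Or.inr (Or.inr (minor_iso φ h))))

theorem rowC_iso {W W' : Type} {H : SimpleGraph W} {H' : SimpleGraph W'} (φ : H ≃g H')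
    (h : RowC H') : RowC H := minor_iso φ h

theorem kf22 : KF 2 2 ![∅, ∅] = KA 2 2 ![∅, ∅] := by
  have h : (fun q => (((![∅, ∅] : Fin 2 → Finset (Fin 2)) q : Finset (Fin 2)) : Set (Fin 2))) =
      ![∅, ∅] := by
    funext q
    fin_cases q <;> simp
  unfold KF
  rw [h]

theorem kf32 : KF 3 2 ![∅, {0, 1}] = KA 3 2 ![∅, {0, 1}] := by
  have h : (fun q => (((![∅, {0, 1}] : Fin 2 → Finset (Fin 3)) q : Finset (Fin 3)) :
      Set (Fin 3))) = ![∅, {0, 1}] := by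
    funext q
    fin_cases q <;> simp
  unfold KF
  rw [h]

end h4Aux

open h4Aux in
theorem h4 : (S_H1) → (S_H2) → (S_H3) → S_H4 := by
  intro H1 H2 H3 W _ H hS2 hI hQS hA3 hSix
  have hObs := H1 W H hQS hA3 hSix
  obtain ⟨m, t, hm, ht, N, hN, ⟨φ⟩⟩ := H2 W H hS2 hI hObs
  rcases H3 m t N hm ht hN (ind3_iso φ hI) (fun h => hObs (obs_iso φ h)) with h | ⟨h, h'⟩ | ⟨h, h'⟩
  · exact Or.inl (rowA_iso φ h)
  · refine Or.inr (Or.inl ⟨?_, rowB_iso φ h'⟩)
    rw [← kf22]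
    exact minor_of_sub (sub_iso φ h)
  · refine Or.inr (Or.inr ⟨?_, rowC_iso φ h'⟩)
    rw [← kf32]
    exact minor_of_sub (sub_iso φ h)

end Pool.Agent.MPd439b2.F9
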