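import Pool.Agent.Lib.MP_d439b2_co.F9.SpecH
import Pool.Agent.Lib.MP_d439b2_co.B.FD

/-!
# MP_d439b2_co, F9/H6: the remaining pairs are below the base pairs
-/

set_option autoImplicit false

namespace Pool.Agent.MPd439b2.F9

open Pool.Agent.MPd439b2

namespace h6Aux

theorem pat_cyc4 {W : Type} {H : SimpleGraph W} {a b c d : W} (hac : a ≠ c) (hbd : b ≠ d)
    (e1 : H.Adj a b) (e2 : H.Adj b c) (e3 : H.Adj c d) (e4 : H.Adj d a) (e5 : ¬ H.Adj a c)
    (e6 : ¬ H.Adj b d) : IsIndSub cyc4 H := by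
  have n1 := e1.ne
  have n2 := e2.ne
  have n3 := e3.ne
  have n4 := e4.ne
  have e7 : ¬ H.Adj c a := fun h => e5 h.symm
  have e8 : ¬ H.Adj d b := fun h => e6 h.symm
  refine ⟨![a, b, c, d], ?_, ?_⟩
  · intro i j h
    fin_cases i <;> fin_cases j <;> simp_all
  · intro i j
    fin_cases i <;> fin_cases j <;> simp [cyc4, e1, e2, e3, e4, e5, e6, e7, e8, e1.symm,
      e2.symm, e3.symm, e4.symm]

end h6Aux

open h6Aux

/-- **H6.** -/
theorem h6 : S_N7 → S_N8 → S_N9 → S_H4 → S_H5 → S_H6 := by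
  intro hN7 hN8 hN9 hH4 hH5 hKP W W' _ _ H H' hL
  obtain ⟨hS, h3, hnKP, hCS, hT, hn1, hn2, h4, h5, h6⟩ := hL
  have hm : ∀ {A B : Type} {G : SimpleGraph A} {G' : SimpleGraph B}, IsIndSub G G' →
      IsIndMinor G G' := fun h => FDAux.indMinor_of_indSub h
  have hn1' : ¬ IsIndSub co2P3 H' := fun h => hn1 (hm h)
  have hn2' : ¬ IsIndSub co6P2 H' := fun h => hn2 (hm h)
  by_cases hc : IsIndSub cyc4 H'
  · obtain ⟨hq, ha, hsix⟩ := h4.resolve_left (fun h => h hc)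
    rcases hH4 W H hS h3 hq ha hsix with hA | ⟨hB1, hB⟩ | ⟨hC1, hC⟩
    · obtain ⟨s, hs⟩ := hN7 W' H' hCS hn1' hn2'
      refine Or.inr (Or.inl ⟨hA, s, ?_⟩)
      rcases hs with hs | hs | hs
      · exact Or.inl (hm hs)
      · exact Or.inr (Or.inl (hm hs))
      · exact Or.inr (Or.inr (hm hs))
    · have hnT : ¬ InCoT H := fun h => (hH5 W H h).1 hB1
      have hT' : InCoT H' := hT.resolve_left hnT
      obtain ⟨s, hs⟩ := (hN8 W' H' hCS hT' hn1').1 hn2' (h5 hB1).1 (h5 hB1).2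
      refine Or.inr (Or.inr (Or.inl ⟨hB, s, ?_⟩))
      rcases hs with hs | hs
      · exact Or.inl (hm hs)
      · exact Or.inr (hm hs)
    · have hnT : ¬ InCoT H := fun h => (hH5 W H h).2 hC1
      have hT' : InCoT H' := hT.resolve_left hnT
      obtain ⟨s, hs⟩ := (hN8 W' H' hCS hT' hn1').2 (h6 hC1).1 (h6 hC1).2
      exact Or.inr (Or.inr (Or.inr ⟨hC, s, hm hs⟩))
  · obtain ⟨s, hs⟩ := hN9 W' H' hCS hc
    rcases hT with hT | hT
    · exact Or.inl ⟨hS, hT, s, hm hs⟩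
    · refine absurd (hKP W' H' hCS hT ?_) hnKP
      rintro ⟨a, b, c, d, hac, hbd, e1, e2, e3, e4, e5, e6⟩
      exact hc (pat_cyc4 hac hbd e1 e2 e3 e4 e5 e6)

end Pool.Agent.MPd439b2.F9
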