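import Pool.Agent.Lib.MP_d439b2_co.F9.SpecI
import Pool.Agent.Lib.MP_d439b2_co.S2DD
import Pool.Agent.Lib.MP_d439b2_co.B.FD

/-!
# MP_d439b2_co, F9/I1: the seven maximal rows are in `DD` and `TCg`
-/

set_option autoImplicit false

namespace Pool.Agent.MPd439b2.F9

open Pool.Agent.MPd439b2 Pool.Agent.MPd439b2.KS

namespace i1Aux

theorem dd_of_inS2 {W : Type} [Finite W] {H : SimpleGraph W} (h : InS2 H) :
    ∃ N m : ℕ, IsIndMinor H (DD N m) := by
  obtain ⟨N, m, -, h⟩ := s2DD W H h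
  exact ⟨N, m, ims_univ_iff.mp h⟩

theorem inS2_KF {m t : ℕ} (N : Fin t → Finset (Fin m)) (h : ∀ q, (N q).card ≤ 2) :
    InS2 (KF m t N) := by
  refine ⟨Set.range Sum.inl, ?_, ?_, ?_⟩
  · rintro _ ⟨i, rfl⟩ _ ⟨j, rfl⟩ hne
    exact fun h => hne (congrArg _ h)
  · rintro (i | q) hu (j | q') hv
    · exact absurd ⟨i, rfl⟩ hu
    · exact absurd ⟨i, rfl⟩ hu
    · exact absurd ⟨j, rfl⟩ hv
    · exact fun h => h
  · rintro (i | q) hu
    · exact absurd ⟨i, rfl⟩ hu
    · have h1 : (KF m t N).neighborSet (Sum.inr q) ⊆ Sum.inl '' (N q : Set (Fin m)) := by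
        rintro (i | q') h'
        · exact ⟨i, h', rfl⟩
        · exact False.elim h'
      refine (Set.encard_le_encard h1).trans ((Set.encard_image_le _ _).trans ?_)
      rw [Set.encard_coe_eq_coe_finsetCard]
      exact_mod_cast h q

theorem inS2_KJ {m t : ℕ} (N : Fin t → Finset (Fin m)) (h : ∀ q, (N q).card ≤ 1) :
    InS2 (KJ 1 (KF m t N)) := by
  refine ⟨{x | ∀ q, x ≠ Sum.inr (Sum.inr q)}, ?_, ?_, ?_⟩
  · rintro (i | i | q) hu (j | j | q') hv hne
    · exact fun h => hne (congrArg _ h)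
    · exact trivial
    · exact absurd rfl (hv q')
    · exact trivial
    · exact fun h => hne (congrArg (fun x => Sum.inr (Sum.inl x)) h)
    · exact absurd rfl (hv q')
    · exact absurd rfl (hu q)
    · exact absurd rfl (hu q)
    · exact absurd rfl (hu q)
  · intro u hu v hv
    simp only [Set.mem_setOf_eq, not_forall, not_not] at hu hv
    obtain ⟨q, rfl⟩ := hu
    obtain ⟨q', rfl⟩ := hv
    exact fun h => h
  · intro v hv
    simp only [Set.mem_setOf_eq, not_forall, not_not] at hv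
    obtain ⟨q, rfl⟩ := hv
    have h1 : (KJ 1 (KF m t N)).neighborSet (Sum.inr (Sum.inr q)) ⊆
        insert (Sum.inl 0) ((fun i => Sum.inr (Sum.inl i)) '' (N q : Set (Fin m))) := by
      rintro (i | i | q') h'
      · left
        rw [Subsingleton.elim i 0]
      · exact Or.inr ⟨i, h', rfl⟩
      · exact False.elim h'
    refine (Set.encard_le_encard h1).trans ((Set.encard_insert_le _ _).trans ?_)
    have h2 : ((fun i => (Sum.inr (Sum.inl i) : Fin 1 ⊕ (Fin m ⊕ Fin t))) ''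
        (N q : Set (Fin m))).encard ≤ 1 := by
      refine (Set.encard_image_le _ _).trans ?_
      rw [Set.encard_coe_eq_coe_finsetCard]
      exact_mod_cast h q
    refine (add_le_add_left h2 1).trans ?_
    norm_num

/-- the vertex `x` of the two chains is adjacent to a clique vertex with the values `r`, `l` -/
def lt {M : ℕ} (r l : ℕ) : Fin M ⊕ Fin M → Bool
  | Sum.inl a => decide (a.val < r)
  | Sum.inr a => decide (a.val < l)

theorem adj_lr {N m : ℕ} {r l : Fin N → ℕ} (i : Fin N) (x : Fin m ⊕ Fin m) :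
    (TCg N m r l).Adj (Sum.inl i) (Sum.inr x) ↔ lt (r i) (l i) x = true := by
  rcases x with a | a
  · change a.val < r i ↔ _
    simp [lt]
  · change a.val < l i ↔ _
    simp [lt]

theorem adj_rr {N m : ℕ} {r l : Fin N → ℕ} (x y : Fin m ⊕ Fin m) :
    ¬ (TCg N m r l).Adj (Sum.inr x) (Sum.inr y) := by
  rcases x with a | a <;> rcases y with b | b <;> exact fun h => h

theorem tcg_KF {m t M : ℕ} (N : Fin t → Finset (Fin m)) (r l : Fin m → ℕ)
    (g : Fin t → Fin M ⊕ Fin M) (hg : Function.Injective g)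
    (h : ∀ i q, decide (i ∈ N q) = lt (r i) (l i) (g q)) :
    ∃ (N' m' : ℕ) (r' l' : Fin N' → ℕ), IsIndMinor (KF m t N) (TCg N' m' r' l') := by
  have h' : ∀ i q, i ∈ N q ↔ (TCg m M r l).Adj (Sum.inl i) (Sum.inr (g q)) := by
    intro i q
    rw [adj_lr, ← h i q, decide_eq_true_iff]
  refine ⟨m, M, r, l, FDAux.indMinor_of_indSub ⟨Sum.map id g,
    Function.injective_id.sumMap hg, ?_⟩⟩
  rintro (i | q) (j | q')
  · exact Iff.rfl
  · exact h' i q'
  · change j ∈ N q ↔ (TCg m M r l).Adj (Sum.inr (g q)) (Sum.inl j)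
    rw [SimpleGraph.adj_comm]
    exact h' j q
  · exact iff_of_false (fun h => h) (adj_rr _ _)

theorem tcg_KJ {m t M : ℕ} (N : Fin t → Finset (Fin m)) (r l : Fin (m + 1) → ℕ)
    (g : Fin t → Fin M ⊕ Fin M) (hg : Function.Injective g)
    (h0 : ∀ q, lt (r 0) (l 0) (g q) = true)
    (h : ∀ i q, decide (i ∈ N q) = lt (r (Fin.succ i)) (l (Fin.succ i)) (g q)) :
    ∃ (N' m' : ℕ) (r' l' : Fin N' → ℕ), IsIndMinor (KJ 1 (KF m t N)) (TCg N' m' r' l') := by
  have h0' : ∀ q, (TCg (m + 1) M r l).Adj (Sum.inl 0) (Sum.inr (g q)) := by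
    intro q
    rw [adj_lr]
    exact h0 q
  have h' : ∀ i q, i ∈ N q ↔ (TCg (m + 1) M r l).Adj (Sum.inl (Fin.succ i)) (Sum.inr (g q)) := by
    intro i q
    rw [adj_lr, ← h i q, decide_eq_true_iff]
  let f : Fin 1 ⊕ (Fin m ⊕ Fin t) → Fin (m + 1) ⊕ (Fin M ⊕ Fin M) := fun x => match x with
    | Sum.inl _ => Sum.inl 0
    | Sum.inr (Sum.inl i) => Sum.inl (Fin.succ i)
    | Sum.inr (Sum.inr q) => Sum.inr (g q)
  refine ⟨m + 1, M, r, l, FDAux.indMinor_of_indSub ⟨f, ?_, ?_⟩⟩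
  · rintro (i | i | q) (j | j | q') hxy
    · rw [Subsingleton.elim i j]
    · exact absurd (Sum.inl.inj hxy) (Fin.succ_ne_zero j).symm
    · exact absurd hxy (by rintro ⟨⟩)
    · exact absurd (Sum.inl.inj hxy) (Fin.succ_ne_zero i)
    · rw [Fin.succ_injective _ (Sum.inl.inj hxy)]
    · exact absurd hxy (by rintro ⟨⟩)
    · exact absurd hxy (by rintro ⟨⟩)
    · exact absurd hxy (by rintro ⟨⟩)
    · rw [hg (Sum.inr.inj hxy)]
  · rintro (i | i | q) (j | j | q')
    · exact iff_of_false (fun h => h (Subsingleton.elim i j)) (fun h => h rfl)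
    · exact iff_of_true trivial (Fin.succ_ne_zero j).symm
    · exact iff_of_true trivial (h0' q')
    · exact iff_of_true trivial (Fin.succ_ne_zero i)
    · change i ≠ j ↔ Fin.succ i ≠ Fin.succ j
      rw [Ne, Ne, Fin.succ_inj]
    · exact h' i q'
    · exact iff_of_true trivial (h0' q).symm
    · change j ∈ N q ↔ (TCg (m + 1) M r l).Adj (Sum.inr (g q)) (Sum.inl (Fin.succ j))
      rw [SimpleGraph.adj_comm]
      exact h' j q
    · exact iff_of_false (fun h => h) (adj_rr _ _)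

end i1Aux

open i1Aux in
theorem i1 : S_I1 := by
  refine ⟨⟨dd_of_inS2 (inS2_KJ _ (by decide)), ?_⟩, ⟨dd_of_inS2 (inS2_KJ _ (by decide)), ?_⟩,
    ⟨dd_of_inS2 (inS2_KJ _ (by decide)), ?_⟩, ⟨dd_of_inS2 (inS2_KJ _ (by decide)), ?_⟩,
    ⟨dd_of_inS2 (inS2_KF _ (by decide)), ?_⟩, ⟨dd_of_inS2 (inS2_KF _ (by decide)), ?_⟩,
    ⟨dd_of_inS2 (inS2_KF _ (by decide)), ?_⟩⟩
  · exact tcg_KJ (M := 1) _ ![1, 1, 0, 0] ![1, 0, 1, 0] ![Sum.inl 0, Sum.inr 0] (by decide)
      (by decide) (by decide)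
  · exact tcg_KJ (M := 1) _ ![1, 1, 0, 0, 0] ![1, 0, 1, 0, 0] ![Sum.inl 0, Sum.inr 0] (by decide)
      (by decide) (by decide)
  · exact tcg_KJ (M := 2) _ ![2, 2, 0] ![1, 0, 1] ![Sum.inl 0, Sum.inl 1, Sum.inr 0] (by decide)
      (by decide) (by decide)
  · exact tcg_KJ (M := 2) _ ![2, 1, 0] ![1, 0, 1] ![Sum.inl 1, Sum.inl 0, Sum.inr 0] (by decide)
      (by decide) (by decide)
  · exact tcg_KF (M := 2) _ ![2, 1, 0] ![0, 1, 1] ![Sum.inl 1, Sum.inl 0, Sum.inr 0] (by decide)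
      (by decide)
  · exact tcg_KF (M := 2) _ ![2, 0, 1] ![0, 1, 0] ![Sum.inl 1, Sum.inr 0, Sum.inl 0] (by decide)
      (by decide)
  · exact tcg_KF (M := 1) _ ![1, 0, 0, 0] ![0, 1, 1, 0] ![Sum.inl 0, Sum.inr 0] (by decide)
      (by decide)

end Pool.Agent.MPd439b2.F9
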