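import Pool.Agent.Lib.MP_d439b2_co.F9.SpecI

/-!
# MP_d439b2_co, F9/I2: the complements of spiders and matchings are co-bipartite
-/

set_option autoImplicit false

namespace Pool.Agent.MPd439b2.F9

open Pool.Agent.MPd439b2 Pool.Agent.MPd439b2.KS

namespace i2Aux

/-- the parity of a vertex -/
def par {ℓ : Fin 3 → ℕ} {t : ℕ} : Option (Σ i : Fin 3, Fin (ℓ i)) ⊕ (Fin t × Bool) → ℕ
  | Sum.inl none => 0
  | Sum.inl (some v) => (v.2.val + 1) % 2
  | Sum.inr (_, false) => 0
  | Sum.inr (_, true) => 1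

theorem par_lt {ℓ : Fin 3 → ℕ} {t : ℕ}
    (u : Option (Σ i : Fin 3, Fin (ℓ i)) ⊕ (Fin t × Bool)) : par u = 0 ∨ par u = 1 := by
  rcases u with (_ | v) | ⟨p, b⟩
  · exact Or.inl rfl
  · change (v.2.val + 1) % 2 = 0 ∨ (v.2.val + 1) % 2 = 1
    omega
  · rcases b with _ | _
    · exact Or.inl rfl
    · exact Or.inr rfl

theorem adj_of_par {ℓ : Fin 3 → ℕ} {t : ℕ}
    (u v : Option (Σ i : Fin 3, Fin (ℓ i)) ⊕ (Fin t × Bool)) (h : par u = par v) (hne : u ≠ v) :
    (JS ℓ t).Adj u v := by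
  rcases u with (_ | u) | ⟨p, b⟩ <;> rcases v with (_ | v) | ⟨q, b'⟩
  · exact absurd rfl hne
  · refine ⟨by rintro ⟨⟩, ?_⟩
    intro h'
    have h1 : v.2.val = 0 := h'
    have h2 : 0 = (v.2.val + 1) % 2 := h
    omega
  · exact trivial
  · refine ⟨by rintro ⟨⟩, ?_⟩
    intro h'
    have h1 : u.2.val = 0 := h'
    have h2 : (u.2.val + 1) % 2 = 0 := h
    omega
  · refine ⟨fun h' => hne (congrArg _ h'), ?_⟩
    intro h'
    have h1 : u.1 = v.1 ∧ (u.2.val + 1 = v.2.val ∨ v.2.val + 1 = u.2.val) := h'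
    have h2 : (u.2.val + 1) % 2 = (v.2.val + 1) % 2 := h
    omega
  · exact trivial
  · exact trivial
  · exact trivial
  · change p ≠ q
    rintro rfl
    rcases b with _ | _ <;> rcases b' with _ | _
    · exact hne rfl
    · exact absurd h (by simp [par])
    · exact absurd h (by simp [par])
    · exact hne rfl

end i2Aux

open i2Aux in
theorem i2 : S_I2 := by
  intro ℓ t
  refine ⟨{u | par u = 0}, ?_, ?_⟩
  · intro u hu v hv hne
    exact adj_of_par u v (Eq.trans hu (Eq.symm hv)) hne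
  · intro u hu v hv hne
    have h1 : par u = 1 := (par_lt u).resolve_left hu
    have h2 : par v = 1 := (par_lt v).resolve_left hv
    exact adj_of_par u v (h1.trans h2.symm) hne

end Pool.Agent.MPd439b2.F9
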