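import Pool.Agent.Lib.MP_d439b2_co.F9.SpecI
import Pool.Agent.Lib.MP_d439b2_co.B.FD

/-!
# MP_d439b2_co, F9/I3: the kite
-/

set_option autoImplicit false

namespace Pool.Agent.MPd439b2.F9

open Pool.Agent.MPd439b2 Pool.Agent.MPd439b2.KS

namespace i3Aux

/-- the vertex set of `JS ![1, 1, 2] 0` -/
abbrev VJ : Type := Option (Σ i : Fin 3, Fin ((![1, 1, 2] : Fin 3 → ℕ) i)) ⊕ (Fin 0 × Bool)

/-- the map from the kite -/
def g : Fin 5 → VJ := ![Sum.inl (some ⟨2, ⟨1, by decide⟩⟩), Sum.inl (some ⟨0, ⟨0, by decide⟩⟩),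
  Sum.inl (some ⟨1, ⟨0, by decide⟩⟩), Sum.inl none, Sum.inl (some ⟨2, ⟨0, by decide⟩⟩)]

/-- the map to the kite -/
def f : VJ → Fin 5
  | Sum.inl none => 3
  | Sum.inl (some ⟨0, _⟩) => 1
  | Sum.inl (some ⟨1, _⟩) => 2
  | Sum.inl (some ⟨2, k⟩) => if k.val = 0 then 4 else 0
  | Sum.inr (p, _) => Fin.elim0 p

theorem fg (i : Fin 5) : f (g i) = i := by
  fin_cases i <;> rfl

theorem gf (x : VJ) : g (f x) = x := by
  rcases x with (_ | ⟨i, k⟩) | ⟨p, b⟩
  · rfl
  · fin_cases i
    · have : k = (⟨0, by decide⟩ : Fin 1) := Subsingleton.elim (α := Fin 1) _ _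
      subst this
      rfl
    · have : k = (⟨0, by decide⟩ : Fin 1) := Subsingleton.elim (α := Fin 1) _ _
      subst this
      rfl
    · change Fin 2 at k
      fin_cases k <;> rfl
  · exact Fin.elim0 p

theorem adj_g (i j : Fin 5) : Kite.Adj i j ↔ (JS ![1, 1, 2] 0).Adj (g i) (g j) := by
  fin_cases i <;> fin_cases j <;> simp [Kite, JS, Spid, g]

/-- the graph `TCg` which contains the join of a complete graph and the kite -/
abbrev T (s : ℕ) : SimpleGraph (Fin (s + 3) ⊕ (Fin 1 ⊕ Fin 1)) := TCg (s + 3) 1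
    (fun i => if i.val < s + 2 then 1 else 0) (fun i => if i.val = s ∨ i.val = s + 1 then 0 else 1)

theorem a1 {s : ℕ} (a b : Fin (s + 3)) : (T s).Adj (Sum.inl a) (Sum.inl b) ↔ a ≠ b := Iff.rfl

theorem a2 {s : ℕ} (a : Fin (s + 3)) (x : Fin 1) :
    (T s).Adj (Sum.inl a) (Sum.inr (Sum.inl x)) ↔ a.val < s + 2 := by
  change x.val < (if a.val < s + 2 then 1 else 0) ↔ _
  have hx := x.isLt
  split_ifs with h <;> omega

theorem a3 {s : ℕ} (a : Fin (s + 3)) (x : Fin 1) :
    (T s).Adj (Sum.inl a) (Sum.inr (Sum.inr x)) ↔ a.val ≠ s ∧ a.val ≠ s + 1 := by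
  change x.val < (if a.val = s ∨ a.val = s + 1 then 0 else 1) ↔ _
  have hx := x.isLt
  split_ifs with h <;> omega

theorem a2' {s : ℕ} (a : Fin (s + 3)) (x : Fin 1) :
    (T s).Adj (Sum.inr (Sum.inl x)) (Sum.inl a) ↔ a.val < s + 2 := by
  rw [SimpleGraph.adj_comm, a2]

theorem a3' {s : ℕ} (a : Fin (s + 3)) (x : Fin 1) :
    (T s).Adj (Sum.inr (Sum.inr x)) (Sum.inl a) ↔ a.val ≠ s ∧ a.val ≠ s + 1 := by
  rw [SimpleGraph.adj_comm, a3]

theorem a4 {s : ℕ} (x y : Fin 1 ⊕ Fin 1) : (T s).Adj (Sum.inr x) (Sum.inr y) ↔ False := by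
  rcases x with a | a <;> rcases y with b | b <;> exact Iff.rfl

/-- the map of the vertices of the kite -/
def k5 (s : ℕ) : Fin 5 → Fin (s + 3) ⊕ (Fin 1 ⊕ Fin 1) :=
  ![Sum.inl (Fin.natAdd s 2), Sum.inl (Fin.natAdd s 0), Sum.inl (Fin.natAdd s 1),
    Sum.inr (Sum.inr 0), Sum.inr (Sum.inl 0)]

theorem k5_ne (s : ℕ) (i : Fin s) (j : Fin 5) : Sum.inl (Fin.castAdd 3 i) ≠ k5 s j := by
  have hi := i.isLt
  intro h
  fin_cases j
  · have h1 := congrArg Fin.val (Sum.inl.inj h)
    have h2 : i.val = s + 2 := h1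
    omega
  · have h1 := congrArg Fin.val (Sum.inl.inj h)
    have h2 : i.val = s + 0 := h1
    omega
  · have h1 := congrArg Fin.val (Sum.inl.inj h)
    have h2 : i.val = s + 1 := h1
    omega
  · exact absurd h (by rintro ⟨⟩)
  · exact absurd h (by rintro ⟨⟩)

theorem k5_adj (s : ℕ) (i : Fin s) (j : Fin 5) :
    (T s).Adj (Sum.inl (Fin.castAdd 3 i)) (k5 s j) := by
  have hi := i.isLt
  have h2 : (Fin.castAdd 3 i).val = i.val := rfl
  fin_cases j
  · exact fun h => k5_ne s i 0 (congrArg _ h)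
  · exact fun h => k5_ne s i 1 (congrArg _ h)
  · exact fun h => k5_ne s i 2 (congrArg _ h)
  · refine (a3 _ _).2 ⟨?_, ?_⟩ <;> rw [h2] <;> omega
  · refine (a2 _ _).2 ?_
    rw [h2]
    omega

theorem kj_kite (s : ℕ) : IsIndSub (KJ s Kite) (T s) := by
  refine ⟨Sum.elim (fun i => Sum.inl (Fin.castAdd 3 i)) (k5 s), ?_, ?_⟩
  · rintro (i | i) (j | j) hij
    · have h1 : Fin.castAdd 3 i = Fin.castAdd 3 j := Sum.inl.inj hij
      have h2 := congrArg Fin.val h1
      simp only [Fin.val_castAdd] at h2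
      rw [Fin.ext h2]
    · exact absurd hij (k5_ne s i j)
    · exact absurd hij.symm (k5_ne s j i)
    · change k5 s i = k5 s j at hij
      fin_cases i <;> fin_cases j <;> simp [k5, Fin.ext_iff] at hij ⊢
  · rintro (i | i) (j | j)
    · change i ≠ j ↔ Fin.castAdd 3 i ≠ Fin.castAdd 3 j
      rw [Ne, Ne, Fin.ext_iff, Fin.ext_iff, Fin.val_castAdd, Fin.val_castAdd]
    · exact iff_of_true trivial (k5_adj s i j)
    · exact iff_of_true trivial (k5_adj s j i).symm
    · change Kite.Adj i j ↔ (T s).Adj (k5 s i) (k5 s j)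
      have e2 : (Fin.natAdd s (2 : Fin 3)).val = s + 2 := rfl
      have e0 : (Fin.natAdd s (0 : Fin 3)).val = s + 0 := rfl
      have e1 : (Fin.natAdd s (1 : Fin 3)).val = s + 1 := rfl
      fin_cases i <;> fin_cases j
      · exact iff_of_false (by simp [Kite]) (fun h => (a1 _ _).1 h rfl)
      · exact iff_of_true (by simp [Kite]) ((a1 _ _).2 fun h => by
          have := congrArg Fin.val h
          omega)
      · exact iff_of_true (by simp [Kite]) ((a1 _ _).2 fun h => by
          have := congrArg Fin.val h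
          omega)
      · exact iff_of_true (by simp [Kite]) ((a3 (Fin.natAdd s 2) 0).2 (by omega))
      · exact iff_of_false (by simp [Kite]) fun h => by
          have := (a2 (Fin.natAdd s 2) 0).1 h
          omega
      · exact iff_of_true (by simp [Kite]) ((a1 _ _).2 fun h => by
          have := congrArg Fin.val h
          omega)
      · exact iff_of_false (by simp [Kite]) (fun h => (a1 _ _).1 h rfl)
      · exact iff_of_true (by simp [Kite]) ((a1 _ _).2 fun h => by
          have := congrArg Fin.val h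
          omega)
      · exact iff_of_false (by simp [Kite]) fun h => by
          have := (a3 (Fin.natAdd s 0) 0).1 h
          omega
      · exact iff_of_true (by simp [Kite]) ((a2 (Fin.natAdd s 0) 0).2 (by omega))
      · exact iff_of_true (by simp [Kite]) ((a1 _ _).2 fun h => by
          have := congrArg Fin.val h
          omega)
      · exact iff_of_true (by simp [Kite]) ((a1 _ _).2 fun h => by
          have := congrArg Fin.val h
          omega)
      · exact iff_of_false (by simp [Kite]) (fun h => (a1 _ _).1 h rfl)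
      · exact iff_of_false (by simp [Kite]) fun h => by
          have := (a3 (Fin.natAdd s 1) 0).1 h
          omega
      · exact iff_of_true (by simp [Kite]) ((a2 (Fin.natAdd s 1) 0).2 (by omega))
      · exact iff_of_true (by simp [Kite]) ((a3' (Fin.natAdd s 2) 0).2 (by omega))
      · exact iff_of_false (by simp [Kite]) fun h => by
          have := (a3' (Fin.natAdd s 0) 0).1 h
          omega
      · exact iff_of_false (by simp [Kite]) fun h => by
          have := (a3' (Fin.natAdd s 1) 0).1 h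
          omega
      · exact iff_of_false (by simp [Kite]) (fun h => (a4 _ _).1 h)
      · exact iff_of_false (by simp [Kite]) (fun h => (a4 _ _).1 h)
      · exact iff_of_false (by simp [Kite]) fun h => by
          have := (a2' (Fin.natAdd s 2) 0).1 h
          omega
      · exact iff_of_true (by simp [Kite]) ((a2' (Fin.natAdd s 0) 0).2 (by omega))
      · exact iff_of_true (by simp [Kite]) ((a2' (Fin.natAdd s 1) 0).2 (by omega))
      · exact iff_of_false (by simp [Kite]) (fun h => (a4 _ _).1 h)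
      · exact iff_of_false (by simp [Kite]) (fun h => (a4 _ _).1 h)

theorem kj_mono {W W' : Type} {A : SimpleGraph W} {B : SimpleGraph W'} (s : ℕ)
    (hAB : IsIndSub A B) : IsIndSub (KJ s A) (KJ s B) := by
  obtain ⟨φ, hφ, hadj⟩ := hAB
  refine ⟨Sum.map id φ, Function.injective_id.sumMap hφ, ?_⟩
  rintro (i | i) (j | j)
  · exact Iff.rfl
  · exact Iff.rfl
  · exact Iff.rfl
  · exact hadj i j

theorem sub1 : IsIndSub (JS ![1, 1, 2] 0) Kite := by
  refine ⟨f, Function.LeftInverse.injective gf, fun u v => ?_⟩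
  rw [adj_g, gf, gf]

end i3Aux

open i3Aux in
theorem i3 : S_I3 := by
  refine ⟨⟨sub1, g, Function.LeftInverse.injective fg, adj_g⟩, fun s => ?_⟩
  exact ⟨_, _, _, _, FDAux.indMinor_trans (FDAux.indMinor_of_indSub (kj_mono s sub1))
    (FDAux.indMinor_of_indSub (kj_kite s))⟩

end Pool.Agent.MPd439b2.F9
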