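import Pool.Agent.Lib.MP_d439b2_co.F9.SpecI
import Pool.Agent.Lib.MP_d439b2_co.S2DD
import Pool.Agent.Lib.MP_d439b2_co.B.FD
import Pool.Agent.Lib.MP_d439b2_co.B.Fin2

/-!
# MP_d439b2_co, F9/I4: the rows of the kite
-/

set_option autoImplicit false

namespace Pool.Agent.MPd439b2.F9

open Pool.Agent.MPd439b2 Pool.Agent.MPd439b2.KS

theorem i4 (hz : KS.S_Z2) (h2 : S_I2) (h3 : S_I3) : S_I4 := by
  intro hK W W' _ H H' s hS hT hH' hG
  have e1 : IsIndSub (KJn 0 H) H := by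
    refine ⟨fun x => match x with
      | Sum.inl i => Fin.elim0 i
      | Sum.inr w => w, ?_, ?_⟩
    · rintro (i | u) (j | v) huv
      · exact Fin.elim0 i
      · exact Fin.elim0 i
      · exact Fin.elim0 j
      · exact congrArg _ huv
    · rintro (i | u) (j | v)
      · exact Fin.elim0 i
      · exact Fin.elim0 i
      · exact Fin.elim0 j
      · exact Iff.rfl
  have e2 : IsIndSub H (KJn 0 H) := ⟨Sum.inr, Sum.inr_injective, fun u v => Iff.rfl⟩
  have e3 : IsIndMinor H H := FDAux.indMinor_of_indSub ⟨id, Function.injective_id, fun u v =>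
    Iff.rfl⟩
  obtain ⟨N, m, -, hD⟩ := s2DD W H hS
  have e4 : IsIndMinor (KJn 0 H) (DD N m) :=
    FDAux.indMinor_trans (FDAux.indMinor_of_indSub e1) (ims_univ_iff.mp hD)
  obtain ⟨N', m', r, l, hT'⟩ := h3.2 s
  have e5 : BoundedCW H (JS ![1, 1, 2] 0) := Fin2Aux.boundedCW_symm
    (fD.2 _ _ _ _ _ _ _ _ (FDAux.indMinor_of_indSub h3.1.1) e3 (hK W H hT))
  exact hz 0 s W W' W _ H H' H (JS ![1, 1, 2] 0) ⟨N, m, e4⟩ ⟨N', m', r, l, Or.inr hT'⟩
    (h2 ![1, 1, 2] 0) (FDAux.indMinor_of_indSub e2) hH' hG e5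

end Pool.Agent.MPd439b2.F9
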