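import Pool.Agent.Lib.MP_d439b2_co.F9.SpecI

/-!
# MP_d439b2_co, F9, I5: one base pair
-/

set_option autoImplicit false

namespace Pool.Agent.MPd439b2.F9

open Pool.Agent.MPd439b2 Pool.Agent.MPd439b2.KS

theorem i5 : (KS.S_Z2) → (S_I2) → S_I5 := by
  intro hZ2 hI2 j s W W' W₀ _ H H' H0 ℓ t hDT hB hH hH' hg
  obtain ⟨h1, N', m', r, l, h2⟩ := hDT
  exact hZ2 j s W W' W₀ _ H H' H0 (JS ℓ t) h1 ⟨N', m', r, l, Or.inl h2⟩ (hI2 ℓ t) hH hH' hg hB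

end Pool.Agent.MPd439b2.F9
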