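import Pool.Agent.Lib.MP_d439b2_co.F9.SpecI

/-!
# MP_d439b2_co, F9, I6: row `A`
-/

set_option autoImplicit false

namespace Pool.Agent.MPd439b2.F9

open Pool.Agent.MPd439b2 Pool.Agent.MPd439b2.KS

theorem i6 : (S_I1) → (S_I5) → S_I6 := by
  intro hI1 hI5 ℓ t s W W' H H' hB hH hH' hg
  exact hI5 1 s W W' _ H H' (KF 3 2 ![{0}, {1}]) ℓ t hI1.1 hB hH hH' hg

end Pool.Agent.MPd439b2.F9
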