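import Pool.Agent.Lib.MP_d439b2_co.F9.SpecI
import Pool.Agent.Lib.MP_d439b2_co.B.FD

/-!
# MP_d439b2_co, I7: row B
-/

set_option autoImplicit false

namespace Pool.Agent.MPd439b2.F9

open Pool.Agent.MPd439b2 Pool.Agent.MPd439b2.KS

namespace i7Aux

/-- adjacency in `KF m t N`, computable -/
def kfb (m t : ℕ) (N : Fin t → Finset (Fin m)) : Fin m ⊕ Fin t → Fin m ⊕ Fin t → Bool
  | Sum.inl i, Sum.inl j => decide (i ≠ j)
  | Sum.inl i, Sum.inr q => decide (i ∈ N q)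
  | Sum.inr q, Sum.inl i => decide (i ∈ N q)
  | Sum.inr _, Sum.inr _ => false

theorem kfb_iff {m t : ℕ} {N : Fin t → Finset (Fin m)} (u v : Fin m ⊕ Fin t) :
    (KF m t N).Adj u v ↔ kfb m t N u v = true := by
  rcases u with u | u <;> rcases v with v | v
  · change u ≠ v ↔ decide (u ≠ v) = true
    rw [decide_eq_true_iff]
  · change u ∈ (N v : Set (Fin m)) ↔ decide (u ∈ N v) = true
    rw [decide_eq_true_iff, Finset.mem_coe]
  · change v ∈ (N u : Set (Fin m)) ↔ decide (v ∈ N u) = true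
    rw [decide_eq_true_iff, Finset.mem_coe]
  · change False ↔ false = true
    simp

theorem sub_kj0 {W : Type} (H : SimpleGraph W) : IsIndSub H (KJ 0 H) :=
  ⟨Sum.inr, Sum.inr_injective, fun _ _ => Iff.rfl⟩

theorem kj0_sub {W : Type} (H : SimpleGraph W) : IsIndSub (KJ 0 H) H := by
  refine ⟨fun u => Sum.elim (fun i : Fin 0 => i.elim0) id u, ?_, ?_⟩
  · rintro (u | u) (v | v) h
    · exact u.elim0
    · exact u.elim0
    · exact v.elim0
    · exact congrArg Sum.inr h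
  · rintro (u | u) (v | v)
    · exact u.elim0
    · exact u.elim0
    · exact v.elim0
    · exact Iff.rfl

theorem dt_kj0 {W : Type} {H : SimpleGraph W} (h : DT H) : DT (KJ 0 H) := by
  have h0 : IsIndMinor (KJ 0 H) H := FDAux.indMinor_of_indSub (kj0_sub H)
  obtain ⟨⟨N, m, h1⟩, N', m', r, l, h2⟩ := h
  exact ⟨⟨N, m, FDAux.indMinor_trans h0 h1⟩, N', m', r, l, FDAux.indMinor_trans h0 h2⟩

theorem bcw_left {W W' W₂ : Type} {H : SimpleGraph W} {H' : SimpleGraph W'} {J : SimpleGraph W₂}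
    (h : IsIndSub H H') (hb : BoundedCW H' J) : BoundedCW H J := by
  obtain ⟨c, hc⟩ := hb
  exact ⟨c, fun V _ _ G h1 h2 => hc V G
    (fun h3 => h1 (FDAux.indMinor_trans (FDAux.indMinor_of_indSub h) h3)) h2⟩

theorem sub4 : IsIndSub (KF 2 3 ![{0}, {0}, {1}]) (KF 3 3 ![{0}, {0, 1}, {1, 2}]) := by
  refine ⟨fun u => Sum.elim (fun i => Sum.inl (![0, 2] i)) Sum.inr u, by decide, ?_⟩
  intro u v
  rw [kfb_iff, kfb_iff]
  revert u v
  decide

theorem sub5 : IsIndSub (KF 2 3 ![∅, {0}, {1}]) (KF 3 3 ![{0}, {1}, {0, 2}]) := by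
  refine ⟨fun u => Sum.elim (fun i => Sum.inl (![2, 1] i)) (fun q => Sum.inr (![0, 2, 1] q)) u,
    by decide, ?_⟩
  intro u v
  rw [kfb_iff, kfb_iff]
  revert u v
  decide

end i7Aux

open i7Aux

theorem i7 (h1 : S_I1) (h5 : S_I5) : S_I7 := by
  intro ℓ t s W W' H H' hB hH hH' hg
  obtain ⟨-, d2, d3, d4, d5, d6, -⟩ := h1
  obtain ⟨b1, b2, b3⟩ := hB
  rcases hH with h | h | h | h | h
  · exact h5 1 s W W' _ H H' (KF 4 2 ![{0}, {1}]) ℓ t d2 b1 h hH' hg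
  · exact h5 0 s W W' _ H H' (KF 3 3 ![{0}, {0, 1}, {1, 2}]) ℓ t (dt_kj0 d5) b2
      (FDAux.indMinor_trans h (FDAux.indMinor_of_indSub (sub_kj0 _))) hH' hg
  · exact h5 0 s W W' _ H H' (KF 3 3 ![{0}, {1}, {0, 2}]) ℓ t (dt_kj0 d6) b3
      (FDAux.indMinor_trans h (FDAux.indMinor_of_indSub (sub_kj0 _))) hH' hg
  · exact h5 1 s W W' _ H H' (KF 2 3 ![{0}, {0}, {1}]) ℓ t d3 (bcw_left sub4 b2) h hH' hg
  · exact h5 1 s W W' _ H H' (KF 2 3 ![∅, {0}, {1}]) ℓ t d4 (bcw_left sub5 b3) h hH' hg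

end Pool.Agent.MPd439b2.F9
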