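import Pool.Agent.Lib.MP_d439b2_co.F9.SpecI
import Pool.Agent.Lib.MP_d439b2_co.B.FD

/-!
# MP_d439b2_co, F9, I8: row `C`
-/

set_option autoImplicit false

namespace Pool.Agent.MPd439b2.F9

open Pool.Agent.MPd439b2 Pool.Agent.MPd439b2.KS

namespace i8Aux

/-- `KJ 0 J` is an induced subgraph of `J` -/
theorem kJ0_le {W : Type} (J : SimpleGraph W) : IsIndSub (KJ 0 J) J := by
  refine ⟨Sum.elim (fun i => i.elim0) id, ?_, ?_⟩
  · rintro (i | u) (j | v) h
    · exact i.elim0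
    · exact i.elim0
    · exact j.elim0
    · exact congrArg Sum.inr h
  · rintro (i | u) (j | v)
    · exact i.elim0
    · exact i.elim0
    · exact j.elim0
    · exact Iff.rfl

/-- `J` is an induced subgraph of `KJ 0 J` -/
theorem le_kJ0 {W : Type} (J : SimpleGraph W) : IsIndSub J (KJ 0 J) :=
  ⟨Sum.inr, Sum.inr_injective, fun _ _ => Iff.rfl⟩

theorem dT_kJ0 {W : Type} {J : SimpleGraph W} (h : DT J) : DT (KJ 0 J) := by
  have h0 := FDAux.indMinor_of_indSub (kJ0_le J)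
  obtain ⟨⟨N, m, h1⟩, N', m', r, l, h2⟩ := h
  exact ⟨⟨N, m, FDAux.indMinor_trans h0 h1⟩, N', m', r, l, FDAux.indMinor_trans h0 h2⟩

end i8Aux

open i8Aux in
theorem i8 : (S_I1) → (S_I5) → S_I8 := by
  intro hI1 hI5 ℓ t s W W' H H' hB hH hH' hg
  obtain ⟨-, -, -, -, -, -, h⟩ := hI1
  exact hI5 0 s W W' _ H H' (KF 4 2 ![{0}, {1, 2}]) ℓ t (dT_kJ0 h) hB
    (FDAux.indMinor_trans hH (FDAux.indMinor_of_indSub (le_kJ0 _))) hH' hg

end Pool.Agent.MPd439b2.F9
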