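import Pool.Agent.Lib.MP_d439b2_co.F9.SpecI
import Pool.Agent.Lib.MP_d439b2_co.B.FD

/-!
# MP_d439b2_co, I9: the known single graphs
-/

set_option autoImplicit false

namespace Pool.Agent.MPd439b2.F9

open Pool.Agent.MPd439b2 Pool.Agent.MPd439b2.KS

namespace i9Aux

/-- adjacency in the grid, computable -/
def gridb (n : ℕ) (u v : Fin n × Fin n) : Bool :=
  decide ((u.1 = v.1 ∧ (u.2.val = v.2.val + 1 ∨ v.2.val = u.2.val + 1)) ∨
    (u.2 = v.2 ∧ (u.1.val = v.1.val + 1 ∨ v.1.val = u.1.val + 1)))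

theorem gridb_iff {n : ℕ} (u v : Fin n × Fin n) : (grid n).Adj u v ↔ gridb n u v = true := by
  unfold gridb
  rw [decide_eq_true_iff]
  exact Iff.rfl

/-- adjacency in the gem, computable -/
def gemb (i j : Fin 5) : Bool :=
  decide (i ≠ j ∧ (i.val = 4 ∨ j.val = 4 ∨ i.val = j.val + 1 ∨ j.val = i.val + 1))

theorem gemb_iff (i j : Fin 5) : gem.Adj i j ↔ gemb i j = true := by
  unfold gemb
  rw [decide_eq_true_iff]
  exact Iff.rfl

/-- adjacency in `co2P1P3`, computable -/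
def cob (i j : Fin 5) : Bool :=
  decide (i ≠ j ∧ (i.val < 2 ∨ j.val < 2 ∨ (i.val < 4 ∧ j.val < 4)))

theorem cob_iff (i j : Fin 5) : co2P1P3.Adj i j ↔ cob i j = true := by
  unfold cob
  rw [decide_eq_true_iff]
  exact Iff.rfl

theorem conn_of_rank {V : Type} (G : SimpleGraph V) (B : Set V) (r : V) (hr : r ∈ B) (ρ : V → ℕ)
    (h : ∀ x ∈ B, x ≠ r → ∃ y ∈ B, ρ y < ρ x ∧ G.Adj x y) : Conn G B := by
  classical
  refine ⟨⟨r, hr⟩, ?_⟩
  intro C hC hne hne'
  by_cases hrC : r ∈ C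
  · have hex : ∃ k, ∃ x ∈ B \ C, ρ x = k := by
      by_contra hcon
      apply hne'
      refine Set.Subset.antisymm hC ?_
      intro x hx
      by_contra hxC
      exact hcon ⟨ρ x, x, ⟨hx, hxC⟩, rfl⟩
    obtain ⟨x, hx, hxk⟩ := Nat.find_spec hex
    have hxr : x ≠ r := fun h' => hx.2 (h' ▸ hrC)
    obtain ⟨y, hy, hyx, hadj⟩ := h x hx.1 hxr
    by_cases hyC : y ∈ C
    · exact ⟨y, hyC, x, hx, hadj.symm⟩
    · exact absurd ⟨y, ⟨hy, hyC⟩, rfl⟩ (Nat.find_min hex (show ρ y < Nat.find hex by omega))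
  · have hex : ∃ k, ∃ x ∈ C, ρ x = k := by
      obtain ⟨x, hx⟩ := hne
      exact ⟨ρ x, x, hx, rfl⟩
    obtain ⟨x, hx, hxk⟩ := Nat.find_spec hex
    have hxr : x ≠ r := fun h' => hrC (h' ▸ hx)
    obtain ⟨y, hy, hyx, hadj⟩ := h x (hC hx) hxr
    by_cases hyC : y ∈ C
    · exact absurd ⟨y, hyC, rfl⟩ (Nat.find_min hex (show ρ y < Nat.find hex by omega))
    · exact ⟨x, hx, y, ⟨hy, hyC⟩, hadj⟩

theorem inGrid_of {n : ℕ} (H : SimpleGraph (Fin 5)) (c : Fin n × Fin n → Option (Fin 5))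
    (r : Fin 5 → Fin n × Fin n) (ρ : Fin n × Fin n → ℕ) (hr : ∀ w, c (r w) = some w)
    (hc : ∀ x w, c x = some w → x ≠ r w → ∃ y, c y = some w ∧ ρ y < ρ x ∧ gridb n x y = true)
    (ha : ∀ w w', w ≠ w' → H.Adj w w' →
      ∃ x, c x = some w ∧ ∃ y, c y = some w' ∧ gridb n x y = true)
    (hb : ∀ x y, gridb n x y = true → ∀ w w', c x = some w → c y = some w' → w ≠ w' →
      H.Adj w w') : InGrid H := by
  refine ⟨n, ims_univ_iff.mp ⟨fun w => {x | c x = some w}, fun w => Set.subset_univ _, ?_, ?_,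
    ?_⟩⟩
  · intro w
    refine conn_of_rank _ _ (r w) (hr w) ρ ?_
    intro x hx hxr
    obtain ⟨y, hy, hyx, hadj⟩ := hc x w hx hxr
    exact ⟨y, hy, hyx, (gridb_iff x y).mpr hadj⟩
  · intro w w' hne
    rw [Set.disjoint_left]
    intro x hx hx'
    have h1 : c x = some w := hx
    have h2 : c x = some w' := hx'
    rw [h1] at h2
    exact hne (Option.some.inj h2)
  · intro w w' hne
    constructor
    · intro h
      obtain ⟨x, hx, y, hy, hadj⟩ := ha w w' hne h
      exact ⟨x, hx, y, hy, (gridb_iff x y).mpr hadj⟩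
    · rintro ⟨x, hx, y, hy, hadj⟩
      exact hb x y ((gridb_iff x y).mp hadj) w w' hx hy hne

/-- the model of the gem in the grid -/
def cg (v : Fin 4 × Fin 4) : Option (Fin 5) :=
  if v.1 = 0 then some (Fin.castSucc v.2) else if v.1 = 1 then some 4 else none

/-- the model of `co2P1P3` in the grid -/
def cc (v : Fin 4 × Fin 4) : Option (Fin 5) :=
  if v.1 = 0 then some 0 else if v.1 = 1 then ![some 2, some 3, some 0, some 4] v.2 else
    if v.1 = 2 then some 1 else none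

theorem grid_gem : InGrid gem := by
  refine inGrid_of gem cg ![(0, 0), (0, 1), (0, 2), (0, 3), (1, 0)]
    (fun v => 4 * v.1.val + v.2.val) (by decide) (by decide) ?_ ?_
  · intro w w' hne h
    rw [gemb_iff] at h
    revert w w'
    decide
  · intro x y h w w' hx hy hne
    rw [gemb_iff]
    revert x y w w'
    decide

theorem grid_co : InGrid co2P1P3 := by
  refine inGrid_of co2P1P3 cc ![(0, 0), (2, 0), (1, 0), (1, 1), (1, 3)]
    (fun v => 4 * v.1.val + v.2.val) (by decide) (by decide) ?_ ?_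
  · intro w w' hne h
    rw [cob_iff] at h
    revert w w'
    decide
  · intro x y h w w' hx hy hne
    rw [cob_iff]
    revert x y w w'
    decide

theorem two_le {W : Type} {S : Set W} (a b : W) (h : ∀ x ∈ S, x = a ∨ x = b) : S.encard ≤ 2 := by
  have h1 : S ⊆ {a, b} := fun x hx => h x hx
  refine (Set.encard_le_encard h1).trans ((Set.encard_insert_le _ _).trans ?_)
  rw [Set.encard_singleton]
  exact le_of_eq one_add_one_eq_two

theorem s2_gem : InS2 gem := by
  refine ⟨{x | x = 1 ∨ x = 2 ∨ x = 4}, ?_, ?_, ?_⟩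
  · intro u hu v hv hne
    rw [gemb_iff]
    change u = 1 ∨ u = 2 ∨ u = 4 at hu
    change v = 1 ∨ v = 2 ∨ v = 4 at hv
    revert u v
    decide
  · intro u hu v hv
    rw [gemb_iff]
    change ¬ (u = 1 ∨ u = 2 ∨ u = 4) at hu
    change ¬ (v = 1 ∨ v = 2 ∨ v = 4) at hv
    revert u v
    decide
  · intro v hv
    change ¬ (v = 1 ∨ v = 2 ∨ v = 4) at hv
    have h03 : v = 0 ∨ v = 3 := by
      revert v
      decide
    rcases h03 with rfl | rfl
    · refine two_le 1 4 ?_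
      intro x hx
      have hx' : gem.Adj 0 x := hx
      rw [gemb_iff] at hx'
      clear hx
      revert x
      decide
    · refine two_le 2 4 ?_
      intro x hx
      have hx' : gem.Adj 3 x := hx
      rw [gemb_iff] at hx'
      clear hx
      revert x
      decide

theorem kp4_gem : IsKP4 gem := by
  refine ⟨![some 0, some 1, some 2, some 3, none], by decide, ?_⟩
  intro u v hne
  rw [gemb_iff]
  revert u v
  decide

theorem s2_co : InS2 co2P1P3 := by
  refine ⟨{x | x ≠ 4}, ?_, ?_, ?_⟩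
  · intro u hu v hv hne
    rw [cob_iff]
    change u ≠ 4 at hu
    change v ≠ 4 at hv
    revert u v
    decide
  · intro u hu v hv
    rw [cob_iff]
    change ¬ (u ≠ 4) at hu
    change ¬ (v ≠ 4) at hv
    revert u v
    decide
  · intro v hv
    change ¬ (v ≠ 4) at hv
    have h4 : v = 4 := not_not.mp hv
    subst h4
    refine two_le 0 1 ?_
    intro x hx
    have hx' : co2P1P3.Adj 4 x := hx
    rw [cob_iff] at hx'
    clear hx
    revert x
    decide

/-- the map into the nets -/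
def fn (v : Fin 5) : Fin 3 × Fin 3 × ℕ :=
  ![(1, 0, 1), (2, 0, 1), (0, 0, 1), (0, 0, 3), (0, 0, 2)] v

theorem cot_co : InCoT co2P1P3 := by
  refine ⟨Fin 3, fn, by decide, ?_, ?_⟩
  · intro u v huv
    obtain ⟨h1, h2⟩ := huv
    have h2' : ¬ co2P1P3.Adj u v := h2
    rw [cob_iff] at h2'
    change fn u ≠ fn v ∧ (fn u).1 = (fn v).1 ∧
      (((fn u).2.1 = (fn v).2.1 ∧ ((fn u).2.2 = (fn v).2.2 + 1 ∨ (fn v).2.2 = (fn u).2.2 + 1)) ∨
        ((fn u).2.2 = 0 ∧ (fn v).2.2 = 0))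
    have h1' : u ≠ v := h1
    clear h1 h2
    revert u v
    decide
  · intro u v _ _ hu
    exfalso
    have key : ∀ u : Fin 5, (fn u).2.2 ≠ 0 := by decide
    exact key u hu

theorem kc_co : IsIndSub co2P1P3 (KC 2) := by
  refine ⟨![Sum.inl 0, Sum.inl 1, Sum.inr 0, Sum.inr 1, Sum.inr 3], by decide, ?_⟩
  intro u v
  rw [cob_iff]
  fin_cases u <;> fin_cases v <;> simp [cob, KC]

end i9Aux

open i9Aux

theorem i9 : S_I9 := by
  intro hG W W' H H' hK
  rcases hK with h | h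
  · obtain ⟨c, hc⟩ := hG _ _ gem gem ⟨Or.inl grid_gem, Or.inl ⟨s2_gem, Or.inr (Or.inl kp4_gem)⟩⟩
    refine ⟨c, fun V _ _ G h1 _ => ?_⟩
    have h3 : ¬ IsIndMinor gem G := fun h4 =>
      h1 (FDAux.indMinor_trans (FDAux.indMinor_of_indSub h) h4)
    exact hc V G h3 h3
  · obtain ⟨c, hc⟩ := hG _ _ co2P1P3 co2P1P3 ⟨Or.inl grid_co, Or.inl ⟨s2_co,
      Or.inr (Or.inr (Or.inr ⟨cot_co, grid_co, 2, kc_co⟩))⟩⟩
    refine ⟨c, fun V _ _ G h1 _ => ?_⟩
    have h3 : ¬ IsIndMinor co2P1P3 G := fun h4 =>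
      h1 (FDAux.indMinor_trans (FDAux.indMinor_of_indSub h) h4)
    exact hc V G h3 h3

end Pool.Agent.MPd439b2.F9
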