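import Pool.Agent.Lib.MP_d439b2_co.F9.SpecN

/-!
# MP_d439b2_co, N0: the component of a vertex is a spider
-/

set_option autoImplicit false

namespace Pool.Agent.MPd439b2.F9

open Pool.Agent.MPd439b2

namespace n0Aux

/-- longest chains -/
theorem chain {W P : Type} [Finite W] (D : SimpleGraph W) (f : W → P) (q : ℕ → P)
    (hq : Function.Injective q) (x : W) :
    ∃ (l : ℕ) (w : ℕ → W), w 0 = x ∧ (∀ k < l, f (w (k + 1)) = q k ∧ D.Adj (w k) (w (k + 1))) ∧
      ∀ z, f z = q l → ¬ D.Adj (w l) z := by
  classical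
  have := Fintype.ofFinite W
  let Q : ℕ → Prop := fun l => ∃ w : ℕ → W, w 0 = x ∧
    ∀ k < l, f (w (k + 1)) = q k ∧ D.Adj (w k) (w (k + 1))
  have hB : ∀ l, Q l → l ≤ Fintype.card W := by
    rintro l ⟨w, _, hw⟩
    have h1 : Function.Injective (fun k : Fin l => w (k.val + 1)) := by
      intro i j hij
      have h2 := (hw i.val i.2).1
      have h3 := (hw j.val j.2).1
      have hij' : w (i.val + 1) = w (j.val + 1) := hij
      rw [hij', h3] at h2
      exact Fin.ext (hq h2).symm
    have h2 := Fintype.card_le_of_injective _ h1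
    rwa [Fintype.card_fin] at h2
  have h0 : Q 0 := ⟨fun _ => x, rfl, fun k hk => absurd hk (Nat.not_lt_zero k)⟩
  obtain ⟨w, hw0, hw⟩ : Q (Nat.findGreatest Q (Fintype.card W)) :=
    Nat.findGreatest_spec (P := Q) (Nat.zero_le _) h0
  refine ⟨Nat.findGreatest Q (Fintype.card W), w, hw0, hw, ?_⟩
  intro z hz hadj
  have h1 : Q (Nat.findGreatest Q (Fintype.card W) + 1) := by
    refine ⟨fun k => if k = Nat.findGreatest Q (Fintype.card W) + 1 then z else w k, ?_, ?_⟩
    · beta_reduce
      rw [if_neg (by omega)]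
      exact hw0
    · intro k hk
      beta_reduce
      by_cases hkl : k = Nat.findGreatest Q (Fintype.card W)
      · rw [if_pos (by omega), if_neg (by omega)]
        refine ⟨by rw [hkl]; exact hz, by rw [hkl]; exact hadj⟩
      · rw [if_neg (by omega), if_neg (by omega)]
        exact hw k (by omega)
  have h2 := Nat.le_findGreatest (hB _ h1) h1
  omega

/-- assembly of the spider -/
theorem fin {W P : Type} (D : SimpleGraph W) (T : SimpleGraph P) (f : W → P)
    (hf : Function.Injective f) (hT : ∀ u v, D.Adj u v → T.Adj (f u) (f v)) (x : W)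
    (ℓ : Fin 3 → ℕ) (w : Fin 3 → ℕ → W) (q : Fin 3 → ℕ → P)
    (w0 : ∀ i, w i 0 = x)
    (h1 : ∀ i, ∀ k < ℓ i, f (w i (k + 1)) = q i k ∧ D.Adj (w i k) (w i (k + 1)))
    (h2 : ∀ i z, f z = q i (ℓ i) → ¬ D.Adj (w i (ℓ i)) z)
    (q1 : ∀ i k, 0 < ℓ i → q i k ≠ f x)
    (q1' : ∀ i j k k', 0 < ℓ i → 0 < ℓ j → q i k = q j k' → i = j ∧ k = k')
    (q2 : ∀ z, D.Adj x z → ∃ i, f z = q i 0)
    (q3 : ∀ i k z, 0 < ℓ i → T.Adj (q i k) z → z = q i (k + 1) ∨ (k = 0 ∧ z = f x) ∨
      (0 < k ∧ z = q i (k - 1))) :
    ∃ (ℓ : Fin 3 → ℕ) (e : Option (Σ i : Fin 3, Fin (ℓ i)) → W), Function.Injective e ∧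
      (∀ u v, D.Adj (e u) (e v) ↔ (Spid ℓ).Adj u v) ∧
      (∀ u w, D.Adj (e u) w → w ∈ Set.range e) ∧ x ∈ Set.range e := by
  let e : Option (Σ i : Fin 3, Fin (ℓ i)) → W := fun u =>
    match u with
    | none => x
    | some v => w v.1 (v.2.val + 1)
  have en : e none = x := rfl
  have es : ∀ (i : Fin 3) (k : Fin (ℓ i)), e (some ⟨i, k⟩) = w i (k.val + 1) := fun _ _ => rfl
  have ef : ∀ (i : Fin 3) (k : Fin (ℓ i)), f (w i (k.val + 1)) = q i k.val :=
    fun i k => (h1 i k.val k.2).1
  have pos : ∀ (i : Fin 3) (k : Fin (ℓ i)), 0 < ℓ i := fun i k => lt_of_le_of_lt (Nat.zero_le _) k.2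
  refine ⟨ℓ, e, ?_, ?_, ?_, ⟨none, rfl⟩⟩
  · rintro (_ | ⟨i, k⟩) (_ | ⟨j, k'⟩) h
    · rfl
    · rw [en, es] at h
      exact absurd (by rw [h, ef] : f x = q j k'.val).symm (q1 j _ (pos j k'))
    · rw [en, es] at h
      exact absurd (by rw [← h, ef] : f x = q i k.val).symm (q1 i _ (pos i k))
    · rw [es, es] at h
      have h3 : q i k.val = q j k'.val := by rw [← ef, ← ef, h]
      obtain ⟨h4, h5⟩ := q1' i j _ _ (pos i k) (pos j k') h3
      subst h4
      have h6 : k = k' := Fin.ext h5
      rw [h6]
  · rintro (_ | ⟨i, k⟩) (_ | ⟨j, k'⟩)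
    · rw [en]
      exact ⟨fun h => absurd rfl h.ne, fun h => absurd h id⟩
    · rw [en, es]
      show _ ↔ k'.val = 0
      constructor
      · intro h
        have h3 := hT _ _ h.symm
        rw [ef] at h3
        rcases q3 j k'.val _ (pos j k') h3 with h4 | h4 | h4
        · exact absurd h4.symm (q1 j _ (pos j k'))
        · exact h4.1
        · exact absurd h4.2.symm (q1 j _ (pos j k'))
      · intro h
        have h3 := (h1 j 0 (pos j k')).2
        rw [w0] at h3
        rw [h]
        exact h3
    · rw [en, es]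
      show _ ↔ k.val = 0
      constructor
      · intro h
        have h3 := hT _ _ h
        rw [ef] at h3
        rcases q3 i k.val _ (pos i k) h3 with h4 | h4 | h4
        · exact absurd h4.symm (q1 i _ (pos i k))
        · exact h4.1
        · exact absurd h4.2.symm (q1 i _ (pos i k))
      · intro h
        have h3 := (h1 i 0 (pos i k)).2
        rw [w0] at h3
        rw [h]
        exact h3.symm
    · rw [es, es]
      show _ ↔ i = j ∧ (k.val + 1 = k'.val ∨ k'.val + 1 = k.val)
      constructor
      · intro h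
        have h3 := hT _ _ h
        rw [ef, ef] at h3
        rcases q3 i k.val _ (pos i k) h3 with h4 | h4 | h4
        · obtain ⟨h5, h6⟩ := q1' j i _ _ (pos j k') (pos i k) h4
          exact ⟨h5.symm, Or.inl h6.symm⟩
        · exact absurd h4.2 (q1 j _ (pos j k'))
        · obtain ⟨h5, h6⟩ := q1' j i _ _ (pos j k') (pos i k) h4.2
          exact ⟨h5.symm, Or.inr (by omega)⟩
      · rintro ⟨h3, h4⟩
        subst h3
        rcases h4 with h4 | h4
        · have h5 := (h1 i (k.val + 1) (by rw [h4]; exact k'.2)).2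
          rw [← h4]
          exact h5
        · have h5 := (h1 i (k'.val + 1) (by rw [h4]; exact k.2)).2
          rw [← h4]
          exact h5.symm
  · rintro (_ | ⟨i, k⟩) z h
    · rw [en] at h
      obtain ⟨i, hi⟩ := q2 z h
      by_cases hℓ : 0 < ℓ i
      · refine ⟨some ⟨i, ⟨0, hℓ⟩⟩, hf ?_⟩
        rw [es, ef, hi]
      · have h3 : ℓ i = 0 := by omega
        have h4 := h2 i z (by rw [h3]; exact hi)
        rw [h3, w0] at h4
        exact absurd h h4
    · rw [es] at h
      have h3 := hT _ _ h
      rw [ef] at h3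
      rcases q3 i k.val _ (pos i k) h3 with h4 | h4 | h4
      · by_cases hk : k.val + 1 < ℓ i
        · refine ⟨some ⟨i, ⟨k.val + 1, hk⟩⟩, hf ?_⟩
          rw [es, ef, h4]
        · have h5 : k.val + 1 = ℓ i := by have := k.2; omega
          rw [h5] at h4 h
          exact absurd h (h2 i z h4)
      · exact ⟨none, hf (by rw [en, h4.2])⟩
      · refine ⟨some ⟨i, ⟨k.val - 1, by have := k.2; omega⟩⟩, hf ?_⟩
        rw [es, ef, h4.2]

/-- distance to the centre -/
def dT {ι : Type} (u : ι × Fin 3 × ℕ) : ℕ := if u.2.1 = 0 then u.2.2 else u.2.2 + 1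

theorem adj_iff {ι : Type} {c c' : ι} {i i' : Fin 3} {k k' : ℕ}
    (h : (tripods ι).Adj (c, i, k) (c', i', k')) : c = c' ∧ ((i = i' ∧ (k = k' + 1 ∨ k' = k + 1)) ∨
      (k = 0 ∧ k' = 0 ∧ (i = 0 ∨ i' = 0) ∧ i ≠ i')) := by
  obtain ⟨h1, h2, h3⟩ := h
  refine ⟨h2, ?_⟩
  rcases h3 with h3 | h3
  · exact Or.inl h3
  · refine Or.inr ⟨h3.1, h3.2.1, h3.2.2, fun h4 => h1 ?_⟩
    have h5 : c = c' := h2
    have h6 : k = 0 := h3.1
    have h7 : k' = 0 := h3.2.1
    rw [h5, h4, h6, h7]

end n0Aux

open n0Aux

theorem n0 : S_N0 := by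
  intro W _ H hH
  obtain ⟨ι, f, hf, hT⟩ := hH
  have key : ∀ n : ℕ, ∀ x : W, dT (f x) = n →
      ∃ (ℓ : Fin 3 → ℕ) (e : Option (Σ i : Fin 3, Fin (ℓ i)) → W), Function.Injective e ∧
        (∀ u v, Hᶜ.Adj (e u) (e v) ↔ (Spid ℓ).Adj u v) ∧
        (∀ u w, Hᶜ.Adj (e u) w → w ∈ Set.range e) ∧ x ∈ Set.range e := by
    intro n
    induction n using Nat.strong_induction_on with
    | _ n ih =>
    intro x hx
    by_cases hc : ∃ y, Hᶜ.Adj x y ∧ dT (f y) < dT (f x)
    · obtain ⟨y, hxy, hlt⟩ := hc
      obtain ⟨ℓ, e, e1, e2, e3, u, hu⟩ := ih (dT (f y)) (by omega) y rfl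
      refine ⟨ℓ, e, e1, e2, e3, e3 u x ?_⟩
      rw [hu]
      exact hxy.symm
    · push Not at hc
      rcases hfx : f x with ⟨c, i₀, k₀⟩
      by_cases hcen : i₀ = 0 ∧ k₀ = 0
      · obtain ⟨rfl, rfl⟩ := hcen
        let q : Fin 3 → ℕ → ι × Fin 3 × ℕ := fun i k => if i = 0 then (c, 0, k + 1) else (c, i, k)
        have q0 : ∀ k, q 0 k = (c, 0, k + 1) := fun k => if_pos rfl
        have qs : ∀ i k, i ≠ 0 → q i k = (c, i, k) := fun i k h => if_neg h
        have qinj : ∀ i, Function.Injective (q i) := by
          intro i k k' h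
          by_cases hi : i = 0
          · subst hi
            rw [q0, q0, Prod.mk.injEq, Prod.mk.injEq] at h
            omega
          · rw [qs _ _ hi, qs _ _ hi, Prod.mk.injEq, Prod.mk.injEq] at h
            exact h.2.2
        choose ℓ w w0 hw1 hw2 using fun i => chain Hᶜ f (q i) (qinj i) x
        refine fin Hᶜ (tripods ι) f hf hT x ℓ w q w0 hw1 hw2 ?_ ?_ ?_ ?_
        · intro i k _ h
          rw [hfx] at h
          by_cases hi : i = 0
          · subst hi
            rw [q0, Prod.mk.injEq, Prod.mk.injEq] at h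
            omega
          · rw [qs _ _ hi, Prod.mk.injEq, Prod.mk.injEq] at h
            exact hi h.2.1
        · intro i j k k' _ _ h
          by_cases hi : i = 0 <;> by_cases hj : j = 0
          · subst hi
            subst hj
            exact ⟨rfl, qinj 0 h⟩
          · subst hi
            rw [q0, qs _ _ hj, Prod.mk.injEq, Prod.mk.injEq] at h
            exact absurd h.2.1.symm hj
          · subst hj
            rw [q0, qs _ _ hi, Prod.mk.injEq, Prod.mk.injEq] at h
            exact absurd h.2.1 hi
          · rw [qs _ _ hi, qs _ _ hj, Prod.mk.injEq, Prod.mk.injEq] at h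
            exact ⟨h.2.1, h.2.2⟩
        · intro z hz
          have h3 := hT _ _ hz
          rw [hfx] at h3
          rcases hfz : f z with ⟨c', i', k'⟩
          rw [hfz] at h3
          obtain ⟨rfl, h4 | h4⟩ := adj_iff h3
          · refine ⟨0, ?_⟩
            rw [q0]
            have h5 : k' = 0 + 1 := by omega
            rw [← h4.1, h5]
          · refine ⟨i', ?_⟩
            rw [qs _ _ h4.2.2.2.symm, h4.2.1]
        · intro i k z _ h
          obtain ⟨c', i', k'⟩ := z
          by_cases hi : i = 0
          · subst hi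
            rw [q0] at h
            obtain ⟨rfl, h4 | h4⟩ := adj_iff h
            · obtain ⟨rfl, h5⟩ := h4
              rcases h5 with h5 | h5
              · have h6 : k' = k := by omega
                subst h6
                by_cases hk : k' = 0
                · subst hk
                  exact Or.inr (Or.inl ⟨rfl, by rw [hfx]⟩)
                · refine Or.inr (Or.inr ⟨by omega, ?_⟩)
                  rw [q0, show k' - 1 + 1 = k' by omega]
              · refine Or.inl ?_
                rw [q0, h5]
            · exact absurd h4.1 (by omega)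
          · rw [qs _ _ hi] at h
            obtain ⟨rfl, h4 | h4⟩ := adj_iff h
            · obtain ⟨rfl, h5⟩ := h4
              rcases h5 with h5 | h5
              · refine Or.inr (Or.inr ⟨by omega, ?_⟩)
                rw [qs _ _ hi, h5, Nat.add_sub_cancel]
              · refine Or.inl ?_
                rw [qs _ _ hi, h5]
            · obtain ⟨h5, h6, h7, h8⟩ := h4
              refine Or.inr (Or.inl ⟨h5, ?_⟩)
              rw [hfx, h6, h7.resolve_left hi]
      · let q : Fin 3 → ℕ → ι × Fin 3 × ℕ := fun i k => if i = 0 then (c, i₀, k₀ + 1 + k) else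
          (c, i₀, k₀)
        have q0 : ∀ k, q 0 k = (c, i₀, k₀ + 1 + k) := fun k => if_pos rfl
        have qs : ∀ i k, i ≠ 0 → q i k = (c, i₀, k₀) := fun i k h => if_neg h
        have qinj : Function.Injective (q 0) := by
          intro k k' h
          rw [q0, q0, Prod.mk.injEq, Prod.mk.injEq] at h
          omega
        obtain ⟨l, w, w0, hw1, hw2⟩ := chain Hᶜ f (q 0) qinj x
        let ℓ : Fin 3 → ℕ := fun i => if i = 0 then l else 0
        have l0 : ℓ 0 = l := if_pos rfl
        have ls : ∀ i, i ≠ 0 → ℓ i = 0 := fun i h => if_neg h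
        have lpos : ∀ i, 0 < ℓ i → i = 0 := by
          intro i h
          by_contra hi
          rw [ls i hi] at h
          exact absurd h (lt_irrefl 0)
        refine fin Hᶜ (tripods ι) f hf hT x ℓ (fun _ => w) q (fun _ => w0) ?_ ?_ ?_ ?_ ?_ ?_
        · intro i k hk
          have hi := lpos i (by omega)
          subst hi
          exact hw1 k (by rwa [l0] at hk)
        · intro i z hz
          by_cases hi : i = 0
          · subst hi
            rw [l0] at hz ⊢
            exact hw2 z hz
          · rw [qs _ _ hi, ← hfx] at hz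
            rw [ls i hi, w0, hf hz]
            exact fun h => h.ne rfl
        · intro i k hi h
          have hi := lpos i hi
          subst hi
          rw [q0, hfx, Prod.mk.injEq, Prod.mk.injEq] at h
          omega
        · intro i j k k' hi hj h
          have hi := lpos i hi
          have hj := lpos j hj
          subst hi
          subst hj
          exact ⟨rfl, qinj h⟩
        · intro z hz
          have h3 := hT _ _ hz
          have h9 := hc z hz
          rw [hfx] at h3 h9
          rcases hfz : f z with ⟨c', i', k'⟩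
          rw [hfz] at h3 h9
          have hd1 : dT (c, i₀, k₀) = if i₀ = 0 then k₀ else k₀ + 1 := rfl
          have hd2 : dT (c', i', k') = if i' = 0 then k' else k' + 1 := rfl
          obtain ⟨rfl, h4 | h4⟩ := adj_iff h3
          · obtain ⟨rfl, h5⟩ := h4
            rcases h5 with h5 | h5
            · exfalso
              rw [hd1, hd2] at h9
              split_ifs at h9 <;> omega
            · refine ⟨0, ?_⟩
              rw [q0, h5, Nat.add_zero]
          · exfalso
            obtain ⟨h5, h6, h7, h8⟩ := h4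
            rcases h7 with h7 | h7
            · exact hcen ⟨h7, h5⟩
            · rw [hd1, hd2, h7] at h9
              rw [h7] at h8
              rw [if_neg h8, if_pos rfl] at h9
              omega
        · intro i k z hi h
          have hi := lpos i hi
          subst hi
          obtain ⟨c', i', k'⟩ := z
          rw [q0] at h
          obtain ⟨rfl, h4 | h4⟩ := adj_iff h
          · obtain ⟨rfl, h5⟩ := h4
            rcases h5 with h5 | h5
            · by_cases hk : k = 0
              · refine Or.inr (Or.inl ⟨hk, ?_⟩)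
                rw [hfx, show k' = k₀ by omega]
              · refine Or.inr (Or.inr ⟨by omega, ?_⟩)
                rw [q0, show k' = k₀ + 1 + (k - 1) by omega]
            · refine Or.inl ?_
              rw [q0, show k' = k₀ + 1 + (k + 1) by omega]
          · exact absurd h4.1 (by omega)
  exact fun x => key _ x rfl

end Pool.Agent.MPd439b2.F9
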