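import Pool.Agent.Lib.MP_d439b2_co.F9.SpecN

/-!
# MP_d439b2_co, N1: graphs of maximum degree one
-/

set_option autoImplicit false

namespace Pool.Agent.MPd439b2.F9

open Pool.Agent.MPd439b2

namespace n1Aux

/-- extension of a matching by one edge -/
theorem ext {W : Type} {D : SimpleGraph W} {S : Set W} {u v : W} (hu : u ∈ S) (hv : v ∈ S)
    (huv : D.Adj u v) (hS : ∀ u ∈ S, ∀ v ∈ S, ∀ w ∈ S, D.Adj u v → D.Adj u w → v = w) (n : ℕ)
    (h : ∃ g : Fin n × Bool → W, Function.Injective g ∧ (∀ z, g z ∈ S \ {u, v}) ∧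
      ∀ z z', D.Adj (g z) (g z') ↔ (Mtc n).Adj z z') :
    ∃ g : Fin (n + 1) × Bool → W, Function.Injective g ∧ (∀ z, g z ∈ S) ∧
      ∀ z z', D.Adj (g z) (g z') ↔ (Mtc (n + 1)).Adj z z' := by
  obtain ⟨g', g1, g2, g3⟩ := h
  let g : Fin (n + 1) × Bool → W := fun z =>
    if h : z.1.val < n then g' (⟨z.1.val, h⟩, z.2) else (if z.2 = true then v else u)
  have ga : ∀ (z : Fin (n + 1) × Bool) (h : z.1.val < n), g z = g' (⟨z.1.val, h⟩, z.2) :=
    fun z h => dif_pos h
  have gb : ∀ (z : Fin (n + 1) × Bool), ¬ z.1.val < n → g z = if z.2 = true then v else u :=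
    fun z h => dif_neg h
  have gne : ∀ z : Fin n × Bool, g' z ≠ u ∧ g' z ≠ v := fun z =>
    ⟨fun h => (g2 z).2 (Or.inl h), fun h => (g2 z).2 (Or.inr h)⟩
  have nadj : ∀ z : Fin n × Bool, ¬ D.Adj u (g' z) ∧ ¬ D.Adj v (g' z) := fun z =>
    ⟨fun h => (gne z).2 (hS u hu v hv _ (g2 z).1 huv h).symm,
      fun h => (gne z).1 (hS v hv u hu _ (g2 z).1 huv.symm h).symm⟩
  have gE : ∀ z : Fin (n + 1) × Bool, ¬ z.1.val < n → (z.2 = true ∧ g z = v) ∨
      (z.2 = false ∧ g z = u) := by
    intro z hz
    rw [gb z hz]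
    rcases hb : z.2 with _ | _
    · exact Or.inr ⟨rfl, if_neg (by decide)⟩
    · exact Or.inl ⟨rfl, if_pos rfl⟩
  refine ⟨g, ?_, ?_, ?_⟩
  · intro z z' h
    by_cases hz : z.1.val < n <;> by_cases hz' : z'.1.val < n
    · rw [ga z hz, ga z' hz'] at h
      have h1 := g1 h
      rw [Prod.mk.injEq, Fin.mk.injEq] at h1
      exact Prod.ext (Fin.ext h1.1) h1.2
    · rw [ga z hz] at h
      rcases gE z' hz' with h1 | h1
      · rw [h1.2] at h
        exact absurd h (gne _).2
      · rw [h1.2] at h
        exact absurd h (gne _).1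
    · rw [ga z' hz'] at h
      rcases gE z hz with h1 | h1
      · rw [h1.2] at h
        exact absurd h.symm (gne _).2
      · rw [h1.2] at h
        exact absurd h.symm (gne _).1
    · have h0 : z.1 = z'.1 := Fin.ext (by have := z.1.2; have := z'.1.2; omega)
      rcases gE z hz with h1 | h1 <;> rcases gE z' hz' with h2 | h2
      · exact Prod.ext h0 (by rw [h1.1, h2.1])
      · rw [h1.2, h2.2] at h
        exact absurd h.symm huv.ne
      · rw [h1.2, h2.2] at h
        exact absurd h huv.ne
      · exact Prod.ext h0 (by rw [h1.1, h2.1])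
  · intro z
    by_cases hz : z.1.val < n
    · rw [ga z hz]
      exact (g2 _).1
    · rcases gE z hz with h1 | h1
      · rw [h1.2]
        exact hv
      · rw [h1.2]
        exact hu
  · intro z z'
    show _ ↔ z.1 = z'.1 ∧ z.2 ≠ z'.2
    by_cases hz : z.1.val < n <;> by_cases hz' : z'.1.val < n
    · rw [ga z hz, ga z' hz', g3]
      show (⟨z.1.val, hz⟩ : Fin n) = ⟨z'.1.val, hz'⟩ ∧ z.2 ≠ z'.2 ↔ _
      rw [Fin.mk.injEq, Fin.ext_iff]
    · constructor
      · intro h
        rw [ga z hz] at h
        rcases gE z' hz' with h1 | h1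
        · rw [h1.2] at h
          exact absurd h.symm (nadj _).2
        · rw [h1.2] at h
          exact absurd h.symm (nadj _).1
      · rintro ⟨h, _⟩
        rw [h] at hz
        exact absurd hz hz'
    · constructor
      · intro h
        rw [ga z' hz'] at h
        rcases gE z hz with h1 | h1
        · rw [h1.2] at h
          exact absurd h (nadj _).2
        · rw [h1.2] at h
          exact absurd h (nadj _).1
      · rintro ⟨h, _⟩
        rw [h] at hz
        exact absurd hz' hz
    · have h0 : z.1 = z'.1 := Fin.ext (by have := z.1.2; have := z'.1.2; omega)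
      rcases gE z hz with h1 | h1 <;> rcases gE z' hz' with h2 | h2
      · rw [h1.2, h2.2, h1.1, h2.1]
        exact ⟨fun h => absurd rfl h.ne, fun h => absurd rfl h.2⟩
      · rw [h1.2, h2.2, h1.1, h2.1]
        exact ⟨fun _ => ⟨h0, by decide⟩, fun _ => huv.symm⟩
      · rw [h1.2, h2.2, h1.1, h2.1]
        exact ⟨fun _ => ⟨h0, by decide⟩, fun _ => huv⟩
      · rw [h1.2, h2.2, h1.1, h2.1]
        exact ⟨fun h => absurd rfl h.ne, fun h => absurd rfl h.2⟩

/-- the relation of the target -/
def Rt (t s : ℕ) (x y : (Fin t × Bool) ⊕ Fin s) : Prop :=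
  ∃ z z', x = Sum.inl z ∧ y = Sum.inl z' ∧ (Mtc t).Adj z z'

/-- one edge more -/
def lift (t s : ℕ) : (Fin t × Bool) ⊕ Fin s → (Fin (t + 1) × Bool) ⊕ Fin s
  | Sum.inl z => Sum.inl (z.1.castSucc, z.2)
  | Sum.inr j => Sum.inr j

theorem lift_inj (t s : ℕ) : Function.Injective (lift t s) := by
  rintro (⟨i, b⟩ | j) (⟨i', b'⟩ | j') h
  · have h1 : (i.castSucc, b) = (i'.castSucc, b') := Sum.inl.inj h
    rw [Prod.mk.injEq] at h1
    rw [Fin.castSucc_injective t h1.1, h1.2]
  · exact absurd h (by exact fun h => nomatch h)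
  · exact absurd h (by exact fun h => nomatch h)
  · have h1 : j = j' := Sum.inr.inj h
    rw [h1]

theorem Rt_lift (t s : ℕ) (x y : (Fin t × Bool) ⊕ Fin s) :
    Rt (t + 1) s (lift t s x) (lift t s y) ↔ Rt t s x y := by
  constructor
  · rintro ⟨z, z', hz, hz', h1, h2⟩
    rcases x with ⟨i, b⟩ | j
    · rcases y with ⟨i', b'⟩ | j'
      · have e1 : (i.castSucc, b) = z := Sum.inl.inj hz
        have e2 : (i'.castSucc, b') = z' := Sum.inl.inj hz'
        subst e1
        subst e2
        exact ⟨(i, b), (i', b'), rfl, rfl, Fin.castSucc_injective t h1, h2⟩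
      · exact absurd hz' (by exact fun h => nomatch h)
    · exact absurd hz (by exact fun h => nomatch h)
  · rintro ⟨z, z', rfl, rfl, h1, h2⟩
    exact ⟨_, _, rfl, rfl, congrArg Fin.castSucc h1, h2⟩

theorem lift_last (t s : ℕ) (x : (Fin t × Bool) ⊕ Fin s) (b : Bool) :
    lift t s x ≠ Sum.inl (Fin.last t, b) := by
  rcases x with ⟨i, b'⟩ | j
  · intro h
    have h1 : (i.castSucc, b') = (Fin.last t, b) := Sum.inl.inj h
    rw [Prod.mk.injEq] at h1
    exact absurd h1.1 (Fin.castSucc_lt_last i).ne
  · exact fun h => nomatch h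

theorem Rt_last (t s : ℕ) (x : (Fin t × Bool) ⊕ Fin s) (b : Bool) :
    ¬ Rt (t + 1) s (Sum.inl (Fin.last t, b)) (lift t s x) := by
  rintro ⟨z, z', hz, hz', h1, _⟩
  rcases x with ⟨i, b'⟩ | j
  · have e1 : (Fin.last t, b) = z := Sum.inl.inj hz
    have e2 : (i.castSucc, b') = z' := Sum.inl.inj hz'
    rw [← e1, ← e2] at h1
    exact absurd h1.symm (Fin.castSucc_lt_last i).ne
  · exact absurd hz' (by exact fun h => nomatch h)

theorem Rt_symm {t s : ℕ} {x y : (Fin t × Bool) ⊕ Fin s} (h : Rt t s x y) : Rt t s y x := by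
  obtain ⟨z, z', h1, h2, h3⟩ := h
  exact ⟨z', z, h2, h1, h3.symm⟩

theorem Rt_irr {t s : ℕ} {x : (Fin t × Bool) ⊕ Fin s} : ¬ Rt t s x x := by
  rintro ⟨z, z', h1, h2, h3⟩
  rw [h1] at h2
  have h4 : z = z' := Sum.inl.inj h2
  exact h3.ne h4

end n1Aux

open n1Aux

theorem n1 : S_N1 := by
  classical
  intro W _ D S t
  induction t generalizing S with
  | zero =>
    intro hS hg
    by_cases hE : ∃ u ∈ S, ∃ v ∈ S, D.Adj u v
    · obtain ⟨u, hu, v, hv, huv⟩ := hE
      exact absurd (ext hu hv huv hS 0 ⟨fun z => z.1.elim0, fun z => z.1.elim0,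
        fun z => z.1.elim0, fun z => z.1.elim0⟩) hg
    · push Not at hE
      obtain ⟨s, ⟨φ⟩⟩ := Finite.exists_equiv_fin W
      refine ⟨s, fun w => Sum.inr (φ w), ?_, ?_⟩
      · intro u _ v _ h
        exact φ.injective (Sum.inr.inj h)
      · intro u hu v hv
        refine ⟨fun h => absurd h (hE u hu v hv), ?_⟩
        rintro ⟨z, z', h, _⟩
        exact absurd h (by exact fun h => nomatch h)
  | succ t ih =>
    intro hS hg
    by_cases hE : ∃ u ∈ S, ∃ v ∈ S, D.Adj u v
    · obtain ⟨u, hu, v, hv, huv⟩ := hE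
      obtain ⟨s, h', h1, h2⟩ := ih (S \ {u, v})
        (fun a ha b hb c hc => hS a ha.1 b hb.1 c hc.1)
        (fun h => hg (ext hu hv huv hS (t + 1) h))
      let h : W → (Fin (t + 1) × Bool) ⊕ Fin s := fun w =>
        if w = u then Sum.inl (Fin.last t, false) else
          if w = v then Sum.inl (Fin.last t, true) else lift t s (h' w)
      have hhu : h u = Sum.inl (Fin.last t, false) := if_pos rfl
      have hhv : h v = Sum.inl (Fin.last t, true) := by
        have h3 : h v = if v = v then Sum.inl (Fin.last t, true) else lift t s (h' v) :=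
          if_neg huv.ne.symm
        rw [h3, if_pos rfl]
      have hhw : ∀ w, w ≠ u → w ≠ v → h w = lift t s (h' w) := by
        intro w hwu hwv
        have h3 : h w = if w = v then Sum.inl (Fin.last t, true) else lift t s (h' w) :=
          if_neg hwu
        rw [h3, if_neg hwv]
      have hne : (Sum.inl (Fin.last t, false) : (Fin (t + 1) × Bool) ⊕ Fin s) ≠
          Sum.inl (Fin.last t, true) := by
        intro h3
        have h4 := Sum.inl.inj h3
        rw [Prod.mk.injEq] at h4
        exact absurd h4.2 (by decide)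
      have hmem : ∀ w ∈ S, w ≠ u → w ≠ v → w ∈ S \ {u, v} :=
        fun w hw h1 h2 => ⟨hw, fun h3 => h3.elim h1 h2⟩
      refine ⟨s, h, ?_, ?_⟩
      · intro a ha b hb hab
        by_cases hau : a = u
        · by_cases hbu : b = u
          · rw [hau, hbu]
          · rw [hau, hhu] at hab
            by_cases hbv : b = v
            · rw [hbv, hhv] at hab
              exact absurd hab hne
            · rw [hhw b hbu hbv] at hab
              exact absurd hab.symm (lift_last _ _ _ _)
        · by_cases hav : a = v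
          · by_cases hbu : b = u
            · rw [hav, hbu, hhu, hhv] at hab
              exact absurd hab.symm hne
            · by_cases hbv : b = v
              · rw [hav, hbv]
              · rw [hav, hhv, hhw b hbu hbv] at hab
                exact absurd hab.symm (lift_last _ _ _ _)
          · rw [hhw a hau hav] at hab
            by_cases hbu : b = u
            · rw [hbu, hhu] at hab
              exact absurd hab (lift_last _ _ _ _)
            · by_cases hbv : b = v
              · rw [hbv, hhv] at hab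
                exact absurd hab (lift_last _ _ _ _)
              · rw [hhw b hbu hbv] at hab
                exact h1 a (hmem a ha hau hav) b (hmem b hb hbu hbv) (lift_inj _ _ hab)
      · have hsym : ∀ a b, (D.Adj a b ↔ Rt (t + 1) s (h a) (h b)) →
            (D.Adj b a ↔ Rt (t + 1) s (h b) (h a)) := fun a b h3 =>
          ⟨fun h4 => Rt_symm (h3.1 h4.symm), fun h4 => (h3.2 (Rt_symm h4)).symm⟩
        have cu : ∀ b ∈ S, (D.Adj u b ↔ Rt (t + 1) s (h u) (h b)) := by
          intro b hb
          by_cases hbu : b = u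
          · rw [hbu]
            exact ⟨fun h3 => absurd rfl h3.ne, fun h3 => absurd h3 Rt_irr⟩
          · by_cases hbv : b = v
            · rw [hbv, hhu, hhv]
              exact ⟨fun _ => ⟨_, _, rfl, rfl, rfl, fun h => Bool.false_ne_true h⟩, fun _ => huv⟩
            · rw [hhu, hhw b hbu hbv]
              exact ⟨fun h3 => absurd (hS u hu v hv b hb huv h3).symm hbv,
                fun h3 => absurd h3 (Rt_last _ _ _ _)⟩
        have cv : ∀ b ∈ S, (D.Adj v b ↔ Rt (t + 1) s (h v) (h b)) := by
          intro b hb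
          by_cases hbv : b = v
          · rw [hbv]
            exact ⟨fun h3 => absurd rfl h3.ne, fun h3 => absurd h3 Rt_irr⟩
          · by_cases hbu : b = u
            · rw [hbu]
              exact hsym _ _ (cu v hv)
            · rw [hhv, hhw b hbu hbv]
              exact ⟨fun h3 => absurd (hS v hv u hu b hb huv.symm h3).symm hbu,
                fun h3 => absurd h3 (Rt_last _ _ _ _)⟩
        intro a ha b hb
        show D.Adj a b ↔ Rt (t + 1) s (h a) (h b)
        by_cases hau : a = u
        · rw [hau]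
          exact cu b hb
        · by_cases hav : a = v
          · rw [hav]
            exact cv b hb
          · by_cases hbu : b = u
            · rw [hbu]
              exact hsym _ _ (cu a ha)
            · by_cases hbv : b = v
              · rw [hbv]
                exact hsym _ _ (cv a ha)
              · rw [hhw a hau hav, hhw b hbu hbv, Rt_lift]
                exact h2 a (hmem a ha hau hav) b (hmem b hb hbu hbv)
    · push Not at hE
      obtain ⟨s, ⟨φ⟩⟩ := Finite.exists_equiv_fin W
      refine ⟨s, fun w => Sum.inr (φ w), ?_, ?_⟩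
      · intro u _ v _ h
        exact φ.injective (Sum.inr.inj h)
      · intro u hu v hv
        refine ⟨fun h => absurd h (hE u hu v hv), ?_⟩
        rintro ⟨z, z', h, _⟩
        exact absurd h (by exact fun h => nomatch h)

end Pool.Agent.MPd439b2.F9
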