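import Pool.Agent.Lib.MP_d439b2_co.F9.SpecN

/-!
# MP_d439b2_co, N2: assembly of an embedding
-/

set_option autoImplicit false

namespace Pool.Agent.MPd439b2.F9

open Pool.Agent.MPd439b2

namespace n2Aux

/-- the part outside the component -/
def G (ℓ' : Fin 3 → ℕ) (t s : ℕ) : (Fin t × Bool) ⊕ Fin s →
    Fin s ⊕ (Option (Σ i : Fin 3, Fin (ℓ' i)) ⊕ (Fin t × Bool))
  | Sum.inl z => Sum.inr (Sum.inr z)
  | Sum.inr i => Sum.inl i

theorem G_inj (ℓ' : Fin 3 → ℕ) (t s : ℕ) : Function.Injective (G ℓ' t s) := by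
  rintro (z | i) (z' | i') h
  · have h1 : z = z' := Sum.inr.inj (Sum.inr.inj h)
    rw [h1]
  · exact absurd h (by exact fun h => nomatch h)
  · exact absurd h (by exact fun h => nomatch h)
  · have h1 : i = i' := Sum.inl.inj h
    rw [h1]

theorem G_ne (ℓ' : Fin 3 → ℕ) (t s : ℕ) (x : (Fin t × Bool) ⊕ Fin s)
    (a : Option (Σ i : Fin 3, Fin (ℓ' i))) : G ℓ' t s x ≠ Sum.inr (Sum.inl a) := by
  rcases x with z | i
  · intro h
    exact absurd (Sum.inr.inj h) (by exact fun h => nomatch h)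
  · exact fun h => nomatch h

theorem G_adj (ℓ' : Fin 3 → ℕ) (t s : ℕ) (x y : (Fin t × Bool) ⊕ Fin s) :
    (KJ s (JS ℓ' t)).Adj (G ℓ' t s x) (G ℓ' t s y) ↔
      x ≠ y ∧ ¬ ∃ z z', x = Sum.inl z ∧ y = Sum.inl z' ∧ (Mtc t).Adj z z' := by
  rcases x with z | i <;> rcases y with z' | i'
  · show z.1 ≠ z'.1 ↔ _
    constructor
    · intro h
      refine ⟨fun h1 => h (congrArg Prod.fst (Sum.inl.inj h1)), ?_⟩
      rintro ⟨w, w', h1, h2, h3⟩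
      rw [← Sum.inl.inj h1, ← Sum.inl.inj h2] at h3
      exact h h3.1
    · rintro ⟨h1, h2⟩ h3
      refine h2 ⟨z, z', rfl, rfl, h3, fun h4 => h1 ?_⟩
      rw [Prod.ext h3 h4]
  · show True ↔ _
    refine ⟨fun _ => ⟨(fun h => nomatch h), ?_⟩, fun _ => trivial⟩
    rintro ⟨w, w', _, h2, _⟩
    exact nomatch h2
  · show True ↔ _
    refine ⟨fun _ => ⟨(fun h => nomatch h), ?_⟩, fun _ => trivial⟩
    rintro ⟨w, w', h1, _, _⟩
    exact nomatch h1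
  · show i ≠ i' ↔ _
    constructor
    · intro h
      refine ⟨fun h1 => h (Sum.inr.inj h1), ?_⟩
      rintro ⟨w, w', h1, _, _⟩
      exact nomatch h1
    · rintro ⟨h1, _⟩ h3
      exact h1 (by rw [h3])

theorem G_all (ℓ' : Fin 3 → ℕ) (t s : ℕ) (x : (Fin t × Bool) ⊕ Fin s)
    (a : Option (Σ i : Fin 3, Fin (ℓ' i))) :
    (KJ s (JS ℓ' t)).Adj (Sum.inr (Sum.inl a)) (G ℓ' t s x) := by
  rcases x with z | i
  · exact trivial
  · exact trivial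

end n2Aux

open n2Aux

theorem n2 (hN1 : S_N1) : S_N2 := by
  classical
  intro W _ H ℓ ℓ' t e e1 e2 e3 hφ hd hg
  obtain ⟨φ, φ1, φ2⟩ := hφ
  obtain ⟨s, h, h1, h2⟩ := hN1 W Hᶜ (Set.range e)ᶜ t
    (fun u hu v _ w _ huv huw => hd u v w hu huv huw)
    (fun ⟨g, g1, g2, g3⟩ => hg ⟨g, g1, g2, g3⟩)
  refine ⟨s, ?_⟩
  let F : W → Fin s ⊕ (Option (Σ i : Fin 3, Fin (ℓ' i)) ⊕ (Fin t × Bool)) := fun w =>
    if hw : w ∈ Set.range e then Sum.inr (Sum.inl (φ hw.choose)) else G ℓ' t s (h w)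
  have Fe : ∀ u, F (e u) = Sum.inr (Sum.inl (φ u)) := by
    intro u
    have hw : e u ∈ Set.range e := ⟨u, rfl⟩
    have h3 : F (e u) = Sum.inr (Sum.inl (φ hw.choose)) := dif_pos hw
    rw [h3, e1 hw.choose_spec]
  have Fo : ∀ w, w ∉ Set.range e → F w = G ℓ' t s (h w) := fun w hw => dif_neg hw
  have hadj : ∀ u v, H.Adj u v ↔ u ≠ v ∧ ¬ Hᶜ.Adj u v := by
    intro u v
    rw [SimpleGraph.compl_adj]
    constructor
    · exact fun h3 => ⟨h3.ne, fun h4 => h4.2 h3⟩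
    · rintro ⟨h3, h4⟩
      by_contra h5
      exact h4 ⟨h3, h5⟩
  refine ⟨F, ?_, ?_⟩
  · intro u v huv
    by_cases hu : u ∈ Set.range e <;> by_cases hv : v ∈ Set.range e
    · obtain ⟨u', rfl⟩ := hu
      obtain ⟨v', rfl⟩ := hv
      rw [Fe, Fe] at huv
      rw [φ1 (Sum.inl.inj (Sum.inr.inj huv))]
    · obtain ⟨u', rfl⟩ := hu
      rw [Fe, Fo v hv] at huv
      exact absurd huv.symm (G_ne _ _ _ _ _)
    · obtain ⟨v', rfl⟩ := hv
      rw [Fe, Fo u hu] at huv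
      exact absurd huv (G_ne _ _ _ _ _)
    · rw [Fo u hu, Fo v hv] at huv
      exact h1 u hu v hv (G_inj _ _ _ huv)
  · intro u v
    by_cases hu : u ∈ Set.range e <;> by_cases hv : v ∈ Set.range e
    · obtain ⟨u', rfl⟩ := hu
      obtain ⟨v', rfl⟩ := hv
      rw [Fe, Fe, hadj, e2, φ2]
      show _ ↔ φ u' ≠ φ v' ∧ ¬ (Spid ℓ').Adj (φ u') (φ v')
      rw [e1.ne_iff, φ1.ne_iff]
    · obtain ⟨u', rfl⟩ := hu
      rw [Fe, Fo v hv, hadj]
      exact ⟨fun _ => G_all _ _ _ _ _, fun _ => ⟨fun h3 => hv ⟨u', h3⟩, fun h3 => hv (e3 _ _ h3)⟩⟩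
    · obtain ⟨v', rfl⟩ := hv
      rw [Fe, Fo u hu, hadj]
      exact ⟨fun _ => (G_all _ _ _ _ _).symm,
        fun _ => ⟨fun h3 => hu ⟨v', h3.symm⟩, fun h3 => hu (e3 _ _ h3.symm)⟩⟩
    · rw [Fo u hu, Fo v hv, hadj, G_adj, h2 u hu v hv]
      constructor
      · rintro ⟨h3, h4⟩
        exact ⟨fun h5 => h3 (h1 u hu v hv h5), h4⟩
      · rintro ⟨h3, h4⟩
        exact ⟨fun h5 => h3 (by rw [h5]), h4⟩

end Pool.Agent.MPd439b2.F9
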