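import Pool.Agent.Lib.MP_d439b2_co.F9.SpecN

/-!
# MP_d439b2_co, N4a: embeddings of spiders
-/

set_option autoImplicit false

namespace Pool.Agent.MPd439b2.F9

open Pool.Agent.MPd439b2

namespace n4aAux

theorem sig_ext {ℓ : Fin 3 → ℕ} {u v : Σ i : Fin 3, Fin (ℓ i)} (h : u.1 = v.1)
    (h' : u.2.val = v.2.val) : u = v := by
  obtain ⟨i, k⟩ := u
  obtain ⟨j, k'⟩ := v
  have h1 : i = j := h
  subst h1
  have h2 : k = k' := Fin.ext h'
  rw [h2]

/-- embeddings which permute the legs -/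
theorem emb (ℓ ℓ' : Fin 3 → ℕ) (σ : Fin 3 → Fin 3) (hσ : Function.Injective σ)
    (h : ∀ m, ℓ m ≤ ℓ' (σ m)) : IsIndSub (Spid ℓ) (Spid ℓ') := by
  let f : Option (Σ i : Fin 3, Fin (ℓ i)) → Option (Σ i : Fin 3, Fin (ℓ' i)) := fun u =>
    match u with
    | none => none
    | some v => some ⟨σ v.1, ⟨v.2.val, lt_of_lt_of_le v.2.2 (h v.1)⟩⟩
  refine ⟨f, ?_, ?_⟩
  · rintro (_ | u) (_ | v) huv
    · rfl
    · exact absurd huv (by exact fun h => nomatch h)
    · exact absurd huv (by exact fun h => nomatch h)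
    · have h1 := Option.some.inj huv
      have h2 : σ u.1 = σ v.1 := congrArg Sigma.fst h1
      have h3 : u.2.val = v.2.val :=
        congrArg (fun w : Σ i : Fin 3, Fin (ℓ' i) => w.2.val) h1
      rw [sig_ext (hσ h2) h3]
  · rintro (_ | u) (_ | v)
    · exact Iff.rfl
    · exact Iff.rfl
    · exact Iff.rfl
    · show u.1 = v.1 ∧ _ ↔ σ u.1 = σ v.1 ∧ _
      rw [hσ.eq_iff]

/-- the path formed by the legs `j`, `j'` and the centre -/
theorem path (ℓ : Fin 3 → ℕ) (j j' : Fin 3) (hj : j ≠ j') :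
    ∃ p : ℕ → Option (Σ i : Fin 3, Fin (ℓ i)),
      (∀ x ≤ ℓ j + ℓ j', ∀ y ≤ ℓ j + ℓ j', p x = p y → x = y) ∧
      ∀ x ≤ ℓ j + ℓ j', ∀ y ≤ ℓ j + ℓ j', ((Spid ℓ).Adj (p x) (p y) ↔ x + 1 = y ∨ y + 1 = x) := by
  let p : ℕ → Option (Σ i : Fin 3, Fin (ℓ i)) := fun x =>
    if h : x < ℓ j then some ⟨j, ⟨ℓ j - 1 - x, by omega⟩⟩ else
      if h : ℓ j < x ∧ x ≤ ℓ j + ℓ j' then some ⟨j', ⟨x - ℓ j - 1, by omega⟩⟩ else none
  have p1 : ∀ x, x < ℓ j → ∃ h : ℓ j - 1 - x < ℓ j, p x = some ⟨j, ⟨ℓ j - 1 - x, h⟩⟩ :=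
    fun x h => ⟨by omega, dif_pos h⟩
  have p2 : ∀ x, ℓ j < x → x ≤ ℓ j + ℓ j' →
      ∃ h : x - ℓ j - 1 < ℓ j', p x = some ⟨j', ⟨x - ℓ j - 1, h⟩⟩ := by
    intro x h h'
    refine ⟨by omega, ?_⟩
    have e1 : p x = (if h : ℓ j < x ∧ x ≤ ℓ j + ℓ j' then
        some ⟨j', ⟨x - ℓ j - 1, by omega⟩⟩ else none) := dif_neg (by omega)
    rw [e1]
    exact dif_pos ⟨h, h'⟩
  have p3 : p (ℓ j) = none := by
    have e1 : p (ℓ j) = (if h : ℓ j < ℓ j ∧ ℓ j ≤ ℓ j + ℓ j' then
        some ⟨j', ⟨ℓ j - ℓ j - 1, by omega⟩⟩ else none) := dif_neg (lt_irrefl _)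
    rw [e1]
    exact dif_neg (fun h => lt_irrefl _ h.1)
  have key : ∀ x ≤ ℓ j + ℓ j', ∀ y ≤ ℓ j + ℓ j', x < y → p x ≠ p y ∧
      ((Spid ℓ).Adj (p x) (p y) ↔ x + 1 = y) := by
    intro x hx y hy hxy
    rcases lt_trichotomy x (ℓ j) with h1 | h1 | h1
    · obtain ⟨h2, h3⟩ := p1 x h1
      rw [h3]
      rcases lt_trichotomy y (ℓ j) with h4 | h4 | h4
      · obtain ⟨h5, h6⟩ := p1 y h4
        rw [h6]
        constructor
        · intro h
          have h7 := congrArg (fun w : Σ i : Fin 3, Fin (ℓ i) => w.2.val) (Option.some.inj h)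
          simp only at h7
          omega
        · show j = j ∧ (ℓ j - 1 - x + 1 = ℓ j - 1 - y ∨ ℓ j - 1 - y + 1 = ℓ j - 1 - x) ↔ _
          constructor
          · rintro ⟨_, h⟩
            omega
          · intro h
            exact ⟨rfl, by omega⟩
      · rw [h4, p3]
        refine ⟨(fun h => nomatch h), ?_⟩
        show ℓ j - 1 - x = 0 ↔ _
        omega
      · obtain ⟨h5, h6⟩ := p2 y h4 hy
        rw [h6]
        constructor
        · intro h
          exact hj (congrArg Sigma.fst (Option.some.inj h))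
        · show j = j' ∧ _ ↔ _
          constructor
          · rintro ⟨h, _⟩
            exact absurd h hj
          · intro h
            omega
    · obtain ⟨h5, h6⟩ := p2 y (by omega) hy
      rw [h1, p3, h6]
      refine ⟨(fun h => nomatch h), ?_⟩
      show y - ℓ j - 1 = 0 ↔ _
      omega
    · obtain ⟨h2, h3⟩ := p2 x h1 hx
      obtain ⟨h5, h6⟩ := p2 y (by omega) hy
      rw [h3, h6]
      constructor
      · intro h
        have h7 := congrArg (fun w : Σ i : Fin 3, Fin (ℓ i) => w.2.val) (Option.some.inj h)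
        simp only at h7
        omega
      · show j' = j' ∧ (x - ℓ j - 1 + 1 = y - ℓ j - 1 ∨ y - ℓ j - 1 + 1 = x - ℓ j - 1) ↔ _
        constructor
        · rintro ⟨_, h⟩
          omega
        · intro h
          exact ⟨rfl, by omega⟩
  refine ⟨p, ?_, ?_⟩
  · intro x hx y hy h
    rcases lt_trichotomy x y with h1 | h1 | h1
    · exact absurd h (key x hx y hy h1).1
    · exact h1
    · exact absurd h.symm (key y hy x hx h1).1
  · intro x hx y hy
    rcases lt_trichotomy x y with h1 | h1 | h1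
    · rw [(key x hx y hy h1).2]
      omega
    · rw [h1]
      exact ⟨fun h => absurd rfl h.ne, fun h => by omega⟩
    · rw [(Spid ℓ).adj_comm, (key y hy x hx h1).2]
      omega

/-- the numbering of a spider with two legs -/
theorem num (ℓ : Fin 3 → ℕ) (j j' : Fin 3) (hj : j ≠ j') (h0 : ∀ i, i ≠ j → i ≠ j' → ℓ i = 0) :
    ∃ c : Option (Σ i : Fin 3, Fin (ℓ i)) → ℕ, (∀ u, c u ≤ ℓ j + ℓ j') ∧ Function.Injective c ∧
      ∀ u v, ((Spid ℓ).Adj u v ↔ c u + 1 = c v ∨ c v + 1 = c u) := by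
  let c : Option (Σ i : Fin 3, Fin (ℓ i)) → ℕ := fun u =>
    match u with
    | none => ℓ j
    | some v => if v.1 = j then ℓ j - 1 - v.2.val else ℓ j + 1 + v.2.val
  have cn : c none = ℓ j := rfl
  have cs : ∀ v : (Σ i : Fin 3, Fin (ℓ i)),
      (v.1 = j ∧ c (some v) + 1 + v.2.val = ℓ j) ∨
      (v.1 = j' ∧ c (some v) = ℓ j + 1 + v.2.val ∧ v.2.val < ℓ j') := by
    intro v
    by_cases h1 : v.1 = j
    · refine Or.inl ⟨h1, ?_⟩
      have h2 : c (some v) = ℓ j - 1 - v.2.val := if_pos h1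
      have h3 := v.2.2
      rw [h2]
      obtain ⟨i, k⟩ := v
      simp only at h1 h3 ⊢
      subst h1
      omega
    · have h2 : c (some v) = ℓ j + 1 + v.2.val := if_neg h1
      have h3 := v.2.2
      by_cases h4 : v.1 = j'
      · refine Or.inr ⟨h4, h2, ?_⟩
        rw [← h4]
        exact h3
      · exact absurd (h3.trans_eq (h0 v.1 h1 h4)) (Nat.not_lt_zero _)
  refine ⟨c, ?_, ?_, ?_⟩
  · rintro (_ | v)
    · rw [cn]
      omega
    · rcases cs v with h | h <;> omega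
  · rintro (_ | u) (_ | v) huv
    · rfl
    · rw [cn] at huv
      rcases cs v with h | h <;> omega
    · rw [cn] at huv
      rcases cs u with h | h <;> omega
    · rcases cs u with h | h <;> rcases cs v with h' | h'
      · rw [sig_ext (h.1.trans h'.1.symm) (by omega)]
      · omega
      · omega
      · rw [sig_ext (h.1.trans h'.1.symm) (by omega)]
  · rintro (_ | u) (_ | v)
    · rw [cn]
      exact ⟨fun h => absurd h id, fun h => by omega⟩
    · rw [cn]
      show v.2.val = 0 ↔ _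
      rcases cs v with h | h <;> omega
    · rw [cn]
      show u.2.val = 0 ↔ _
      rcases cs u with h | h <;> omega
    · show u.1 = v.1 ∧ (u.2.val + 1 = v.2.val ∨ v.2.val + 1 = u.2.val) ↔ _
      rcases cs u with h | h <;> rcases cs v with h' | h'
      · constructor
        · rintro ⟨_, h3⟩
          omega
        · intro h3
          exact ⟨h.1.trans h'.1.symm, by omega⟩
      · constructor
        · rintro ⟨h3, _⟩
          exact absurd (h.1.symm.trans (h3.trans h'.1)) hj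
        · intro h3
          omega
      · constructor
        · rintro ⟨h3, _⟩
          exact absurd (h'.1.symm.trans (h3.symm.trans h.1)) hj
        · intro h3
          omega
      · constructor
        · rintro ⟨_, h3⟩
          omega
        · intro h3
          exact ⟨h.1.trans h'.1.symm, by omega⟩

/-- paths in spiders -/
theorem two (ℓ ℓ' : Fin 3 → ℕ) (j j' i i' : Fin 3) (hj : j ≠ j') (hi : i ≠ i')
    (h0 : ∀ m, m ≠ j → m ≠ j' → ℓ m = 0) (hle : ℓ j + ℓ j' ≤ ℓ' i + ℓ' i') :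
    IsIndSub (Spid ℓ) (Spid ℓ') := by
  obtain ⟨c, c1, c2, c3⟩ := num ℓ j j' hj h0
  obtain ⟨p, p1, p2⟩ := path ℓ' i i' hi
  refine ⟨fun u => p (c u), ?_, ?_⟩
  · intro u v huv
    exact c2 (p1 _ ((c1 u).trans hle) _ ((c1 v).trans hle) huv)
  · intro u v
    rw [c3, p2 _ ((c1 u).trans hle) _ ((c1 v).trans hle)]

end n4aAux

open n4aAux

theorem n4a : S_N4a := by
  refine ⟨fun ℓ ℓ' h => emb ℓ ℓ' id Function.injective_id h,
    fun ℓ σ => emb _ _ σ σ.injective fun m => le_rfl, fun a b a' b' h => ?_⟩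
  refine two _ _ 1 2 1 2 (by decide) (by decide) ?_ h
  intro m h1 h2
  have h3 : m = 0 := by
    have := m.2
    apply Fin.ext
    rw [Ne, Fin.ext_iff] at h1 h2
    have h4 : ((1 : Fin 3)).val = 1 := rfl
    have h5 : ((2 : Fin 3)).val = 2 := rfl
    have h6 : ((0 : Fin 3)).val = 0 := rfl
    omega
  rw [h3]
  rfl

end Pool.Agent.MPd439b2.F9
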