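import Pool.Agent.Lib.MP_d439b2_co.F9.SpecN
import Pool.Agent.Lib.MP_d439b2_co.F9.N4a

/-!
# MP_d439b2_co, N3: spiders without two non-touching paths on three vertices
-/

set_option autoImplicit false

namespace Pool.Agent.MPd439b2.F9

open Pool.Agent.MPd439b2

namespace n3Aux

/-- adjacency is decidable -/
def decSpid (ℓ : Fin 3 → ℕ) : DecidableRel (Spid ℓ).Adj := fun u v =>
  match u, v with
  | none, none => isFalse id
  | none, some v => inferInstanceAs (Decidable (v.2.val = 0))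
  | some u, none => inferInstanceAs (Decidable (u.2.val = 0))
  | some u, some v =>
    inferInstanceAs (Decidable (u.1 = v.1 ∧ (u.2.val + 1 = v.2.val ∨ v.2.val + 1 = u.2.val)))

/-- adjacency is decidable -/
def decC : DecidableRel co2P3ᶜ.Adj := fun i j =>
  inferInstanceAs (Decidable (i ≠ j ∧ ¬ (i ≠ j ∧ ¬ ((i = 0 ∧ (j = 1 ∨ j = 2)) ∨
    (j = 0 ∧ (i = 1 ∨ i = 2)) ∨ (i = 3 ∧ (j = 4 ∨ j = 5)) ∨ (j = 3 ∧ (i = 4 ∨ i = 5))))))

attribute [local instance] decSpid decC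

/-- two paths -/
def TP {P : Type} (T : SimpleGraph P) : Prop := ∃ g : Fin 6 → P, Function.Injective g ∧
  ∀ a b, T.Adj (g a) (g b) ↔ co2P3ᶜ.Adj a b

theorem tp_sub {P P' : Type} {T : SimpleGraph P} {T' : SimpleGraph P'} (h : TP T)
    (h' : IsIndSub T T') : TP T' := by
  obtain ⟨g, g1, g2⟩ := h
  obtain ⟨f, f1, f2⟩ := h'
  exact ⟨fun a => f (g a), fun a b hab => g1 (f1 hab), fun a b => by rw [← f2, g2]⟩

theorem tp_path (ℓ : Fin 3 → ℕ) (j j' : Fin 3) (hj : j ≠ j') (h : 6 ≤ ℓ j + ℓ j') :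
    TP (Spid ℓ) := by
  obtain ⟨p, p1, p2⟩ := n4aAux.path ℓ j j' hj
  have hσ : ∀ a : Fin 6, (![1, 0, 2, 5, 4, 6] : Fin 6 → ℕ) a ≤ 6 := by decide
  have hinj : ∀ a b : Fin 6, (![1, 0, 2, 5, 4, 6] : Fin 6 → ℕ) a =
    (![1, 0, 2, 5, 4, 6] : Fin 6 → ℕ) b → a = b := by decide
  have hadj : ∀ a b : Fin 6, ((![1, 0, 2, 5, 4, 6] : Fin 6 → ℕ) a + 1 =
    (![1, 0, 2, 5, 4, 6] : Fin 6 → ℕ) b ∨ (![1, 0, 2, 5, 4, 6] : Fin 6 → ℕ) b + 1 =
    (![1, 0, 2, 5, 4, 6] : Fin 6 → ℕ) a) ↔ co2P3ᶜ.Adj a b := by decide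
  refine ⟨fun a => p ((![1, 0, 2, 5, 4, 6] : Fin 6 → ℕ) a), ?_, ?_⟩
  · intro a b hab
    exact hinj a b (p1 _ ((hσ a).trans h) _ ((hσ b).trans h) hab)
  · intro a b
    rw [p2 _ ((hσ a).trans h) _ ((hσ b).trans h), hadj]

/-- the first map -/
def gA : Fin 6 → Option (Σ i : Fin 3, Fin ((![1, 1, 4] : Fin 3 → ℕ) i)) :=
  ![some ⟨2, ⟨2, by decide⟩⟩, some ⟨2, ⟨1, by decide⟩⟩, some ⟨2, ⟨3, by decide⟩⟩, none,
    some ⟨0, ⟨0, by decide⟩⟩, some ⟨1, ⟨0, by decide⟩⟩]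

/-- the second map -/
def gB : Fin 6 → Option (Σ i : Fin 3, Fin ((![0, 3, 3] : Fin 3 → ℕ) i)) :=
  ![some ⟨1, ⟨1, by decide⟩⟩, some ⟨1, ⟨0, by decide⟩⟩, some ⟨1, ⟨2, by decide⟩⟩,
    some ⟨2, ⟨1, by decide⟩⟩, some ⟨2, ⟨0, by decide⟩⟩, some ⟨2, ⟨2, by decide⟩⟩]

theorem tpA : TP (Spid ![1, 1, 4]) := by
  refine ⟨gA, ?_, ?_⟩
  · have h : ∀ a b : Fin 6, gA a = gA b → a = b := by decide
    exact fun a b => h a b
  · decide

theorem tpB : TP (Spid ![0, 3, 3]) := by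
  refine ⟨gB, ?_, ?_⟩
  · have h : ∀ a b : Fin 6, gB a = gB b → a = b := by decide
    exact fun a b => h a b
  · decide

end n3Aux

open n3Aux

theorem n3 : S_N3 := by
  intro ℓ hg
  have hg' : ¬ TP (Spid ℓ) := hg
  constructor
  · rintro ⟨i, hi⟩
    by_contra hcon
    apply hg'
    have h3 : i = 0 ∨ i = 1 ∨ i = 2 := by
      have := i.2
      rcases i with ⟨i, hi'⟩
      simp only [Fin.ext_iff]
      have h4 : ((1 : Fin 3)).val = 1 := rfl
      have h5 : ((2 : Fin 3)).val = 2 := rfl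
      have h6 : ((0 : Fin 3)).val = 0 := rfl
      omega
    rcases h3 with h3 | h3 | h3
    · rw [h3] at hi
      exact tp_path ℓ 1 2 (by decide) (by omega)
    · rw [h3] at hi
      exact tp_path ℓ 0 2 (by decide) (by omega)
    · rw [h3] at hi
      exact tp_path ℓ 0 1 (by decide) (by omega)
  · intro h1 i
    constructor
    · by_contra hcon
      apply hg'
      refine tp_sub tpA (n4aAux.emb _ _ (fun m => i + 1 + m) ?_ ?_)
      · intro m m' h
        exact add_left_cancel h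
      · have e2 : ∀ i : Fin 3, i + 1 + 2 = i := by decide
        intro m
        have h3 : m = 0 ∨ m = 1 ∨ m = 2 := by revert m; decide
        rcases h3 with h3 | h3 | h3
        · rw [h3]
          exact h1 _
        · rw [h3]
          exact h1 _
        · rw [h3]
          show 4 ≤ ℓ (i + 1 + 2)
          rw [e2]
          omega
    · intro j hj hi
      by_contra hcon
      apply hg'
      refine tp_sub tpB (n4aAux.emb _ _ ![-(i + j), i, j] ?_ ?_)
      · have e3 : ∀ i j : Fin 3, j ≠ i → ∀ m m' : Fin 3,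
            (![-(i + j), i, j] : Fin 3 → Fin 3) m = (![-(i + j), i, j] : Fin 3 → Fin 3) m' →
            m = m' := by decide
        exact fun m m' h => e3 i j hj m m' h
      · intro m
        have h3 : m = 0 ∨ m = 1 ∨ m = 2 := by revert m; decide
        rcases h3 with h3 | h3 | h3
        · rw [h3]
          exact Nat.zero_le _
        · rw [h3]
          show 3 ≤ ℓ i
          omega
        · rw [h3]
          show 3 ≤ ℓ j
          omega

end Pool.Agent.MPd439b2.F9
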