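import Pool.Agent.Lib.MP_d439b2_co.F9.SpecN

/-!
# MP_d439b2_co, Spec N, statement N4: the possible components
-/

set_option autoImplicit false

namespace Pool.Agent.MPd439b2.F9

open Pool.Agent.MPd439b2

namespace n4Aux

theorem tr {A B C : Type} {G : SimpleGraph A} {H : SimpleGraph B} {K : SimpleGraph C}
    (h₁ : IsIndSub G H) (h₂ : IsIndSub H K) : IsIndSub G K := by
  obtain ⟨f, hf, hf'⟩ := h₁
  obtain ⟨g, hg, hg'⟩ := h₂
  exact ⟨g ∘ f, hg.comp hf, fun u v => (hf' u v).trans (hg' (f u) (f v))⟩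

theorem castL {a a' : Fin 3 → ℕ} (h : a = a') {C : Type} {K : SimpleGraph C}
    (h' : IsIndSub (Spid a) K) : IsIndSub (Spid a') K := by
  subst h
  exact h'

theorem castR {a a' : Fin 3 → ℕ} (h : a = a') {C : Type} {K : SimpleGraph C}
    (h' : IsIndSub K (Spid a)) : IsIndSub K (Spid a') := by
  subst h
  exact h'

/-- the conclusion of N4 -/
def Con (ℓ : Fin 3 → ℕ) : Prop :=
  (IsIndSub (Spid ![0, 1, 1]) (Spid ℓ)) ∧
  ((IsIndSub (Spid ℓ) (Spid ![1, 1, 2])) ∨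
    (IsIndSub (Mtc 2) (Spid ℓ) ∧ IsIndSub (Spid ℓ) (Spid ![1, 2, 3])) ∨
    (IsIndSub (Mtc 3) (Spid ℓ) ∧ IsIndSub (Spid ℓ) (Spid ![2, 2, 3]))) ∧
  ((∃ i, ℓ i = 0) → IsIndSub (Spid ℓ) (Spid ![0, 1, 1]) ∨
    (IsIndSub (Spid ![0, 1, 2]) (Spid ℓ) ∧ IsIndSub (Spid ℓ) (Spid ![0, 2, 2])) ∨
    IsIndSub (Spid ![0, 2, 3]) (Spid ℓ))

theorem con_transfer {ℓ ℓ' : Fin 3 → ℕ} (h : Con ℓ') (h₁ : IsIndSub (Spid ℓ) (Spid ℓ'))
    (h₂ : IsIndSub (Spid ℓ') (Spid ℓ)) (h₃ : (∃ i, ℓ i = 0) → ∃ i, ℓ' i = 0) : Con ℓ := by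
  obtain ⟨ha, hb, hc⟩ := h
  refine ⟨tr ha h₂, ?_, fun h => ?_⟩
  · rcases hb with hb | hb | hb
    · exact Or.inl (tr h₁ hb)
    · exact Or.inr (Or.inl ⟨tr hb.1 h₂, tr h₁ hb.2⟩)
    · exact Or.inr (Or.inr ⟨tr hb.1 h₂, tr h₁ hb.2⟩)
  · rcases hc (h₃ h) with hc | hc | hc
    · exact Or.inl (tr h₁ hc)
    · exact Or.inr (Or.inl ⟨tr hc.1 h₂, tr h₁ hc.2⟩)
    · exact Or.inr (Or.inr (tr hc h₂))

theorem mono3 (hA : S_N4a) {a b c a' b' c' : ℕ} (ha : a ≤ a') (hb : b ≤ b') (hc : c ≤ c') :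
    IsIndSub (Spid ![a, b, c]) (Spid ![a', b', c']) := by
  refine hA.1 _ _ fun i => ?_
  fin_cases i
  · exact ha
  · exact hb
  · exact hc

theorem core (hA : S_N4a) (hB : S_N4b) (a b c : ℕ) (hab : a ≤ b) (hbc : b ≤ c)
    (h2 : 2 ≤ a + b + c) (h0 : a = 0 → a + b + c ≤ 5)
    (h1 : 1 ≤ a → c ≤ 3 ∧ (c = 3 → b ≤ 2) ∧ (b = 3 → c ≤ 2)) : Con ![a, b, c] := by
  obtain ⟨_, hB022, hB113, hB122, hB222, _, _, _⟩ := hB
  have h3 := hA.2.2
  rcases Nat.eq_zero_or_pos a with ha | ha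
  · subst ha
    have h5 : b + c ≤ 5 := by simpa using h0 rfl
    have h2' : 2 ≤ b + c := by simpa using h2
    refine ⟨h3 1 1 b c (by omega), ?_, fun _ => ?_⟩
    · rcases Nat.lt_or_ge (b + c) 4 with h4 | h4
      · exact Or.inl (tr (h3 b c 1 2 (by omega)) (mono3 hA (by omega) (by omega) (by omega)))
      · exact Or.inr (Or.inl ⟨tr hB022 (h3 2 2 b c (by omega)),
          tr (h3 b c 2 3 (by omega)) (mono3 hA (by omega) (by omega) (by omega))⟩)
    · rcases Nat.lt_or_ge (b + c) 3 with h4 | h4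
      · exact Or.inl (h3 b c 1 1 (by omega))
      · rcases Nat.lt_or_ge (b + c) 5 with h5 | h5
        · exact Or.inr (Or.inl ⟨h3 1 2 b c (by omega), h3 b c 2 2 (by omega)⟩)
        · exact Or.inr (Or.inr (h3 2 3 b c (by omega)))
  · obtain ⟨hc3, hcb, hbc'⟩ := h1 ha
    refine ⟨mono3 hA (by omega) (by omega) (by omega), ?_, fun h => ?_⟩
    · rcases Nat.lt_or_ge a 2 with ha2 | ha2
      · have ha1 : a = 1 := by omega
        subst ha1
        rcases Nat.lt_or_ge b 2 with hb2 | hb2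
        · have hb1 : b = 1 := by omega
          subst hb1
          rcases Nat.lt_or_ge c 3 with hc | hc
          · exact Or.inl (mono3 hA (by omega) (by omega) (by omega))
          · have hc' : c = 3 := by omega
            subst hc'
            exact Or.inr (Or.inl ⟨hB113, mono3 hA (by omega) (by omega) (by omega)⟩)
        · have hb' : b = 2 := by
            rcases Nat.lt_or_ge b 3 with h | h
            · omega
            · have : b = 3 := by omega
              have := hbc' this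
              omega
          subst hb'
          exact Or.inr (Or.inl ⟨tr hB122 (mono3 hA (by omega) (by omega) (by omega)),
            mono3 hA (by omega) (by omega) (by omega)⟩)
      · have hb' : b = 2 := by
          rcases Nat.lt_or_ge b 3 with h | h
          · omega
          · have : b = 3 := by omega
            have := hbc' this
            omega
        have ha' : a = 2 := by omega
        subst hb'
        subst ha'
        exact Or.inr (Or.inr ⟨tr hB222 (mono3 hA (by omega) (by omega) (by omega)),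
          mono3 hA (by omega) (by omega) (by omega)⟩)
    · exfalso
      obtain ⟨i, hi⟩ := h
      fin_cases i
      · have : a = 0 := hi
        omega
      · have : b = 0 := hi
        omega
      · have : c = 0 := hi
        omega

end n4Aux

open n4Aux

theorem n4 : (S_N4a) → (S_N4b) → S_N4 := by
  intro hA hB ℓ h2 h0 h1
  show Con ℓ
  let σ := Tuple.sort ℓ
  have hmono : Monotone (ℓ ∘ σ) := Tuple.monotone_sort ℓ
  have hfun : (fun i => ℓ (σ i)) = ![ℓ (σ 0), ℓ (σ 1), ℓ (σ 2)] := by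
    funext i
    fin_cases i <;> rfl
  have hinto : IsIndSub (Spid ![ℓ (σ 0), ℓ (σ 1), ℓ (σ 2)]) (Spid ℓ) := by
    exact castL hfun (hA.2.1 ℓ σ)
  have hout : IsIndSub (Spid ℓ) (Spid ![ℓ (σ 0), ℓ (σ 1), ℓ (σ 2)]) := by
    have h' : (fun i => (fun i => ℓ (σ i)) (σ.symm i)) = ℓ := by
      funext i
      show ℓ (σ (σ.symm i)) = ℓ i
      rw [Equiv.apply_symm_apply]
    exact castR hfun (castL h' (hA.2.1 (fun i => ℓ (σ i)) σ.symm))
  have hsum : ℓ (σ 0) + ℓ (σ 1) + ℓ (σ 2) = ℓ 0 + ℓ 1 + ℓ 2 := by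
    have := Equiv.sum_comp σ ℓ
    simpa [Fin.sum_univ_three] using this
  have h01 : ℓ (σ 0) ≤ ℓ (σ 1) := hmono (by decide)
  have h12 : ℓ (σ 1) ≤ ℓ (σ 2) := hmono (by decide)
  have hall : ∀ i, ℓ (σ 0) ≤ ℓ i := by
    intro i
    have : ℓ (σ 0) ≤ ℓ (σ (σ.symm i)) := hmono (Fin.zero_le _)
    rwa [Equiv.apply_symm_apply] at this
  have hne : σ 1 ≠ σ 2 := fun h => absurd (σ.injective h) (by decide)
  refine con_transfer (core hA hB _ _ _ h01 h12 (by omega) ?_ ?_) hout hinto ?_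
  · intro h
    rw [hsum]
    exact h0 ⟨σ 0, h⟩
  · intro h
    have h1' := h1 (fun i => le_trans h (hall i))
    refine ⟨(h1' (σ 2)).1, fun h3 => (h1' (σ 2)).2 (σ 1) hne h3, fun h3 => (h1' (σ 1)).2 (σ 2) hne.symm h3⟩
  · rintro ⟨i, hi⟩
    refine ⟨0, ?_⟩
    show ℓ (σ 0) = 0
    have := hall i
    omega

end Pool.Agent.MPd439b2.F9
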