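import Pool.Agent.Lib.MP_d439b2_co.F9.SpecN
import Pool.Agent.Lib.MP_d439b2_co.B.FN

/-!
# MP_d439b2_co, F9/N5: the component and its complement
-/

set_option autoImplicit false

namespace Pool.Agent.MPd439b2.F9

open Pool.Agent.MPd439b2

namespace n5Aux

theorem adj_iff {W : Type} (H : SimpleGraph W) (a b : W) : H.Adj a b ↔ a ≠ b ∧ ¬ Hᶜ.Adj a b := by
  rw [SimpleGraph.compl_adj]
  constructor
  · intro h
    exact ⟨h.ne, fun h' => h'.2 h⟩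
  · rintro ⟨h1, h2⟩
    by_contra h3
    exact h2 ⟨h1, h3⟩

end n5Aux

open n5Aux

/-- **N5.** -/
theorem n5 : S_N0 → S_N3 → S_N4 → S_N5 := by
  intro hN0 hN3 hN4 W _ H hC h2 x y z hyz hxy hxz
  obtain ⟨ℓ, e, he, hadj, hcl, hx⟩ := hN0 W H hC x
  obtain ⟨u0, hu0⟩ := hx
  obtain ⟨u1, hu1⟩ : y ∈ Set.range e := hcl u0 y (hu0 ▸ hxy)
  obtain ⟨u2, hu2⟩ : z ∈ Set.range e := hcl u0 z (hu0 ▸ hxz)
  have hsum : 2 ≤ ℓ 0 + ℓ 1 + ℓ 2 := by
    have h3 : 2 < Fintype.card (Option (Σ i : Fin 3, Fin (ℓ i))) := by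
      rw [Fintype.two_lt_card_iff]
      refine ⟨u0, u1, u2, ?_, ?_, ?_⟩
      · intro h; apply hxy.ne; rw [← hu0, ← hu1, h]
      · intro h; apply hxz.ne; rw [← hu0, ← hu2, h]
      · intro h; apply hyz; rw [← hu1, ← hu2, h]
    rw [Fintype.card_option, Fintype.card_sigma, Fin.sum_univ_three] at h3
    simp only [Fintype.card_fin] at h3
    omega
  have hno : ¬ ∃ g : Fin 6 → Option (Σ i : Fin 3, Fin (ℓ i)), Function.Injective g ∧
      ∀ a b, (Spid ℓ).Adj (g a) (g b) ↔ co2P3ᶜ.Adj a b := by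
    rintro ⟨g, hg, hga⟩
    refine h2 ⟨fun a => e (g a), he.comp hg, fun a b => ?_⟩
    rw [adj_iff co2P3, adj_iff H, hadj, hga]
    exact and_congr_left' (he.comp hg).ne_iff.symm
  obtain ⟨h3a, h3b⟩ := hN3 ℓ hno
  obtain ⟨h4a, h4b, h4c⟩ := hN4 ℓ hsum h3a h3b
  refine ⟨ℓ, e, he, hadj, hcl, ?_, h4a, h4b, h4c⟩
  intro u v w hu huv huw
  by_contra hvw
  obtain ⟨ι, f, hf, hadjf⟩ := hC
  have htri : ∀ a b c, Hᶜ.Adj a b → Hᶜ.Adj a c → Hᶜ.Adj b c → False :=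
    fun a b c h h' h'' => Size8_ttri (hadjf _ _ h) (hadjf _ _ h') (hadjf _ _ h'')
  have hv : v ∉ Set.range e := by
    rintro ⟨p, rfl⟩
    exact hu (hcl p u huv.symm)
  have hw : w ∉ Set.range e := by
    rintro ⟨p, rfl⟩
    exact hu (hcl p u huw.symm)
  obtain ⟨g, hg, hga⟩ := h4a
  set p0 : Option (Σ i : Fin 3, Fin ((![0, 1, 1] : Fin 3 → ℕ) i)) := none with hp0
  set p1 : Option (Σ i : Fin 3, Fin ((![0, 1, 1] : Fin 3 → ℕ) i)) := some ⟨1, ⟨0, by decide⟩⟩ with hp1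
  set p2 : Option (Σ i : Fin 3, Fin ((![0, 1, 1] : Fin 3 → ℕ) i)) := some ⟨2, ⟨0, by decide⟩⟩ with hp2
  have a01 : (Spid ![0, 1, 1]).Adj p0 p1 := rfl
  have a02 : (Spid ![0, 1, 1]).Adj p0 p2 := rfl
  have n12 : p1 ≠ p2 := by
    intro h
    have := Option.some.inj h
    have h' := congrArg Sigma.fst this
    exact absurd h' (by decide)
  refine h2 (fNAux.two htri (x := e (g p0)) (y := e (g p1)) (z := e (g p2)) (u := u) (v := v)
    (w := w) ((hadj _ _).2 ((hga _ _).1 a01)) ((hadj _ _).2 ((hga _ _).1 a02))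
    (fun h => n12 (hg (he h))) huv huw hvw ?_)
  intro a ha b hb
  have har : a ∈ Set.range e := by
    rcases ha with h | h | h
    · exact ⟨_, h.symm⟩
    · exact ⟨_, h.symm⟩
    · exact ⟨_, (Set.mem_singleton_iff.1 h).symm⟩
  have hbr : b ∉ Set.range e := by
    rcases hb with h | h | h
    · exact h ▸ hu
    · exact h ▸ hv
    · exact (Set.mem_singleton_iff.1 h) ▸ hw
  obtain ⟨q, rfl⟩ := har
  exact ⟨fun h => hbr ⟨q, h⟩, fun h => hbr (hcl q b h)⟩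

end Pool.Agent.MPd439b2.F9
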