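import Pool.Agent.Lib.MP_d439b2_co.F9.SpecN

/-!
# MP_d439b2_co, F9, N6: the case of maximum degree one
-/

set_option autoImplicit false

namespace Pool.Agent.MPd439b2.F9

open Pool.Agent.MPd439b2

namespace n6Aux

/-- an induced matching in the complement -/
theorem ind_of_mtc {W : Type} {H : SimpleGraph W} {n : ℕ} {g : Fin n × Bool → W}
    (hg : Function.Injective g) (hadj : ∀ z z', Hᶜ.Adj (g z) (g z') ↔ (Mtc n).Adj z z')
    (z z' : Fin n × Bool) : H.Adj (g z) (g z') ↔ z.1 ≠ z'.1 := by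
  have h1 := hadj z z'
  rw [SimpleGraph.compl_adj] at h1
  have h2 : (Mtc n).Adj z z' ↔ z.1 = z'.1 ∧ z.2 ≠ z'.2 := Iff.rfl
  rw [h2] at h1
  constructor
  · intro h h3
    have h4 : z ≠ z' := by
      rintro rfl
      exact H.loopless.irrefl _ h
    have h5 : z.2 ≠ z'.2 := fun h6 => h4 (Prod.ext h3 h6)
    exact (h1.2 ⟨h3, h5⟩).2 h
  · intro h3
    by_contra h
    have h4 : g z ≠ g z' := fun h5 => h3 (by rw [hg h5])
    exact h3 (h1.1 ⟨h4, h⟩).1

theorem indsub_of_mtc {W T : Type} {H : SimpleGraph W} {Kg : SimpleGraph T} {n : ℕ} {g : Fin n × Bool → W}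
    (hg : Function.Injective g) (hadj : ∀ z z', Hᶜ.Adj (g z) (g z') ↔ (Mtc n).Adj z z')
    (e : T → Fin n × Bool) (he : Function.Injective e) (hK : ∀ i j, Kg.Adj i j ↔ (e i).1 ≠ (e j).1) :
    IsIndSub Kg H :=
  ⟨fun i => g (e i), fun _ _ h => he (hg h), fun i j => by
    rw [hK i j]
    exact (ind_of_mtc hg hadj (e i) (e j)).symm⟩

/-- the assembly -/
theorem asm {W X : Type} {H : SimpleGraph W} {J : SimpleGraph X} {t s : ℕ} (h : W → (Fin t × Bool) ⊕ Fin s)
    (hinj : ∀ u v, h u = h v → u = v)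
    (hadj : ∀ u v, (Hᶜ.Adj u v ↔ ∃ z z', h u = Sum.inl z ∧ h v = Sum.inl z' ∧ (Mtc t).Adj z z'))
    (ψ : Fin t × Bool → X) (hψ : ∀ z z', ψ z = ψ z' → z = z')
    (hψa : ∀ z z', J.Adj (ψ z) (ψ z') ↔ z.1 ≠ z'.1) : IsIndSub H (KJ s J) := by
  classical
  have key : ∀ u v, H.Adj u v ↔ u ≠ v ∧ ¬ Hᶜ.Adj u v := by
    intro u v
    rw [SimpleGraph.compl_adj]
    constructor
    · intro h1
      exact ⟨h1.ne, fun h2 => h2.2 h1⟩
    · rintro ⟨h1, h2⟩
      by_contra h3
      exact h2 ⟨h1, h3⟩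
  refine ⟨fun w => match h w with
    | Sum.inl z => Sum.inr (ψ z)
    | Sum.inr i => Sum.inl i, ?_, ?_⟩
  · intro u v huv
    apply hinj
    rcases hu : h u with z | i <;> rcases hv : h v with z' | j
    · simp only [hu, hv, Sum.inr.injEq] at huv
      rw [hψ z z' huv]
    · simp [hu, hv] at huv
    · simp [hu, hv] at huv
    · simp only [hu, hv, Sum.inl.injEq] at huv
      rw [huv]
  · intro u v
    rw [key]
    have h2 := hadj u v
    rcases hu : h u with z | i <;> rcases hv : h v with z' | j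
    · have h3 : (KJ s J).Adj (Sum.inr (ψ z)) (Sum.inr (ψ z')) ↔ J.Adj (ψ z) (ψ z') := Iff.rfl
      simp only [hu, hv]
      rw [h3, hψa, h2]
      constructor
      · rintro ⟨h4, h5⟩ h6
        apply h5
        refine ⟨z, z', hu, hv, h6, fun h7 => h4 (hinj u v ?_)⟩
        rw [hu, hv, Prod.ext h6 h7]
      · intro h4
        refine ⟨?_, ?_⟩
        · rintro rfl
          rw [hu] at hv
          exact h4 (by rw [Sum.inl.inj hv])
        · rintro ⟨a, b, ha, hb, hab⟩
          rw [hu] at ha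
          rw [hv] at hb
          rw [← Sum.inl.inj ha, ← Sum.inl.inj hb] at hab
          exact h4 hab.1
    · have h3 : (KJ s J).Adj (Sum.inr (ψ z)) (Sum.inl j) ↔ True := Iff.rfl
      simp only [hu, hv]
      rw [h3, h2, iff_true]
      refine ⟨?_, ?_⟩
      · rintro rfl
        rw [hu] at hv
        exact absurd hv (by simp)
      · rintro ⟨a, b, ha, hb, hab⟩
        rw [hv] at hb
        exact absurd hb (by simp)
    · have h3 : (KJ s J).Adj (Sum.inl i) (Sum.inr (ψ z')) ↔ True := Iff.rfl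
      simp only [hu, hv]
      rw [h3, h2, iff_true]
      refine ⟨?_, ?_⟩
      · rintro rfl
        rw [hu] at hv
        exact absurd hv (by simp)
      · rintro ⟨a, b, ha, hb, hab⟩
        rw [hu] at ha
        exact absurd ha (by simp)
    · have h3 : (KJ s J).Adj (Sum.inl i) (Sum.inl j) ↔ i ≠ j := Iff.rfl
      simp only [hu, hv]
      rw [h3, h2]
      constructor
      · rintro ⟨h4, -⟩ h5
        exact h4 (hinj u v (by rw [hu, hv, h5]))
      · intro h4
        refine ⟨?_, ?_⟩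
        · rintro rfl
          rw [hu] at hv
          exact h4 (Sum.inr.inj hv)
        · rintro ⟨a, b, ha, hb, hab⟩
          rw [hu] at ha
          exact absurd ha (by simp)

instance decSpid (ℓ : Fin 3 → ℕ) : DecidableRel (Spid ℓ).Adj
  | none, none => isFalse id
  | none, some v => inferInstanceAs (Decidable (v.2.val = 0))
  | some u, none => inferInstanceAs (Decidable (u.2.val = 0))
  | some u, some v => inferInstanceAs (Decidable (u.1 = v.1 ∧ (u.2.val + 1 = v.2.val ∨ v.2.val + 1 = u.2.val)))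

instance decJS (ℓ : Fin 3 → ℕ) (t : ℕ) : DecidableRel (JS ℓ t).Adj
  | Sum.inl u, Sum.inl v => inferInstanceAs (Decidable (u ≠ v ∧ ¬ (Spid ℓ).Adj u v))
  | Sum.inl _, Sum.inr _ => isTrue trivial
  | Sum.inr _, Sum.inl _ => isTrue trivial
  | Sum.inr u, Sum.inr v => inferInstanceAs (Decidable (u.1 ≠ v.1))

/-- one edge in the spider, the other edges outside -/
def psi (ℓ : Fin 3 → ℕ) (p : Fin (ℓ 2)) (t : ℕ) (z : Fin (t + 1) × Bool) :
    Option (Σ i : Fin 3, Fin (ℓ i)) ⊕ (Fin t × Bool) :=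
  if h : z.1.val < t then Sum.inr (⟨z.1.val, h⟩, z.2) else
    Sum.inl (if z.2 then some ⟨2, p⟩ else none)

theorem psi_inj (ℓ : Fin 3 → ℕ) (p : Fin (ℓ 2)) (t : ℕ) (z z' : Fin (t + 1) × Bool)
    (h : psi ℓ p t z = psi ℓ p t z') : z = z' := by
  obtain ⟨a, b⟩ := z
  obtain ⟨a', b'⟩ := z'
  unfold psi at h
  by_cases ha : a.val < t <;> by_cases ha' : a'.val < t
  · simp only [ha, ha', dif_pos, Sum.inr.injEq, Prod.mk.injEq, Fin.mk.injEq] at h
    rw [Prod.mk.injEq]
    exact ⟨Fin.ext h.1, h.2⟩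
  · simp [ha, ha'] at h
  · simp [ha, ha'] at h
  · have e : a = a' := Fin.ext (by omega)
    simp only [ha, ha', dif_neg, not_false_iff, Sum.inl.injEq] at h
    subst e
    cases b <;> cases b' <;> simp at h ⊢

theorem psi_adj (ℓ : Fin 3 → ℕ) (p : Fin (ℓ 2)) (hp : p.val = 0) (t : ℕ) (z z' : Fin (t + 1) × Bool) :
    (JS ℓ t).Adj (psi ℓ p t z) (psi ℓ p t z') ↔ z.1 ≠ z'.1 := by
  obtain ⟨a, b⟩ := z
  obtain ⟨a', b'⟩ := z'
  unfold psi
  by_cases ha : a.val < t <;> by_cases ha' : a'.val < t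
  · simp only [ha, ha', dif_pos]
    have h3 : (JS ℓ t).Adj (Sum.inr (⟨a.val, ha⟩, b)) (Sum.inr (⟨a'.val, ha'⟩, b')) ↔
        (⟨a.val, ha⟩ : Fin t) ≠ ⟨a'.val, ha'⟩ := Iff.rfl
    rw [h3, Ne, Ne, Fin.mk.injEq, Fin.ext_iff]
  · simp only [ha, ha', dif_pos, dif_neg, not_false_iff]
    refine iff_of_true trivial ?_
    intro h
    rw [h] at ha
    exact ha' ha
  · simp only [ha, ha', dif_pos, dif_neg, not_false_iff]
    refine iff_of_true trivial ?_
    intro h
    rw [← h] at ha'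
    exact ha ha'
  · have e : a = a' := Fin.ext (by omega)
    subst e
    simp only [ha, dif_neg, not_false_iff, ne_eq, not_true_eq_false, iff_false]
    rintro ⟨h1, h2⟩
    cases b <;> cases b'
    · exact h1 rfl
    · exact h2 hp
    · exact h2 hp
    · exact h1 rfl

/-- two edges on two legs -/
def psi2 (z : Fin 2 × Bool) : Option (Σ i : Fin 3, Fin ((![0, 2, 2] : Fin 3 → ℕ) i)) ⊕ (Fin 0 × Bool) :=
  Sum.inl (some (if z.1 = 0 then ⟨1, (if z.2 then (0 : Fin 2) else (1 : Fin 2))⟩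
    else ⟨2, (if z.2 then (0 : Fin 2) else (1 : Fin 2))⟩))

theorem psi2_inj : ∀ z z', psi2 z = psi2 z' → z = z' := by decide

theorem psi2_adj : ∀ z z', (JS ![0, 2, 2] 0).Adj (psi2 z) (psi2 z') ↔ z.1 ≠ z'.1 := by decide

end n6Aux

open n6Aux in
theorem n6 (h1 : S_N1) : S_N6 := by
  intro W _ H hdeg
  have hS : ∀ u ∈ (Set.univ : Set W), ∀ v ∈ (Set.univ : Set W), ∀ w ∈ (Set.univ : Set W),
      Hᶜ.Adj u v → Hᶜ.Adj u w → v = w := fun u _ v _ w _ => hdeg u v w
  refine ⟨fun hno => ?_, fun hno => ?_, fun hno => ?_⟩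
  · obtain ⟨s, h, hinj, hadj⟩ := h1 W Hᶜ Set.univ 5 hS (by
      rintro ⟨g, hg, -, hga⟩
      exact hno (indsub_of_mtc hg hga id (fun _ _ h => h) (fun i j => Iff.rfl)))
    exact ⟨s, asm h (fun u v => hinj u trivial v trivial) (fun u v => hadj u trivial v trivial)
        (psi ![1, 1, 2] (0 : Fin 2) 4) (psi_inj _ _ _) (psi_adj ![1, 1, 2] (0 : Fin 2) rfl 4),
      asm h (fun u v => hinj u trivial v trivial) (fun u v => hadj u trivial v trivial)
        (psi ![0, 1, 1] (0 : Fin 1) 4) (psi_inj _ _ _) (psi_adj ![0, 1, 1] (0 : Fin 1) rfl 4)⟩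
  · obtain ⟨s, h, hinj, hadj⟩ := h1 W Hᶜ Set.univ 2 hS (by
      rintro ⟨g, hg, -, hga⟩
      apply hno
      refine indsub_of_mtc hg hga (fun i => (⟨i.val / 2, by omega⟩, decide (i.val % 2 = 1))) ?_ ?_
      · intro i j h
        rw [Prod.mk.injEq, Fin.mk.injEq, decide_eq_decide] at h
        apply Fin.ext
        have := h.1
        have := h.2
        omega
      · intro i j
        have h3 : co3P2.Adj i j ↔ i.val / 2 ≠ j.val / 2 := Iff.rfl
        rw [h3]
        simp [Fin.ext_iff])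
    exact ⟨s, asm h (fun u v => hinj u trivial v trivial) (fun u v => hadj u trivial v trivial)
      psi2 psi2_inj psi2_adj⟩
  · obtain ⟨s, h, hinj, hadj⟩ := h1 W Hᶜ Set.univ 1 hS (by
      rintro ⟨g, hg, -, hga⟩
      apply hno
      refine indsub_of_mtc hg hga (fun i => (⟨i.val % 2, by omega⟩, decide (i.val / 2 = 1))) ?_ ?_
      · intro i j h
        rw [Prod.mk.injEq, Fin.mk.injEq, decide_eq_decide] at h
        apply Fin.ext
        have := h.1
        have := h.2
        omega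
      · intro i j
        have h3 : cyc4.Adj i j ↔ (i.val + j.val) % 2 = 1 := Iff.rfl
        rw [h3]
        simp only [ne_eq, Fin.mk.injEq]
        omega)
    exact ⟨s, asm h (fun u v => hinj u trivial v trivial) (fun u v => hadj u trivial v trivial)
        (psi ![1, 1, 2] (0 : Fin 2) 0) (psi_inj _ _ _) (psi_adj ![1, 1, 2] (0 : Fin 2) rfl 0)⟩

end Pool.Agent.MPd439b2.F9
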