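import Pool.Agent.Lib.MP_d439b2_co.F9.SpecN

/-!
# MP_d439b2_co, F9, N7: the three maximal graphs
-/

set_option autoImplicit false

namespace Pool.Agent.MPd439b2.F9

open Pool.Agent.MPd439b2

namespace n7Aux

private theorem trans' {A B C : Type} {F : SimpleGraph A} {G : SimpleGraph B} {H : SimpleGraph C}
    (h : IsIndSub F G) (h' : IsIndSub G H) : IsIndSub F H := by
  obtain ⟨f, hf, hf'⟩ := h
  obtain ⟨g, hg, hg'⟩ := h'
  exact ⟨fun x => g (f x), fun x y hxy => hf (hg hxy), fun u v => (hf' u v).trans (hg' _ _)⟩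

/-- gluing a matching of the component and a matching outside -/
private theorem glue {W : Type} {H : SimpleGraph W} {ℓ : Fin 3 → ℕ}
    {e : Option (Σ i : Fin 3, Fin (ℓ i)) → W} (he : Function.Injective e)
    (hadj : ∀ u v, Hᶜ.Adj (e u) (e v) ↔ (Spid ℓ).Adj u v)
    (hcl : ∀ u w, Hᶜ.Adj (e u) w → w ∈ Set.range e) {ν t : ℕ} (hν : ν + t = 6)
    (hm : IsIndSub (Mtc ν) (Spid ℓ)) {g : Fin t × Bool → W} (ginj : Function.Injective g)
    (gout : ∀ z, g z ∉ Set.range e) (gadj : ∀ z z', Hᶜ.Adj (g z) (g z') ↔ (Mtc t).Adj z z') :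
    IsIndSub co6P2 H := by
  obtain ⟨m, hm1, hm2⟩ := hm
  obtain ⟨f, hf⟩ : ∃ f : Fin 6 × Bool → W, ∀ z,
      (∃ z' : Fin ν × Bool, z.1.val = z'.1.val ∧ z.2 = z'.2 ∧ f z = e (m z')) ∨
      (∃ z' : Fin t × Bool, z.1.val = ν + z'.1.val ∧ z.2 = z'.2 ∧ f z = g z') := by
    refine ⟨fun z => if h : z.1.val < ν then e (m (⟨z.1.val, h⟩, z.2)) else
      g (⟨z.1.val - ν, by have := z.1.isLt; omega⟩, z.2), fun z => ?_⟩
    by_cases h : z.1.val < ν
    · left
      refine ⟨(⟨z.1.val, h⟩, z.2), rfl, rfl, ?_⟩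
      simp only [h, dif_pos]
    · right
      refine ⟨(⟨z.1.val - ν, by have := z.1.isLt; omega⟩, z.2), ?_, rfl, ?_⟩
      · show z.1.val = ν + (z.1.val - ν)
        omega
      · simp only [h, dif_neg, not_false_eq_true]
  have finj : Function.Injective f := by
    intro u v huv
    rcases hf u with ⟨u', h1, h2, h3⟩ | ⟨u', h1, h2, h3⟩ <;>
      rcases hf v with ⟨v', h4, h5, h6⟩ | ⟨v', h4, h5, h6⟩
    · rw [h3, h6] at huv
      have h7 := hm1 (he huv)
      subst h7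
      exact Prod.ext (Fin.ext (h1.trans h4.symm)) (h2.trans h5.symm)
    · rw [h3, h6] at huv
      exact absurd ⟨_, huv⟩ (gout v')
    · rw [h3, h6] at huv
      exact absurd ⟨_, huv.symm⟩ (gout u')
    · rw [h3, h6] at huv
      have h7 := ginj huv
      subst h7
      exact Prod.ext (Fin.ext (h1.trans h4.symm)) (h2.trans h5.symm)
  have key : ∀ u v, Hᶜ.Adj (f u) (f v) ↔ (u.1 = v.1 ∧ u.2 ≠ v.2) := by
    intro u v
    rcases hf u with ⟨u', h1, h2, h3⟩ | ⟨u', h1, h2, h3⟩ <;>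
      rcases hf v with ⟨v', h4, h5, h6⟩ | ⟨v', h4, h5, h6⟩
    · rw [h3, h6, hadj, ← hm2, h2, h5]
      have h8 : u.1 = v.1 ↔ u'.1 = v'.1 := by
        rw [Fin.ext_iff, Fin.ext_iff, h1, h4]
      rw [h8]
      exact Iff.rfl
    · rw [h3, h6]
      constructor
      · intro h
        exact absurd (hcl _ _ h) (gout v')
      · rintro ⟨h, _⟩
        rw [Fin.ext_iff] at h
        have := u'.1.isLt
        omega
    · rw [h3, h6]
      constructor
      · intro h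
        exact absurd (hcl _ _ h.symm) (gout u')
      · rintro ⟨h, _⟩
        rw [Fin.ext_iff] at h
        have := v'.1.isLt
        omega
    · rw [h3, h6, gadj, h2, h5]
      have h8 : u.1 = v.1 ↔ u'.1 = v'.1 := by
        rw [Fin.ext_iff, Fin.ext_iff, h1, h4]
        omega
      rw [h8]
      exact Iff.rfl
  refine ⟨f, finj, fun u v => ?_⟩
  constructor
  · intro h
    have h1 : u.1 ≠ v.1 := h
    have h2 : f u ≠ f v := fun h3 => h1 (by rw [finj h3])
    by_contra h3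
    have h4 : Hᶜ.Adj (f u) (f v) := ⟨h2, h3⟩
    exact h1 ((key u v).1 h4).1
  · intro h h1
    have h2 : u ≠ v := fun h3 => h.ne (by rw [h3])
    have h3 : u.2 ≠ v.2 := fun h4 => h2 (Prod.ext h1 h4)
    exact ((key u v).2 ⟨h1, h3⟩).2 h

private theorem mtc1 : IsIndSub (Mtc 1) (Spid ![0, 1, 1]) := by
  refine ⟨fun z => if z.2 then none else some ⟨1, ⟨0, by decide⟩⟩, ?_, ?_⟩
  · rintro ⟨a, b⟩ ⟨a', b'⟩ h
    have ha : a = a' := Subsingleton.elim _ _
    subst ha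
    cases b <;> cases b' <;> simp at h ⊢
  · rintro ⟨a, b⟩ ⟨a', b'⟩
    have ha : a = a' := Subsingleton.elim _ _
    subst ha
    cases b <;> cases b' <;> simp [Mtc, Spid]

end n7Aux

open n7Aux

theorem n7 : (S_N2) → (S_N5) → (S_N6) → S_N7 := by
  intro hN2 hN5 hN6 W _ H hS h23 h62
  by_cases hx : ∀ u v w, Hᶜ.Adj u v → Hᶜ.Adj u w → v = w
  · obtain ⟨s, hs, _⟩ := (hN6 W H hx).1 h62
    exact ⟨s, Or.inr (Or.inr hs)⟩
  · push Not at hx
    obtain ⟨x, y, z, hxy, hxz, hyz⟩ := hx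
    obtain ⟨ℓ, e, he, hadj, hcl, hout, h011, hcase, _⟩ := hN5 W H hS h23 x y z hyz hxy hxz
    rcases hcase with hc | ⟨hm, hc⟩ | ⟨hm, hc⟩
    · obtain ⟨s, hs⟩ := hN2 W H ℓ ![1, 1, 2] 4 e he hadj hcl hc hout (by
        rintro ⟨g, g1, g2, g3⟩
        exact h62 (glue he hadj hcl (ν := 1) (t := 5) (by norm_num) (trans' mtc1 h011) g1 g2 g3))
      exact ⟨s, Or.inr (Or.inr hs)⟩
    · obtain ⟨s, hs⟩ := hN2 W H ℓ ![1, 2, 3] 3 e he hadj hcl hc hout (by
        rintro ⟨g, g1, g2, g3⟩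
        exact h62 (glue he hadj hcl (ν := 2) (t := 4) (by norm_num) hm g1 g2 g3))
      exact ⟨s, Or.inr (Or.inl hs)⟩
    · obtain ⟨s, hs⟩ := hN2 W H ℓ ![2, 2, 3] 2 e he hadj hcl hc hout (by
        rintro ⟨g, g1, g2, g3⟩
        exact h62 (glue he hadj hcl (ν := 3) (t := 3) (by norm_num) hm g1 g2 g3))
      exact ⟨s, Or.inl hs⟩

end Pool.Agent.MPd439b2.F9
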