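import Pool.Agent.Lib.MP_d439b2_co.F9.SpecN
import Pool.Agent.Lib.MP_d439b2_co.Size8

/-!
# MP_d439b2_co, F9/N8: the linear cases
-/

set_option autoImplicit false

namespace Pool.Agent.MPd439b2.F9

open Pool.Agent.MPd439b2

namespace n8Aux

/-- induced subgraphs are induced minors -/
theorem sub_minor {W V : Type} {H : SimpleGraph W} {G : SimpleGraph V} (h : IsIndSub H G) :
    IsIndMinor H G := by
  obtain ⟨f, hf, hadj⟩ := h
  refine ⟨fun w => {f w}, fun w => ?_, fun w w' hww => ?_, fun w w' _ => ?_⟩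
  · have : Subsingleton ({f w} : Set V) := ⟨fun a b => Subtype.ext (a.2.trans b.2.symm)⟩
    have : Nonempty ({f w} : Set V) := ⟨⟨f w, rfl⟩⟩
    constructor
    exact SimpleGraph.Preconnected.of_subsingleton
  · rw [Set.disjoint_singleton]
    exact fun h => hww (hf h)
  · rw [hadj]
    constructor
    · intro h
      exact ⟨f w, rfl, f w', rfl, h⟩
    · rintro ⟨x, hx, y, hy, h⟩
      rw [Set.mem_singleton_iff.1 hx, Set.mem_singleton_iff.1 hy] at h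
      exact h

theorem sub_trans {A B C : Type} {P : SimpleGraph A} {Q : SimpleGraph B} {R : SimpleGraph C}
    (h : IsIndSub P Q) (h' : IsIndSub Q R) : IsIndSub P R := by
  obtain ⟨f, hf, ha⟩ := h
  obtain ⟨g, hg, hb⟩ := h'
  exact ⟨fun x => g (f x), hg.comp hf, fun u v => (ha u v).trans (hb _ _)⟩

theorem of_compl {Z W : Type} {T : SimpleGraph Z} {H : SimpleGraph W} (F : Z → W)
    (hF : Function.Injective F) (h : ∀ a b, Hᶜ.Adj (F a) (F b) ↔ Tᶜ.Adj a b) : IsIndSub T H := by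
  refine ⟨F, hF, fun a b => ?_⟩
  have h1 := h a b
  simp only [SimpleGraph.compl_adj] at h1
  by_cases hab : a = b
  · subst hab
    simp
  · have h2 : F a ≠ F b := hF.ne hab
    tauto

theorem sep {ι : Type} {a b : ι × Fin 3 × ℕ} (h1 : a.1 = b.1) (h : a ≠ b) :
    a.2.1.val ≠ b.2.1.val ∨ a.2.2 ≠ b.2.2 := by
  by_contra hcon
  push Not at hcon
  exact h (Prod.ext h1 (Prod.ext (Fin.ext hcon.1) hcon.2))

theorem nlev {ι : Type} {u a b c : ι × Fin 3 × ℕ} (h1 : (nets ι).Adj u a)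
    (h2 : (nets ι).Adj u b) (h3 : (nets ι).Adj u c) (hab : a ≠ b) (hac : a ≠ c)
    (hbc : b ≠ c) : (a.2.2 = 0 ∧ b.2.2 = 0) ∨ (a.2.2 = 0 ∧ c.2.2 = 0) ∨
      (b.2.2 = 0 ∧ c.2.2 = 0) := by
  have e1 := Size8_nadj h1
  have e2 := Size8_nadj h2
  have e3 := Size8_nadj h3
  have s1 := sep (h1.2.1.symm.trans h2.2.1) hab
  have s2 := sep (h1.2.1.symm.trans h3.2.1) hac
  have s3 := sep (h2.2.1.symm.trans h3.2.1) hbc
  have l1 := a.2.1.isLt
  have l2 := b.2.1.isLt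
  have l3 := c.2.1.isLt
  have l4 := u.2.1.isLt
  omega

/-- no vertex has three different neighbours in the complement -/
theorem deg3 {W : Type} {H : SimpleGraph W} (hS : InCoS H) (hT : InCoT H) {u a b c : W}
    (h1 : Hᶜ.Adj u a) (h2 : Hᶜ.Adj u b) (h3 : Hᶜ.Adj u c) (hab : a ≠ b) (hac : a ≠ c)
    (hbc : b ≠ c) : False := by
  obtain ⟨ι, f, hf, hfa⟩ := hS
  obtain ⟨κ, g, hg, hga, hlast⟩ := hT
  have tri : ∀ x y, Hᶜ.Adj u x → Hᶜ.Adj u y → Hᶜ.Adj x y → False := fun x y hx hy hxy =>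
    Size8_ttri (hfa _ _ hx) (hfa _ _ hy) (hfa _ _ hxy)
  have g1 := hga _ _ h1
  have g2 := hga _ _ h2
  have g3 := hga _ _ h3
  rcases nlev g1 g2 g3 (hg.ne hab) (hg.ne hac) (hg.ne hbc) with ⟨e1, e2⟩ | ⟨e1, e2⟩ | ⟨e1, e2⟩
  · exact tri a b h1 h2 (hlast a b hab (g1.2.1.symm.trans g2.2.1) e1 e2)
  · exact tri a c h1 h3 (hlast a c hac (g1.2.1.symm.trans g3.2.1) e1 e2)
  · exact tri b c h2 h3 (hlast b c hbc (g2.2.1.symm.trans g3.2.1) e1 e2)

/-- adjacency of the path `0, ..., n - 1` together with one edge -/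
def PEr (n : ℕ) : Fin n ⊕ Bool → Fin n ⊕ Bool → Bool
  | Sum.inl i, Sum.inl j => decide (i.val + 1 = j.val ∨ j.val + 1 = i.val)
  | Sum.inr a, Sum.inr b => a != b
  | _, _ => false

/-- a path inside of `R`, an edge outside of `R`, no edge between -/
theorem pe {W : Type} {D : SimpleGraph W} {R : Set W}
    (hcl : ∀ u w, u ∈ R → D.Adj u w → w ∈ R) {n : ℕ} (P : Fin n → W)
    (hP : Function.Injective P) (hPR : ∀ i, P i ∈ R)
    (hPa : ∀ i j, D.Adj (P i) (P j) ↔ (i.val + 1 = j.val ∨ j.val + 1 = i.val))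
    (g : Fin (0 + 1) × Bool → W) (hg : Function.Injective g) (hgR : ∀ z, g z ∉ R)
    (hga : ∀ z z', D.Adj (g z) (g z') ↔ (Mtc (0 + 1)).Adj z z') :
    ∃ F : Fin n ⊕ Bool → W, Function.Injective F ∧
      ∀ x y, D.Adj (F x) (F y) ↔ PEr n x y = true := by
  refine ⟨Sum.elim P (fun b => g (0, b)), ?_, ?_⟩
  · intro x y hxy
    rcases x with x | x <;> rcases y with y | y
    · exact congrArg Sum.inl (hP hxy)
    · have hxy' : P x = g (0, y) := hxy
      exact absurd (hxy' ▸ hPR x : g (0, y) ∈ R) (hgR _)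
    · have hxy' : g (0, x) = P y := hxy
      exact absurd (hxy' ▸ hPR y : g (0, x) ∈ R) (hgR _)
    · have := hg hxy
      rw [Prod.mk.injEq] at this
      exact congrArg Sum.inr this.2
  · intro x y
    rcases x with x | x <;> rcases y with y | y
    · simp only [Sum.elim_inl, PEr, decide_eq_true_eq]
      exact hPa x y
    · simp only [Sum.elim_inl, Sum.elim_inr, PEr, Bool.false_eq_true, iff_false]
      exact fun h => hgR _ (hcl _ _ (hPR x) h)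
    · simp only [Sum.elim_inl, Sum.elim_inr, PEr, Bool.false_eq_true, iff_false]
      exact fun h => hgR _ (hcl _ _ (hPR y) h.symm)
    · simp only [Sum.elim_inr, PEr, bne_iff_ne]
      rw [hga]
      exact ⟨fun h => h.2, fun h => ⟨rfl, h⟩⟩

/-- the path on four vertices -/
def q4 : Fin 4 → Option (Σ i : Fin 3, Fin ((![0, 1, 2] : Fin 3 → ℕ) i)) :=
  ![some ⟨1, ⟨0, by decide⟩⟩, none, some ⟨2, ⟨0, by decide⟩⟩, some ⟨2, ⟨1, by decide⟩⟩]

/-- the path on three vertices -/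
def q3 : Fin 3 → Option (Σ i : Fin 3, Fin ((![0, 1, 1] : Fin 3 → ℕ) i)) :=
  ![some ⟨1, ⟨0, by decide⟩⟩, none, some ⟨2, ⟨0, by decide⟩⟩]

theorem q4_inj : Function.Injective q4 := by decide

theorem q3_inj : Function.Injective q3 := by decide

theorem q4_adj (i j : Fin 4) : (Spid ![0, 1, 2]).Adj (q4 i) (q4 j) ↔
    (i.val + 1 = j.val ∨ j.val + 1 = i.val) := by
  fin_cases i <;> fin_cases j <;> simp [q4, Spid]

theorem q3_adj (i j : Fin 3) : (Spid ![0, 1, 1]).Adj (q3 i) (q3 j) ↔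
    (i.val + 1 = j.val ∨ j.val + 1 = i.val) := by
  fin_cases i <;> fin_cases j <;> simp [q3, Spid]

/-- a spider which contains the path on four vertices and an edge outside -/
theorem c42 {W : Type} {H : SimpleGraph W} {ℓ : Fin 3 → ℕ}
    {e : Option (Σ i : Fin 3, Fin (ℓ i)) → W} (he : Function.Injective e)
    (hadj : ∀ u v, Hᶜ.Adj (e u) (e v) ↔ (Spid ℓ).Adj u v)
    (hcl : ∀ u w, Hᶜ.Adj (e u) w → w ∈ Set.range e)
    (hs : IsIndSub (Spid ![0, 1, 2]) (Spid ℓ))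
    (hg : ∃ g : Fin (0 + 1) × Bool → W, Function.Injective g ∧ (∀ z, g z ∉ Set.range e) ∧
      ∀ z z', Hᶜ.Adj (g z) (g z') ↔ (Mtc (0 + 1)).Adj z z') : IsIndSub coP4P2 H := by
  obtain ⟨g, h1, h2, h3⟩ := hg
  obtain ⟨φ, hφ, hφa⟩ := hs
  obtain ⟨F, hF, hFa⟩ := pe (D := Hᶜ) (R := Set.range e)
    (by rintro _ w ⟨u, rfl⟩ h; exact hcl u w h) (fun i => e (φ (q4 i)))
    (he.comp (hφ.comp q4_inj)) (fun i => ⟨_, rfl⟩)
    (fun i j => by rw [hadj, ← hφa, q4_adj]) g h1 h2 h3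
  have hψ : Function.Injective (![Sum.inl 0, Sum.inl 1, Sum.inl 2, Sum.inl 3, Sum.inr false,
      Sum.inr true] : Fin 6 → Fin 4 ⊕ Bool) := by decide
  refine of_compl (fun i => F ((![Sum.inl 0, Sum.inl 1, Sum.inl 2, Sum.inl 3, Sum.inr false,
      Sum.inr true] : Fin 6 → Fin 4 ⊕ Bool) i)) (hF.comp hψ) fun a b => ?_
  rw [hFa, SimpleGraph.compl_adj]
  have : ∀ i j : Fin 6, PEr 4 ((![Sum.inl 0, Sum.inl 1, Sum.inl 2, Sum.inl 3, Sum.inr false,
      Sum.inr true] : Fin 6 → Fin 4 ⊕ Bool) i) ((![Sum.inl 0, Sum.inl 1, Sum.inl 2, Sum.inl 3,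
      Sum.inr false, Sum.inr true] : Fin 6 → Fin 4 ⊕ Bool) j) = true ↔ (i ≠ j ∧ ¬ (i ≠ j ∧
      ¬ ((i.val + 1 = j.val ∧ i.val ≠ 3) ∨ (j.val + 1 = i.val ∧ j.val ≠ 3)))) := by decide
  exact this a b

/-- a spider which contains the path on three vertices and an edge outside -/
theorem c32 {W : Type} {H : SimpleGraph W} {ℓ : Fin 3 → ℕ}
    {e : Option (Σ i : Fin 3, Fin (ℓ i)) → W} (he : Function.Injective e)
    (hadj : ∀ u v, Hᶜ.Adj (e u) (e v) ↔ (Spid ℓ).Adj u v)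
    (hcl : ∀ u w, Hᶜ.Adj (e u) w → w ∈ Set.range e)
    (hs : IsIndSub (Spid ![0, 1, 1]) (Spid ℓ))
    (hg : ∃ g : Fin (0 + 1) × Bool → W, Function.Injective g ∧ (∀ z, g z ∉ Set.range e) ∧
      ∀ z z', Hᶜ.Adj (g z) (g z') ↔ (Mtc (0 + 1)).Adj z z') : IsIndSub coP3P2 H := by
  obtain ⟨g, h1, h2, h3⟩ := hg
  obtain ⟨φ, hφ, hφa⟩ := hs
  obtain ⟨F, hF, hFa⟩ := pe (D := Hᶜ) (R := Set.range e)
    (by rintro _ w ⟨u, rfl⟩ h; exact hcl u w h) (fun i => e (φ (q3 i)))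
    (he.comp (hφ.comp q3_inj)) (fun i => ⟨_, rfl⟩)
    (fun i j => by rw [hadj, ← hφa, q3_adj]) g h1 h2 h3
  have hψ : Function.Injective (![Sum.inl 0, Sum.inl 1, Sum.inl 2, Sum.inr false,
      Sum.inr true] : Fin 5 → Fin 3 ⊕ Bool) := by decide
  refine of_compl (fun i => F ((![Sum.inl 0, Sum.inl 1, Sum.inl 2, Sum.inr false,
      Sum.inr true] : Fin 5 → Fin 3 ⊕ Bool) i)) (hF.comp hψ) fun a b => ?_
  rw [hFa, SimpleGraph.compl_adj]
  have : ∀ i j : Fin 5, PEr 3 ((![Sum.inl 0, Sum.inl 1, Sum.inl 2, Sum.inr false,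
      Sum.inr true] : Fin 5 → Fin 3 ⊕ Bool) i) ((![Sum.inl 0, Sum.inl 1, Sum.inl 2,
      Sum.inr false, Sum.inr true] : Fin 5 → Fin 3 ⊕ Bool) j) = true ↔ (i ≠ j ∧ ¬ (i ≠ j ∧
      ¬ ((i.val + 1 = j.val ∧ i.val ≠ 2) ∨ (j.val + 1 = i.val ∧ j.val ≠ 2)))) := by decide
  exact this a b

/-- five edges outside of a spider which contains an edge -/
theorem c62 {W : Type} {H : SimpleGraph W} {ℓ : Fin 3 → ℕ}
    {e : Option (Σ i : Fin 3, Fin (ℓ i)) → W} (he : Function.Injective e)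
    (hadj : ∀ u v, Hᶜ.Adj (e u) (e v) ↔ (Spid ℓ).Adj u v)
    (hcl : ∀ u w, Hᶜ.Adj (e u) w → w ∈ Set.range e)
    (hs : IsIndSub (Mtc 1) (Spid ℓ))
    (hg : ∃ g : Fin (4 + 1) × Bool → W, Function.Injective g ∧ (∀ z, g z ∉ Set.range e) ∧
      ∀ z z', Hᶜ.Adj (g z) (g z') ↔ (Mtc (4 + 1)).Adj z z') : IsIndSub co6P2 H := by
  obtain ⟨g, h1, h2, h3⟩ := hg
  obtain ⟨φ, hφ, hφa⟩ := hs
  have hin : ∀ b : Bool, e (φ (0, b)) ∈ Set.range e := fun b => ⟨_, rfl⟩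
  have hlt : ∀ i : Fin 6, i ≠ 5 → i.val < 4 + 1 := by decide
  have key : ∀ x : Fin 6 × Bool, ∃ w, (∀ h : x.1 ≠ 5, w = g (⟨x.1.val, hlt x.1 h⟩, x.2)) ∧
      (x.1 = 5 → w = e (φ (0, x.2))) := by
    intro x
    by_cases h : x.1 = 5
    · exact ⟨e (φ (0, x.2)), fun h' => absurd h h', fun _ => rfl⟩
    · exact ⟨g (⟨x.1.val, hlt x.1 h⟩, x.2), fun _ => rfl, fun h' => absurd h' h⟩
  choose F hF1 hF2 using key
  refine of_compl F ?_ ?_
  · intro x y hxy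
    by_cases hx : x.1 = 5 <;> by_cases hy : y.1 = 5
    · rw [hF2 x hx, hF2 y hy] at hxy
      have := hφ (he hxy)
      rw [Prod.mk.injEq] at this
      exact Prod.ext (hx.trans hy.symm) this.2
    · rw [hF2 x hx, hF1 y hy] at hxy
      exact absurd (hxy ▸ hin x.2) (h2 _)
    · rw [hF1 x hx, hF2 y hy] at hxy
      exact absurd (hxy ▸ hin y.2) (h2 _)
    · rw [hF1 x hx, hF1 y hy] at hxy
      have := h1 hxy
      rw [Prod.mk.injEq, Fin.mk.injEq] at this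
      exact Prod.ext (Fin.ext this.1) this.2
  · intro x y
    have hco : co6P2ᶜ.Adj x y ↔ x.1 = y.1 ∧ x.2 ≠ y.2 := by
      rw [SimpleGraph.compl_adj]
      change x ≠ y ∧ ¬ (x.1 ≠ y.1) ↔ _
      constructor
      · rintro ⟨h, h'⟩
        push Not at h'
        exact ⟨h', fun h'' => h (Prod.ext h' h'')⟩
      · rintro ⟨h, h'⟩
        exact ⟨fun h'' => h' (by rw [h'']), fun h'' => h'' h⟩
    rw [hco]
    by_cases hx : x.1 = 5 <;> by_cases hy : y.1 = 5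
    · rw [hF2 x hx, hF2 y hy, hadj, ← hφa]
      exact ⟨fun h => ⟨hx.trans hy.symm, h.2⟩, fun h => ⟨rfl, h.2⟩⟩
    · rw [hF2 x hx, hF1 y hy]
      constructor
      · intro h
        exact absurd (hcl _ _ h) (h2 _)
      · rintro ⟨h, _⟩
        exact absurd (h.symm.trans hx) hy
    · rw [hF1 x hx, hF2 y hy]
      constructor
      · intro h
        exact absurd (hcl _ _ h.symm) (h2 _)
      · rintro ⟨h, _⟩
        exact absurd (h.trans hy) hx
    · rw [hF1 x hx, hF1 y hy, h3]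
      constructor
      · rintro ⟨h, h'⟩
        exact ⟨Fin.ext (Fin.mk.inj h), h'⟩
      · rintro ⟨h, h'⟩
        exact ⟨Fin.ext (show x.1.val = y.1.val from congrArg Fin.val h), h'⟩

end n8Aux

open n8Aux in
theorem n8 : S_N2 → S_N5 → S_N6 → S_N4a → S_N4b → S_N8 := by
  intro hN2 hN5 hN6 hN4a hN4b W _ H hS hT h2P3
  by_cases hmax : ∀ u v w, Hᶜ.Adj u v → Hᶜ.Adj u w → v = w
  · obtain ⟨n1, n2, _⟩ := hN6 W H hmax
    refine ⟨fun h6 _ _ => ?_, fun _ h3 => n2 fun h => h3 (sub_minor h)⟩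
    obtain ⟨s, _, hs⟩ := n1 h6
    exact ⟨s, Or.inr hs⟩
  · push Not at hmax
    obtain ⟨x, y, z, hxy, hxz, hyz⟩ := hmax
    obtain ⟨ℓ, e, he, hadj, hcl, hout, h011, _, hz⟩ := hN5 W H hS h2P3 x y z hyz hxy hxz
    have hzero : ∃ i, ℓ i = 0 := by
      by_contra hcon
      push Not at hcon
      have hp : ∀ i, 0 < ℓ i := fun i => Nat.pos_of_ne_zero (hcon i)
      have ha : ∀ i, Hᶜ.Adj (e none) (e (some ⟨i, ⟨0, hp i⟩⟩)) := by
        intro i
        rw [hadj]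
        rfl
      have hne : ∀ i j : Fin 3, i ≠ j → e (some ⟨i, ⟨0, hp i⟩⟩) ≠ e (some ⟨j, ⟨0, hp j⟩⟩) := by
        intro i j hij h
        have h1 := Option.some.inj (he h)
        exact hij (congrArg Sigma.fst h1)
      exact deg3 hS hT (ha 0) (ha 1) (ha 2) (hne 0 1 (by decide)) (hne 0 2 (by decide))
        (hne 1 2 (by decide))
    have hinto : ∀ (Z : Type) (T : SimpleGraph Z), IsIndSub Tᶜ (Spid ℓ) → IsIndSub T H := by
      rintro Z T ⟨φ, hφ, hφa⟩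
      exact of_compl (fun a => e (φ a)) (he.comp hφ) fun a b => by rw [hadj, ← hφa]
    obtain ⟨m1, _, _, _, _, m6, m7, _⟩ := hN4b
    have h122 : IsIndSub (Spid ![0, 1, 1]) (Spid ![0, 2, 2]) :=
      hN4a.1 _ _ (by intro i; fin_cases i <;> simp)
    have hM1 : IsIndSub (Mtc 1) (Spid ℓ) :=
      sub_trans m1 (sub_trans (hN4a.1 _ _ (by intro i; fin_cases i <;> simp)) h011)
    refine ⟨fun h6 hP6 h42 => ?_, fun h32 h3 => ?_⟩
    · rcases hz hzero with h | ⟨h, h'⟩ | h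
      · obtain ⟨s, hs⟩ := hN2 W H ℓ ![0, 1, 1] 4 e he hadj hcl h hout
          fun hg => h6 (c62 he hadj hcl hM1 hg)
        exact ⟨s, Or.inr hs⟩
      · obtain ⟨s, hs⟩ := hN2 W H ℓ ![0, 2, 2] 0 e he hadj hcl h' hout
          fun hg => h42 (sub_minor (c42 he hadj hcl h hg))
        exact ⟨s, Or.inl hs⟩
      · exact absurd (sub_minor (hinto _ _ (sub_trans m6 h))) hP6
    · have hin : IsIndSub (Spid ℓ) (Spid ![0, 2, 2]) := by
        rcases hz hzero with h | ⟨_, h'⟩ | h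
        · exact sub_trans h h122
        · exact h'
        · exact absurd (sub_minor (hinto _ _ (sub_trans m7 h))) h32
      exact hN2 W H ℓ ![0, 2, 2] 0 e he hadj hcl hin hout
        fun hg => h32 (sub_minor (c32 he hadj hcl h011 hg))

end Pool.Agent.MPd439b2.F9
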