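import Pool.Agent.Lib.MP_d439b2_co.F9.SpecN

/-!
# MP_d439b2_co, Spec N, statement N9: graphs without a four-cycle
-/

set_option autoImplicit false

namespace Pool.Agent.MPd439b2.F9

open Pool.Agent.MPd439b2

namespace n9Aux

/-- two disjoint edges of the complement without edges between them -/
theorem pat {W : Type} {H : SimpleGraph W} {a b c d : W} (hab : Hᶜ.Adj a b) (hcd : Hᶜ.Adj c d)
    (hac : a ≠ c) (had : a ≠ d) (hbc : b ≠ c) (hbd : b ≠ d) (nac : ¬ Hᶜ.Adj a c)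
    (nad : ¬ Hᶜ.Adj a d) (nbc : ¬ Hᶜ.Adj b c) (nbd : ¬ Hᶜ.Adj b d) : IsIndSub cyc4 H := by
  simp only [SimpleGraph.compl_adj, not_and, not_not] at hab hcd nac nad nbc nbd
  have e1 := nac hac
  have e2 := nad had
  have e3 := nbc hbc
  have e4 := nbd hbd
  obtain ⟨n1, n2⟩ := hab
  obtain ⟨n3, n4⟩ := hcd
  have n5 : ¬ H.Adj b a := fun h => n2 h.symm
  have n6 : ¬ H.Adj d c := fun h => n4 h.symm
  refine ⟨![a, c, b, d], ?_, ?_⟩
  · intro i j h
    fin_cases i <;> fin_cases j <;> simp_all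
  · intro i j
    fin_cases i <;> fin_cases j <;> simp [cyc4, e1, e2, e3, e4, n2, n4, n5, n6, e1.symm,
      e2.symm, e3.symm, e4.symm]

end n9Aux

open n9Aux

theorem n9 : (S_N2) → (S_N5) → (S_N6) → S_N9 := by
  intro h2 h5 h6 W _ H hS hC
  by_cases hdeg : ∀ u v w, Hᶜ.Adj u v → Hᶜ.Adj u w → v = w
  · exact (h6 W H hdeg).2.2 hC
  · have hd : ∃ x y z : W, y ≠ z ∧ Hᶜ.Adj x y ∧ Hᶜ.Adj x z := by
      by_contra hcon
      refine hdeg fun u v w huv huw => ?_
      by_contra hvw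
      exact hcon ⟨u, v, w, hvw, huv, huw⟩
    obtain ⟨x, y, z, hyz, hxy, hxz⟩ := hd
    have hco : ¬ IsIndSub co2P3 H := by
      rintro ⟨f, hf, ha⟩
      have key : ∀ i j : Fin 6, i ≠ j → ¬ co2P3.Adj i j → Hᶜ.Adj (f i) (f j) := by
        intro i j hij hn
        rw [SimpleGraph.compl_adj]
        exact ⟨fun h => hij (hf h), fun h => hn ((ha i j).mpr h)⟩
      have key' : ∀ i j : Fin 6, co2P3.Adj i j → ¬ Hᶜ.Adj (f i) (f j) := by
        intro i j hn h
        rw [SimpleGraph.compl_adj] at h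
        exact h.2 ((ha i j).mp hn)
      refine hC (pat (key 0 1 (by decide) (by simp [co2P3])) (key 3 4 (by decide) (by simp [co2P3]))
        (hf.ne (by decide)) (hf.ne (by decide)) (hf.ne (by decide)) (hf.ne (by decide))
        (key' 0 3 (by simp [co2P3])) (key' 0 4 (by simp [co2P3])) (key' 1 3 (by simp [co2P3]))
        (key' 1 4 (by simp [co2P3])))
    obtain ⟨ℓ, e, he, hadj, hout, hdeg', h011, hor, _⟩ := h5 W H hS hco x y z hyz hxy hxz
    have hM : ∀ t : ℕ, 2 ≤ t → ¬ IsIndSub (Mtc t) (Spid ℓ) := by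
      rintro t ht ⟨g, hg, hga⟩
      let i0 : Fin t := ⟨0, by omega⟩
      let i1 : Fin t := ⟨1, by omega⟩
      have h01 : i0 ≠ i1 := by
        intro h
        have := congrArg Fin.val h
        simp [i0, i1] at this
      have key : ∀ u v : Fin t × Bool, (Mtc t).Adj u v → Hᶜ.Adj (e (g u)) (e (g v)) :=
        fun u v h => (hadj _ _).mpr ((hga u v).mp h)
      have key' : ∀ u v : Fin t × Bool, u.1 ≠ v.1 → ¬ Hᶜ.Adj (e (g u)) (e (g v)) := by
        intro u v h h'
        exact h ((hga u v).mpr ((hadj _ _).mp h')).1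
      have key2 : ∀ u v : Fin t × Bool, u.1 ≠ v.1 → e (g u) ≠ e (g v) := by
        intro u v h h'
        exact h (congrArg Prod.fst (hg (he h')))
      exact hC (pat (key (i0, false) (i0, true) ⟨rfl, Bool.false_ne_true⟩)
        (key (i1, false) (i1, true) ⟨rfl, Bool.false_ne_true⟩)
        (key2 _ _ h01) (key2 _ _ h01) (key2 _ _ h01) (key2 _ _ h01)
        (key' _ _ h01) (key' _ _ h01) (key' _ _ h01) (key' _ _ h01))
    have h112 : IsIndSub (Spid ℓ) (Spid ![1, 1, 2]) := by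
      rcases hor with h | h | h
      · exact h
      · exact absurd h.1 (hM 2 le_rfl)
      · exact absurd h.1 (hM 3 (by omega))
    refine h2 W H ℓ ![1, 1, 2] 0 e he hadj hout h112 hdeg' ?_
    rintro ⟨g, hg, hgr, hga⟩
    obtain ⟨f, hf, hfa⟩ := h011
    let p : Option (Σ i : Fin 3, Fin ((![0, 1, 1] : Fin 3 → ℕ) i)) := some ⟨1, (0 : Fin 1)⟩
    have hp : (Spid ![0, 1, 1]).Adj none p := rfl
    have hab : Hᶜ.Adj (e (f none)) (e (f p)) := (hadj _ _).mpr ((hfa _ _).mp hp)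
    have hcd : Hᶜ.Adj (g (0, false)) (g (0, true)) := (hga _ _).mpr ⟨rfl, by decide⟩
    have hne : ∀ q z, e q ≠ g z := fun q z h => hgr z ⟨q, h⟩
    have hna : ∀ q z, ¬ Hᶜ.Adj (e q) (g z) := fun q z h => hgr z (hout q _ h)
    exact hC (pat hab hcd (hne _ _) (hne _ _) (hne _ _) (hne _ _) (hna _ _) (hna _ _) (hna _ _)
      (hna _ _))

end Pool.Agent.MPd439b2.F9
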