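import Pool.Agent.Lib.MP_d439b2_co.R.Final
import Pool.Agent.Lib.MP_d439b2_co.R.FinalX
import Pool.Agent.Lib.MP_d439b2_co.LV.Main
import Pool.Agent.Lib.MP_d439b2_co.Size8
import Pool.Agent.Lib.MP_d439b2_co.C4
import Pool.Agent.Lib.MP_d439b2_co.KP4
import Pool.Agent.Lib.MP_d439b2_co.B.TMain
import Pool.Agent.Lib.MP_d439b2_co.B.TAA
import Pool.Agent.Lib.MP_d439b2_co.B.TAB
import Pool.Agent.Lib.MP_d439b2_co.B.TExcl
import Pool.Agent.Lib.MP_d439b2_co.B.TUnb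
import Pool.Agent.Lib.MP_d439b2_co.B.PentExcl
import Pool.Agent.Lib.MP_d439b2_co.B.PentIn
import Pool.Agent.Lib.MP_d439b2_co.B.PentChain
import Pool.Agent.Lib.MP_d439b2_co.B.PentUnb
import Pool.Agent.Lib.MP_d439b2_co.B.PentMain
import Pool.Agent.Lib.MP_d439b2_co.B.EClosed
import Pool.Agent.Lib.MP_d439b2_co.B.EExcl
import Pool.Agent.Lib.MP_d439b2_co.B.CQUnb
import Pool.Agent.Lib.MP_d439b2_co.B.MCUnb
import Pool.Agent.Lib.MP_d439b2_co.B.GRow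
import Pool.Agent.Lib.MP_d439b2_co.B.GUnb
import Pool.Agent.Lib.MP_d439b2_co.B.GFam
import Pool.Agent.Lib.MP_d439b2_co.B.G1Excl
import Pool.Agent.Lib.MP_d439b2_co.B.G2Excl
import Pool.Agent.Lib.MP_d439b2_co.B.G34Excl
import Pool.Agent.Lib.MP_d439b2_co.B.G5Excl
import Pool.Agent.Lib.MP_d439b2_co.B.GMain
import Pool.Agent.Lib.MP_d439b2_co.B.FN
import Pool.Agent.Lib.MP_d439b2_co.B.FA
import Pool.Agent.Lib.MP_d439b2_co.B.FB
import Pool.Agent.Lib.MP_d439b2_co.B.FC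
import Pool.Agent.Lib.MP_d439b2_co.B.FD
import Pool.Agent.Lib.MP_d439b2_co.B.FE
import Pool.Agent.Lib.MP_d439b2_co.B.FG
import Pool.Agent.Lib.MP_d439b2_co.B.FI
import Pool.Agent.Lib.MP_d439b2_co.KS.Final
import Pool.Agent.Lib.MP_d439b2_co.F9.N0
import Pool.Agent.Lib.MP_d439b2_co.F9.N1
import Pool.Agent.Lib.MP_d439b2_co.F9.N2
import Pool.Agent.Lib.MP_d439b2_co.F9.N3
import Pool.Agent.Lib.MP_d439b2_co.F9.N4a
import Pool.Agent.Lib.MP_d439b2_co.F9.N4b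
import Pool.Agent.Lib.MP_d439b2_co.F9.N4
import Pool.Agent.Lib.MP_d439b2_co.F9.N5
import Pool.Agent.Lib.MP_d439b2_co.F9.N6
import Pool.Agent.Lib.MP_d439b2_co.F9.N7
import Pool.Agent.Lib.MP_d439b2_co.F9.N8
import Pool.Agent.Lib.MP_d439b2_co.F9.N9
import Pool.Agent.Lib.MP_d439b2_co.F9.H1
import Pool.Agent.Lib.MP_d439b2_co.F9.H2
import Pool.Agent.Lib.MP_d439b2_co.F9.H3
import Pool.Agent.Lib.MP_d439b2_co.F9.H4
import Pool.Agent.Lib.MP_d439b2_co.F9.H5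
import Pool.Agent.Lib.MP_d439b2_co.F9.H6
import Pool.Agent.Lib.MP_d439b2_co.F9.I1
import Pool.Agent.Lib.MP_d439b2_co.F9.I2
import Pool.Agent.Lib.MP_d439b2_co.F9.I3
import Pool.Agent.Lib.MP_d439b2_co.F9.I4
import Pool.Agent.Lib.MP_d439b2_co.F9.I5
import Pool.Agent.Lib.MP_d439b2_co.F9.I6
import Pool.Agent.Lib.MP_d439b2_co.F9.I7
import Pool.Agent.Lib.MP_d439b2_co.F9.I8
import Pool.Agent.Lib.MP_d439b2_co.F9.I9

/-!
# MP_d439b2_co, F9/Final: the classification, up to the base pairs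

`necF`: bounded clique-width implies one of the listed conditions.  `goodF`, `knF`, `kiteF`, `rowAF`, `rowBF`,
`rowCF`: the sufficient conditions.
-/

set_option autoImplicit false

namespace Pool.Agent.MPd439b2.F9

open Pool.Agent.MPd439b2

theorem n2F : S_N2 := n2 n1
theorem n4F : S_N4 := n4 n4a n4b
theorem n5F : S_N5 := n5 n0 n3 n4F
theorem n6F : S_N6 := n6 n1
theorem n7F : S_N7 := n7 n2F n5F n6F
theorem n8F : S_N8 := n8 n2F n5F n6F n4a n4b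
theorem n9F : S_N9 := n9 n2F n5F n6F
theorem h4F : S_H4 := h4 h1 h2 h3
theorem h6F : S_H6 := h6 n7F n8F n9F h4F h5
theorem i4F : S_I4 := i4 KS.theoremKpairs i2 i3
theorem i5F : S_I5 := i5 KS.theoremKpairs i2
theorem i6F : S_I6 := i6 i1 i5F
theorem i7F : S_I7 := i7 i1 i5F
theorem i8F : S_I8 := i8 i1 i5F

theorem rowsF : S_Rows := ⟨fun W _ H h => (RFin.rowK4P W H).2 h,
    fun W _ H h h' => (RFin.rowK5P W H).2 ⟨h, h'⟩, fun W _ H h => (RFin.rowKite W H).2 h,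
    fun s W _ H h1 h2 h3 => lvMain s W H h1 h2 h3⟩

/-- the sufficiency of `Good` -/
theorem goodF (W₁ W₂ : Type) [Finite W₁] [Finite W₂] (H₁ : SimpleGraph W₁)
    (H₂ : SimpleGraph W₂) : Good H₁ H₂ → BoundedCW H₁ H₂ :=
  fE fC fD rowsF layBFinal W₁ W₂ H₁ H₂

/-- the known single graphs -/
theorem knF (W W' : Type) (H : SimpleGraph W) (H' : SimpleGraph W') : Kn H → BoundedCW H H' :=
  i9 goodF W W' H H'

/-- the rows of the kite -/
theorem kiteF (W W' : Type) [Finite W] (H : SimpleGraph W) (H' : SimpleGraph W')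
    (h : InS2 H ∧ InCoT H ∧ ∃ s, IsIndMinor H' (KJ s (JS ![1, 1, 2] 0)))
    (hG : InGrid H ∨ InGrid H') : BoundedCW H H' := by
  obtain ⟨h1, h2, s, h3⟩ := h
  exact i4F rowsF.2.2.1 W W' H H' s h1 h2 h3 hG

/-- the necessary condition -/
theorem necF (W₁ W₂ : Type) [Finite W₁] [Finite W₂] (H₁ : SimpleGraph W₁)
    (H₂ : SimpleGraph W₂) (hb : BoundedCW H₁ H₂) : (InGrid H₁ ∨ InGrid H₂) ∧
      (Good H₁ H₂ ∨ Kn H₁ ∨ Kn H₂ ∨ Base H₁ H₂ ∨ Base H₂ H₁) := by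
  have hKill : S_Kill := fun W W' H H' h3 h => by
    rcases h with h | h
    · exact tMain tAA tAB (tExcl) (tUnb) cwCut W W' H H' h3 h
    · exact pentMain pentExcl pentIn pentUnb pentChain cwCut W W' H H' h3 h
  have hNec : S_Nec := fG eClosed (cqUnb cwCut) (mcUnb cwCut) RFin.nec
  have hGC : S_GC := gMain cwCut gRow gUnb gFam g1Excl g2Excl g34Excl g5Excl
  obtain ⟨hG, h⟩ := fI fA fB fD hKill hNec c4 kp4 eExcl eClosed hGC rK7 rX18 W₁ W₂ H₁ H₂ hb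
  refine ⟨hG, ?_⟩
  rcases h with h | h | h | h | h
  · exact Or.inl h
  · exact Or.inr (Or.inl h)
  · exact Or.inr (Or.inr (Or.inl h))
  · exact Or.inr (Or.inr (Or.inr (Or.inl (h6F kp4 W₁ W₂ H₁ H₂ h))))
  · exact Or.inr (Or.inr (Or.inr (Or.inr (h6F kp4 W₂ W₁ H₂ H₁ h))))

/-- The classification, up to the base pairs.  The pairs `(H, H')` in `Base H H'` are bounded if one of the graphs is an
induced minor of a grid, provided that the base pairs are bounded. -/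
theorem baseF (hA : BpA) (hB : BpB (JS ![0, 2, 2] 0)) (hB' : BpB (JS ![0, 1, 1] 4))
    (hC : BoundedCW (KF 4 2 ![{0}, {1, 2}]) (JS ![0, 2, 2] 0)) (W W' : Type) [Finite W]
    (H : SimpleGraph W) (H' : SimpleGraph W') (h : Base H H') (hG : InGrid H ∨ InGrid H') :
    BoundedCW H H' := by
  rcases h with h | ⟨hR, s, h | h | h⟩ | ⟨hR, s, h | h⟩ | ⟨hR, s, h⟩
  · exact kiteF W W' H H' h hG
  · exact i6F _ _ s W W' H H' hA.a1 hR h hG
  · exact i6F _ _ s W W' H H' hA.a2 hR h hG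
  · exact i6F _ _ s W W' H H' hA.a3 hR h hG
  · exact i7F _ _ s W W' H H' hB hR h hG
  · exact i7F _ _ s W W' H H' hB' hR h hG
  · exact i8F _ _ s W W' H H' hC hR h hG

/-- The full classification, assuming the base pairs. -/
theorem fullF (hA : BpA) (hB : BpB (JS ![0, 2, 2] 0)) (hB' : BpB (JS ![0, 1, 1] 4))
    (hC : BoundedCW (KF 4 2 ![{0}, {1, 2}]) (JS ![0, 2, 2] 0)) (W₁ W₂ : Type) [Finite W₁]
    [Finite W₂] (H₁ : SimpleGraph W₁) (H₂ : SimpleGraph W₂) :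
    BoundedCW H₁ H₂ ↔ Kn H₁ ∨ Kn H₂ ∨ ((InGrid H₁ ∨ InGrid H₂) ∧
      (Suf H₁ H₂ ∨ Suf H₂ H₁ ∨ Base H₁ H₂ ∨ Base H₂ H₁)) := by
  constructor
  · intro hb
    obtain ⟨hG, h⟩ := necF W₁ W₂ H₁ H₂ hb
    rcases h with h | h | h | h | h
    · rcases h.2 with h | h
      · exact Or.inr (Or.inr ⟨hG, Or.inl h⟩)
      · exact Or.inr (Or.inr ⟨hG, Or.inr (Or.inl h)⟩)
    · exact Or.inl h
    · exact Or.inr (Or.inl h)
    · exact Or.inr (Or.inr ⟨hG, Or.inr (Or.inr (Or.inl h))⟩)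
    · exact Or.inr (Or.inr ⟨hG, Or.inr (Or.inr (Or.inr h))⟩)
  · rintro (h | h | ⟨hG, h | h | h | h⟩)
    · exact knF W₁ W₂ H₁ H₂ h
    · exact Fin2Aux.boundedCW_symm (knF W₂ W₁ H₂ H₁ h)
    · exact goodF W₁ W₂ H₁ H₂ ⟨hG, Or.inl h⟩
    · exact goodF W₁ W₂ H₁ H₂ ⟨hG, Or.inr h⟩
    · exact baseF hA hB hB' hC W₁ W₂ H₁ H₂ h hG
    · exact Fin2Aux.boundedCW_symm (baseF hA hB hB' hC W₂ W₁ H₂ H₁ h hG.symm)

end Pool.Agent.MPd439b2.F9
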