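import Pool.Agent.Lib.MP_d439b2_co.F9.SpecH
import Pool.Agent.Lib.MP_d439b2_co.KS.SpecZ

/-!
# MP_d439b2_co, Spec I: the sufficient condition of the full classification

Every `S_...` is a statement to be proved in its own file; the docstring contains the complete
proof.  `KS.KJn s J` and `KJ s J` are definitionally equal (`rfl`).
-/

set_option autoImplicit false

namespace Pool.Agent.MPd439b2.F9

open Pool.Agent.MPd439b2 Pool.Agent.MPd439b2.KS

/-- `H` is an induced minor of a graph `DD N m` and of a graph `TCg N m r l` -/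
def DT {W : Type} (H : SimpleGraph W) : Prop :=
  (∃ N m : ℕ, IsIndMinor H (DD N m)) ∧ ∃ (N m : ℕ) (r l : Fin N → ℕ), IsIndMinor H (TCg N m r l)

/-- **I1.** The seven maximal rows.

Proof. `DD`: the graphs are in `InS2`; use the theorem in `S2DD.lean` (members of `S2` are induced minors of
some `DD N m`).  `TCg`: embeddings as induced subgraphs (singletons as branch sets).  The vertices of the
independent part are divided into two chains `y_a`, `z_a` (`N(y_a) = {i | a < r i}`).  `KJ 1 (KF 3 2 ![{0}, {1}])`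
(clique `c, 0, 1, 2`, `y ~ c, 0`, `z ~ c, 1`): `N = 4`, `m = 1`, `r = ![1, 1, 0, 0]`, `l = ![1, 0, 1, 0]`.
`KJ 1 (KF 4 2 ![{0}, {1}])`: `N = 5`, `r = ![1, 1, 0, 0, 0]`, `l = ![1, 0, 1, 0, 0]`.
`KJ 1 (KF 2 3 ![{0}, {0}, {1}])`: `N = 3`, `m = 2`, the two vertices `~ c, 0` are `y_0, y_1`, `r = ![2, 2, 0]`,
`l = ![1, 0, 1]`.  `KJ 1 (KF 2 3 ![∅, {0}, {1}])` (neighbourhoods `{c}`, `{c, 0}`, `{c, 1}`): `r = ![2, 1, 0]`,
`l = ![1, 0, 1]`.  `KF 3 3 ![{0}, {0, 1}, {1, 2}]`: `r = ![2, 1, 0]`, `l = ![0, 1, 1]`.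
`KF 3 3 ![{0}, {1}, {0, 2}]`: chain `{0} ⊂ {0, 2}`: `r = ![2, 0, 1]`, `l = ![0, 1, 0]`.
`KF 4 2 ![{0}, {1, 2}]`: `r = ![1, 0, 0, 0]`, `l = ![0, 1, 1, 0]`. -/
def S_I1 : Prop := DT (KJ 1 (KF 3 2 ![{0}, {1}])) ∧ DT (KJ 1 (KF 4 2 ![{0}, {1}])) ∧
  DT (KJ 1 (KF 2 3 ![{0}, {0}, {1}])) ∧ DT (KJ 1 (KF 2 3 ![∅, {0}, {1}])) ∧
  DT (KF 3 3 ![{0}, {0, 1}, {1, 2}]) ∧ DT (KF 3 3 ![{0}, {1}, {0, 2}]) ∧
  DT (KF 4 2 ![{0}, {1, 2}])

/-- **I2.** The complements of spiders and matchings are co-bipartite.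

Proof. Parity: `none ↦ 0`, `some (i, k) ↦ k + 1`, `(p, false) ↦ 0`, `(p, true) ↦ 1`; `K` = the vertices of even
parity.  Adjacent vertices of the spider and partners in the matching have different parity. -/
def S_I2 : Prop := ∀ (ℓ : Fin 3 → ℕ) (t : ℕ), CoBip (JS ℓ t)

/-- **I3.** The kite.

Proof. (1) `JS ![1, 1, 2] 0` is isomorphic to `Kite`: in `Kite` the non-adjacent pairs are `3` with `1, 2, 4`, and
`0` with `4`; so `none ↦ 3`, `(0, 0) ↦ 1`, `(1, 0) ↦ 2`, `(2, 0) ↦ 4`, `(2, 1) ↦ 0` (`decide`).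
(2) `KJ s (JS ![1, 1, 2] 0)`: the clique consists of the `s` vertices and `(0, 0), (1, 0), (2, 1)`; `(2, 0)` is
adjacent to all of them except `(2, 1)`, and `none` to the `s` vertices and `(2, 1)`; `N = s + 3`, `m = 1`. -/
def S_I3 : Prop := (IsIndSub (JS ![1, 1, 2] 0) Kite ∧ IsIndSub Kite (JS ![1, 1, 2] 0)) ∧
  ∀ s : ℕ, ∃ (N m : ℕ) (r l : Fin N → ℕ), IsIndMinor (KJ s (JS ![1, 1, 2] 0)) (TCg N m r l)

/-- **I4.** The rows of the kite.  (Uses `S_Z2`, `S_I2`, `S_I3`; `hK` is the row theorem `RFin.rowKite`.)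

Proof. `KJ 0 H` and `H` are induced minors of each other; `H` is an induced minor of some `DD N m`
(`S2DD.lean`).  Z2 with `j = 0`, `H0 = H`, `J = JS ![1, 1, 2] 0`; `BoundedCW H (JS ![1, 1, 2] 0)`: by `hK`,
symmetry (`Fin2Aux.boundedCW_symm`) and (1) of I3 (a graph without `JS ![1, 1, 2] 0` is without `Kite`). -/
def S_I4 : Prop := (∀ (W : Type) [Finite W] (H : SimpleGraph W), InCoT H → BoundedCW Kite H) →
  ∀ (W W' : Type) [Finite W] (H : SimpleGraph W) (H' : SimpleGraph W') (s : ℕ), InS2 H → InCoT H →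
    IsIndMinor H' (KJ s (JS ![1, 1, 2] 0)) → (InGrid H ∨ InGrid H') → BoundedCW H H'

/-- **I5.** One base pair.  (Uses `S_Z2`, `S_I2`.)

Proof. Z2 (with `KJn = KJ`); the `TCg` condition in the first alternative. -/
def S_I5 : Prop := ∀ (j s : ℕ) (W W' W₀ : Type) [Finite W₀] (H : SimpleGraph W)
  (H' : SimpleGraph W') (H0 : SimpleGraph W₀) (ℓ : Fin 3 → ℕ) (t : ℕ), DT (KJ j H0) →
    BoundedCW H0 (JS ℓ t) → IsIndMinor H (KJ j H0) → IsIndMinor H' (KJ s (JS ℓ t)) →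
    (InGrid H ∨ InGrid H') → BoundedCW H H'

/-- the base pairs have bounded clique-width: the three of row `A` -/
structure BpA : Prop where
  a1 : BoundedCW (KF 3 2 ![{0}, {1}]) (JS ![2, 2, 3] 2)
  a2 : BoundedCW (KF 3 2 ![{0}, {1}]) (JS ![1, 2, 3] 3)
  a3 : BoundedCW (KF 3 2 ![{0}, {1}]) (JS ![1, 1, 2] 4)

/-- the pairs of the graphs `K4:0,1`, `K3:0,01,12`, `K3:0,1,02` and `J` -/
def BpB {W : Type} (J : SimpleGraph W) : Prop :=
  BoundedCW (KF 4 2 ![{0}, {1}]) J ∧ BoundedCW (KF 3 3 ![{0}, {0, 1}, {1, 2}]) J ∧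
    BoundedCW (KF 3 3 ![{0}, {1}, {0, 2}]) J

/-- **I6.** Row `A`.  (Uses `S_I1`, `S_I5`.)

Proof. I5 with `j = 1`, `H0 = KF 3 2 ![{0}, {1}]`. -/
def S_I6 : Prop := ∀ (ℓ : Fin 3 → ℕ) (t s : ℕ) (W W' : Type) (H : SimpleGraph W)
  (H' : SimpleGraph W'), BoundedCW (KF 3 2 ![{0}, {1}]) (JS ℓ t) → RowA H →
    IsIndMinor H' (KJ s (JS ℓ t)) → (InGrid H ∨ InGrid H') → BoundedCW H H'

/-- **I7.** Row `B`.  (Uses `S_I1`, `S_I5`.)

Proof. The five cases of `RowB`.  `KJ 1 (KF 4 2 ![{0}, {1}])`: I5 with `j = 1`.  `KF 3 3 ..` (two cases): I5 with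
`j = 0` (`KJ 0 H0` and `H0` are induced minors of each other, so `DT (KJ 0 H0)`).  `KJ 1 (KF 2 3 ![{0}, {0}, {1}])`:
`KF 2 3 ![{0}, {0}, {1}]` is an induced subgraph of `KF 3 3 ![{0}, {0, 1}, {1, 2}]` (`inl 0, inl 1 ↦ inl 0, inl 2`,
`inr q ↦ inr q`), so its pair with `J` is bounded (monotonicity of `BoundedCW`: `S_FD`, `B/FD.lean`); I5 with
`j = 1`.  `KJ 1 (KF 2 3 ![∅, {0}, {1}])`: `KF 2 3 ![∅, {0}, {1}]` is an induced subgraph of
`KF 3 3 ![{0}, {1}, {0, 2}]` (`inl 0, inl 1 ↦ inl 2, inl 1`, `inr 0, inr 1, inr 2 ↦ inr 0, inr 2, inr 1`); I5 with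
`j = 1`. -/
def S_I7 : Prop := ∀ (ℓ : Fin 3 → ℕ) (t s : ℕ) (W W' : Type) (H : SimpleGraph W)
  (H' : SimpleGraph W'), BpB (JS ℓ t) → RowB H → IsIndMinor H' (KJ s (JS ℓ t)) →
    (InGrid H ∨ InGrid H') → BoundedCW H H'

/-- **I8.** Row `C`.  (Uses `S_I1`, `S_I5`.)

Proof. I5 with `j = 0`, `H0 = KF 4 2 ![{0}, {1, 2}]`. -/
def S_I8 : Prop := ∀ (ℓ : Fin 3 → ℕ) (t s : ℕ) (W W' : Type) (H : SimpleGraph W)
  (H' : SimpleGraph W'), BoundedCW (KF 4 2 ![{0}, {1, 2}]) (JS ℓ t) → RowC H →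
    IsIndMinor H' (KJ s (JS ℓ t)) → (InGrid H ∨ InGrid H') → BoundedCW H H'

/-- **I9.** The known single graphs.

Proof. `hG` is the sufficiency of `Good`.  Let `H` be an induced subgraph of `gem`.  `Good gem gem`: `gem` is
planar (`InGrid gem`: see below), `InS2 gem` (clique `1, 2, 4`, the vertices `0` and `3` have two neighbours),
`IsKP4 gem`.  So the class of the graphs without the induced minor `gem` has bounded clique-width, and a graph
without `H` is without `gem` (`S_FD`).  Let `H` be an induced subgraph of `co2P1P3`.  `Suf co2P1P3 co2P1P3`: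
`InS2` (clique `0, 1, 2, 3`, the vertex `4` has two neighbours), `InCoT` (the complement is the path `2 4 3` and
two isolated vertices: in a leg of a net, levels `1, 2, 3`, and other components), `InGrid`, and
`IsIndSub co2P1P3 (KC 2)` (`0, 1 ↦ inl 0, inl 1`, `2, 3 ↦ inr 0, inr 1`, `4 ↦ inr 3`).  `InGrid` for the two
graphs: explicit models in a `5 × 5` grid (or smaller); `B/` may contain such models already (`InGrid` of small
graphs; use `decide` with connectivity of rows/columns; compare `GridUnb.lean`, `LV/`). -/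
def S_I9 : Prop := (∀ (W₁ W₂ : Type) [Finite W₁] [Finite W₂] (H₁ : SimpleGraph W₁)
    (H₂ : SimpleGraph W₂), Good H₁ H₂ → BoundedCW H₁ H₂) →
  ∀ (W W' : Type) (H : SimpleGraph W) (H' : SimpleGraph W'), Kn H → BoundedCW H H'

end Pool.Agent.MPd439b2.F9
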