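import Pool.Agent.Lib.MP_d439b2_co.F9.Final
import Pool.Agent.Lib.MP_d439b2_co.HC.Final
import Pool.Agent.Lib.MP_d439b2_co.BU.Final
import Pool.Agent.Lib.MP_d439b2_co.H1M.Final
import Pool.Agent.Lib.MP_d439b2_co.H3.Final
import Pool.Agent.Lib.MP_d439b2_co.M4.Final
import Pool.Agent.Lib.MP_d439b2_co.L4.Final
import Pool.Agent.Lib.MP_d439b2_co.W.FinalM

/-!
# MP_d439b2_co, F9/BaseP: the base pairs which are proved

`hb`, `hc`: the house column; `bullRow`: the bull, from the row `3 P_1`; `ha3`: the bull and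
`co(S_{1,1,2} + 4 P_2)`.
-/

set_option autoImplicit false

namespace Pool.Agent.MPd439b2.F9

open Pool.Agent.MPd439b2

/-! ### bounded clique-width and bounded layouts -/

theorem bl_of_bcw {W W' : Type} {H : SimpleGraph W} {J : SimpleGraph W'} (h : BoundedCW H J) :
    HC.BL H J := by
  obtain ⟨c, hc⟩ := h
  refine ⟨c, fun V _ G h1 h2 => ?_⟩
  rcases isEmpty_or_nonempty V with hV | hV
  · rw [Set.eq_empty_of_isEmpty (Set.univ : Set V)]
    exact Lay.empty
  · exact KS.pY8 V G c (hc V G (fun h => h1 (ims_univ_iff.mpr h))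
      (fun h => h2 (ims_univ_iff.mpr h)))

theorem bcw_of_bl {W W' : Type} {H : SimpleGraph W} {J : SimpleGraph W'} (h : HC.BL H J) :
    BoundedCW H J := by
  obtain ⟨k, hk⟩ := h
  refine ⟨3 * (k + 1), fun V _ _ G h1 h2 => layCW V G k ?_⟩
  exact hk V G (fun h => h1 (ims_univ_iff.mp h)) (fun h => h2 (ims_univ_iff.mp h))

/-! ### the graphs -/

theorem kf1 : KF 4 2 ![{0}, {1}] = KA 4 2 ![{0}, {1}] := by
  unfold KF
  congr 1
  funext q
  fin_cases q <;> simp

theorem kf2 : KF 3 3 ![{0}, {0, 1}, {1, 2}] = KA 3 3 ![{0}, {0, 1}, {1, 2}] := by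
  unfold KF
  congr 1
  funext q
  fin_cases q <;> simp

theorem kf3 : KF 3 3 ![{0}, {1}, {0, 2}] = KA 3 3 ![{0}, {1}, {0, 2}] := by
  unfold KF
  congr 1
  funext q
  fin_cases q <;> simp

theorem kf4 : KF 4 2 ![{0}, {1, 2}] = KA 4 2 ![{0}, {1, 2}] := by
  unfold KF
  congr 1
  funext q
  fin_cases q <;> simp

namespace BasePAux

/-- the vertex set of `JS ![0, 2, 2] 0` -/
abbrev VH : Type := Option (Σ i : Fin 3, Fin ((![0, 2, 2] : Fin 3 → ℕ) i)) ⊕ (Fin 0 × Bool)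

/-- the map to the house -/
def fH : VH → Fin 5
  | Sum.inl none => 4
  | Sum.inl (some ⟨0, k⟩) => Fin.elim0 k
  | Sum.inl (some ⟨1, k⟩) => if k.val = 0 then 1 else 0
  | Sum.inl (some ⟨2, k⟩) => if k.val = 0 then 3 else 2
  | Sum.inr (p, _) => Fin.elim0 p

/-- the map from the house -/
def gH : Fin 5 → VH := ![Sum.inl (some ⟨1, ⟨1, by decide⟩⟩), Sum.inl (some ⟨1, ⟨0, by decide⟩⟩),
  Sum.inl (some ⟨2, ⟨1, by decide⟩⟩), Sum.inl (some ⟨2, ⟨0, by decide⟩⟩), Sum.inl none]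

theorem gfH (x : VH) : gH (fH x) = x := by
  rcases x with (_ | ⟨i, k⟩) | ⟨p, b⟩
  · rfl
  · fin_cases i
    · exact Fin.elim0 k
    · change Fin 2 at k
      fin_cases k <;> rfl
    · change Fin 2 at k
      fin_cases k <;> rfl
  · exact Fin.elim0 p

theorem adj_gH (i j : Fin 5) : HC.houseG.Adj i j ↔ (JS ![0, 2, 2] 0).Adj (gH i) (gH j) := by
  fin_cases i <;> fin_cases j <;> simp [HC.houseG, HC.rH, HC.rel, JS, Spid, gH]

theorem house_sub : IsIndSub (JS ![0, 2, 2] 0) HC.houseG := by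
  refine ⟨fH, Function.LeftInverse.injective gfH, fun x y => ?_⟩
  rw [adj_gH, gfH, gfH]

end BasePAux

open BasePAux

theorem house_of {W : Type} {H : SimpleGraph W} (hC : HC.BL H cyc4 → HC.BL H HC.houseG)
    (h : BoundedCW cyc4 H) : BoundedCW H (JS ![0, 2, 2] 0) := by
  have h1 : BoundedCW H HC.houseG := bcw_of_bl (hC (bl_of_bcw (Fin2Aux.boundedCW_symm h)))
  exact fD.2 _ _ _ _ H (JS ![0, 2, 2] 0) H HC.houseG (fD.1 _ _ _ _ ⟨id, Function.injective_id,
    fun _ _ => Iff.rfl⟩) (fD.1 _ _ _ _ house_sub) h1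

/-- the house column -/
theorem hb : BpB (JS ![0, 2, 2] 0) := by
  refine ⟨?_, ?_, ?_⟩
  · rw [kf1]
    exact house_of HC.houseColumnF.2.2.2 LK.c15F.2
  · rw [kf2]
    exact house_of HC.houseColumnF.2.1 H3.h3F.2
  · rw [kf3]
    exact house_of HC.houseColumnF.1 H1M.fin1F.2

/-- the house column, row `K4:0,12` -/
theorem hc : BoundedCW (KF 4 2 ![{0}, {1, 2}]) (JS ![0, 2, 2] 0) := by
  rw [kf4]
  exact house_of HC.houseColumnF.2.2.1 M4.finF.2

/-! ### the bull -/

theorem restr_types {V : Type} {G : SimpleGraph V} {S : Set V} (A : Set S) :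
    Types (restr G S) (Subtype.val '' A) ⊆ (fun T => Subtype.val '' T) '' Types (G.induce S) A := by
  rintro T ⟨hT, a, ⟨a', ha', rfl⟩, rfl⟩
  have e : (restr G S).neighborSet a'.val \ (Subtype.val '' A) =
      Subtype.val '' ((G.induce S).neighborSet a' \ A) := by
    ext v
    constructor
    · rintro ⟨⟨h1, h2, h3⟩, h4⟩
      exact ⟨⟨v, h3⟩, ⟨h1, fun h => h4 ⟨_, h, rfl⟩⟩, rfl⟩
    · rintro ⟨⟨v', h3⟩, ⟨h1, h4⟩, rfl⟩
      exact ⟨⟨h1, a'.2, h3⟩, fun ⟨w, hw, he⟩ => h4 (by rwa [← Subtype.ext he])⟩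
  refine ⟨_, ⟨?_, a', ha', rfl⟩, e.symm⟩
  rw [e] at hT
  exact Set.Nonempty.of_image hT

theorem lay_restr {V : Type} {G : SimpleGraph V} {S : Set V} {k : ℕ} {A : Set S}
    (h : Lay (G.induce S) k A) : Lay (restr G S) k (Subtype.val '' A) := by
  have key : ∀ B : Set S, (Types (G.induce S) B).encard ≤ k →
      (Types (restr G S) (Subtype.val '' B)).encard ≤ k := fun B hB =>
    (Set.encard_le_encard (restr_types B)).trans ((Set.encard_image_le _ _).trans hB)
  induction h with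
  | empty =>
    rw [Set.image_empty]
    exact Lay.empty
  | single v hv =>
    have := key {v} hv
    rw [Set.image_singleton] at this ⊢
    exact Lay.single _ this
  | union _ _ hd hc ih1 ih2 =>
    have := key _ hc
    rw [Set.image_union] at this ⊢
    exact Lay.union ih1 ih2 (Set.disjoint_image_of_injective Subtype.val_injective hd) this

theorem bull_sub : IsIndSub (KF 3 2 ![{0}, {1}]) BU.bull := by
  refine ⟨Sum.elim ![0, 1, 2] ![3, 4], ?_, ?_⟩
  · intro x y h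
    rcases x with x | x <;> rcases y with y | y <;> fin_cases x <;> fin_cases y <;> simp_all
  · intro x y
    rcases x with x | x <;> rcases y with y | y <;> fin_cases x <;> fin_cases y <;>
      simp [KF, KA, BU.bull, BU.bullE]

/-- an induced minor of an induced subgraph -/
theorem minor_induce {V W : Type} {J : SimpleGraph W} {G : SimpleGraph V} {S : Set V}
    (h : IsIndMinor J (G.induce S)) : IsIndMinor J G :=
  FDAux.indMinor_trans h (FDAux.indMinor_of_indSub ⟨Subtype.val, Subtype.val_injective,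
    fun _ _ => Iff.rfl⟩)

/-- no three pairwise non-adjacent vertices: no induced minor `3 P_1` -/
theorem no3 {V : Type} {G : SimpleGraph V} {S : Set V} (h : BU.Al2 G S) :
    ¬ IsIndMinor (⊥ : SimpleGraph (Fin 3)) (G.induce S) := by
  rintro ⟨B, hc, hd, ht⟩
  have hne : ∀ i : Fin 3, ∃ x : S, x ∈ B i := fun i => by
    have := ((conn_iff (G.induce S) (B i)).mpr (hc i)).1
    exact this
  choose x hx using hne
  have hxx : ∀ i j : Fin 3, i ≠ j → (x i).val ≠ (x j).val ∧ ¬ G.Adj (x i).val (x j).val := by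
    intro i j hij
    refine ⟨fun h => ?_, fun h => ?_⟩
    · exact Set.disjoint_left.mp (hd i j hij) (hx i) (by rw [Subtype.ext h]; exact hx j)
    · exact (ht i j hij).mpr ⟨x i, hx i, x j, hx j, h⟩
  have h01 := hxx 0 1 (by decide)
  have h02 := hxx 0 2 (by decide)
  have h12 := hxx 1 2 (by decide)
  exact h12.2 (h _ (x 0).2 _ (x 1).2 _ (x 2).2 h01.1 h02.1 h12.1 h01.2 h02.2)

/-- the bull, from the row `3 P_1` -/
theorem bullRow {W : Type} {J : SimpleGraph W} (h : ∃ N : ℕ, ∀ (V : Type) [Finite V]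
    (G : SimpleGraph V), ¬ IsIndMinor (⊥ : SimpleGraph (Fin 3)) G → ¬ IsIndMinor J G →
      Lay G N Set.univ) : BoundedCW (KF 3 2 ![{0}, {1}]) J := by
  obtain ⟨N, hN⟩ := h
  obtain ⟨K, hK⟩ := BU.bullF N
  refine ⟨3 * (K + 1), fun V _ _ G h1 h2 => layCW V G K (hK V G (fun h => h1 ?_) fun S hS => ?_)⟩
  · exact FDAux.indMinor_trans (FDAux.indMinor_of_indSub bull_sub) (ims_univ_iff.mp h)
  · have := lay_restr (hN S (G.induce S) (no3 hS) fun h => h2 (minor_induce h))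
    rwa [Set.image_univ, Subtype.range_coe] at this

namespace BasePAux

/-- the vertex set of `JS ![1, 1, 2] 4` -/
abbrev VF : Type := Option (Σ i : Fin 3, Fin ((![1, 1, 2] : Fin 3 → ℕ) i)) ⊕ (Fin 4 × Bool)

/-- the map to the vertices of `F1` -/
def fF : VF → Fin 13
  | Sum.inl none => 0
  | Sum.inl (some ⟨0, _⟩) => 1
  | Sum.inl (some ⟨1, _⟩) => 2
  | Sum.inl (some ⟨2, k⟩) => if k.val = 0 then 3 else 4
  | Sum.inr (p, b) => ⟨5 + 2 * p.val + (if b then 1 else 0), by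
      have := p.isLt
      split_ifs <;> omega⟩

/-- the map from the vertices of `F1` -/
def gF : Fin 13 → VF := ![Sum.inl none, Sum.inl (some ⟨0, ⟨0, by decide⟩⟩),
  Sum.inl (some ⟨1, ⟨0, by decide⟩⟩), Sum.inl (some ⟨2, ⟨0, by decide⟩⟩),
  Sum.inl (some ⟨2, ⟨1, by decide⟩⟩), Sum.inr (0, false), Sum.inr (0, true), Sum.inr (1, false),
  Sum.inr (1, true), Sum.inr (2, false), Sum.inr (2, true), Sum.inr (3, false),
  Sum.inr (3, true)]

theorem gfF (x : VF) : gF (fF x) = x := by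
  rcases x with (_ | ⟨i, k⟩) | ⟨p, b⟩
  · rfl
  · fin_cases i
    · have : k = (⟨0, by decide⟩ : Fin 1) := Subsingleton.elim (α := Fin 1) _ _
      subst this
      rfl
    · have : k = (⟨0, by decide⟩ : Fin 1) := Subsingleton.elim (α := Fin 1) _ _
      subst this
      rfl
    · change Fin 2 at k
      fin_cases k <;> rfl
  · fin_cases p <;> cases b <;> rfl

/-- the matrix of the adjacencies of `JS ![1, 1, 2] 4` -/
theorem adj_gF (i j : Fin 13) : (JS ![1, 1, 2] 4).Adj (gF i) (gF j) ↔ i ≠ j ∧ ¬ W.F1.Adj i j := by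
  fin_cases i <;> fin_cases j <;> simp [W.F1, W.ofE, JS, Spid, gF]

theorem f1_sub : IsIndSub (JS ![1, 1, 2] 4) (W.KCo 0 W.F1) := by
  refine ⟨fun x => Sum.inr (fF x), fun x y h => Function.LeftInverse.injective gfF
    (Sum.inr.inj h), fun x y => ?_⟩
  conv_lhs => rw [← gfF x, ← gfF y]
  exact adj_gF (fF x) (fF y)

end BasePAux

/-- the row `3 P_1` of `co(S_{1,1,2} + 4 P_2)`, with layouts -/
theorem row3 : ∃ N : ℕ, ∀ (V : Type) [Finite V] (G : SimpleGraph V),
    ¬ IsIndMinor (⊥ : SimpleGraph (Fin 3)) G → ¬ IsIndMinor (JS ![1, 1, 2] 4) G →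
      Lay G N Set.univ := by
  obtain ⟨m₀, hm₀⟩ := W.coM 13 0
  obtain ⟨N, hN⟩ := W.finF1F 0 m₀
  refine ⟨N + 1, fun V _ G hG hK => ?_⟩
  have htri := W.F1RowAux.triFree G hG
  have hcc : (Gᶜ)ᶜ = G := compl_compl G
  have hno : ¬ IsIndMinor (W.KCo 0 W.F1) (Gᶜ)ᶜ := by
    rw [hcc]
    exact fun h => hK (FDAux.indMinor_trans (FDAux.indMinor_of_indSub f1_sub) h)
  have hH : W.Hyp 0 m₀ Gᶜ :=
    ⟨htri, hno, fun h => hno (hm₀ V Gᶜ W.F1 W.F1RowAux.col W.F1RowAux.col_proper htri h)⟩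
  have hL := W.layC V Gᶜ N Set.univ (hN V Gᶜ hH)
  rwa [hcc] at hL

/-- the bull and `co(S_{1,1,2} + 4 P_2)` -/
theorem ha3 : BoundedCW (KF 3 2 ![{0}, {1}]) (JS ![1, 1, 2] 4) := bullRow row3

end Pool.Agent.MPd439b2.F9
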