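import Pool.Agent.Lib.MP_d439b2_co.F9.BaseP
import Pool.Agent.Lib.MP_d439b2_co.OP.Final

/-!
# MP_d439b2_co, F9/BaseR: the base pairs of the bull

`ha`: the bull with `co(S_{2,2,3} + 2 P_2)`, `co(S_{1,2,3} + 3 P_2)`, `co(S_{1,1,2} + 4 P_2)`.
-/

set_option autoImplicit false

namespace Pool.Agent.MPd439b2.F9

open Pool.Agent.MPd439b2

/-- a row of `3 P_1`, with layouts -/
theorem rowL {Y Y' : Type} {F : SimpleGraph Y} {J : SimpleGraph Y'}
    (h : BoundedCW (⊥ : SimpleGraph (Fin 3)) (W.KCo 0 F)) (hs : IsIndSub J (W.KCo 0 F)) :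
    ∃ N : ℕ, ∀ (V : Type) [Finite V] (G : SimpleGraph V),
      ¬ IsIndMinor (⊥ : SimpleGraph (Fin 3)) G → ¬ IsIndMinor J G → Lay G N Set.univ := by
  obtain ⟨k, hk⟩ := bl_of_bcw h
  exact ⟨k, fun V _ G h1 h2 => hk V G (fun h => h1 (ims_univ_iff.mp h)) fun h =>
    h2 (FDAux.indMinor_trans (FDAux.indMinor_of_indSub hs) (ims_univ_iff.mp h))⟩

namespace BaseRAux

/-- the vertex set of `JS ![1, 2, 3] 3` -/
abbrev V2 : Type := Option (Σ i : Fin 3, Fin ((![1, 2, 3] : Fin 3 → ℕ) i)) ⊕ (Fin 3 × Bool)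

/-- the map to the vertices of `F2` -/
def f2 : V2 → Fin 13
  | Sum.inl none => 0
  | Sum.inl (some ⟨0, _⟩) => 1
  | Sum.inl (some ⟨1, k⟩) => if k.val = 0 then 2 else 3
  | Sum.inl (some ⟨2, k⟩) => if k.val = 0 then 4 else if k.val = 1 then 5 else 6
  | Sum.inr (p, b) => ⟨7 + 2 * p.val + (if b then 1 else 0), by
      have := p.isLt
      split_ifs <;> omega⟩

/-- the map from the vertices of `F2` -/
def g2 : Fin 13 → V2 := ![Sum.inl none, Sum.inl (some ⟨0, ⟨0, by decide⟩⟩),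
  Sum.inl (some ⟨1, ⟨0, by decide⟩⟩), Sum.inl (some ⟨1, ⟨1, by decide⟩⟩),
  Sum.inl (some ⟨2, ⟨0, by decide⟩⟩), Sum.inl (some ⟨2, ⟨1, by decide⟩⟩),
  Sum.inl (some ⟨2, ⟨2, by decide⟩⟩), Sum.inr (0, false), Sum.inr (0, true), Sum.inr (1, false),
  Sum.inr (1, true), Sum.inr (2, false), Sum.inr (2, true)]

theorem gf2 (x : V2) : g2 (f2 x) = x := by
  rcases x with (_ | ⟨i, k⟩) | ⟨p, b⟩
  · rfl
  · fin_cases i
    · have : k = (⟨0, by decide⟩ : Fin 1) := Subsingleton.elim (α := Fin 1) _ _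
      subst this
      rfl
    · change Fin 2 at k
      fin_cases k <;> rfl
    · change Fin 3 at k
      fin_cases k <;> rfl
  · fin_cases p <;> cases b <;> rfl

theorem adj_g2 (i j : Fin 13) : (JS ![1, 2, 3] 3).Adj (g2 i) (g2 j) ↔ i ≠ j ∧ ¬ W.F2.Adj i j := by
  fin_cases i <;> fin_cases j <;> simp [W.F2, W.ofE, JS, Spid, g2]

theorem f2_sub : IsIndSub (JS ![1, 2, 3] 3) (W.KCo 0 W.F2) := by
  refine ⟨fun x => Sum.inr (f2 x), fun x y h => Function.LeftInverse.injective gf2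
    (Sum.inr.inj h), fun x y => ?_⟩
  conv_lhs => rw [← gf2 x, ← gf2 y]
  exact adj_g2 (f2 x) (f2 y)

/-- the vertex set of `JS ![2, 2, 3] 2` -/
abbrev V3 : Type := Option (Σ i : Fin 3, Fin ((![2, 2, 3] : Fin 3 → ℕ) i)) ⊕ (Fin 2 × Bool)

/-- the map to the vertices of `F3` -/
def f3 : V3 → Fin 12
  | Sum.inl none => 0
  | Sum.inl (some ⟨0, k⟩) => if k.val = 0 then 1 else 2
  | Sum.inl (some ⟨1, k⟩) => if k.val = 0 then 3 else 4
  | Sum.inl (some ⟨2, k⟩) => if k.val = 0 then 5 else if k.val = 1 then 6 else 7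
  | Sum.inr (p, b) => ⟨8 + 2 * p.val + (if b then 1 else 0), by
      have := p.isLt
      split_ifs <;> omega⟩

/-- the map from the vertices of `F3` -/
def g3 : Fin 12 → V3 := ![Sum.inl none, Sum.inl (some ⟨0, ⟨0, by decide⟩⟩),
  Sum.inl (some ⟨0, ⟨1, by decide⟩⟩), Sum.inl (some ⟨1, ⟨0, by decide⟩⟩),
  Sum.inl (some ⟨1, ⟨1, by decide⟩⟩), Sum.inl (some ⟨2, ⟨0, by decide⟩⟩),
  Sum.inl (some ⟨2, ⟨1, by decide⟩⟩), Sum.inl (some ⟨2, ⟨2, by decide⟩⟩), Sum.inr (0, false),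
  Sum.inr (0, true), Sum.inr (1, false), Sum.inr (1, true)]

theorem gf3 (x : V3) : g3 (f3 x) = x := by
  rcases x with (_ | ⟨i, k⟩) | ⟨p, b⟩
  · rfl
  · fin_cases i
    · change Fin 2 at k
      fin_cases k <;> rfl
    · change Fin 2 at k
      fin_cases k <;> rfl
    · change Fin 3 at k
      fin_cases k <;> rfl
  · fin_cases p <;> cases b <;> rfl

theorem adj_g3 (i j : Fin 12) : (JS ![2, 2, 3] 2).Adj (g3 i) (g3 j) ↔ i ≠ j ∧ ¬ W.F3.Adj i j := by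
  fin_cases i <;> fin_cases j <;> simp [W.F3, W.ofE, JS, Spid, g3]

theorem f3_sub : IsIndSub (JS ![2, 2, 3] 2) (W.KCo 0 W.F3) := by
  refine ⟨fun x => Sum.inr (f3 x), fun x y h => Function.LeftInverse.injective gf3
    (Sum.inr.inj h), fun x y => ?_⟩
  conv_lhs => rw [← gf3 x, ← gf3 y]
  exact adj_g3 (f3 x) (f3 y)

end BaseRAux

/-- the bull and `co(S_{2,2,3} + 2 P_2)` -/
theorem ha1 : BoundedCW (KF 3 2 ![{0}, {1}]) (JS ![2, 2, 3] 2) :=
  bullRow (rowL (OP.rowF3F 0) BaseRAux.f3_sub)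

/-- the bull and `co(S_{1,2,3} + 3 P_2)` -/
theorem ha2 : BoundedCW (KF 3 2 ![{0}, {1}]) (JS ![1, 2, 3] 3) :=
  bullRow (rowL (OP.rowF2F 0) BaseRAux.f2_sub)

/-- the three base pairs of the bull -/
theorem ha : BpA := ⟨ha1, ha2, ha3⟩

end Pool.Agent.MPd439b2.F9
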