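import Pool.Agent.Lib.MP_d439b2_co.F9.SpecX
import Pool.Agent.Lib.MP_d439b2_co.F9.I7

/-!
# MP_d439b2_co, N10: the induced minors of `K3:0,1,02`
-/

set_option autoImplicit false

namespace Pool.Agent.MPd439b2.F9

open Pool.Agent.MPd439b2 Pool.Agent.MPd439b2.KS

namespace n10Aux

open i7Aux

/-- the image of a model under a map -/
theorem eng {V V' W : Type} {G : SimpleGraph V} {G' : SimpleGraph V'} {H : SimpleGraph W}
    (B : W → Set V) (hc : ∀ w, Conn G (B w)) (hd : ∀ w w', w ≠ w' → Disjoint (B w) (B w'))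
    (ht : ∀ w w', w ≠ w' → (H.Adj w w' ↔ Tch G (B w) (B w')))
    (S : V → Prop) (hS : ∀ w, ∀ a ∈ B w, S a) (g : V → V')
    (h1 : ∀ a b, S a → S b → g a ≠ g b → (G'.Adj (g a) (g b) ↔
      ∃ a' b', S a' ∧ S b' ∧ g a' = g a ∧ g b' = g b ∧ G.Adj a' b'))
    (h2 : ∀ a b, S a → S b → g a = g b → ∀ w, a ∈ B w → b ∈ B w) : IsIndMinor H G' := by
  have hne : ∀ w w', w ≠ w' → ∀ a ∈ B w, ∀ b ∈ B w', g a ≠ g b := by
    intro w w' hw a ha b hb h
    have h3 := h2 a b (hS w a ha) (hS w' b hb) h w ha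
    exact Set.disjoint_left.1 (hd w w' hw) h3 hb
  rw [← ims_univ_iff]
  refine ⟨fun w => g '' B w, fun w => Set.subset_univ _, ?_, ?_, ?_⟩
  · intro w
    refine ⟨(hc w).1.image g, fun C hC hCn hCne => ?_⟩
    obtain ⟨b, hb, a, ha, hab⟩ := (hc w).2 {x | x ∈ B w ∧ g x ∈ C} (fun x hx => hx.1)
      (by
        obtain ⟨c, hc'⟩ := hCn
        obtain ⟨x, hx, rfl⟩ := hC hc'
        exact ⟨x, hx, hc'⟩)
      (by
        intro h
        apply hCne
        refine Set.Subset.antisymm hC ?_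
        rintro _ ⟨x, hx, rfl⟩
        rw [← h] at hx
        exact hx.2)
    have haC : g a ∉ C := fun h => ha.2 ⟨ha.1, h⟩
    refine ⟨g b, hb.2, g a, ⟨⟨a, ha.1, rfl⟩, haC⟩, ?_⟩
    have hn : g b ≠ g a := fun h => haC (h ▸ hb.2)
    exact (h1 b a (hS w b hb.1) (hS w a ha.1) hn).2
      ⟨b, a, hS w b hb.1, hS w a ha.1, rfl, rfl, hab⟩
  · intro w w' hw
    rw [Set.disjoint_left]
    rintro _ ⟨a, ha, rfl⟩ ⟨b, hb, hba⟩
    exact hne w w' hw a ha b hb hba.symm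
  · intro w w' hw
    rw [ht w w' hw]
    constructor
    · rintro ⟨a, ha, b, hb, hab⟩
      exact ⟨g a, ⟨a, ha, rfl⟩, g b, ⟨b, hb, rfl⟩, (h1 a b (hS w a ha) (hS w' b hb)
        (hne w w' hw a ha b hb)).2 ⟨a, b, hS w a ha, hS w' b hb, rfl, rfl, hab⟩⟩
    · rintro ⟨_, ⟨a, ha, rfl⟩, _, ⟨b, hb, rfl⟩, hab⟩
      obtain ⟨a', b', sa, sb, ea, eb, hab'⟩ := (h1 a b (hS w a ha) (hS w' b hb)
        (hne w w' hw a ha b hb)).1 hab
      exact ⟨a', h2 a a' (hS w a ha) sa ea.symm w ha, b', h2 b b' (hS w' b hb) sb eb.symm w' hb, hab'⟩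

/-- adjacency in `KJ s J`, computable -/
def kjb {W : Type} (s : ℕ) (f : W → W → Bool) : Fin s ⊕ W → Fin s ⊕ W → Bool
  | Sum.inl i, Sum.inl j => decide (i ≠ j)
  | Sum.inl _, Sum.inr _ => true
  | Sum.inr _, Sum.inl _ => true
  | Sum.inr u, Sum.inr v => f u v

theorem kjb_iff {W : Type} {s : ℕ} {J : SimpleGraph W} {f : W → W → Bool}
    (h : ∀ u v, J.Adj u v ↔ f u v = true) (u v : Fin s ⊕ W) :
    (KJ s J).Adj u v ↔ kjb s f u v = true := by
  rcases u with u | u <;> rcases v with v | v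
  · change u ≠ v ↔ decide (u ≠ v) = true
    rw [decide_eq_true_iff]
  · change True ↔ true = true
    simp
  · change True ↔ true = true
    simp
  · exact h u v

abbrev V0 := Fin 3 ⊕ Fin 3

/-- the source, computable -/
def sb : V0 → V0 → Bool := kfb 3 3 ![{0}, {1}, {0, 2}]

theorem sb_iff (u v : V0) : (KF 3 3 ![{0}, {1}, {0, 2}]).Adj u v ↔ sb u v = true := kfb_iff u v

/-- the edges -/
def EL : List (V0 × V0) := [(Sum.inl 0, Sum.inl 1), (Sum.inl 0, Sum.inl 2), (Sum.inl 1, Sum.inl 2),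
  (Sum.inl 0, Sum.inr 0), (Sum.inl 1, Sum.inr 1), (Sum.inl 0, Sum.inr 2), (Sum.inl 2, Sum.inr 2)]

/-- deletion of a vertex -/
theorem del {V' W : Type} [DecidableEq V'] {G' : SimpleGraph V'} {H : SimpleGraph W}
    (B : W → Set V0) (hc : ∀ w, Conn (KF 3 3 ![{0}, {1}, {0, 2}]) (B w))
    (hd : ∀ w w', w ≠ w' → Disjoint (B w) (B w'))
    (ht : ∀ w w', w ≠ w' → (H.Adj w w' ↔ Tch (KF 3 3 ![{0}, {1}, {0, 2}]) (B w) (B w')))
    (z : V0) (hz : ∀ w, z ∉ B w) (f : V' → V' → Bool) (hf : ∀ u v, G'.Adj u v ↔ f u v = true)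
    (g : V0 → V') (hg : ∀ a b, a ≠ z → b ≠ z → (f (g a) (g b) = sb a b))
    (hi : ∀ a b, a ≠ z → b ≠ z → g a = g b → a = b) : IsIndMinor H G' := by
  refine eng B hc hd ht (fun a => a ≠ z) (fun w a ha h => hz w (h ▸ ha)) g ?_ ?_
  · intro a b ha hb _
    rw [hf, hg a b ha hb, ← sb_iff]
    constructor
    · intro h
      exact ⟨a, b, ha, hb, rfl, rfl, h⟩
    · rintro ⟨a', b', ha', hb', ea, eb, h⟩
      rw [hi a' a ha' ha ea, hi b' b hb' hb eb] at h
      exact h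
  · intro a b ha hb h w haw
    rwa [← hi a b ha hb h]

/-- contraction of an edge -/
theorem con {V' W : Type} [DecidableEq V'] {G' : SimpleGraph V'} {H : SimpleGraph W}
    (B : W → Set V0) (hc : ∀ w, Conn (KF 3 3 ![{0}, {1}, {0, 2}]) (B w))
    (hd : ∀ w w', w ≠ w' → Disjoint (B w) (B w'))
    (ht : ∀ w w', w ≠ w' → (H.Adj w w' ↔ Tch (KF 3 3 ![{0}, {1}, {0, 2}]) (B w) (B w')))
    (x y : V0) (w₀ : W) (hx : x ∈ B w₀) (hy : y ∈ B w₀) (f : V' → V' → Bool)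
    (hf : ∀ u v, G'.Adj u v ↔ f u v = true)
    (g : V0 → V') (hg : ∀ a b, g a ≠ g b → (f (g a) (g b) = true ↔
      ∃ a' b', g a' = g a ∧ g b' = g b ∧ sb a' b' = true))
    (hi : ∀ a b, g a = g b → a = b ∨ (a = x ∧ b = y) ∨ (a = y ∧ b = x)) : IsIndMinor H G' := by
  have huniq : ∀ w, ∀ a ∈ B w, a ∈ B w₀ → w = w₀ := by
    intro w a ha ha0
    by_contra h
    exact Set.disjoint_left.1 (hd w w₀ h) ha ha0
  refine eng B hc hd ht (fun _ => True) (fun w a ha => trivial) g ?_ ?_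
  · intro a b _ _ hn
    rw [hf, hg a b hn]
    constructor
    · rintro ⟨a', b', ea, eb, h⟩
      exact ⟨a', b', trivial, trivial, ea, eb, (sb_iff _ _).2 h⟩
    · rintro ⟨a', b', -, -, ea, eb, h⟩
      exact ⟨a', b', ea, eb, (sb_iff _ _).1 h⟩
  · intro a b _ _ h w haw
    rcases hi a b h with h3 | ⟨h3, h4⟩ | ⟨h3, h4⟩
    · rwa [← h3]
    · rw [h3] at haw
      rw [h4, huniq w x haw hx]
      exact hy
    · rw [h3] at haw
      rw [h4, huniq w y haw hy]
      exact hx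

end n10Aux

open n10Aux i7Aux

theorem n10 : S_N10 := by
  intro W H hH
  rw [← ims_univ_iff] at hH
  obtain ⟨B, -, hc, hd, ht⟩ := hH
  have f1 := kjb_iff (s := 1) (J := KF 4 2 ![{0}, {1}]) kfb_iff
  have f2 := kfb_iff (m := 3) (t := 3) (N := ![{0}, {0, 1}, {1, 2}])
  have f3 := kjb_iff (s := 1) (J := KF 2 3 ![{0}, {0}, {1}]) kfb_iff
  have f4 := kjb_iff (s := 1) (J := KF 2 3 ![∅, {0}, {1}]) kfb_iff
  by_cases hz : ∃ z, ∀ w, z ∉ B w
  · left
    obtain ⟨z, hz⟩ := hz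
    rcases z with z | z <;> fin_cases z
    · -- `0`
      right; right; right
      exact del B hc hd ht _ hz _ f4 (Sum.elim ![Sum.inl 0, Sum.inr (Sum.inl 0), Sum.inr (Sum.inl 1)]
        ![Sum.inr (Sum.inr 0), Sum.inr (Sum.inr 1), Sum.inr (Sum.inr 2)]) (by decide) (by decide)
    · -- `1`
      left
      exact del B hc hd ht _ hz _ f1 (Sum.elim ![Sum.inr (Sum.inl 0), Sum.inl 0, Sum.inr (Sum.inl 2)]
        ![Sum.inr (Sum.inr 0), Sum.inr (Sum.inr 1), Sum.inr (Sum.inl 3)]) (by decide) (by decide)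
    · -- `2`
      right; right; left
      exact del B hc hd ht _ hz _ f3 (Sum.elim ![Sum.inr (Sum.inl 0), Sum.inr (Sum.inl 1), Sum.inl 0]
        ![Sum.inr (Sum.inr 0), Sum.inr (Sum.inr 2), Sum.inr (Sum.inr 1)]) (by decide) (by decide)
    · -- `y₀`
      right; left
      exact del B hc hd ht _ hz _ f2 (Sum.elim ![Sum.inl 1, Sum.inl 0, Sum.inl 2]
        ![Sum.inr 1, Sum.inr 0, Sum.inr 2]) (by decide) (by decide)
    · -- `y₁`
      right; right; left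
      exact del B hc hd ht _ hz _ f3 (Sum.elim ![Sum.inl 0, Sum.inr (Sum.inr 0), Sum.inr (Sum.inl 0)]
        ![Sum.inr (Sum.inr 2), Sum.inr (Sum.inl 1), Sum.inr (Sum.inr 1)]) (by decide) (by decide)
    · -- `y₂`
      left
      exact del B hc hd ht _ hz _ f1 (Sum.elim ![Sum.inr (Sum.inl 0), Sum.inr (Sum.inl 1), Sum.inr (Sum.inl 2)]
        ![Sum.inr (Sum.inr 0), Sum.inr (Sum.inr 1), Sum.inl 0]) (by decide) (by decide)
  push Not at hz
  choose wf hwf using hz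
  by_cases hs : ∃ w x y, x ∈ B w ∧ y ∈ B w ∧ x ≠ y
  · left
    obtain ⟨w, x', y', hx', hy', hxy'⟩ := hs
    -- an edge
    obtain ⟨x, hx, y, hy, hxy⟩ := (hc w).2 {x'} (Set.singleton_subset_iff.2 hx') ⟨x', rfl⟩ (by
      intro h
      rw [← h] at hy'
      exact hxy' hy'.symm)
    have hx : x ∈ B w := by
      rw [Set.mem_singleton_iff.1 hx]
      exact hx'
    have hy := hy.1
    rw [sb_iff] at hxy
    have key : ∀ a b : V0, sb a b = true →
        (EL.any fun e => decide ((a = e.1 ∧ b = e.2) ∨ (a = e.2 ∧ b = e.1))) = true := by decide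
    obtain ⟨p, q, hL, hp, hq⟩ : ∃ p q, (p, q) ∈ EL ∧ p ∈ B w ∧ q ∈ B w := by
      have h := key x y hxy
      rw [List.any_eq_true] at h
      obtain ⟨e, he, h⟩ := h
      rw [decide_eq_true_iff] at h
      rcases h with ⟨h1, h2⟩ | ⟨h1, h2⟩
      · exact ⟨e.1, e.2, he, h1 ▸ hx, h2 ▸ hy⟩
      · exact ⟨e.1, e.2, he, h2 ▸ hy, h1 ▸ hx⟩
    simp only [EL, List.mem_cons, Prod.mk.injEq, List.not_mem_nil, or_false] at hL
    rcases hL with ⟨rfl, rfl⟩ | ⟨rfl, rfl⟩ | ⟨rfl, rfl⟩ | ⟨rfl, rfl⟩ | ⟨rfl, rfl⟩ | ⟨rfl, rfl⟩ |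
      ⟨rfl, rfl⟩
    · -- `0 1`
      right; right; left
      exact con B hc hd ht _ _ w hp hq _ f3 (Sum.elim ![Sum.inl 0, Sum.inl 0, Sum.inr (Sum.inl 1)]
        ![Sum.inr (Sum.inr 0), Sum.inr (Sum.inr 1), Sum.inr (Sum.inr 2)]) (by decide) (by decide)
    · -- `0 2`
      right; right; left
      exact con B hc hd ht _ _ w hp hq _ f3 (Sum.elim ![Sum.inr (Sum.inl 0), Sum.inr (Sum.inl 1),
        Sum.inr (Sum.inl 0)] ![Sum.inr (Sum.inr 0), Sum.inr (Sum.inr 2), Sum.inr (Sum.inr 1)])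
        (by decide) (by decide)
    · -- `1 2`
      left
      exact con B hc hd ht _ _ w hp hq _ f1 (Sum.elim ![Sum.inr (Sum.inl 0), Sum.inr (Sum.inl 1),
        Sum.inr (Sum.inl 1)] ![Sum.inr (Sum.inr 0), Sum.inr (Sum.inr 1), Sum.inr (Sum.inl 2)])
        (by decide) (by decide)
    · -- `0 y₀`
      right; left
      exact con B hc hd ht _ _ w hp hq _ f2 (Sum.elim ![Sum.inl 1, Sum.inl 0, Sum.inl 2]
        ![Sum.inl 1, Sum.inr 0, Sum.inr 2]) (by decide) (by decide)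
    · -- `1 y₁`
      right; right; left
      exact con B hc hd ht _ _ w hp hq _ f3 (Sum.elim ![Sum.inl 0, Sum.inr (Sum.inr 0), Sum.inr (Sum.inl 0)]
        ![Sum.inr (Sum.inr 2), Sum.inr (Sum.inr 0), Sum.inr (Sum.inr 1)]) (by decide) (by decide)
    · -- `0 y₂`
      left
      exact con B hc hd ht _ _ w hp hq _ f1 (Sum.elim ![Sum.inr (Sum.inl 0), Sum.inr (Sum.inl 1),
        Sum.inr (Sum.inl 2)] ![Sum.inr (Sum.inr 0), Sum.inr (Sum.inr 1), Sum.inr (Sum.inl 0)])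
        (by decide) (by decide)
    · -- `2 y₂`
      left
      exact con B hc hd ht _ _ w hp hq _ f1 (Sum.elim ![Sum.inr (Sum.inl 0), Sum.inr (Sum.inl 1),
        Sum.inr (Sum.inl 2)] ![Sum.inr (Sum.inr 0), Sum.inr (Sum.inr 1), Sum.inr (Sum.inl 2)])
        (by decide) (by decide)
  · right
    have hone : ∀ w x y, x ∈ B w → y ∈ B w → x = y := by
      intro w x y hx hy
      by_contra h
      exact hs ⟨w, x, y, hx, hy, h⟩
    have hB : ∀ v, B (wf v) = {v} := by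
      intro v
      refine Set.Subset.antisymm (fun x hx => hone _ _ _ hx (hwf v)) ?_
      rintro _ rfl
      exact hwf _
    refine FDAux.indMinor_of_indSub ⟨wf, ?_, ?_⟩
    · intro u v h
      have h3 := hB u
      rw [h, hB v] at h3
      exact (Set.singleton_injective h3).symm
    · intro u v
      by_cases h : wf u = wf v
      · have h3 := hB u
        rw [h, hB v] at h3
        have h4 := Set.singleton_injective h3
        rw [h4]
        exact ⟨fun h5 => (SimpleGraph.irrefl _ h5).elim, fun h5 => (SimpleGraph.irrefl _ h5).elim⟩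
      · rw [ht _ _ h, hB, hB]
        constructor
        · intro h5
          exact ⟨u, rfl, v, rfl, h5⟩
        · rintro ⟨_, rfl, _, rfl, h5⟩
          exact h5

end Pool.Agent.MPd439b2.F9
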