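import Pool.Agent.Lib.MP_d439b2_co.F9.SpecX
import Pool.Agent.Lib.MP_d439b2_co.B.FD

/-!
# MP_d439b2_co, F9/N11: the induced minors of `K_s ∨ co(P_3 + 4 P_2)`
-/

set_option autoImplicit false

namespace Pool.Agent.MPd439b2.F9

open Pool.Agent.MPd439b2

namespace n11Aux

/-- vertices of `JS ![0, 1, 1] t` -/
abbrev VJ (t : ℕ) : Type := Option (Σ i : Fin 3, Fin (![0, 1, 1] i)) ⊕ (Fin t × Bool)

/-- the component -/
def cp {t : ℕ} : VJ t → ℕ
  | Sum.inl _ => 0
  | Sum.inr u => u.1.val + 1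

/-- the position in the component; `0` is one side -/
def ps {t : ℕ} : VJ t → Fin 3
  | Sum.inl none => 0
  | Sum.inl (some v) => v.1
  | Sum.inr u => if u.2 then 1 else 0

theorem leg (v : Σ i : Fin 3, Fin (![0, 1, 1] i)) : v.1 ≠ 0 ∧ v.2.val = 0 := by
  obtain ⟨i, k⟩ := v
  fin_cases i
  · exact k.elim0
  · exact ⟨(by decide : (1 : Fin 3) ≠ 0), Nat.lt_one_iff.mp k.isLt⟩
  · exact ⟨(by decide : (2 : Fin 3) ≠ 0), Nat.lt_one_iff.mp k.isLt⟩

theorem leg_ext {u v : Σ i : Fin 3, Fin (![0, 1, 1] i)} (h : u.1 = v.1) : u = v := by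
  have h1 := (leg u).2
  have h2 := (leg v).2
  obtain ⟨i, k⟩ := u
  obtain ⟨j, l⟩ := v
  change i = j at h
  subst h
  change k.val = 0 at h1
  change l.val = 0 at h2
  have : k = l := Fin.ext (h1.trans h2.symm)
  rw [this]

theorem fin3 {i j : Fin 3} (hi : i ≠ 0) : (i = 0 ↔ j ≠ 0) ↔ j = 0 := by
  constructor
  · intro h
    by_contra hj
    exact hi (h.mpr hj)
  · intro h
    exact ⟨fun h' => absurd h' hi, fun h' => absurd h h'⟩

theorem bit1 : ∀ b b' : Bool, b ≠ b' →
    ((if b then (1 : Fin 3) else 0) = 0 ↔ (if b' then (1 : Fin 3) else 0) ≠ 0) := by decide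

theorem bit2 : ∀ b b' : Bool, (if b then (1 : Fin 3) else 0) = (if b' then (1 : Fin 3) else 0) →
    b = b' := by decide

theorem adj_iff {t : ℕ} (u v : VJ t) (h : u ≠ v) :
    (JS ![0, 1, 1] t).Adj u v ↔ ¬ (cp u = cp v ∧ (ps u = 0 ↔ ps v ≠ 0)) := by
  rcases u with (_ | u) | ⟨q, b⟩ <;> rcases v with (_ | v) | ⟨q', b'⟩
  · exact absurd rfl h
  · change ((none : Option (Σ i : Fin 3, Fin (![0, 1, 1] i))) ≠ some v ∧ ¬ (v.2.val = 0)) ↔
      ¬ ((0 : ℕ) = 0 ∧ ((0 : Fin 3) = 0 ↔ v.1 ≠ 0))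
    have := leg v
    simp [this.1, this.2]
  · change True ↔ ¬ ((0 : ℕ) = q'.val + 1 ∧ _)
    simp
  · change (some u ≠ (none : Option (Σ i : Fin 3, Fin (![0, 1, 1] i))) ∧ ¬ (u.2.val = 0)) ↔
      ¬ ((0 : ℕ) = 0 ∧ (u.1 = 0 ↔ (0 : Fin 3) ≠ 0))
    have := leg u
    simp [this.1, this.2]
  · change (some u ≠ some v ∧ ¬ (u.1 = v.1 ∧ (u.2.val + 1 = v.2.val ∨ v.2.val + 1 = u.2.val))) ↔
      ¬ ((0 : ℕ) = 0 ∧ (u.1 = 0 ↔ v.1 ≠ 0))
    have h1 := leg u
    have h2 := leg v
    have h3 : some u ≠ some v := fun e => h (congrArg Sum.inl e)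
    rw [fin3 h1.1]
    constructor
    · exact fun _ h' => h2.1 h'.2
    · refine fun _ => ⟨h3, ?_⟩
      rintro ⟨-, h'⟩
      omega
  · change True ↔ ¬ ((0 : ℕ) = q'.val + 1 ∧ _)
    simp
  · change True ↔ ¬ (q.val + 1 = 0 ∧ _)
    simp
  · change True ↔ ¬ (q.val + 1 = 0 ∧ _)
    simp
  · change q ≠ q' ↔ ¬ (q.val + 1 = q'.val + 1 ∧
      ((if b then (1 : Fin 3) else 0) = 0 ↔ (if b' then (1 : Fin 3) else 0) ≠ 0))
    by_cases hq : q = q'
    · subst hq
      have hb : b ≠ b' := fun e => h (by rw [e])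
      exact ⟨fun h' => absurd rfl h', fun h' => absurd ⟨rfl, bit1 b b' hb⟩ h'⟩
    · have : q.val + 1 ≠ q'.val + 1 := fun e => hq (Fin.ext (by omega))
      exact ⟨fun _ h' => this h'.1, fun _ => hq⟩

theorem code_inj {t : ℕ} {u v : VJ t} (h1 : cp u = cp v) (h2 : ps u = ps v) : u = v := by
  rcases u with (_ | u) | ⟨q, b⟩ <;> rcases v with (_ | v) | ⟨q', b'⟩
  · rfl
  · exact absurd h2.symm (leg v).1
  · exact absurd h1 (by change (0 : ℕ) ≠ q'.val + 1; omega)
  · exact absurd h2 (leg u).1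
  · rw [leg_ext h2]
  · exact absurd h1 (by change (0 : ℕ) ≠ q'.val + 1; omega)
  · exact absurd h1 (by change q.val + 1 ≠ (0 : ℕ); omega)
  · exact absurd h1 (by change q.val + 1 ≠ (0 : ℕ); omega)
  · have e1 : q = q' := Fin.ext (by change q.val + 1 = q'.val + 1 at h1; omega)
    have e2 : b = b' := bit2 b b' h2
    rw [e1, e2]

theorem ps_two {t : ℕ} {u : VJ t} (h : ps u = 2) : cp u = 0 := by
  rcases u with u | ⟨q, b⟩
  · rfl
  · exfalso
    change (if b then (1 : Fin 3) else 0) = 2 at h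
    revert h
    revert b
    decide

theorem dec {t : ℕ} (k : ℕ) (hk : k ≤ t) (p : Fin 3) (hp : p = 2 → k = 0) :
    ∃ u : VJ t, cp u = k ∧ ps u = p := by
  rcases k with _ | k
  · fin_cases p
    · exact ⟨Sum.inl none, rfl, rfl⟩
    · exact ⟨Sum.inl (some ⟨1, ⟨0, Nat.one_pos⟩⟩), rfl, rfl⟩
    · exact ⟨Sum.inl (some ⟨2, ⟨0, Nat.one_pos⟩⟩), rfl, rfl⟩
  · fin_cases p
    · exact ⟨Sum.inr (⟨k, hk⟩, false), rfl, rfl⟩
    · exact ⟨Sum.inr (⟨k, hk⟩, true), rfl, rfl⟩
    · exact absurd (hp rfl) (Nat.succ_ne_zero k)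

theorem cp_le {t : ℕ} (u : VJ t) : cp u < t + 1 := by
  rcases u with u | ⟨q, b⟩
  · exact Nat.succ_pos t
  · exact Nat.succ_lt_succ q.isLt

end n11Aux

open n11Aux

/-- **N11** -/
theorem n11 : S_N11 := by
  classical
  intro W' _ H' s hH
  obtain ⟨B, hc, hd, ha⟩ := hH
  simp only [← conn_iff] at hc
  -- the vertices with a non-neighbour
  let NI : W' → Prop := fun w => ∃ w', w ≠ w' ∧ ¬ H'.Adj w w'
  -- elements of the branch sets
  have hne : ∀ w, (B w).Nonempty := fun w => (hc w).1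
  choose f₀ hf₀ using hne
  have far : ∀ w w', w ≠ w' → ¬ H'.Adj w w' → ∀ x ∈ B w, ∀ y ∈ B w',
      ∃ u v : VJ 4, x = Sum.inr u ∧ y = Sum.inr v ∧ u ≠ v ∧ cp u = cp v ∧ (ps u = 0 ↔ ps v ≠ 0) := by
    intro w w' hww hna x hx y hy
    have hxy : ¬ (KJ s (JS ![0, 1, 1] 4)).Adj x y := fun h => hna ((ha w w' hww).mpr ⟨x, hx, y, hy, h⟩)
    have hne : x ≠ y := fun e => Set.disjoint_left.mp (hd w w' hww) hx (e ▸ hy)
    rcases x with i | u <;> rcases y with j | v
    · exact absurd (fun e => hne (congrArg Sum.inl e)) hxy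
    · exact absurd trivial hxy
    · exact absurd trivial hxy
    · have huv : u ≠ v := fun e => hne (congrArg Sum.inr e)
      have h1 : ¬ (JS ![0, 1, 1] 4).Adj u v := hxy
      rw [adj_iff u v huv, not_not] at h1
      exact ⟨u, v, rfl, rfl, huv, h1.1, h1.2⟩
  have hfu : ∀ w, NI w → ∃ u : VJ 4, f₀ w = Sum.inr u := by
    rintro w ⟨w', h1, h2⟩
    obtain ⟨u, v, hu, -⟩ := far w w' h1 h2 _ (hf₀ w) _ (hf₀ w')
    exact ⟨u, hu⟩
  let f : W' → VJ 4 := fun w => if h : NI w then (hfu w h).choose else Sum.inl none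
  have hf : ∀ w, NI w → Sum.inr (f w) ∈ B w := by
    intro w hw
    have h1 : f w = (hfu w hw).choose := dif_pos hw
    rw [h1, ← (hfu w hw).choose_spec]
    exact hf₀ w
  -- all elements of a branch set have the same component and side
  have same : ∀ w, NI w → ∀ x ∈ B w, ∃ u : VJ 4, x = Sum.inr u ∧ cp u = cp (f w) ∧
      (ps u = 0 ↔ ps (f w) = 0) := by
    rintro w hw x hx
    obtain ⟨w', h1, h2⟩ := id hw
    obtain ⟨u, v, rfl, hv, -, h3, h4⟩ := far w w' h1 h2 x hx _ (hf₀ w')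
    obtain ⟨u', v', hu', hv', -, h5, h6⟩ := far w w' h1 h2 _ (hf w hw) _ (hf₀ w')
    have e1 : v = v' := Sum.inr_injective (hv.symm.trans hv')
    have e2 : f w = u' := Sum.inr_injective hu'
    subst e1
    rw [e2]
    exact ⟨u, rfl, h3.trans h5.symm, h4.trans h6.symm⟩
  have inj : ∀ w w', NI w → NI w' → w ≠ w' → f w ≠ f w' := by
    intro w w' hw hw' hww e
    exact Set.disjoint_left.mp (hd w w' hww) (hf w hw) (e ▸ hf w' hw')
  have star : ∀ w w', NI w → NI w' → w ≠ w' →
      (H'.Adj w w' ↔ ¬ (cp (f w) = cp (f w') ∧ (ps (f w) = 0 ↔ ps (f w') ≠ 0))) := by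
    intro w w' hw hw' hww
    constructor
    · rintro h ⟨h1, h2⟩
      obtain ⟨x, hx, y, hy, hxy⟩ := (ha w w' hww).mp h
      have hne : x ≠ y := fun e => Set.disjoint_left.mp (hd w w' hww) hx (e ▸ hy)
      obtain ⟨u, rfl, h3, h4⟩ := same w hw x hx
      obtain ⟨v, rfl, h5, h6⟩ := same w' hw' y hy
      have hne' : u ≠ v := fun e => hne (congrArg Sum.inr e)
      have h7 : (JS ![0, 1, 1] 4).Adj u v := hxy
      rw [adj_iff u v hne'] at h7
      exact h7 ⟨by rw [h3, h5, h1], by rw [h4, Ne, h6]; exact h2⟩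
    · intro h
      rw [← adj_iff _ _ (inj w w' hw hw' hww)] at h
      exact (ha w w' hww).mpr ⟨_, hf w hw, _, hf w' hw', h⟩
  have univ : ∀ w w', w ≠ w' → ¬ NI w → H'.Adj w w' := by
    intro w w' hww hw
    by_contra h
    exact hw ⟨w', hww, h⟩
  -- the used components
  let used : Finset ℕ := (Finset.range 5).filter (fun k => ∃ w, NI w ∧ cp (f w) = k)
  have mem_used : ∀ k, k ∈ used ↔ ∃ w, NI w ∧ cp (f w) = k := by
    intro k
    simp only [used, Finset.mem_filter, Finset.mem_range, and_iff_right_iff_imp]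
    rintro ⟨w, -, rfl⟩
    exact cp_le _
  by_cases hcard : 4 ≤ used.card
  · right
    obtain ⟨S, hS, hS4⟩ := Finset.exists_subset_card_eq hcard
    let e : Fin 4 ≃ S := (Finset.equivFinOfCardEq hS4).symm
    have h1 : ∀ i : Fin 4, ∃ w w', NI w ∧ NI w' ∧ w ≠ w' ∧ ¬ H'.Adj w w' ∧ cp (f w) = (e i : ℕ) ∧
        cp (f w') = (e i : ℕ) := by
      intro i
      obtain ⟨w, hw, hwk⟩ := (mem_used _).mp (hS (e i).2)
      obtain ⟨w', h2, h3⟩ := id hw
      have hw' : NI w' := ⟨w, h2.symm, fun h => h3 h.symm⟩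
      refine ⟨w, w', hw, hw', h2, h3, hwk, ?_⟩
      rw [star w w' hw hw' h2, not_not] at h3
      exact h3.1.symm.trans hwk
    choose p q hp hq hpq hna hcp hcq using h1
    let F : Fin 4 × Bool → W' := fun u => if u.2 then p u.1 else q u.1
    have hFN : ∀ u, NI (F u) := by
      rintro ⟨i, b⟩
      cases b
      · exact hq i
      · exact hp i
    have hFc : ∀ u, cp (f (F u)) = (e u.1 : ℕ) := by
      rintro ⟨i, b⟩
      cases b
      · exact hcq i
      · exact hcp i
    have hFe : ∀ u v : Fin 4 × Bool, u.1 ≠ v.1 → cp (f (F u)) ≠ cp (f (F v)) := by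
      intro u v huv
      rw [hFc, hFc]
      exact fun h => huv (e.injective (Subtype.ext h))
    refine FDAux.indMinor_of_indSub ⟨F, ?_, ?_⟩
    · rintro ⟨i, b⟩ ⟨j, b'⟩ h
      have hij : i = j := by
        by_contra hij
        exact hFe (i, b) (j, b') hij (by rw [h])
      subst hij
      cases b <;> cases b'
      · rfl
      · exact absurd h.symm (hpq i)
      · exact absurd h (hpq i)
      · rfl
    · rintro ⟨i, b⟩ ⟨j, b'⟩
      change i ≠ j ↔ _
      constructor
      · intro hij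
        have h2 := hFe (i, b) (j, b') hij
        rw [star _ _ (hFN _) (hFN _) (fun h => h2 (by rw [h]))]
        exact fun h => h2 h.1
      · rintro h rfl
        cases b <;> cases b'
        · exact h.ne rfl
        · exact hna i h.symm
        · exact hna i h
        · exact h.ne rfl
  · left
    -- the new numbers of the components
    let g : ℕ → ℕ := fun k => (used.filter (fun l => l < k)).card
    have g0 : g 0 = 0 := by simp [g]
    have glt : ∀ k ∈ used, g k ≤ 2 := by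
      intro k hk
      have : (used.filter (fun l => l < k)).card < used.card := by
        refine Finset.card_lt_card ⟨Finset.filter_subset _ _, fun h => ?_⟩
        exact absurd (Finset.mem_filter.mp (h hk)).2 (lt_irrefl k)
      change (used.filter (fun l => l < k)).card ≤ 2
      omega
    have gmono : ∀ k ∈ used, ∀ l, k < l → g k < g l := by
      intro k hk l hkl
      refine Finset.card_lt_card ⟨?_, fun h => ?_⟩
      · intro x hx
        rw [Finset.mem_filter] at hx ⊢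
        exact ⟨hx.1, hx.2.trans hkl⟩
      · have h1 : k ∈ used.filter (fun l' => l' < l) := Finset.mem_filter.mpr ⟨hk, hkl⟩
        exact absurd (Finset.mem_filter.mp (h h1)).2 (lt_irrefl k)
    have ginj : ∀ k ∈ used, ∀ l ∈ used, g k = g l → k = l := by
      intro k hk l hl h
      rcases lt_trichotomy k l with h1 | h1 | h1
      · exact absurd h (gmono k hk l h1).ne
      · exact h1
      · exact absurd h.symm (gmono l hl k h1).ne
    have hu : ∀ w, NI w → cp (f w) ∈ used := fun w hw => (mem_used _).mpr ⟨w, hw, rfl⟩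
    have h1 : ∀ w, ∃ u : VJ 2, NI w → cp u = g (cp (f w)) ∧ ps u = ps (f w) := by
      intro w
      by_cases hw : NI w
      · obtain ⟨u, h2, h3⟩ := dec (t := 2) (g (cp (f w))) (glt _ (hu w hw)) (ps (f w))
          (fun h => by rw [ps_two h, g0])
        exact ⟨u, fun _ => ⟨h2, h3⟩⟩
      · exact ⟨Sum.inl none, fun h => absurd h hw⟩
    choose r hr using h1
    have hrinj : ∀ w w', NI w → NI w' → w ≠ w' → r w ≠ r w' := by
      intro w w' hw hw' hww h
      have e1 : g (cp (f w)) = g (cp (f w')) := by rw [← (hr w hw).1, ← (hr w' hw').1, h]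
      have e2 : ps (f w) = ps (f w') := by rw [← (hr w hw).2, ← (hr w' hw').2, h]
      exact inj w w' hw hw' hww (code_inj (ginj _ (hu w hw) _ (hu w' hw') e1) e2)
    let n := Nat.card W'
    let E : W' ≃ Fin n := Finite.equivFin W'
    let F : W' → Fin n ⊕ VJ 2 := fun w => if NI w then Sum.inr (r w) else Sum.inl (E w)
    have hF1 : ∀ w, NI w → F w = Sum.inr (r w) := fun w hw => if_pos hw
    have hF2 : ∀ w, ¬ NI w → F w = Sum.inl (E w) := fun w hw => if_neg hw
    refine ⟨n, FDAux.indMinor_of_indSub ⟨F, ?_, ?_⟩⟩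
    · intro w w' h
      by_contra hww
      by_cases hw : NI w <;> by_cases hw' : NI w'
      · rw [hF1 w hw, hF1 w' hw'] at h
        exact hrinj w w' hw hw' hww (Sum.inr_injective h)
      · rw [hF1 w hw, hF2 w' hw'] at h
        cases h
      · rw [hF2 w hw, hF1 w' hw'] at h
        cases h
      · rw [hF2 w hw, hF2 w' hw'] at h
        exact hww (E.injective (Sum.inl_injective h))
    · intro w w'
      by_cases hww : w = w'
      · subst hww
        exact ⟨fun h => absurd rfl h.ne, fun h => absurd rfl h.ne⟩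
      by_cases hw : NI w <;> by_cases hw' : NI w'
      · rw [hF1 w hw, hF1 w' hw']
        change _ ↔ (JS ![0, 1, 1] 2).Adj (r w) (r w')
        rw [adj_iff _ _ (hrinj w w' hw hw' hww), star w w' hw hw' hww, (hr w hw).1, (hr w hw).2,
          (hr w' hw').1, (hr w' hw').2]
        apply not_congr
        apply and_congr_left
        intro _
        exact ⟨fun h => by rw [h], fun h => ginj _ (hu w hw) _ (hu w' hw') h⟩
      · rw [hF1 w hw, hF2 w' hw']
        exact ⟨fun _ => trivial, fun _ => (univ w' w (Ne.symm hww) hw').symm⟩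
      · rw [hF2 w hw, hF1 w' hw']
        exact ⟨fun _ => trivial, fun _ => univ w w' hww hw⟩
      · rw [hF2 w hw, hF2 w' hw']
        exact ⟨fun _ => fun h => hww (E.injective h), fun _ => univ w w' hww hw⟩

end Pool.Agent.MPd439b2.F9
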