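import Pool.Agent.Lib.MP_d439b2_co.F9.SpecH

/-!
# MP_d439b2_co, F9/Part: definitions for the classification with the open pairs
-/

set_option autoImplicit false

namespace Pool.Agent.MPd439b2.F9

open Pool.Agent.MPd439b2

/-- the induced minors of the join of a vertex and `K4:0,1` or the fork -/
def RowB1 {W : Type} (H : SimpleGraph W) : Prop :=
  IsIndMinor H (KJ 1 (KF 4 2 ![{0}, {1}])) ∨ IsIndMinor H (KJ 1 (KF 2 3 ![{0}, {0}, {1}]))

/-- the induced minors of `K3:0,01,12` -/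
def RowB2 {W : Type} (H : SimpleGraph W) : Prop := IsIndMinor H (KF 3 3 ![{0}, {0, 1}, {1, 2}])

/-- the induced minors of `K3:0,1,02` and of the join of a vertex and `P_4 + P_1` -/
def RowB3 {W : Type} (H : SimpleGraph W) : Prop :=
  IsIndMinor H (KF 3 3 ![{0}, {1}, {0, 2}]) ∨ IsIndMinor H (KJ 1 (KF 2 3 ![∅, {0}, {1}]))

theorem rowB_iff {W : Type} (H : SimpleGraph W) : RowB H ↔ RowB1 H ∨ RowB2 H ∨ RowB3 H := by
  unfold RowB RowB1 RowB2 RowB3
  tauto

/-- The sufficient condition for the ordered pair `(H, H')` (besides planarity of one graph).  The second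
alternative: the rows of the kite `JS ![1, 1, 2] 0 = co(S_{1,1,2})`.  Third: `H` is an induced minor of the
join of a vertex and the bull, `H'` of the join of a complete graph and one of `co(S_{2,2,3} + 2 P_2)`,
`co(S_{1,2,3} + 3 P_2)`, `co(S_{1,1,2} + 4 P_2)`.  Fourth: `H` is in the rows `B` or `C`, `H'` is an induced
minor of the join of a complete graph and the house `co(P_5)`.  Fifth: `H` is an induced minor of `K_1` joined with
`K4:0,1`, of `K_1` joined with the fork or of `K3:0,01,12`, and `H'` is an induced minor of the join of a complete graph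
and `co(P_3 + 4 P_2)`. -/
def CondP {W W' : Type} (H : SimpleGraph W) (H' : SimpleGraph W') : Prop :=
  Suf H H' ∨ (InS2 H ∧ InCoT H ∧ ∃ s, IsIndMinor H' (KJ s (JS ![1, 1, 2] 0))) ∨
  (RowA H ∧ ∃ s, IsIndMinor H' (KJ s (JS ![2, 2, 3] 2)) ∨ IsIndMinor H' (KJ s (JS ![1, 2, 3] 3)) ∨
    IsIndMinor H' (KJ s (JS ![1, 1, 2] 4))) ∨
  ((RowB H ∨ RowC H) ∧ ∃ s, IsIndMinor H' (KJ s (JS ![0, 2, 2] 0))) ∨
  ((RowB1 H ∨ RowB2 H) ∧ ∃ s, IsIndMinor H' (KJ s (JS ![0, 1, 1] 4)))

/-- The remaining pairs: `H` is an induced minor of the join of a vertex and `P_4 + P_1`, and `H'` is an induced minor of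
the join of a complete graph and `co(P_3 + 4 P_2)`; or `H` is an induced minor of `K3:0,1,02` and `H'` is an induced minor
of the join of a complete graph and `co(P_3 + 2 P_2)`. -/
def OpenPair {W W' : Type} (H : SimpleGraph W) (H' : SimpleGraph W') : Prop :=
  (IsIndMinor H (KJ 1 (KF 2 3 ![∅, {0}, {1}])) ∧ ∃ s, IsIndMinor H' (KJ s (JS ![0, 1, 1] 4))) ∨
  (IsIndMinor H (KF 3 3 ![{0}, {1}, {0, 2}]) ∧ ∃ s, IsIndMinor H' (KJ s (JS ![0, 1, 1] 2)))

end Pool.Agent.MPd439b2.F9
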