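import Pool.Agent.Lib.MP_d439b2_co.F9.Final
import Pool.Agent.Lib.MP_d439b2_co.FK.Final
import Pool.Agent.Lib.MP_d439b2_co.F9.Part

/-!
# MP_d439b2_co, F9/RowB: row `B`, member by member

`rb1`, `rb2`, `rb3`: the members of `RowB`, each part from ONE base pair: `RowB1` from `K4:0,1`, `RowB2` from
`K3:0,01,12`, `RowB3` from `K3:0,1,02`.
-/

set_option autoImplicit false

namespace Pool.Agent.MPd439b2.F9

open Pool.Agent.MPd439b2 i7Aux

theorem subK22 : IsIndSub (KA 2 2 ![∅, ∅]) (KF 4 2 ![{0}, {1}]) := by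
  refine ⟨fun u => Sum.elim (fun i => Sum.inl (![2, 3] i)) Sum.inr u, by decide, ?_⟩
  have e : KA 2 2 ![∅, ∅] = KF 2 2 ![∅, ∅] := by
    unfold KF
    congr 1
    funext q
    fin_cases q <;> simp
  rw [e]
  intro u v
  rw [kfb_iff, kfb_iff]
  revert u v
  decide

theorem forkKF : KA 2 3 ![{0}, {0}, {1}] = KF 2 3 ![{0}, {0}, {1}] := by
  unfold KF
  congr 1
  funext q
  fin_cases q <;> simp

/-- from `K4:0,1` to the fork -/
theorem fork_of_b1 {W₂ : Type} {J : SimpleGraph W₂} (b1 : BoundedCW (KF 4 2 ![{0}, {1}]) J) :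
    BoundedCW (KF 2 3 ![{0}, {0}, {1}]) J := by
  rw [← forkKF]
  exact FK.forkF _ J (bcw_left subK22 b1)

/-- the members of row `B` above `K4:0,1` -/
theorem rb1 (ℓ : Fin 3 → ℕ) (t s : ℕ) (W W' : Type) (H : SimpleGraph W) (H' : SimpleGraph W')
    (b1 : BoundedCW (KF 4 2 ![{0}, {1}]) (JS ℓ t)) (hH : RowB1 H)
    (hH' : IsIndMinor H' (KJ s (JS ℓ t))) (hg : InGrid H ∨ InGrid H') : BoundedCW H H' := by
  obtain ⟨-, d2, d3, d4, d5, d6, -⟩ := i1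
  rcases hH with h | h
  · exact i5F 1 s W W' _ H H' (KF 4 2 ![{0}, {1}]) ℓ t d2 b1 h hH' hg
  · exact i5F 1 s W W' _ H H' (KF 2 3 ![{0}, {0}, {1}]) ℓ t d3 (fork_of_b1 b1) h hH' hg

/-- the members of row `B` above `K3:0,01,12` -/
theorem rb2 (ℓ : Fin 3 → ℕ) (t s : ℕ) (W W' : Type) (H : SimpleGraph W) (H' : SimpleGraph W')
    (b2 : BoundedCW (KF 3 3 ![{0}, {0, 1}, {1, 2}]) (JS ℓ t)) (hH : RowB2 H)
    (hH' : IsIndMinor H' (KJ s (JS ℓ t))) (hg : InGrid H ∨ InGrid H') : BoundedCW H H' := by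
  obtain ⟨-, d2, d3, d4, d5, d6, -⟩ := i1
  exact i5F 0 s W W' _ H H' (KF 3 3 ![{0}, {0, 1}, {1, 2}]) ℓ t (dt_kj0 d5) b2
    (FDAux.indMinor_trans hH (FDAux.indMinor_of_indSub (sub_kj0 _))) hH' hg

/-- the members of row `B` above `K3:0,1,02` -/
theorem rb3 (ℓ : Fin 3 → ℕ) (t s : ℕ) (W W' : Type) (H : SimpleGraph W) (H' : SimpleGraph W')
    (b3 : BoundedCW (KF 3 3 ![{0}, {1}, {0, 2}]) (JS ℓ t)) (hH : RowB3 H)
    (hH' : IsIndMinor H' (KJ s (JS ℓ t))) (hg : InGrid H ∨ InGrid H') : BoundedCW H H' := by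
  obtain ⟨-, d2, d3, d4, d5, d6, -⟩ := i1
  rcases hH with h | h
  · exact i5F 0 s W W' _ H H' (KF 3 3 ![{0}, {1}, {0, 2}]) ℓ t (dt_kj0 d6) b3
      (FDAux.indMinor_trans h (FDAux.indMinor_of_indSub (sub_kj0 _))) hH' hg
  · exact i5F 1 s W W' _ H H' (KF 2 3 ![∅, {0}, {1}]) ℓ t d4 (bcw_left sub5 b3) h hH' hg

end Pool.Agent.MPd439b2.F9
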