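import Pool.Agent.Lib.MP_d439b2_co.F9.PartE
import Pool.Agent.Lib.MP_d439b2_co.F9.N10
import Pool.Agent.Lib.MP_d439b2_co.F9.N11
import Pool.Agent.Lib.MP_d439b2_co.X3.H3B.Pair
import Pool.Agent.Lib.MP_d439b2_co.P41N.Pair

/-!
# MP_d439b2_co, F9/Cls: the classification of all pairs, from the last pair
-/

set_option autoImplicit false

namespace Pool.Agent.MPd439b2.F9

open Pool.Agent.MPd439b2

/-- The condition for the ordered pair `(H, H')` (besides planarity of one graph): `CondE H H'`, or `H` is an induced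
minor of `K3:0,1,02` (a triangle `0 1 2` with three more vertices, with the neighbourhoods `{0}`, `{1}`, `{0, 2}`) and `H'` is
an induced minor of the join of a complete graph and `co(P_3 + 2 P_2)`. -/
def CondF {W W' : Type} (H : SimpleGraph W) (H' : SimpleGraph W') : Prop :=
  CondE H H' ∨ (IsIndMinor H (KF 3 3 ![{0}, {1}, {0, 2}]) ∧ ∃ s, IsIndMinor H' (KJ s (JS ![0, 1, 1] 2)))

theorem condF_iff {W W' : Type} (H : SimpleGraph W) (H' : SimpleGraph W') :
    CondF H H' ↔ Suf H H' ∨ BaseN H H' := by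
  unfold CondF CondE BaseN
  simp only [or_assoc]

/-- **The classification**, from the last pair. -/
theorem cls (b3 : BoundedCW (KF 3 3 ![{0}, {1}, {0, 2}]) (JS ![0, 1, 1] 2))
    (W₁ W₂ : Type) [Finite W₁] [Finite W₂] (H₁ : SimpleGraph W₁) (H₂ : SimpleGraph W₂) :
    BoundedCW H₁ H₂ ↔ Kn H₁ ∨ Kn H₂ ∨ ((InGrid H₁ ∨ InGrid H₂) ∧
      (CondF H₁ H₂ ∨ CondF H₂ H₁)) := by
  rw [newF n10 n11 ub44 X3.H3B.pairH1 P41N.pair41 b3 W₁ W₂ H₁ H₂, condF_iff, condF_iff, or_assoc (a := Suf H₁ H₂)]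
  generalize Suf H₁ H₂ = a
  generalize Suf H₂ H₁ = b
  generalize BaseN H₁ H₂ = c
  generalize BaseN H₂ H₁ = d
  tauto

end Pool.Agent.MPd439b2.F9
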