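import Pool.Agent.Lib.MP_d439b2_co.F9.Cls
import Pool.Agent.Lib.MP_d439b2_co.BP.Asm
import Pool.Agent.Lib.MP_d439b2_co.BT.SEnd

/-!
# MP_d439b2_co, F9/ClsN: the classification of all pairs, from the removal of `n K_2`
-/

set_option autoImplicit false

namespace Pool.Agent.MPd439b2.F9

open Pool.Agent.MPd439b2 Pool.Agent.MPd439b2.Rep Pool.Agent.MPd439b2.BP Pool.Agent.MPd439b2.A0

/-- **The classification**, from the removal of the large induced matchings for `K3:0,1,02` and `co(P_3 + 2 P_2)`. -/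
theorem clsN (hN : BLT K302 (JP 2) {(false, false, false), (true, false, false)} →
      BLT K302 (JP 2) {(true, false, false)})
    (W₁ W₂ : Type) [Finite W₁] [Finite W₂] (H₁ : SimpleGraph W₁) (H₂ : SimpleGraph W₂) :
    BoundedCW H₁ H₂ ↔ Kn H₁ ∨ Kn H₂ ∨ ((InGrid H₁ ∨ InGrid H₂) ∧
      (CondF H₁ H₂ ∨ CondF H₂ H₁)) :=
  cls (pair3 BT.sEnd hN) W₁ W₂ H₁ H₂

end Pool.Agent.MPd439b2.F9
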