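import Pool.Agent.Lib.MP_d439b2_co.F9.Full
import Pool.Agent.Lib.MP_d439b2_co.F9.BaseR

/-!
# MP_d439b2_co, F9/FullX: Step A' for `F2`, `F3`, and the full classification from the column `co(P_3 + 4 P_2)`
-/

set_option autoImplicit false

namespace Pool.Agent.MPd439b2.F9

open Pool.Agent.MPd439b2 Pool.Agent.MPd439b2.Rep Pool.Agent.MPd439b2.W

/-- Step A' for `F2`, every `s` -/
theorem stepA2 (s : ℕ) : StepA s F2 := fun m₀ β => by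
  obtain ⟨c₀, n₀, h⟩ := OP.r2 SA.okNO OP.pNOc OP.pLc OP.pHer OP.okOpp OP.goodF2 s m₀ β
  exact ⟨c₀, n₀, fun V _ D h1 h2 h3 h4 => h V D h1 h2 h3 h4⟩

/-- Step A' for `F3`, every `s` -/
theorem stepA3 (s : ℕ) : StepA s F3 := fun m₀ β => by
  obtain ⟨c₀, n₀, h⟩ := OP.r2 SA.okNO OP.pNOc OP.pLc OP.pHer OP.okOpp OP.goodF3 s m₀ β
  exact ⟨c₀, n₀, fun V _ D h1 h2 h3 h4 => h V D h1 h2 h3 h4⟩

/-- **The full classification** from the column `co(P_3 + 4 P_2)` alone -/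
theorem fullX (hX : BpB (JS ![0, 1, 1] 4)) (W₁ W₂ : Type)
    [Finite W₁] [Finite W₂] (H₁ : SimpleGraph W₁) (H₂ : SimpleGraph W₂) :
    BoundedCW H₁ H₂ ↔ Kn H₁ ∨ Kn H₂ ∨ ((InGrid H₁ ∨ InGrid H₂) ∧
      (Suf H₁ H₂ ∨ Suf H₂ H₁ ∨ Base H₁ H₂ ∨ Base H₂ H₁)) :=
  fullF ha hb hX hc W₁ W₂ H₁ H₂

end Pool.Agent.MPd439b2.F9
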