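import Pool.Agent.Lib.MP_d439b2_co.F9.SpecH
import Pool.Agent.Lib.MP_d439b2_co.Size8

/-!
# MP_d439b2_co, F9: H5, the graphs of the rows B, C are not in `InCoT` (helper18)
-/

set_option autoImplicit false

namespace Pool.Agent.MPd439b2.F9

open Pool.Agent.MPd439b2

namespace H5Aux

/-- four different vertices cannot all be among three -/
theorem four {T : Type} {a b c d x y z : T} (hab : a ≠ b) (hac : a ≠ c) (had : a ≠ d) (hbc : b ≠ c)
    (hbd : b ≠ d) (hcd : c ≠ d) (ha : a = x ∨ a = y ∨ a = z) (hb : b = x ∨ b = y ∨ b = z)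
    (hc : c = x ∨ c = y ∨ c = z) (hd : d = x ∨ d = y ∨ d = z) : False := by
  rcases ha with h1 | h1 | h1 <;> rcases hb with h2 | h2 | h2 <;> rcases hc with h3 | h3 | h3 <;>
    rcases hd with h4 | h4 | h4 <;> first
      | exact hab (h1.trans h2.symm)
      | exact hac (h1.trans h3.symm)
      | exact had (h1.trans h4.symm)
      | exact hbc (h2.trans h3.symm)
      | exact hbd (h2.trans h4.symm)
      | exact hcd (h3.trans h4.symm)

/-- two adjacent vertices of a net do not have two different common neighbours -/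
theorem no_diamond {ι : Type} {x y z w : ι × Fin 3 × ℕ} (hxy : (nets ι).Adj x y)
    (hxz : (nets ι).Adj x z) (hyz : (nets ι).Adj y z) (hxw : (nets ι).Adj x w)
    (hyw : (nets ι).Adj y w) : z = w := by
  have h1 := Size8_nadj hxy
  have h2 := Size8_nadj hxz
  have h3 := Size8_nadj hyz
  have h4 := Size8_nadj hxw
  have h5 := Size8_nadj hyw
  have l1 := x.2.1.isLt
  have l2 := y.2.1.isLt
  have l3 := z.2.1.isLt
  have l4 := w.2.1.isLt
  have hc : z.1 = w.1 := hxz.2.1.symm.trans hxw.2.1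
  have hk : z.2.2 = w.2.2 := by omega
  have hi : z.2.1.val = w.2.1.val := by omega
  exact Prod.ext hc (Prod.ext (Fin.ext hi) hk)

/-- the vertices of a model -/
theorem exists_points {T W : Type} {J : SimpleGraph T} {H : SimpleGraph W} (h : IsIndMinor J H) :
    ∃ p : T → W, ∀ u v, u ≠ v → p u ≠ p v ∧ (¬ J.Adj u v → Hᶜ.Adj (p u) (p v)) := by
  obtain ⟨B, hB, hdis, hadj⟩ := h
  have hne : ∀ w, (B w).Nonempty := fun w => by
    obtain ⟨⟨x, hx⟩⟩ := (hB w).nonempty
    exact ⟨x, hx⟩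
  choose p hp using hne
  refine ⟨p, fun u v huv => ?_⟩
  have h1 : p u ≠ p v := fun h => Set.disjoint_left.1 (hdis u v huv) (hp u) (h ▸ hp v)
  exact ⟨h1, fun h => ⟨h1, fun h' => h ((hadj u v huv).2 ⟨_, hp u, _, hp v, h'⟩)⟩⟩

end H5Aux

/-- **H5.** The graphs of the rows `B`, `C` are not in `InCoT`. -/
theorem h5 : S_H5 := by
  intro W H hT
  obtain ⟨ι, f, hf, hadj, -⟩ := hT
  constructor
  · intro hM
    obtain ⟨p, hp⟩ := H5Aux.exists_points hM
    have key : ∀ u v, u ≠ v → ¬ (KA 2 2 ![∅, ∅]).Adj u v → (nets ι).Adj (f (p u)) (f (p v)) :=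
      fun u v huv h => hadj _ _ ((hp u v huv).2 h)
    have hrl : ∀ q i, ¬ (KA 2 2 ![∅, ∅]).Adj (Sum.inr q) (Sum.inl i) := by
      intro q i h
      have h' : i ∈ (![∅, ∅] : Fin 2 → Set (Fin 2)) q := h
      fin_cases q <;> exact absurd h' (by simp)
    have h1 := key (Sum.inr 0) (Sum.inr 1) (by simp) (fun h => h)
    have h2 := key (Sum.inr 0) (Sum.inl 0) (by simp) (hrl _ _)
    have h3 := key (Sum.inr 1) (Sum.inl 0) (by simp) (hrl _ _)
    have h4 := key (Sum.inr 0) (Sum.inl 1) (by simp) (hrl _ _)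
    have h5 := key (Sum.inr 1) (Sum.inl 1) (by simp) (hrl _ _)
    exact (hp (Sum.inl 0) (Sum.inl 1) (by simp)).1 (hf (H5Aux.no_diamond h1 h2 h3 h4 h5))
  · intro hM
    obtain ⟨p, hp⟩ := H5Aux.exists_points hM
    have key : ∀ u v, u ≠ v → ¬ (KA 3 2 ![∅, {0, 1}]).Adj u v → (nets ι).Adj (f (p u)) (f (p v)) :=
      fun u v huv h => hadj _ _ ((hp u v huv).2 h)
    have hne : ∀ u v, u ≠ v → f (p u) ≠ f (p v) := fun u v huv h => (hp u v huv).1 (hf h)
    have hrl : ∀ i, ¬ (KA 3 2 ![∅, {0, 1}]).Adj (Sum.inr 0) (Sum.inl i) := by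
      intro i h
      have h' : i ∈ (![∅, {0, 1}] : Fin 2 → Set (Fin 3)) 0 := h
      exact absurd h' (by simp)
    have h1 := key (Sum.inr 0) (Sum.inr 1) (by simp) (fun h => h)
    have h2 := key (Sum.inr 0) (Sum.inl 0) (by simp) (hrl _)
    have h3 := key (Sum.inr 0) (Sum.inl 1) (by simp) (hrl _)
    have h4 := key (Sum.inr 0) (Sum.inl 2) (by simp) (hrl _)
    obtain ⟨x, y, z, h⟩ := Size8_ndeg ι (f (p (Sum.inr 0)))
    exact H5Aux.four (hne _ _ (by simp)) (hne _ _ (by simp)) (hne _ _ (by simp))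
      (hne _ _ (by simp)) (hne _ _ (by simp)) (hne _ _ (by simp)) (h _ h1) (h _ h2) (h _ h3) (h _ h4)

end Pool.Agent.MPd439b2.F9
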