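import Pool.Agent.Lib.MP_d439b2_co.F9.SpecN

/-!
# MP_d439b2_co, N4b: matchings and paths in spiders
-/

set_option autoImplicit false

namespace Pool.Agent.MPd439b2.F9

open Pool.Agent.MPd439b2

namespace n4bAux

/-- adjacency is decidable -/
def decSpid (ℓ : Fin 3 → ℕ) : DecidableRel (Spid ℓ).Adj := fun u v =>
  match u, v with
  | none, none => isFalse id
  | none, some v => inferInstanceAs (Decidable (v.2.val = 0))
  | some u, none => inferInstanceAs (Decidable (u.2.val = 0))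
  | some u, some v =>
    inferInstanceAs (Decidable (u.1 = v.1 ∧ (u.2.val + 1 = v.2.val ∨ v.2.val + 1 = u.2.val)))

/-- adjacency is decidable -/
def decM (t : ℕ) : DecidableRel (Mtc t).Adj := fun u v =>
  inferInstanceAs (Decidable (u.1 = v.1 ∧ u.2 ≠ v.2))

/-- adjacency is decidable -/
def dec6 : DecidableRel coP6ᶜ.Adj := fun i j =>
  inferInstanceAs (Decidable (i ≠ j ∧ ¬ (i ≠ j ∧ ¬ (i.val + 1 = j.val ∨ j.val + 1 = i.val))))

/-- adjacency is decidable -/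
def dec5 : DecidableRel coP3P2ᶜ.Adj := fun i j =>
  inferInstanceAs (Decidable (i ≠ j ∧ ¬ (i ≠ j ∧ ¬ ((i.val + 1 = j.val ∧ i.val ≠ 2) ∨
    (j.val + 1 = i.val ∧ j.val ≠ 2)))))

attribute [local instance] decSpid decM dec6 dec5

/-- two edges from four vertices -/
def mk2 {P : Type} (a b c d : P) : Fin 2 × Bool → P := fun z =>
  if z.1 = 0 then (if z.2 = true then b else a) else (if z.2 = true then d else c)

theorem sub_of {W V : Type} {H : SimpleGraph W} {G : SimpleGraph V} (f : W → V)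
    (h1 : ∀ u v, f u = f v → u = v) (h2 : ∀ u v, H.Adj u v ↔ G.Adj (f u) (f v)) :
    IsIndSub H G := ⟨f, fun u v h => h1 u v h, h2⟩

end n4bAux

open n4bAux

attribute [local instance] n4bAux.decSpid n4bAux.decM n4bAux.dec6 n4bAux.dec5

theorem n4b : S_N4b := by
  have h022 : IsIndSub (Mtc 2) (Spid ![0, 2, 2]) :=
    sub_of (mk2 (some ⟨1, ⟨1, by decide⟩⟩) (some ⟨1, ⟨0, by decide⟩⟩)
      (some ⟨2, ⟨1, by decide⟩⟩) (some ⟨2, ⟨0, by decide⟩⟩)) (by decide) (by decide)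
  refine ⟨?_, h022, ?_, ?_, ?_, ?_, ?_, h022⟩
  · exact sub_of (fun z => if z.2 = true then some ⟨2, ⟨0, by decide⟩⟩ else none) (by decide)
      (by decide)
  · exact sub_of (mk2 none (some ⟨0, ⟨0, by decide⟩⟩) (some ⟨2, ⟨1, by decide⟩⟩)
      (some ⟨2, ⟨2, by decide⟩⟩)) (by decide) (by decide)
  · exact sub_of (mk2 (some ⟨1, ⟨0, by decide⟩⟩) (some ⟨1, ⟨1, by decide⟩⟩)
      (some ⟨2, ⟨0, by decide⟩⟩) (some ⟨2, ⟨1, by decide⟩⟩)) (by decide) (by decide)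
  · exact sub_of (fun z => if z.2 = true then
      (![some ⟨0, ⟨0, by decide⟩⟩, some ⟨1, ⟨0, by decide⟩⟩, some ⟨2, ⟨0, by decide⟩⟩] :
        Fin 3 → Option (Σ i : Fin 3, Fin ((![2, 2, 2] : Fin 3 → ℕ) i))) z.1 else
      (![some ⟨0, ⟨1, by decide⟩⟩, some ⟨1, ⟨1, by decide⟩⟩, some ⟨2, ⟨1, by decide⟩⟩] :
        Fin 3 → Option (Σ i : Fin 3, Fin ((![2, 2, 2] : Fin 3 → ℕ) i))) z.1) (by decide)
      (by decide)
  · exact sub_of (![some ⟨1, ⟨1, by decide⟩⟩, some ⟨1, ⟨0, by decide⟩⟩, none,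
      some ⟨2, ⟨0, by decide⟩⟩, some ⟨2, ⟨1, by decide⟩⟩, some ⟨2, ⟨2, by decide⟩⟩] :
        Fin 6 → Option (Σ i : Fin 3, Fin ((![0, 2, 3] : Fin 3 → ℕ) i))) (by decide) (by decide)
  · exact sub_of (![some ⟨1, ⟨1, by decide⟩⟩, some ⟨1, ⟨0, by decide⟩⟩, none,
      some ⟨2, ⟨1, by decide⟩⟩, some ⟨2, ⟨2, by decide⟩⟩] :
        Fin 5 → Option (Σ i : Fin 3, Fin ((![0, 2, 3] : Fin 3 → ℕ) i))) (by decide) (by decide)

end Pool.Agent.MPd439b2.F9
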