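import Pool.Agent.Lib.MP_d439b2_co.CR.Final
import Pool.Agent.Lib.MP_d439b2_co.NK.Final
import Pool.Agent.Lib.MP_d439b2_co.ON.Final
import Pool.Agent.Lib.MP_d439b2_co.F9.BaseP
import Pool.Agent.Lib.MP_d439b2_co.Rep.RowX4

/-!
# MP_d439b2_co, F9/X0: the pair of `K_4` with two pendant vertices and `co(P_3 + 4 P_2)` (helper10)

Theorem C' (`CR.bltF`, no long thick spiders are necessary), no large induced matchings in linked graphs
(`NK.killN4`), and the removal of the induced matchings of the complement (Theorem O, `ON.oRed`).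
-/

set_option autoImplicit false

namespace Pool.Agent.MPd439b2.F9

open Pool.Agent.MPd439b2 Pool.Agent.MPd439b2.Rep Pool.Agent.MPd439b2.W

/-- **The pair `(K4:0,1, co(P_3 + 4 P_2))`** -/
theorem x0F : BoundedCW (KF 4 2 ![{0}, {1}]) (JS ![0, 1, 1] 4) := by
  have h2 : BLT (KF 4 2 ![{0}, {1}]) J4 {(true, true, true)} :=
    blt_kill (T := {(true, true, true)}) NK.killN4 CR.bltF
  obtain ⟨k, hk⟩ := ON.oRed 4 (by omega) fun n => by
    obtain ⟨k, hk⟩ := h2 n
    refine ⟨k, fun V _ G hF hI => hk V G ⟨fun h => hF.1 ?_, hF.2⟩ ?_⟩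
    · have h' : IMS (KA 4 2 ![{0}, {1}]) G Set.univ := by
        rw [← kf1]
        exact h
      exact h'
    · rintro τ rfl
      exact fun a b hab => hI a b hab.im
  refine bcw_of_bl ⟨k, fun V _ G h1 h2 => hk V G ⟨fun h => h1 ?_, h2⟩⟩
  rw [kf1]
  exact h

end Pool.Agent.MPd439b2.F9
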