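import Pool.Agent.Lib.MP_d439b2_co.F9.SpecX
import Pool.Agent.Lib.MP_d439b2_co.F9.RowB
import Pool.Agent.Lib.MP_d439b2_co.F9.BaseR
import Pool.Agent.Lib.MP_d439b2_co.F9.X0

/-!
# MP_d439b2_co, F9/New: the full classification, from the last base pairs

`newNec`: the necessary condition, from the unboundedness of `(K3:0,1,02, co(4 P_2))`.
`newF`: the classification.
-/

set_option autoImplicit false

namespace Pool.Agent.MPd439b2.F9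

open Pool.Agent.MPd439b2 i7Aux

/-- The pairs below the base pairs: the rows of the kite; `K_1` joined with the bull against `co(S_{2,2,3} + 2 P_2)`,
`co(S_{1,2,3} + 3 P_2)`, `co(S_{1,1,2} + 4 P_2)`; row `B` against the house; `RowE` against `co(P_3 + 4 P_2)`; `K3:0,1,02`
against `co(P_3 + 2 P_2)`; `K4:0,12` against the house (`H'` joined with complete graphs). -/
def BaseN {W W' : Type} (H : SimpleGraph W) (H' : SimpleGraph W') : Prop :=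
  (InS2 H ∧ InCoT H ∧ ∃ s, IsIndMinor H' (KJ s (JS ![1, 1, 2] 0))) ∨
  (RowA H ∧ ∃ s, IsIndMinor H' (KJ s (JS ![2, 2, 3] 2)) ∨ IsIndMinor H' (KJ s (JS ![1, 2, 3] 3)) ∨
    IsIndMinor H' (KJ s (JS ![1, 1, 2] 4))) ∨
  ((RowB H ∨ RowC H) ∧ ∃ s, IsIndMinor H' (KJ s (JS ![0, 2, 2] 0))) ∨
  (RowE H ∧ ∃ s, IsIndMinor H' (KJ s (JS ![0, 1, 1] 4))) ∨
  (IsIndMinor H (KF 3 3 ![{0}, {1}, {0, 2}]) ∧ ∃ s, IsIndMinor H' (KJ s (JS ![0, 1, 1] 2)))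

/-- the necessary condition -/
theorem newNec (hN10 : S_N10) (hN11 : S_N11) (ub : ¬ BoundedCW (KF 3 3 ![{0}, {1}, {0, 2}]) J44)
    (W W' : Type) [Finite W'] (H : SimpleGraph W) (H' : SimpleGraph W') (hb : BoundedCW H H')
    (h : Base H H') : BaseN H H' := by
  rcases h with h | h | ⟨hR, s, h | h⟩ | ⟨hR, s, h⟩
  · exact Or.inl h
  · exact Or.inr (Or.inl h)
  · exact Or.inr (Or.inr (Or.inl ⟨Or.inl hR, s, h⟩))
  · have key : RowE H ∨ IsIndMinor H (KF 3 3 ![{0}, {1}, {0, 2}]) := by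
      unfold RowB at hR
      unfold RowE
      tauto
    rcases key with hE | hD
    · exact Or.inr (Or.inr (Or.inr (Or.inl ⟨hE, s, h⟩)))
    · rcases hN10 W H hD with hE | hD'
      · exact Or.inr (Or.inr (Or.inr (Or.inl ⟨hE, s, h⟩)))
      · rcases hN11 W' H' s h with h2 | h4
        · exact Or.inr (Or.inr (Or.inr (Or.inr ⟨hD, h2⟩)))
        · exact absurd (fD.2 _ _ _ _ _ _ _ _ hD' h4 hb) ub
  · exact Or.inr (Or.inr (Or.inl ⟨Or.inr hR, s, h⟩))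

/-- the sufficient condition -/
theorem newSuf (b2 : BoundedCW (KF 3 3 ![{0}, {0, 1}, {1, 2}]) (JS ![0, 1, 1] 4))
    (b5 : BoundedCW (KF 2 3 ![∅, {0}, {1}]) (JS ![0, 1, 1] 4))
    (b3 : BoundedCW (KF 3 3 ![{0}, {1}, {0, 2}]) (JS ![0, 1, 1] 2))
    (W W' : Type) [Finite W] (H : SimpleGraph W) (H' : SimpleGraph W') (h : BaseN H H')
    (hg : InGrid H ∨ InGrid H') : BoundedCW H H' := by
  obtain ⟨-, d2, d3, d4, d5, d6, -⟩ := i1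
  rcases h with h | ⟨h, s, h' | h' | h'⟩ | ⟨h | h, s, h'⟩ | ⟨h | h | h | h, s, h'⟩ | ⟨h, s, h'⟩
  · exact kiteF W W' H H' h hg
  · exact i6F _ _ s W W' H H' ha1 h h' hg
  · exact i6F _ _ s W W' H H' ha2 h h' hg
  · exact i6F _ _ s W W' H H' ha3 h h' hg
  · exact i7F _ _ s W W' H H' F9.hb h h' hg
  · exact i8F _ _ s W W' H H' hc h h' hg
  · exact rb1 _ _ s W W' H H' x0F (Or.inl h) h' hg
  · exact rb2 _ _ s W W' H H' b2 h h' hg
  · exact rb1 _ _ s W W' H H' x0F (Or.inr h) h' hg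
  · exact i5F 1 s W W' _ H H' (KF 2 3 ![∅, {0}, {1}]) _ _ d4 b5 h h' hg
  · exact i5F 0 s W W' _ H H' (KF 3 3 ![{0}, {1}, {0, 2}]) _ _ (dt_kj0 d6) b3
      (FDAux.indMinor_trans h (FDAux.indMinor_of_indSub (sub_kj0 _))) h' hg

/-- **The classification**, from the last base pairs. -/
theorem newF (hN10 : S_N10) (hN11 : S_N11) (ub : ¬ BoundedCW (KF 3 3 ![{0}, {1}, {0, 2}]) J44)
    (b2 : BoundedCW (KF 3 3 ![{0}, {0, 1}, {1, 2}]) (JS ![0, 1, 1] 4))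
    (b5 : BoundedCW (KF 2 3 ![∅, {0}, {1}]) (JS ![0, 1, 1] 4))
    (b3 : BoundedCW (KF 3 3 ![{0}, {1}, {0, 2}]) (JS ![0, 1, 1] 2))
    (W₁ W₂ : Type) [Finite W₁] [Finite W₂] (H₁ : SimpleGraph W₁) (H₂ : SimpleGraph W₂) :
    BoundedCW H₁ H₂ ↔ Kn H₁ ∨ Kn H₂ ∨ ((InGrid H₁ ∨ InGrid H₂) ∧
      (Suf H₁ H₂ ∨ Suf H₂ H₁ ∨ BaseN H₁ H₂ ∨ BaseN H₂ H₁)) := by
  constructor
  · intro hb
    obtain ⟨hG, h⟩ := necF W₁ W₂ H₁ H₂ hb
    rcases h with h | h | h | h | h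
    · rcases h.2 with h | h
      · exact Or.inr (Or.inr ⟨hG, Or.inl h⟩)
      · exact Or.inr (Or.inr ⟨hG, Or.inr (Or.inl h)⟩)
    · exact Or.inl h
    · exact Or.inr (Or.inl h)
    · exact Or.inr (Or.inr ⟨hG, Or.inr (Or.inr (Or.inl (newNec hN10 hN11 ub _ _ _ _ hb h)))⟩)
    · exact Or.inr (Or.inr ⟨hG, Or.inr (Or.inr (Or.inr (newNec hN10 hN11 ub _ _ _ _
        (Fin2Aux.boundedCW_symm hb) h)))⟩)
  · rintro (h | h | ⟨hG, h | h | h | h⟩)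
    · exact knF W₁ W₂ H₁ H₂ h
    · exact Fin2Aux.boundedCW_symm (knF W₂ W₁ H₂ H₁ h)
    · exact goodF W₁ W₂ H₁ H₂ ⟨hG, Or.inl h⟩
    · exact goodF W₁ W₂ H₁ H₂ ⟨hG, Or.inr h⟩
    · exact newSuf b2 b5 b3 W₁ W₂ H₁ H₂ h hG
    · exact Fin2Aux.boundedCW_symm (newSuf b2 b5 b3 W₂ W₁ H₂ H₁ h hG.symm)

end Pool.Agent.MPd439b2.F9
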