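import Pool.Agent.Lib.MP_d439b2_co.F9.SpecX
import Pool.Agent.Lib.MP_d439b2_co.UB.Final

/-!
# MP_d439b2_co, F9/Ub44: the pair (`K3:0,1,02`, `co(4 P_2)`) is unbounded, for the form `J44` of `co(4 P_2)`
-/

set_option autoImplicit false

namespace Pool.Agent.MPd439b2.F9

open Pool.Agent.MPd439b2

/-- the embedding of `JS ![0, 0, 1] 3` into `J44` -/
def mapU : Option (Σ i : Fin 3, Fin (![0, 0, 1] i)) ⊕ (Fin 3 × Bool) → Fin 4 × Bool
  | Sum.inl none => (0, false)
  | Sum.inl (some _) => (0, true)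
  | Sum.inr u => (u.1.succ, u.2)

theorem legU (v : Σ i : Fin 3, Fin (![0, 0, 1] i)) : v = ⟨2, ⟨0, Nat.one_pos⟩⟩ := by
  obtain ⟨i, k⟩ := v
  fin_cases i
  · exact k.elim0
  · exact k.elim0
  · have : k = ⟨0, Nat.one_pos⟩ := Fin.ext (Nat.lt_one_iff.mp k.isLt)
    rw [this]
    rfl

theorem js44 : IsIndSub (JS ![0, 0, 1] 3) J44 := by
  refine ⟨mapU, ?_, ?_⟩
  · rintro ((_ | u) | ⟨q, b⟩) ((_ | v) | ⟨q', b'⟩) h
    · rfl
    · exact absurd (congrArg Prod.snd h) (by change false ≠ true; decide)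
    · exact absurd (congrArg Prod.fst h) (Fin.succ_ne_zero q').symm
    · exact absurd (congrArg Prod.snd h) (by change true ≠ false; decide)
    · rw [legU u, legU v]
    · exact absurd (congrArg Prod.fst h) (Fin.succ_ne_zero q').symm
    · exact absurd (congrArg Prod.fst h) (Fin.succ_ne_zero q)
    · exact absurd (congrArg Prod.fst h) (Fin.succ_ne_zero q)
    · have h1 : q = q' := Fin.succ_injective _ (congrArg Prod.fst h)
      have h2 : b = b' := congrArg Prod.snd h
      rw [h1, h2]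
  · rintro ((_ | u) | ⟨q, b⟩) ((_ | v) | ⟨q', b'⟩)
    · exact ⟨fun h => absurd rfl h.1, fun h => absurd rfl h⟩
    · rw [legU v]
      exact ⟨fun h => absurd rfl h.2, fun h => absurd rfl h⟩
    · exact ⟨fun _ => (Fin.succ_ne_zero q').symm, fun _ => trivial⟩
    · rw [legU u]
      exact ⟨fun h => absurd rfl h.2, fun h => absurd rfl h⟩
    · rw [legU u, legU v]
      exact ⟨fun h => absurd rfl h.1, fun h => absurd rfl h⟩
    · exact ⟨fun _ => (Fin.succ_ne_zero q').symm, fun _ => trivial⟩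
    · exact ⟨fun _ => Fin.succ_ne_zero q, fun _ => trivial⟩
    · exact ⟨fun _ => Fin.succ_ne_zero q, fun _ => trivial⟩
    · change q ≠ q' ↔ q.succ ≠ q'.succ
      exact not_congr Fin.succ_inj.symm

/-- the pair (`K3:0,1,02`, `J44`) has unbounded clique-width -/
theorem ub44 : ¬ BoundedCW (KF 3 3 ![{0}, {1}, {0, 2}]) J44 :=
  UB.ubG (FDAux.indMinor_of_indSub ⟨id, Function.injective_id, fun _ _ => Iff.rfl⟩)
    (FDAux.indMinor_of_indSub js44)

end Pool.Agent.MPd439b2.F9
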