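import Pool.Agent.Lib.MP_d439b2_co.F9.New
import Pool.Agent.Lib.MP_d439b2_co.F9.Ub44

/-!
# MP_d439b2_co, F9/NewPart: the classification with the two open pairs
-/

set_option autoImplicit false

namespace Pool.Agent.MPd439b2.F9

open Pool.Agent.MPd439b2 i7Aux

theorem newPart (hN10 : S_N10) (hN11 : S_N11)
    (b2 : BoundedCW (KF 3 3 ![{0}, {0, 1}, {1, 2}]) (JS ![0, 1, 1] 4))
    (W₁ W₂ : Type) [Finite W₁] [Finite W₂] (H₁ : SimpleGraph W₁) (H₂ : SimpleGraph W₂) :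
    ((Kn H₁ ∨ Kn H₂ ∨ ((InGrid H₁ ∨ InGrid H₂) ∧ (CondP H₁ H₂ ∨ CondP H₂ H₁))) →
      BoundedCW H₁ H₂) ∧
    (BoundedCW H₁ H₂ → Kn H₁ ∨ Kn H₂ ∨ ((InGrid H₁ ∨ InGrid H₂) ∧
      (CondP H₁ H₂ ∨ CondP H₂ H₁ ∨ OpenPair H₁ H₂ ∨ OpenPair H₂ H₁))) := by
  have key : ∀ (W W' : Type) [Finite W] [Finite W'] (H : SimpleGraph W) (H' : SimpleGraph W'),
      (InGrid H ∨ InGrid H') → CondP H H' → BoundedCW H H' := by
    intro W W' _ _ H H' hG h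
    rcases h with h | h | ⟨h, s, h' | h' | h'⟩ | ⟨h | h, s, h'⟩ | ⟨h | h, s, h'⟩
    · exact goodF W W' H H' ⟨hG, Or.inl h⟩
    · exact kiteF W W' H H' h hG
    · exact i6F _ _ s W W' H H' ha1 h h' hG
    · exact i6F _ _ s W W' H H' ha2 h h' hG
    · exact i6F _ _ s W W' H H' ha3 h h' hG
    · exact i7F _ _ s W W' H H' hb h h' hG
    · exact i8F _ _ s W W' H H' hc h h' hG
    · exact rb1 _ _ s W W' H H' x0F h h' hG
    · exact rb2 _ _ s W W' H H' b2 h h' hG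
  have base : ∀ (W W' : Type) [Finite W] [Finite W'] (H : SimpleGraph W) (H' : SimpleGraph W'),
      BoundedCW H H' → Base H H' → CondP H H' ∨ OpenPair H H' := by
    intro W W' _ _ H H' hb h
    rcases newNec hN10 hN11 ub44 W W' H H' hb h with h | h | h | ⟨h | h | h | h, s, h'⟩ | ⟨h, s, h'⟩
    · exact Or.inl (Or.inr (Or.inl h))
    · exact Or.inl (Or.inr (Or.inr (Or.inl h)))
    · exact Or.inl (Or.inr (Or.inr (Or.inr (Or.inl h))))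
    · exact Or.inl (Or.inr (Or.inr (Or.inr (Or.inr ⟨Or.inl (Or.inl h), s, h'⟩))))
    · exact Or.inl (Or.inr (Or.inr (Or.inr (Or.inr ⟨Or.inr h, s, h'⟩))))
    · exact Or.inl (Or.inr (Or.inr (Or.inr (Or.inr ⟨Or.inl (Or.inr h), s, h'⟩))))
    · exact Or.inr (Or.inl ⟨h, s, h'⟩)
    · exact Or.inr (Or.inr ⟨h, s, h'⟩)
  constructor
  · rintro (h | h | ⟨hG, h | h⟩)
    · exact knF W₁ W₂ H₁ H₂ h
    · exact Fin2Aux.boundedCW_symm (knF W₂ W₁ H₂ H₁ h)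
    · exact key W₁ W₂ H₁ H₂ hG h
    · exact Fin2Aux.boundedCW_symm (key W₂ W₁ H₂ H₁ hG.symm h)
  · intro hb
    obtain ⟨hG, h⟩ := necF W₁ W₂ H₁ H₂ hb
    rcases h with h | h | h | h | h
    · rcases h.2 with h | h
      · exact Or.inr (Or.inr ⟨hG, Or.inl (Or.inl h)⟩)
      · exact Or.inr (Or.inr ⟨hG, Or.inr (Or.inl (Or.inl h))⟩)
    · exact Or.inl h
    · exact Or.inr (Or.inl h)
    · rcases base _ _ _ _ hb h with h | h
      · exact Or.inr (Or.inr ⟨hG, Or.inl h⟩)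
      · exact Or.inr (Or.inr ⟨hG, Or.inr (Or.inr (Or.inl h))⟩)
    · rcases base _ _ _ _ (Fin2Aux.boundedCW_symm hb) h with h | h
      · exact Or.inr (Or.inr ⟨hG, Or.inr (Or.inl h)⟩)
      · exact Or.inr (Or.inr ⟨hG, Or.inr (Or.inr (Or.inr h))⟩)

end Pool.Agent.MPd439b2.F9
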