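import Pool.Agent.Lib.MP_d439b2_co.F9.New
import Pool.Agent.Lib.MP_d439b2_co.F9.Ub44

/-!
# MP_d439b2_co, F9/PartE: the classification of all pairs, except those of `K3:0,1,02` with the induced minors of
`K_s ∨ co(P_3 + 2 P_2)`
-/

set_option autoImplicit false

namespace Pool.Agent.MPd439b2.F9

open Pool.Agent.MPd439b2 i7Aux

/-- The sufficient condition for the ordered pair `(H, H')` (besides planarity of one graph).  The second
alternative: the rows of the kite `JS ![1, 1, 2] 0 = co(S_{1,1,2})`.  Third: `H` is an induced minor of the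
join of a vertex and the bull, `H'` of the join of a complete graph and one of `co(S_{2,2,3} + 2 P_2)`,
`co(S_{1,2,3} + 3 P_2)`, `co(S_{1,1,2} + 4 P_2)`.  Fourth: `H` is in the rows `B` or `C`, `H'` is an induced
minor of the join of a complete graph and the house `co(P_5)`.  Fifth: `H` is an induced minor of `K_1` joined with
`K4:0,1`, of `K3:0,01,12`, of `K_1` joined with the fork or of `K_1` joined with `P_4 + P_1`, and `H'` is an induced minor
of the join of a complete graph and `co(P_3 + 4 P_2)`. -/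
def CondE {W W' : Type} (H : SimpleGraph W) (H' : SimpleGraph W') : Prop :=
  Suf H H' ∨ (InS2 H ∧ InCoT H ∧ ∃ s, IsIndMinor H' (KJ s (JS ![1, 1, 2] 0))) ∨
  (RowA H ∧ ∃ s, IsIndMinor H' (KJ s (JS ![2, 2, 3] 2)) ∨ IsIndMinor H' (KJ s (JS ![1, 2, 3] 3)) ∨
    IsIndMinor H' (KJ s (JS ![1, 1, 2] 4))) ∨
  ((RowB H ∨ RowC H) ∧ ∃ s, IsIndMinor H' (KJ s (JS ![0, 2, 2] 0))) ∨
  (RowE H ∧ ∃ s, IsIndMinor H' (KJ s (JS ![0, 1, 1] 4)))

/-- The remaining pairs: `H` is `K3:0,1,02`, and `H'` is an induced minor of the join of a complete graph and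
`co(P_3 + 2 P_2)`. -/
def OpenE {W W' : Type} (H : SimpleGraph W) (H' : SimpleGraph W') : Prop :=
  IsIndMinor H (KF 3 3 ![{0}, {1}, {0, 2}]) ∧ IsIndMinor (KF 3 3 ![{0}, {1}, {0, 2}]) H ∧
    ∃ s, IsIndMinor H' (KJ s (JS ![0, 1, 1] 2))

theorem js24 : IsIndSub (JS ![0, 1, 1] 2) (JS ![0, 1, 1] 4) := by
  refine ⟨Sum.elim Sum.inl fun q => Sum.inr (Fin.castLE (by omega) q.1, q.2), ?_, ?_⟩
  · rintro (u | u) (v | v) h
    · exact congrArg Sum.inl (Sum.inl_injective h)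
    · exact absurd h (by simp)
    · exact absurd h (by simp)
    · have h1 := Prod.ext_iff.1 (Sum.inr_injective h)
      refine congrArg Sum.inr (Prod.ext (Fin.ext ?_) h1.2)
      have h2 := congrArg Fin.val h1.1
      simpa using h2
  · rintro (u | u) (v | v)
    · exact Iff.rfl
    · exact Iff.rfl
    · exact Iff.rfl
    · change u.1 ≠ v.1 ↔ Fin.castLE (by omega) u.1 ≠ Fin.castLE (by omega) v.1
      rw [ne_eq, ne_eq, not_iff_not]
      constructor
      · intro h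
        rw [h]
      · intro h
        have h2 := congrArg Fin.val h
        exact Fin.ext (by simpa using h2)

theorem newPartE (hN10 : S_N10) (hN11 : S_N11)
    (b2 : BoundedCW (KF 3 3 ![{0}, {0, 1}, {1, 2}]) (JS ![0, 1, 1] 4))
    (b5 : BoundedCW (KF 2 3 ![∅, {0}, {1}]) (JS ![0, 1, 1] 4))
    (W₁ W₂ : Type) [Finite W₁] [Finite W₂] (H₁ : SimpleGraph W₁) (H₂ : SimpleGraph W₂) :
    ((Kn H₁ ∨ Kn H₂ ∨ ((InGrid H₁ ∨ InGrid H₂) ∧ (CondE H₁ H₂ ∨ CondE H₂ H₁))) →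
      BoundedCW H₁ H₂) ∧
    (BoundedCW H₁ H₂ → Kn H₁ ∨ Kn H₂ ∨ ((InGrid H₁ ∨ InGrid H₂) ∧
      (CondE H₁ H₂ ∨ CondE H₂ H₁ ∨ OpenE H₁ H₂ ∨ OpenE H₂ H₁))) := by
  obtain ⟨-, d2, d3, d4, d5, d6, -⟩ := i1
  have key : ∀ (W W' : Type) [Finite W] [Finite W'] (H : SimpleGraph W) (H' : SimpleGraph W'),
      (InGrid H ∨ InGrid H') → CondE H H' → BoundedCW H H' := by
    intro W W' _ _ H H' hG h
    rcases h with h | h | ⟨h, s, h' | h' | h'⟩ | ⟨h | h, s, h'⟩ | ⟨h | h | h | h, s, h'⟩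
    · exact goodF W W' H H' ⟨hG, Or.inl h⟩
    · exact kiteF W W' H H' h hG
    · exact i6F _ _ s W W' H H' ha1 h h' hG
    · exact i6F _ _ s W W' H H' ha2 h h' hG
    · exact i6F _ _ s W W' H H' ha3 h h' hG
    · exact i7F _ _ s W W' H H' hb h h' hG
    · exact i8F _ _ s W W' H H' hc h h' hG
    · exact rb1 _ _ s W W' H H' x0F (Or.inl h) h' hG
    · exact rb2 _ _ s W W' H H' b2 h h' hG
    · exact rb1 _ _ s W W' H H' x0F (Or.inr h) h' hG
    · exact i5F 1 s W W' _ H H' (KF 2 3 ![∅, {0}, {1}]) _ _ d4 b5 h h' hG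
  have base : ∀ (W W' : Type) [Finite W] [Finite W'] (H : SimpleGraph W) (H' : SimpleGraph W'),
      BoundedCW H H' → Base H H' → CondE H H' ∨ OpenE H H' := by
    intro W W' _ _ H H' hb h
    rcases newNec hN10 hN11 ub44 W W' H H' hb h with h | h | h | ⟨h, s, h'⟩ | ⟨h, s, h'⟩
    · exact Or.inl (Or.inr (Or.inl h))
    · exact Or.inl (Or.inr (Or.inr (Or.inl h)))
    · exact Or.inl (Or.inr (Or.inr (Or.inr (Or.inl h))))
    · exact Or.inl (Or.inr (Or.inr (Or.inr (Or.inr ⟨h, s, h'⟩))))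
    · rcases hN10 W H h with hE | hD
      · refine Or.inl (Or.inr (Or.inr (Or.inr (Or.inr ⟨hE, s, ?_⟩))))
        exact FDAux.indMinor_trans h' (FDAux.indMinor_of_indSub (i3Aux.kj_mono s js24))
      · exact Or.inr ⟨h, hD, s, h'⟩
  constructor
  · rintro (h | h | ⟨hG, h | h⟩)
    · exact knF W₁ W₂ H₁ H₂ h
    · exact Fin2Aux.boundedCW_symm (knF W₂ W₁ H₂ H₁ h)
    · exact key W₁ W₂ H₁ H₂ hG h
    · exact Fin2Aux.boundedCW_symm (key W₂ W₁ H₂ H₁ hG.symm h)
  · intro hb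
    obtain ⟨hG, h⟩ := necF W₁ W₂ H₁ H₂ hb
    rcases h with h | h | h | h | h
    · rcases h.2 with h | h
      · exact Or.inr (Or.inr ⟨hG, Or.inl (Or.inl h)⟩)
      · exact Or.inr (Or.inr ⟨hG, Or.inr (Or.inl (Or.inl h))⟩)
    · exact Or.inl h
    · exact Or.inr (Or.inl h)
    · rcases base _ _ _ _ hb h with h | h
      · exact Or.inr (Or.inr ⟨hG, Or.inl h⟩)
      · exact Or.inr (Or.inr ⟨hG, Or.inr (Or.inr (Or.inl h))⟩)
    · rcases base _ _ _ _ (Fin2Aux.boundedCW_symm hb) h with h | h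
      · exact Or.inr (Or.inr ⟨hG, Or.inr (Or.inl h)⟩)
      · exact Or.inr (Or.inr ⟨hG, Or.inr (Or.inr (Or.inr h))⟩)

end Pool.Agent.MPd439b2.F9
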