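import Pool.Agent.Lib.MP_d439b2_co.F9.SpecN
import Pool.Agent.Lib.MP_d439b2_co.Spec4

/-!
# MP_d439b2_co, Spec H: the finite part of the full classification, the members of `S2`

Every `S_...` is a statement to be proved in its own file; the docstring contains the complete
proof.
-/

set_option autoImplicit false

namespace Pool.Agent.MPd439b2.F9

open Pool.Agent.MPd439b2

/-- `K_m` with the neighbourhoods `N` (finite sets) -/
def KF (m t : ℕ) (N : Fin t → Finset (Fin m)) : SimpleGraph (Fin m ⊕ Fin t) :=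
  KA m t (fun q => (N q : Set (Fin m)))

/-- the nine obstructions: `4 P_1`, `K_3 + 2 P_1`, `K_4 + P_1`, the net, `K3:-,01,02`, `K3:0,12,12`, the
`3`-sun, `K5:0`, `K4:01,23` -/
def Obs {W : Type} (H : SimpleGraph W) : Prop :=
  IsIndSub (KF 0 4 ![∅, ∅, ∅, ∅]) H ∨ IsIndSub (KF 3 2 ![∅, ∅]) H ∨ IsIndSub (KF 4 1 ![∅]) H ∨
  IsIndSub (KF 3 3 ![{0}, {1}, {2}]) H ∨ IsIndSub (KF 3 3 ![∅, {0, 1}, {0, 2}]) H ∨
  IsIndSub (KF 3 3 ![{0}, {1, 2}, {1, 2}]) H ∨ IsIndSub (KF 3 3 ![{0, 1}, {0, 2}, {1, 2}]) H ∨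
  IsIndSub (KF 5 1 ![{0}]) H ∨ IsIndSub (KF 4 2 ![{0, 1}, {2, 3}]) H

/-- the rows of the bull -/
def RowA {W : Type} (H : SimpleGraph W) : Prop := IsIndMinor H (KJ 1 (KF 3 2 ![{0}, {1}]))

/-- the rows of `K4:0,1`, `K3:0,01,12`, `K3:0,1,02`, and the joins of a vertex with the fork and with
`P_4 + P_1` -/
def RowB {W : Type} (H : SimpleGraph W) : Prop :=
  IsIndMinor H (KJ 1 (KF 4 2 ![{0}, {1}])) ∨ IsIndMinor H (KF 3 3 ![{0}, {0, 1}, {1, 2}]) ∨
  IsIndMinor H (KF 3 3 ![{0}, {1}, {0, 2}]) ∨ IsIndMinor H (KJ 1 (KF 2 3 ![{0}, {0}, {1}])) ∨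
  IsIndMinor H (KJ 1 (KF 2 3 ![∅, {0}, {1}]))

/-- the row of `K4:0,12` -/
def RowC {W : Type} (H : SimpleGraph W) : Prop := IsIndMinor H (KF 4 2 ![{0}, {1, 2}])

/-- **H1.** The obstructions are excluded.

Proof. `4 P_1`: `InA3 H` (the four vertices).  `K_3 + 2 P_1` (`KF 3 2 ![∅, ∅]`, a triangle `a b c` and isolated
`x, y`): `InQS` is closed under induced minors (`QSClosed.lean`; it is enough: under induced subgraphs), and this
graph is not in `InQS`: the clique `K` contains at least two of `a, b, c` (the others are pairwise non-adjacent),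
so `x, y ∉ K`; the two vertices of the triangle in `K` and `x, y` form a four-cycle of non-adjacencies, which would
be a four-cycle in the tripods; the tripods have none (of the four vertices take one with the largest distance
from the centre: it has only one neighbour with smaller distance, compare `F9/N0.lean` or use `Size8_tadj` and
arithmetic).  The net is not an interval graph: the pendant vertices `x_0, x_1, x_2` with the neighbours
`0, 1, 2`: their intervals are disjoint, let `x_1` be the middle one; `0` and `2` are adjacent, so their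
intervals intersect, `0` meets the interval of `x_0`, `2` the one of `x_2`, so the interval of `0` or of `2`
meets the one of `x_1` (the union of the intervals of `0` and `2` is an interval), but they are not adjacent.  The others are
members of `Six` (an induced subgraph is an induced minor: `S_FD`, module `B/FD.lean`, or singletons as branch
sets). -/
def S_H1 : Prop := ∀ (W : Type) (H : SimpleGraph W), InQS H → InA3 H → ¬ Six H → ¬ Obs H

/-- **H2.** Representation.

Proof. Let `K` be the clique of `InS2 H` and `I` its complement.  `I` has at most three elements (`4 P_1`;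
`KF 0 4 ..` is the empty graph on four vertices).  `I` is not empty (`Ind3`); let `x ∈ I`: it has at most two
neighbours, and at most three vertices of `K` are not adjacent to `x` (`K_4 + P_1`).  So `m = |K| ≤ 5`.
Bijections `K ≃ Fin m`, `I ≃ Fin t` and `N q` = the neighbours of the vertex `q` of `I`. -/
def S_H2 : Prop := ∀ (W : Type) [Finite W] (H : SimpleGraph W), InS2 H → Ind3 H → ¬ Obs H →
  ∃ m t : ℕ, m ≤ 5 ∧ t ≤ 3 ∧ ∃ N : Fin t → Finset (Fin m), (∀ q, (N q).card ≤ 2) ∧
    Nonempty (H ≃g KF m t N)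

/-- **H3.** The finite check.

Proof. This can be done by a verified computation in the kernel (a backtracking test for induced subgraphs
on bit masks, all `m ≤ 5`, `t ≤ 3` and all sorted `N`; the number of cases is below 1000), or by hand:
the trace of `k ∈ K` is the set of its neighbours in `I`; numbers `e` (empty trace), `n_x`, ..., `n_xy`, ...
CASE `t = 2`, `I = {x, y}`, numbers `e ≥ 1` (`Ind3`), `a = n_x`, `b = n_y`, `c = n_xy`.  Without obstructions:
`e ≤ 2` (`K_3 + 2 P_1`), `e + a ≤ 3`, `e + b ≤ 3` (`K_4 + P_1`), `a + c ≤ 2`, `b + c ≤ 2`, not `a = b = 2`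
(`K4:01,23`).  `(e; a, b, c)` up to exchange of `x, y`: `(1; 0,0,0)` `3 P_1`, `(1; 1,0,0)` `P_3 + P_1`,
`(1; 1,1,0)` bull, `(1; 0,0,1)` claw, `(1; 1,0,1)` dart, `(1; 1,1,1)` `K_1` join bull, `(1; 0,0,2)` `K_2` join
`3 P_1` (in `K_1` join bull contract the edge `0 1` of the bull): `RowA`.  `(1; 2,0,0)` diamond `+ P_1`, `(1; 2,1,0)` `K4:0,12`: `RowC`.  `(2; 0,0,0)`, `(2; 1,0,0)`,
`(2; 1,1,0)`, `(2; 0,0,1)`, `(2; 1,0,1)`, `(2; 1,1,1)`, `(2; 0,0,2)`: contain `K_2 + 2 P_1` (two vertices of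
empty trace and `x, y`) and are in `K_1` join `K4:0,1` (the last one, `K4:01,01`, as an induced minor: the model: `K_1` join `K4:0,1` has the clique `c, 0, 1, 2, 3` and `y ~ c, 0`,
`z ~ c, 1`; branch sets `{c}, {0, 1}, {2}, {3}, {y}, {z}`).
CASE `t = 3`, `I = {x, y, z}`: no empty trace (`4 P_1`).  `n_x, n_y, n_z ≤ 1` (`K_3 + 2 P_1`: two vertices with
trace `x`, and `x`), not all `1` (net), not `n_xy, n_xz, n_yz ≥ 1` (`3`-sun), not `n_yz, n_y, n_z ≥ 1`
(`K3:-,01,02`) and the same for the other pairs, not `n_x ≥ 1`, `n_yz ≥ 2` (`K3:0,12,12`), degrees at most `2`.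
`n_xyz = 2`: `K_2` join `3 P_1`.  `n_xyz = 1`: the rest is `∅`, `{x}`, `{x, y}` as singletons (claw; `K2:0,0,01`; `K3:0,01,02`), one
`xy` (dart), one `xy` and one `z` (`K3:01,01,02`).  `n_xyz = 0`: no pairs: `3 P_1`, `K_2 + 2 P_1`, `P_4 + P_1`; one
pair class `n_xy = 1`: `P_3 + P_1`; with `z`: fork; with `x`: paw `+ P_1`; with `x` and `z`: `K3:0,1,02`;
`n_xy = 2`: diamond `+ P_1`; two pair classes `n_xy = n_xz = 1`, `n_x = 0`: bull; with `y`: `K3:0,01,12`; with `y`
and `z`: `K4:01,23`.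
The graphs which are not in `RowA`: `K_2 + 2 P_1`, `P_4 + P_1`, fork, paw `+ P_1`, `K3:0,1,02`, `K3:0,01,12`,
`K2:0,0,01`, `K3:0,01,02` (`K_1` join `(P_4 + P_1)`), `K3:01,01,02` (`K_1` join fork): all contain `K_2 + 2 P_1`
and are in `RowB`. -/
def S_H3 : Prop := ∀ (m t : ℕ) (N : Fin t → Finset (Fin m)), m ≤ 5 → t ≤ 3 →
  (∀ q, (N q).card ≤ 2) → Ind3 (KF m t N) → ¬ Obs (KF m t N) →
  RowA (KF m t N) ∨ (IsIndSub (KF 2 2 ![∅, ∅]) (KF m t N) ∧ RowB (KF m t N)) ∨
    (IsIndSub (KF 3 2 ![∅, {0, 1}]) (KF m t N) ∧ RowC (KF m t N))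

/-- **H4.** The rows.  (Uses `S_H1`, `S_H2`, `S_H3`.)

Proof. H1, H2; transport along the isomorphism (`Ind3`, `Obs`, `IsIndSub`, `IsIndMinor`), H3.
`KF 2 2 ![∅, ∅] = KA 2 2 ![∅, ∅]` and `KF 3 2 ![∅, {0, 1}] = KA 3 2 ![∅, {0, 1}]` (coercions of finite sets, `simp` after
`funext`, `Fin` cases), and `IsIndSub → IsIndMinor`. -/
def S_H4 : Prop := ∀ (W : Type) [Finite W] (H : SimpleGraph W), InS2 H → Ind3 H → InQS H → InA3 H →
  ¬ Six H → RowA H ∨ (IsIndMinor (KA 2 2 ![∅, ∅]) H ∧ RowB H) ∨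
    (IsIndMinor (KA 3 2 ![∅, {0, 1}]) H ∧ RowC H)

/-- **H5.** The graphs of the rows `B`, `C` are not in `InCoT`.

Proof. Let `B` be a model of `KA 2 2 ![∅, ∅]` in `H`, and choose `b_w ∈ B w` for its four vertices.  Branch
sets of non-adjacent vertices do not touch, so `b_(inr 0)`, `b_(inr 1)` are `D`-adjacent, and both are
`D`-adjacent to `b_(inl 0)` and `b_(inl 1)`.  Their images in the nets: two adjacent vertices with two different common
neighbours: all four have level `0` and the same component (`Size8_nlev` for the two triangles), but only three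
vertices of a component have level `0`.  For the other graph: `b_(inr 0)` is `D`-adjacent to the four different
vertices `b_(inl 0), b_(inl 1), b_(inl 2), b_(inr 1)`, against `Size8_ndeg`. -/
def S_H5 : Prop := ∀ (W : Type) (H : SimpleGraph W), InCoT H →
  ¬ IsIndMinor (KA 2 2 ![∅, ∅]) H ∧ ¬ IsIndMinor (KA 3 2 ![∅, {0, 1}]) H

/-- the pairs below the base pairs -/
def Base {W W' : Type} (H : SimpleGraph W) (H' : SimpleGraph W') : Prop :=
  (InS2 H ∧ InCoT H ∧ ∃ s, IsIndMinor H' (KJ s (JS ![1, 1, 2] 0))) ∨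
  (RowA H ∧ ∃ s, IsIndMinor H' (KJ s (JS ![2, 2, 3] 2)) ∨ IsIndMinor H' (KJ s (JS ![1, 2, 3] 3)) ∨
    IsIndMinor H' (KJ s (JS ![1, 1, 2] 4))) ∨
  (RowB H ∧ ∃ s, IsIndMinor H' (KJ s (JS ![0, 2, 2] 0)) ∨ IsIndMinor H' (KJ s (JS ![0, 1, 1] 4))) ∨
  (RowC H ∧ ∃ s, IsIndMinor H' (KJ s (JS ![0, 2, 2] 0)))

/-- **H6.** The remaining pairs are below the base pairs.  (Uses `S_N7`, `S_N8`, `S_N9`, `S_H4`, `S_H5`.)

Proof. Let `Left H H'`.  CASE 1: `H'` has no `cyc4`.  N9: `H'` is an induced subgraph of `KJ s (JS ![1, 1, 2] 0)`.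
If `InCoT H`: first alternative of `Base`.  Otherwise `InCoT H'`: then `IsKP4 H'`, a contradiction (`S_KP4` with
`InCoS H'`, `InCoT H'`, no `cyc4`: see `KP4.lean` and its use in `B/FH.lean` or in `S_FH`).  CASE 2: `H'` contains
`cyc4`; then `InQS H`, `InA3 H`, `¬ Six H`; H4.  `RowA H`: N7 for `H'` (induced subgraphs are induced minors; the
hypotheses `¬ IsIndMinor co2P3 H'` imply `¬ IsIndSub co2P3 H'`).  Otherwise by H5 `InCoT H` is false, so
`InCoT H'`: N8, first statement if `K_2 + 2 P_1` is in `H` (the condition of `Left` for `coP6`, `coP4P2`), second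
statement if diamond `+ P_1` is in `H`. -/
def S_H6 : Prop := S_KP4 → ∀ (W W' : Type) [Finite W] [Finite W'] (H : SimpleGraph W)
  (H' : SimpleGraph W'), Left H H' → Base H H'

end Pool.Agent.MPd439b2.F9
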