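import Pool.Agent.Lib.MP_d439b2_co.Defs8

/-!
# MP_d439b2_co, Spec N: the finite part of the full classification

Every `S_...` is a statement to be proved in its own file; the docstring contains the complete
proof.  `D = Hᶜ` always denotes the complement of the graph under consideration.
-/

set_option autoImplicit false

namespace Pool.Agent.MPd439b2.F9

open Pool.Agent.MPd439b2

/-- The spider with legs of lengths `ℓ 0, ℓ 1, ℓ 2`: the centre `none` is adjacent to the first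
vertex `(i, 0)` of every leg, `(i, k)` is adjacent to `(i, k+1)`. -/
def Spid (ℓ : Fin 3 → ℕ) : SimpleGraph (Option (Σ i : Fin 3, Fin (ℓ i))) where
  Adj
    | none, none => False
    | none, some v => v.2.val = 0
    | some u, none => u.2.val = 0
    | some u, some v => u.1 = v.1 ∧ (u.2.val + 1 = v.2.val ∨ v.2.val + 1 = u.2.val)
  symm := ⟨fun u v h => by
    rcases u with _ | u <;> rcases v with _ | v
    · exact h
    · exact h
    · exact h
    · exact ⟨h.1.symm, h.2.symm⟩⟩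
  loopless := ⟨fun u h => by
    rcases u with _ | u
    · exact h
    · exact absurd h.2 (by omega)⟩

/-- `t` disjoint edges -/
def Mtc (t : ℕ) : SimpleGraph (Fin t × Bool) where
  Adj u v := u.1 = v.1 ∧ u.2 ≠ v.2
  symm := ⟨fun _ _ h => ⟨h.1.symm, Ne.symm h.2⟩⟩
  loopless := ⟨fun _ h => h.2 rfl⟩

/-- `JS ℓ t` is the complement of the disjoint union of the spider with legs `ℓ` and `t` edges -/
def JS (ℓ : Fin 3 → ℕ) (t : ℕ) : SimpleGraph (Option (Σ i : Fin 3, Fin (ℓ i)) ⊕ (Fin t × Bool)) where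
  Adj
    | Sum.inl u, Sum.inl v => u ≠ v ∧ ¬ (Spid ℓ).Adj u v
    | Sum.inl _, Sum.inr _ => True
    | Sum.inr _, Sum.inl _ => True
    | Sum.inr u, Sum.inr v => u.1 ≠ v.1
  symm := ⟨fun u v h => by
    rcases u with u | u <;> rcases v with v | v
    · exact ⟨h.1.symm, fun h' => h.2 h'.symm⟩
    · exact trivial
    · exact trivial
    · exact Ne.symm h⟩
  loopless := ⟨fun u h => by
    rcases u with u | u
    · exact h.1 rfl
    · exact h rfl⟩

/-- `KJ s J` is the join of the complete graph `K_s` and `J` -/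
def KJ {W : Type} (s : ℕ) (J : SimpleGraph W) : SimpleGraph (Fin s ⊕ W) where
  Adj
    | Sum.inl i, Sum.inl j => i ≠ j
    | Sum.inl _, Sum.inr _ => True
    | Sum.inr _, Sum.inl _ => True
    | Sum.inr u, Sum.inr v => J.Adj u v
  symm := ⟨fun u v h => by
    rcases u with u | u <;> rcases v with v | v
    · exact Ne.symm h
    · exact trivial
    · exact trivial
    · exact SimpleGraph.Adj.symm (show J.Adj u v from h)⟩
  loopless := ⟨fun u h => by
    rcases u with u | u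
    · exact h rfl
    · exact J.loopless.irrefl u h⟩

/-- **N0.** The component of a vertex in the complement of a graph of the class `InCoS` is a spider.

Proof. Let `ι, f` be the data of `InCoS`.  For `v = (c, i, k)` in `tripods ι` put `dT v = k` if `i = 0` and
`dT v = k + 1` otherwise.  Adjacent vertices have the same `c`, and `dT` differs by exactly one.  A vertex with
`dT v ≥ 1` has exactly one neighbour with smaller `dT` and exactly one with larger `dT`, on the same leg `i` (for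
`dT v = 1` the smaller one is the centre `(c, 0, 0)`, on leg `0`); the centre has three neighbours, `dT = 1`, one
on each leg.
Strong induction on `dT (f x)`.  CASE 1: `x` has a `D`-neighbour `y` with `dT (f y) < dT (f x)`: the induction
hypothesis for `y` gives `ℓ, e` with `y ∈ range e`, and `x ∈ range e` by the third property.
CASE 2: no such neighbour.  (a) `f x = (c, 0, 0)`.  For every leg `i` let `q i k` be the vertex of the leg `i` with
`dT = k + 1` (`(c, 0, k+1)` for `i = 0`, `(c, i, k)` otherwise).  Let `ℓ i` be the largest `l` such that there are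
`w_0, ..., w_(l-1) ∈ W` with `f w_k = q i k`, `x` `D`-adjacent to `w_0` (if `l > 0`) and `w_k` `D`-adjacent to
`w_(k+1)` (bounded since `W` is finite and `f` injective; the `w_k` are unique).  `e none = x`,
`e (some (i, k)) = w_k`.  Injective: the `q i k` and `(c, 0, 0)` are different.  `D`-adjacency: `D`-adjacent vertices
have adjacent images, and these are consecutive on a leg (or the centre and the first vertex); consecutive ones
are `D`-adjacent by construction.  Third property: let `w` be `D`-adjacent to `e u`.  `f w` is a neighbour of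
`f (e u)`: it is the image of a vertex of the range (then `w` is this vertex, `f` is injective) or, for
`u = (i, ℓ i - 1)` (or `u = none` and `ℓ i = 0`), it is `q i (ℓ i)`; then `w` prolongs the sequence, which
contradicts the choice of `ℓ i`.
(b) `f x ≠ (c, 0, 0)`: `f x = q i₀ k₀`.  The same with one leg: `ℓ 0` = the largest `l` such that there are
`w_0, ..` with `f w_k = q i₀ (k₀ + 1 + k)`, consecutive ones `D`-adjacent (also `x, w_0`), `ℓ 1 = ℓ 2 = 0`.  The
smaller neighbour of `f x` is not the image of a `D`-neighbour of `x` by the assumption of CASE 2. -/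
def S_N0 : Prop := ∀ (W : Type) [Finite W] (H : SimpleGraph W), InCoS H → ∀ x : W,
  ∃ (ℓ : Fin 3 → ℕ) (e : Option (Σ i : Fin 3, Fin (ℓ i)) → W), Function.Injective e ∧
    (∀ u v, Hᶜ.Adj (e u) (e v) ↔ (Spid ℓ).Adj u v) ∧
    (∀ u w, Hᶜ.Adj (e u) w → w ∈ Set.range e) ∧ x ∈ Set.range e

/-- **N1.** Graphs of maximum degree one.

Proof. Induction on `t` (for all `S`).  If there is no `D`-edge inside `S`: `s = Nat.card W`,
`h w = inr (φ w)` for a bijection `φ : W ≃ Fin s`.  Let `u, v ∈ S` be `D`-adjacent.  `t = 0`: then `u, v` give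
the map `g` (`(0, false) ↦ u`, `(0, true) ↦ v`), contradiction.  `t = t' + 1`: `S' = S \ {u, v}`; no vertex of `S'` is
`D`-adjacent to `u` or `v` (their only neighbours in `S` are `v`, `u`).  `S'` has no `g'` on
`Fin (t' + 1) × Bool` (otherwise add `u, v` to get `g` on `Fin (t' + 2) × Bool`), so the induction hypothesis gives
`h'` with values in `(Fin t' × Bool) ⊕ Fin s`; put `h = h'` on `S'` (with `Fin.castSucc` on the first component),
`h u = inl (Fin.last t', false)`, `h v = inl (Fin.last t', true)`. -/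
def S_N1 : Prop := ∀ (W : Type) [Finite W] (D : SimpleGraph W) (S : Set W) (t : ℕ),
  (∀ u ∈ S, ∀ v ∈ S, ∀ w ∈ S, D.Adj u v → D.Adj u w → v = w) →
  (¬ ∃ g : Fin (t + 1) × Bool → W, Function.Injective g ∧ (∀ z, g z ∈ S) ∧
    ∀ z z', D.Adj (g z) (g z') ↔ (Mtc (t + 1)).Adj z z') →
  ∃ (s : ℕ) (h : W → (Fin t × Bool) ⊕ Fin s), (∀ u ∈ S, ∀ v ∈ S, h u = h v → u = v) ∧
    ∀ u ∈ S, ∀ v ∈ S, (D.Adj u v ↔ ∃ z z', h u = Sum.inl z ∧ h v = Sum.inl z' ∧ (Mtc t).Adj z z')

/-- **N2.** Assembly of an embedding.  (Uses `S_N1`.)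

Proof. N1 for `S = (range e)ᶜ` gives `s, h`.  The map `F : W → Fin s ⊕ (Option _ ⊕ (Fin t × Bool))`:
`w = e u ↦ inr (inl (φ u))`; for `w ∉ range e`: `inr (inr z)` if `h w = inl z`, `inl i` if `h w = inr i`.  Injective.
Adjacency: two vertices are `H`-adjacent iff they are different and not `D`-adjacent.  In the range of `e`: by the
properties of `e` and `φ`.  One in the range, one outside: not `D`-adjacent (third property of `e`), so
`H`-adjacent, and the images are adjacent.  Both outside: N1. -/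
def S_N2 : Prop := ∀ (W : Type) [Finite W] (H : SimpleGraph W) (ℓ ℓ' : Fin 3 → ℕ) (t : ℕ)
  (e : Option (Σ i : Fin 3, Fin (ℓ i)) → W), Function.Injective e →
  (∀ u v, Hᶜ.Adj (e u) (e v) ↔ (Spid ℓ).Adj u v) →
  (∀ u w, Hᶜ.Adj (e u) w → w ∈ Set.range e) → IsIndSub (Spid ℓ) (Spid ℓ') →
  (∀ u v w, u ∉ Set.range e → Hᶜ.Adj u v → Hᶜ.Adj u w → v = w) →
  (¬ ∃ g : Fin (t + 1) × Bool → W, Function.Injective g ∧ (∀ z, g z ∉ Set.range e) ∧
    ∀ z z', Hᶜ.Adj (g z) (g z') ↔ (Mtc (t + 1)).Adj z z') →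
  ∃ s : ℕ, IsIndSub H (KJ s (JS ℓ' t))

/-- **N3.** Spiders without two non-touching paths on three vertices.

Proof. First part: let `ℓ i = 0` and the sum at least `6`; the other two legs `j, j'` and the centre form a path
with at least seven vertices: positions `0, ..., 6` around or beside the centre: number the vertices of this
path from the end of leg `j` to the end of leg `j'` (`(j, k)` has the number `ℓ j - 1 - k`, the centre `ℓ j`,
`(j', k)` the number `ℓ j + 1 + k`); the first three and the vertices number `4, 5, 6` give the six vertices.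
Second part: a leg with `ℓ i ≥ 4`: `(i,1), (i,2), (i,3)` and `(j,0), none, (j',0)` for the other two legs.  Two
legs `i ≠ j` with `ℓ i ≥ 3`, `ℓ j ≥ 3`: `(i,0), (i,1), (i,2)` and `(j,0), (j,1), (j,2)`.  (The middle vertices of the
paths go to `0` and `3`.) -/
def S_N3 : Prop := ∀ ℓ : Fin 3 → ℕ,
  (¬ ∃ g : Fin 6 → Option (Σ i : Fin 3, Fin (ℓ i)), Function.Injective g ∧
    ∀ a b, (Spid ℓ).Adj (g a) (g b) ↔ co2P3ᶜ.Adj a b) →
  ((∃ i, ℓ i = 0) → ℓ 0 + ℓ 1 + ℓ 2 ≤ 5) ∧
    ((∀ i, 1 ≤ ℓ i) → ∀ i, ℓ i ≤ 3 ∧ ∀ j, j ≠ i → ℓ i = 3 → ℓ j ≤ 2)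

/-- **N4a.** Embeddings of spiders.

Proof. (1) Monotone in `ℓ`: `none ↦ none`, `(i, k) ↦ (i, k)`.  (2) Permutations of the legs:
`(i, k) ↦ (σ i, k)` (with a cast).  (3) Number the vertices of `Spid ![0, a, b]` by `(1, k) ↦ a - 1 - k`, `none ↦ a`,
`(2, k) ↦ a + 1 + k`: a bijection to `0, ..., a + b`, adjacent iff consecutive; the same for `a', b'`. -/
def S_N4a : Prop := (∀ ℓ ℓ' : Fin 3 → ℕ, (∀ i, ℓ i ≤ ℓ' i) → IsIndSub (Spid ℓ) (Spid ℓ')) ∧
  (∀ (ℓ : Fin 3 → ℕ) (σ : Equiv.Perm (Fin 3)), IsIndSub (Spid (fun i => ℓ (σ i))) (Spid ℓ)) ∧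
  ∀ a b a' b' : ℕ, a + b ≤ a' + b' → IsIndSub (Spid ![0, a, b]) (Spid ![0, a', b'])

/-- **N4b.** Matchings and paths in spiders.

Proof. `Mtc 2` in `Spid ![0, 2, 2]`: `(1,1)(1,0)` and `(2,1)(2,0)`; in `Spid ![1, 1, 3]`: `none, (0,0)` and
`(2,1), (2,2)`; in `Spid ![1, 2, 2]`: `(1,0)(1,1)` and `(2,0)(2,1)`; `Mtc 3` in `Spid ![2, 2, 2]`: the three legs;
`coP6ᶜ` (a path on six vertices) in `Spid ![0, 2, 3]`; the path on four vertices and one edge, and the path on
three vertices, one edge: see the numbers of `S_N4a` (3).  Everything is a finite check (`decide` after giving the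
map). -/
def S_N4b : Prop := IsIndSub (Mtc 1) (Spid ![0, 0, 1]) ∧ IsIndSub (Mtc 2) (Spid ![0, 2, 2]) ∧
  IsIndSub (Mtc 2) (Spid ![1, 1, 3]) ∧ IsIndSub (Mtc 2) (Spid ![1, 2, 2]) ∧
  IsIndSub (Mtc 3) (Spid ![2, 2, 2]) ∧ IsIndSub coP6ᶜ (Spid ![0, 2, 3]) ∧
  IsIndSub coP3P2ᶜ (Spid ![0, 2, 3]) ∧ IsIndSub (Mtc 2) (Spid ![0, 2, 2])

/-- **N4.** The possible components.  (Uses `S_N4a`, `S_N4b`.)

Proof. By permutation of the legs (N4a (2), in both directions) `ℓ 0 ≤ ℓ 1 ≤ ℓ 2`.  `ℓ 0 = 0`: the graph is the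
path `![0, ℓ 1, ℓ 2]` with `2 ≤ ℓ 1 + ℓ 2 ≤ 5`; N4a (3) with `![0, 1, 1]`, `![0, 1, 2]`, `![0, 2, 2]`,
`![0, 2, 3]` in both directions and N4a (1) (`![0, 1, 2] ≤ ![1, 1, 2]` and `![0, 2, 3] ≤ ![1, 2, 3]`).
`ℓ 0 ≥ 1`: `ℓ ≤ ![2, 2, 3]`.  `![1,1,1]`, `![1,1,2]` are in `![1, 1, 2]`; `![1,1,3]`, `![1,2,2]`, `![1,2,3]` contain `Mtc 2`
(N4b and N4a (1)) and are in `![1, 2, 3]`; `![2,2,2]`, `![2,2,3]` contain `Mtc 3` and are in `![2, 2, 3]`.
The second statement is for the case `∃ i, ℓ i = 0`: sum `2`: `![0, 1, 1]`; sum `3` or `4`; sum `5`. -/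
def S_N4 : Prop := ∀ ℓ : Fin 3 → ℕ, 2 ≤ ℓ 0 + ℓ 1 + ℓ 2 → ((∃ i, ℓ i = 0) → ℓ 0 + ℓ 1 + ℓ 2 ≤ 5) →
  ((∀ i, 1 ≤ ℓ i) → ∀ i, ℓ i ≤ 3 ∧ ∀ j, j ≠ i → ℓ i = 3 → ℓ j ≤ 2) →
  (IsIndSub (Spid ![0, 1, 1]) (Spid ℓ)) ∧
  ((IsIndSub (Spid ℓ) (Spid ![1, 1, 2])) ∨
    (IsIndSub (Mtc 2) (Spid ℓ) ∧ IsIndSub (Spid ℓ) (Spid ![1, 2, 3])) ∨
    (IsIndSub (Mtc 3) (Spid ℓ) ∧ IsIndSub (Spid ℓ) (Spid ![2, 2, 3]))) ∧
  ((∃ i, ℓ i = 0) → IsIndSub (Spid ℓ) (Spid ![0, 1, 1]) ∨
    (IsIndSub (Spid ![0, 1, 2]) (Spid ℓ) ∧ IsIndSub (Spid ℓ) (Spid ![0, 2, 2])) ∨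
    IsIndSub (Spid ![0, 2, 3]) (Spid ℓ))

/-- **N5.** The component and its complement.  (Uses `S_N0`, `S_N3`, `S_N4`.)

Proof. N0 for `x` gives `ℓ, e`.  The sum of the `ℓ i` is at least `2` since `range e` contains `x, y, z`.  An induced
copy of `co2P3ᶜ` in `Spid ℓ` would give, with `e`, `IsIndSub co2P3 H`; so N3, N4.  Last statement: let `u ∉ range e`
with `D`-neighbours `v ≠ w`; they are not in `range e` (third property of `e`).  With the copy
`g : Spid ![0, 1, 1] → Spid ℓ` of N4 the vertices `e (g none), e (g (1,0)), e (g (2,0)), u, v, w` give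
`IsIndSub co2P3 H` (`v`, `w` are not `D`-adjacent: no triangle in tripods, `Size8_ttri`; no edges between
`range e` and the outside). -/
def S_N5 : Prop := ∀ (W : Type) [Finite W] (H : SimpleGraph W), InCoS H → ¬ IsIndSub co2P3 H →
  ∀ x y z : W, y ≠ z → Hᶜ.Adj x y → Hᶜ.Adj x z →
  ∃ (ℓ : Fin 3 → ℕ) (e : Option (Σ i : Fin 3, Fin (ℓ i)) → W), Function.Injective e ∧
    (∀ u v, Hᶜ.Adj (e u) (e v) ↔ (Spid ℓ).Adj u v) ∧
    (∀ u w, Hᶜ.Adj (e u) w → w ∈ Set.range e) ∧
    (∀ u v w, u ∉ Set.range e → Hᶜ.Adj u v → Hᶜ.Adj u w → v = w) ∧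
    (IsIndSub (Spid ![0, 1, 1]) (Spid ℓ)) ∧
    ((IsIndSub (Spid ℓ) (Spid ![1, 1, 2])) ∨
      (IsIndSub (Mtc 2) (Spid ℓ) ∧ IsIndSub (Spid ℓ) (Spid ![1, 2, 3])) ∨
      (IsIndSub (Mtc 3) (Spid ℓ) ∧ IsIndSub (Spid ℓ) (Spid ![2, 2, 3]))) ∧
    ((∃ i, ℓ i = 0) → IsIndSub (Spid ℓ) (Spid ![0, 1, 1]) ∨
      (IsIndSub (Spid ![0, 1, 2]) (Spid ℓ) ∧ IsIndSub (Spid ℓ) (Spid ![0, 2, 2])) ∨
      IsIndSub (Spid ![0, 2, 3]) (Spid ℓ))

/-- **N6.** The case of maximum degree one.  (Uses `S_N1`.)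

Proof. N1 with `S = univ` gives `s, h` with `h` injective.  First statement (`t = 5`): the map to
`Fin s ⊕ (Option _ ⊕ (Fin 4 × Bool))`: `inr i ↦ inl i`, `inl (p, b)` with `p < 4` `↦ inr (inr (p, b))`,
`inl (4, false) ↦ inr (inl none)`, `inl (4, true) ↦ inr (inl (some (2, 0)))` (`none ~ (2, 0)` in both spiders).
Second statement (`t = 2`): `inl (0, false), inl (0, true) ↦ (1, 1), (1, 0)`, `inl (1, false), inl (1, true) ↦ (2, 1), (2, 0)`
in `Spid ![0, 2, 2]`.  Third statement (`t = 1`): `none`, `(2, 0)`. -/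
def S_N6 : Prop := ∀ (W : Type) [Finite W] (H : SimpleGraph W),
  (∀ u v w, Hᶜ.Adj u v → Hᶜ.Adj u w → v = w) →
  (¬ IsIndSub co6P2 H → ∃ s, IsIndSub H (KJ s (JS ![1, 1, 2] 4)) ∧ IsIndSub H (KJ s (JS ![0, 1, 1] 4))) ∧
  (¬ IsIndSub co3P2 H → ∃ s, IsIndSub H (KJ s (JS ![0, 2, 2] 0))) ∧
  (¬ IsIndSub cyc4 H → ∃ s, IsIndSub H (KJ s (JS ![1, 1, 2] 0)))

/-- **N7.** The three maximal graphs.  (Uses `S_N2`, `S_N5`, `S_N6`.)

Proof. If no vertex has two different `D`-neighbours: N6.  Otherwise N5.  If `Mtc ν` is an induced subgraph of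
`Spid ℓ` (`ν = 1` because of `![0, 1, 1]` and `Mtc 1`, `2`, `3`) and there is `g` on `Fin t × Bool` outside `range e` with
`ν + t = 6` then `H` has the induced subgraph `co6P2`.  So N2 with `t = 4, 3, 2` in the three cases. -/
def S_N7 : Prop := ∀ (W : Type) [Finite W] (H : SimpleGraph W), InCoS H → ¬ IsIndSub co2P3 H →
  ¬ IsIndSub co6P2 H → ∃ s, IsIndSub H (KJ s (JS ![2, 2, 3] 2)) ∨
    IsIndSub H (KJ s (JS ![1, 2, 3] 3)) ∨ IsIndSub H (KJ s (JS ![1, 1, 2] 4))

/-- **N8.** The linear cases.  (Uses `S_N2`, `S_N5`, `S_N6`, `S_N4a`, `S_N4b`.)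

Proof. FACT: with `InCoT H` and `InCoS H` no vertex has three different `D`-neighbours: in the nets a vertex with
three different neighbours is on a triangle with two of them (its level is `0`, and at most one of the three has
level `1`; compare `S_FA` (3), `B/FA.lean`), these are `D`-adjacent by the last condition of `InCoT`; but `D` has no
triangle (`Size8_ttri`).  So in N5 some `ℓ i = 0` (otherwise `e none` has three `D`-neighbours).
(1) No vertex with two `D`-neighbours: N6.  Otherwise N5: if `Spid ℓ` is in `![0, 1, 1]`: N2 with `t = 4`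
(otherwise `co6P2`, with one edge of `![0, 1, 1]`).  If it contains `![0, 1, 2]` (a path on four vertices) and is in
`![0, 2, 2]`: there is no `D`-edge outside `range e` (otherwise `IsIndSub coP4P2 H`, so `IsIndMinor`), N2 with
`t = 0`.  `![0, 2, 3]`: `IsIndSub coP6 H`, contradiction.
(2) No vertex with two `D`-neighbours: N6 (second statement).  Otherwise: `![0, 2, 3]` contains `coP3P2ᶜ` (N4b),
contradiction; so `Spid ℓ` is in `![0, 2, 2]` (`![0, 1, 1]` is), and contains `![0, 1, 1]`; a `D`-edge outside would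
give `coP3P2`; N2 with `t = 0`. -/
def S_N8 : Prop := ∀ (W : Type) [Finite W] (H : SimpleGraph W), InCoS H → InCoT H →
  ¬ IsIndSub co2P3 H →
  (¬ IsIndSub co6P2 H → ¬ IsIndMinor coP6 H → ¬ IsIndMinor coP4P2 H →
    ∃ s, IsIndSub H (KJ s (JS ![0, 2, 2] 0)) ∨ IsIndSub H (KJ s (JS ![0, 1, 1] 4))) ∧
  (¬ IsIndMinor coP3P2 H → ¬ IsIndMinor co3P2 H → ∃ s, IsIndSub H (KJ s (JS ![0, 2, 2] 0)))

/-- **N9.** Graphs without a four-cycle.  (Uses `S_N2`, `S_N5`, `S_N6`.)

Proof. `D` has no induced `Mtc 2` (the non-adjacent pairs of `cyc4` are `0 2` and `1 3`), so no two `P_3`: `co2P3`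
contains `cyc4`.  No vertex with two `D`-neighbours: N6.  Otherwise N5: `Mtc 2` is not in `Spid ℓ`, so
`Spid ℓ` is in `![1, 1, 2]`; a `D`-edge outside would give `Mtc 2` with an edge of `![0, 1, 1]`; N2 with `t = 0`. -/
def S_N9 : Prop := ∀ (W : Type) [Finite W] (H : SimpleGraph W), InCoS H → ¬ IsIndSub cyc4 H →
  ∃ s, IsIndSub H (KJ s (JS ![1, 1, 2] 0))

end Pool.Agent.MPd439b2.F9
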