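import Pool.Agent.Lib.MP_d439b2_co.F9.SpecH
import Pool.Agent.Lib.MP_d439b2_co.F9.Part

/-!
# MP_d439b2_co, F9/SpecX: the classification with the class `R` (notes 3007, 3020 and 3042)

The pair `(K3:0,1,02, co(4 P_2))` is unbounded.  So the row of `K3:0,1,02` ends at `co(P_3 + 2 P_2)`.

Every `S_...` is a statement to be proved in its own file `F9/....lean`; the docstring contains the proof.
-/

set_option autoImplicit false

namespace Pool.Agent.MPd439b2.F9

open Pool.Agent.MPd439b2

/-- `co(4 P_2)`, the complete 4-partite graph `K_{2,2,2,2}` -/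
def J44 : SimpleGraph (Fin 4 × Bool) where
  Adj u v := u.1 ≠ v.1
  symm := ⟨fun _ _ h => Ne.symm h⟩
  loopless := ⟨fun _ h => h rfl⟩

/-- the members of row `B` which are compatible with `co(P_3 + 4 P_2)`: `K_1` joined with `K4:0,1`, `K3:0,01,12`, `K_1`
joined with the fork, `K_1` joined with `P_4 + P_1` -/
def RowE {W : Type} (H : SimpleGraph W) : Prop :=
  IsIndMinor H (KJ 1 (KF 4 2 ![{0}, {1}])) ∨ IsIndMinor H (KF 3 3 ![{0}, {0, 1}, {1, 2}]) ∨
  IsIndMinor H (KJ 1 (KF 2 3 ![{0}, {0}, {1}])) ∨ IsIndMinor H (KJ 1 (KF 2 3 ![∅, {0}, {1}]))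

/-- **N10.** The induced minors of `K3:0,1,02`.

Proof. Write `0, 1, 2` for `inl 0, inl 1, inl 2` and `y₀, y₁, y₂` for `inr 0, inr 1, inr 2` of
`KF 3 3 ![{0}, {1}, {0, 2}]` (`y₀ ~ 0`, `y₁ ~ 1`, `y₂ ~ 0, 2`).  Let `B : W → Set _` be a model of `H`.

(i) A vertex `z` is in no `B w`.  Then composing with a map `g` which is injective on the other five vertices and preserves
adjacency and non-adjacency between them gives a model in the target:
`z = y₀` (kite): target `K3:0,01,12`, `1 ↦ 0, 0 ↦ 1, 2 ↦ 2, y₁ ↦ y_{0}, y₂ ↦ y_{12}`;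
`z = y₁` (dart): target `K_1 ∨ fork`, `0 ↦` the apex, `1 ↦ inr (inr 0)`, `2 ↦ inr (inl 0)`, `y₂ ↦ inr (inr 1)`, `y₀ ↦ inr (inr 2)`;
`z = y₂` (bull): target `K_1 ∨ K4:0,1`, `0, 1, 2 ↦ inl 0, inl 1, inl 2`, `y₀, y₁ ↦ inr 0, inr 1` (inside `inr`);
`z = 0` (`P_4 + P_1`): target `K_1 ∨ (P_4 + P_1)`, `1, 2 ↦ inl 0, inl 1`, `y₀, y₁, y₂ ↦ inr 0, inr 1, inr 2`;
`z = 1` (paw + `P_1`): target `K_1 ∨ K4:0,1`, `0, 2, y₂ ↦ inl 0, inl 2, inl 3`, `y₀, y₁ ↦ inr 0, inr 1`;
`z = 2` (fork): target `K_1 ∨ fork`, `0, 1 ↦ inl 0, inl 1`, `y₀, y₂, y₁ ↦ inr 0, inr 1, inr 2`.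
(ii) Every vertex is in some `B w`, and some `B w` has two elements; it is connected, so it contains an edge `x y`.  Let `g` be a
map with `g x = g y`, injective otherwise, such that for `g a ≠ g b`: `g a ~ g b` iff some `a', b'` with `g a' = g a`, `g b' = g b`
are adjacent.  Then `g '' B w` is a model of `H` in the target:
`0 y₀`: as `z = y₀`, `y₀ ↦ g 0`;  `1 y₁`: as `z = y₁`, `y₁ ↦ g 1`;  `2 y₂`: as `z = y₂`, `y₂ ↦ g 2`;  `0 y₂`: as `z = y₂`, `y₂ ↦ g 0`;
`0 1` (cricket): target `K_1 ∨ fork`, `0, 1 ↦` the apex, `2 ↦ inr (inl 1)`, `y₂ ↦ inr (inr 2)`, `y₀, y₁ ↦ inr (inr 0), inr (inr 1)`;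
`0 2` (fork): as `z = 2`, `2 ↦ g 0`;
`1 2` (bull): target `K_1 ∨ K4:0,1`, `0 ↦ inl 0`, `1, 2 ↦ inl 1`, `y₂ ↦ inl 2`, `y₀, y₁ ↦ inr 0, inr 1`.
(iii) Otherwise every vertex `v` is the only element of some `B (f v)`, and `f` shows that `K3:0,1,02` is an induced subgraph of `H`.
(`decide` with computable adjacency, as `kfb_iff` in `F9/I7.lean`.) -/
def S_N10 : Prop := ∀ (W : Type) (H : SimpleGraph W), IsIndMinor H (KF 3 3 ![{0}, {1}, {0, 2}]) →
  RowE H ∨ IsIndMinor (KF 3 3 ![{0}, {1}, {0, 2}]) H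

/-- **N11.** The induced minors of `K_s ∨ co(P_3 + 4 P_2)`.

Proof. Let `D'` be the complement of `H'` and `D` the complement of `JS ![0, 1, 1] 4`: one path `e₁ - c - e₂` (`c = inl none`,
`e₁ = inl (some ⟨1, 0⟩)`, `e₂ = inl (some ⟨2, 0⟩)`) and four edges `(p, false) (p, true)`.  Let `B` be a model of `H'`.
If `w, w'` are `D'`-adjacent, all elements of `B w` are `D`-adjacent to all elements of `B w'`; so no element of `B w` is one of the
`s` vertices, and all elements of `B w ∪ B w'` are in one component of `D`: `B w = {(p, b)}`, `B w' = {(p, !b)}`, or one of them is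
`{c}` and the other one is contained in `{e₁, e₂}`.  For `w` with a `D'`-neighbour let `f w ∈ B w`, and `comp w ∈ Fin 5` the component
(`0` for the path).  Call a component used if it is `comp w` for some `w` with a `D'`-neighbour.
CASE 1: at least four components are used.  For four of them choose `D'`-adjacent `w_i, w_i'` in it: these eight elements of `W'`
form an induced `co(4 P_2)` in `H'` (elements in different components are adjacent in `H'`).
CASE 2: at most three components are used.  There is an injective map `g` from the used components to the components of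
`co(P_3 + 2 P_2)` which maps `0` to `0` (if `0` is used).  `s' = Nat.card W'`; elements of `W'` without `D'`-neighbour go to different
vertices of `K_(s')`, the others to the vertex corresponding to `f w` in the component `g (comp w)` (`(p, false) ↦ c`,
`(p, true) ↦ e₁` if `g` maps an edge to the path).  This is an induced subgraph: `H'.Adj w w'` iff the images are adjacent. -/
def S_N11 : Prop := ∀ (W' : Type) [Finite W'] (H' : SimpleGraph W') (s : ℕ),
  IsIndMinor H' (KJ s (JS ![0, 1, 1] 4)) →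
    (∃ s', IsIndMinor H' (KJ s' (JS ![0, 1, 1] 2))) ∨ IsIndMinor J44 H'

end Pool.Agent.MPd439b2.F9
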